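import Pool.Agent.W_448rd_h10.RdY
import Pool.Agent.W_448pn_h63.PoC

/-!
MP_448cb3_co, G2, case B, window `j - 1`: the coefficients (8,3), (10,4) of every component with
at least four sites, in terms of the twins, charges and inner joins.  helper10.
-/

namespace Pool.Agent.GaussPoset.Win.Rd

set_option linter.unusedSectionVars false

open Finset I2 K2
open Pool.Agent.GaussPoset.Win.H2 (SdT NoT low_T up_T sum_all)
open Pool.Agent.GaussPoset.Win.Xg (FlS FP Okc Adm kp Lft mem_Lft)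

universe u

variable {P : Type u} [Fintype P] [PartialOrder P] [DecidableEq P] {r i j : ℕ} {e B : P → ℕ}
variable {psi : P → P} {C : Finset P} {Q : (P → ℕ) → Prop} {φ : (P → ℕ) → (P → ℕ)}
variable {y p w u v v' : P} {t : P × P}

lemma sts_bi (H : Gr P r) {z : P} (hz : lev z = i + 2) : sts i z = (uc z).biUnion uc := by
  ext v
  rw [mem_sts_iff H hz, mem_biUnion]

/-- the sites of twins -/
lemma IsTw.sit (H : Gr P r) (T : IsTw i C t) : XT t = Win.sit i t.1 := by
  obtain ⟨w, w2, p, x, q, T'⟩ := T.tw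
  rw [sit_low H (by have := T'.lz; omega), sts_bi H T'.lz]
  rfl

lemma IsTw.tws (H : Gr P r) (T : IsTw i C t) : Pn.Tw i C t.1 t.2 := by
  obtain ⟨w, w2, p, x, q, T'⟩ := T.tw
  refine ⟨mem_ZL.2 ⟨T.m1, T'.lz, ?_⟩, T.m2, T'.zz, by rw [T'.uz, T'.uz'], T.rk⟩
  rw [← card_sts, sts_bi H T'.lz]
  have h1 : (uc t.1).biUnion uc = {p, x, q} := T'.X
  rw [h1]
  rw [card_insert_of_notMem (by simp [T'.px, T'.pq]), card_insert_of_notMem (by simp [T'.xq]),
    card_singleton]

lemma tws_isTw (E : Ev r i psi C) (T : Pn.Tw i C t.1 t.2) : IsTw i C t := by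
  have H := E.H
  obtain ⟨h1, h2, h3⟩ := mem_ZL.1 T.zl
  have h4 := card_uc_of_up H h2 h3
  obtain ⟨w, w2, hne, hw⟩ := card_eq_two.1 h4
  have lw := lev_uc H (show w ∈ uc t.1 by rw [hw]; simp)
  have lw2 := lev_uc H (show w2 ∈ uc t.1 by rw [hw]; simp)
  have c1 := uc_card_le H w
  have c2 := uc_card_le H w2
  have h5 : (uc w ∪ uc w2).card = 3 := by
    rw [← h3, ← card_sts, sts_bi H h2, hw]
    congr 1
    ext v
    simp [mem_biUnion]
  have h6 := card_union_add_card_inter (uc w) (uc w2)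
  -- a common cover
  have h7 : ∃ x, x ∈ uc w ∧ x ∈ uc w2 := by
    by_cases h8 : (uc w).card = 2
    · exact E.hT t.1 h2 w (by rw [hw]; simp) w2 (by rw [hw]; simp) hne h8
    · obtain ⟨x, hx1, hx2⟩ := E.hT t.1 h2 w2 (by rw [hw]; simp) w (by rw [hw]; simp) hne.symm
        (by omega)
      exact ⟨x, hx2, hx1⟩
  obtain ⟨x, hx1, hx2⟩ := h7
  have h8 : 1 ≤ (uc w ∩ uc w2).card := card_pos.2 ⟨x, mem_inter.2 ⟨hx1, hx2⟩⟩
  have h9 : (uc w).card = 2 ∧ (uc w2).card = 2 ∧ (uc w ∩ uc w2).card = 1 := by omega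
  have hpair : ∀ {s : Finset P}, s.card = 2 → x ∈ s → ∃ p, p ≠ x ∧ s = {p, x} := by
    intro s hs hx
    obtain ⟨a, b, hab, hs'⟩ := card_eq_two.1 hs
    rw [hs', mem_insert, mem_singleton] at hx
    rcases hx with rfl | rfl
    · exact ⟨b, hab.symm, by rw [hs', pair_comm]⟩
    · exact ⟨a, hab, hs'⟩
  obtain ⟨p, hp1, hp2⟩ := hpair h9.1 hx1
  obtain ⟨q, hq1, hq2⟩ := hpair h9.2.1 hx2
  have hdc : ∀ s, s ∈ uc t.1 → dc s = {t.1, t.2} := by
    intro s hs
    symm
    apply eq_of_subset_of_card_le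
    · intro a ha
      rw [mem_insert, mem_singleton] at ha
      rcases ha with rfl | rfl
      · rw [mem_dc, ← mem_uc]
        exact hs
      · rw [mem_dc, ← mem_uc, ← T.uc]
        exact hs
    · rw [card_pair T.ne]
      exact dc_card_le H s
  refine ⟨⟨w, w2, p, x, q, ?_⟩, h1, T.mC, T.rk⟩
  refine ⟨h2, hw, by rw [← T.uc]; exact hw, hp2, by rw [hq2, pair_comm], ?_,
    hdc w (by rw [hw]; simp), hdc w2 (by rw [hw]; simp), T.ne, hne, hp1, hq1.symm, ?_⟩
  · -- the lower covers of the common site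
    symm
    apply eq_of_subset_of_card_le
    · intro a ha
      rw [mem_insert, mem_singleton] at ha
      rcases ha with rfl | rfl
      · rw [mem_dc, ← mem_uc]
        exact hx1
      · rw [mem_dc, ← mem_uc]
        exact hx2
    · rw [card_pair hne]
      exact dc_card_le H x
  · rintro rfl
    rw [hp2, hq2] at h9
    have h10 := h9.2.2
    rw [inter_self, card_pair hp1] at h10
    omega

/-- the two descriptions of the twins agree -/
theorem TWC_eq (E : Ev r i psi C) : TWC i C = Pn.Tws i C := by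
  ext s
  rw [mem_TWC, Pn.mem_Tws]
  exact ⟨fun h => h.tws E.H, fun h => tws_isTw E h⟩

open Classical in
/-- pairs of twins with disjoint sites, unordered -/
noncomputable def PrS (i : ℕ) (C : Finset P) : Finset (Finset (P × P)) :=
  ((Pn.Tws i C).powersetCard 2).filter (fun s => ∀ t ∈ s, ∀ t' ∈ s, t ≠ t' →
    Disjoint (Win.sit i t.1) (Win.sit i t'.1))

lemma PrT_eq (E : Ev r i psi C) : PrT i C = PrS i C := by
  classical
  unfold PrT PrS
  rw [TWC_eq E]
  apply filter_congr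
  intro s hs
  have h1 := (mem_powersetCard.1 hs).1
  have key : ∀ t ∈ s, XT t = Win.sit i t.1 := by
    intro t ht
    exact (mem_TWC.1 (by rw [TWC_eq E]; exact h1 ht)).sit E.H
  constructor
  · intro h t ht t' ht' hne
    rw [← key t ht, ← key t' ht']
    exact h t ht t' ht' hne
  · intro h t ht t' ht' hne
    rw [key t ht, key t' ht']
    exact h t ht t' ht' hne

end Pool.Agent.GaussPoset.Win.Rd

namespace Pool.Agent.GaussPoset.Wd

open Finset Win Win.I2 Win.Xg Win.Rd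

universe u

variable {P : Type u} [Fintype P] [PartialOrder P] [DecidableEq P] {r j i : ℕ}
  {t : Tops P} {lo hi : ℕ → ℕ} {e : ℕ → ℕ → P} {psi : P → P}

variable (h : NJ P r j) (hij : i + 1 = j) (hi1 : 1 ≤ i) (C : Cp.Comp j (t : P) lo hi e)
  (h4 : lo i + 3 ≤ hi i)
include h hij hi1 C h4

open Classical in
/-- THE COEFFICIENTS OF A COMPONENT WITH AT LEAST FOUR SITES, window `j - 1` -/
theorem NJ.vals4 : T8.P10 (st i (SS i t)).card (ZS i (SS i t)) ∧
    T8.cg 3 (st i (SS i t)).card (ZS i (SS i t)) = ∑ z ∈ Chs i (SS i t), chg i (SS i t) z ∧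
    T8.cg 5 (st i (SS i t)).card (ZS i (SS i t)) = - ((Pn.Tws i (SS i t)).card : ℤ) ∧
    T8.Q8 (st i (SS i t)).card (ZS i (SS i t)) = ((ETs i (SS i t)).card : ℤ) -
      ∑ q ∈ Pn.Tws i (SS i t), ∑ z ∈ (Chs i (SS i t)).filter
        (fun z => ¬ Disjoint (sit i z) (sit i q.1)), chg i (SS i t) z ∧
    T8.Q10 (st i (SS i t)).card (ZS i (SS i t)) = ((Pn.Tws i (SS i t)).card : ℤ) ^ 2 -
      2 * ((PrS i (SS i t)).card : ℤ) - 2 * ((NfC i (SS i t)).card : ℤ) := by
  obtain ⟨psi, hM⟩ := good_mat h.g.H (h.g.good i (by omega))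
  obtain ⟨Q, φ, K, hK⟩ := h.cls4 hij hi1 C h4 hM
  have L : Kls i psi (SS i t) Q := by
    rcases hK with ⟨rfl, hN⟩ | ⟨y, p, w, u, v, v', O, rfl⟩
    · exact hN.kls
    · exact O.kls
  have hb : 4 ≤ (st i (SS i t)).card := by
    have h5 := h.card_SS (i := i) (by omega) C
    have h6 := C.lo_le i (by omega)
    omega
  have E := K.ev
  refine ⟨K.P10 L, K.cg3 L hb, ?_, ?_, ?_⟩
  · rw [K.cg5 L hb, TWC_eq E]
  · rw [K.Q8 L hb]
    congr 1
    rw [TWC_eq E]
    refine sum_congr rfl fun q hq => ?_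
    have h1 : XT q = sit i q.1 := (mem_TWC.1 (by rw [TWC_eq E]; exact hq)).sit E.H
    rw [h1]
  · rw [K.Q10 L hb, TWC_eq E, PrT_eq E]

end Pool.Agent.GaussPoset.Wd
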