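import Pool.Agent.W_448rd_h10.RdK

/-!
MP_448cb3_co, G2, window `j - 1`: the cores with a killer of level `i + 3` over a double join and a
pendant (`NFL`): energy at least ten, the exact pattern at energy ten.  helper10.
-/

namespace Pool.Agent.GaussPoset.Win.Rd

set_option linter.unusedSectionVars false

open Finset I2 K2
open Pool.Agent.GaussPoset.Win.H2 (SdT NoT low_T up_T sum_all)

universe u

variable {P : Type u} [Fintype P] [PartialOrder P] [DecidableEq P] {r i : ℕ} {e : P → ℕ}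
variable {psi : P → P}
variable (G : GoodTo P r (i + 1)) (hT : NoT P (i + 2)) (hQ : NoQ P (i + 3)) (hM : Mat P i ∅ psi)
  (hL : AdmL i e) (hU : AdmU i e) (hd : Disjoint (AL i e) (AU i e)) (hc : IsCore i ∅ psi e)

include G hT hL in
/-- the local description -/
lemma nf_spec {z : P} (hz : z ∈ NFL i e) : ∃ u z2 w w2 y, lev u = i + 3 ∧ uc u = {z, z2} ∧
    uc z = {w, w2} ∧ uc z2 = {y} ∧ z2 ≠ z ∧ w ≠ w2 ∧ y ≠ w ∧ y ≠ w2 ∧ 3 ≤ e u ∧ 2 ≤ e z ∧
    2 ≤ e z2 ∧ 1 ≤ e w ∧ 1 ≤ e w2 ∧ 1 ≤ e y := by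
  classical
  have S := K2.side_low (i := i) G.H hT.noQ
  have adm := adm_low hL
  unfold NFL at hz
  rw [mem_filter, mem_lS] at hz
  obtain ⟨hzi, lz, cz, klz, u, hu, hu1, klu, z2, hz2, hne, c2, hno⟩ := hz
  have lu := lev_dc G.H hu
  have hzu : z ∈ uc u := mem_uc.2 (mem_dc.1 hu)
  obtain ⟨w, w2, hw, hcz⟩ := card_eq_two.1 cz
  obtain ⟨y, hy⟩ := card_eq_one.1 c2
  have l2 := lev_uc G.H hz2
  have uS : u ∈ lS P i := mem_lS.2 (by omega)
  have zS : z ∈ lS P i := mem_lS.2 (by omega)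
  have z2S : z2 ∈ lS P i := mem_lS.2 (by omega)
  have eu : 3 ≤ e u := by
    have h := K2.t_le_of_kl S adm _ u uS klu rfl
    have : lev u - i ≤ e u := h
    omega
  have ez : 2 ≤ e z := by
    have h := K2.t_le_of_kl S adm _ z zS klz rfl
    have : lev z - i ≤ e z := h
    omega
  have pos : ∀ a : P, a ∈ lS P i → ∀ q ∈ dc a, 1 ≤ e q → 1 ≤ e a := by
    intro a ha q hq h1
    by_contra h0
    obtain ⟨b, hb⟩ := S.ne a ha
    exact adm a ha ⟨⟨q, hq, by omega⟩, b, hb, by omega⟩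
  have e2 := pos z2 z2S u (mem_dc.2 (mem_uc.1 hz2)) hu1
  have hwz : w ∈ uc z := by rw [hcz]; simp
  have hw2z : w2 ∈ uc z := by rw [hcz]; simp
  have hyz : y ∈ uc z2 := by rw [hy]; simp
  have lw := lev_uc G.H hwz
  have lw2 := lev_uc G.H hw2z
  have ly := lev_uc G.H hyz
  have ew := pos w (mem_lS.2 (by omega)) z (mem_dc.2 (mem_uc.1 hwz)) (by omega)
  have ew2 := pos w2 (mem_lS.2 (by omega)) z (mem_dc.2 (mem_uc.1 hw2z)) (by omega)
  have ey := pos y (mem_lS.2 (by omega)) z2 (mem_dc.2 (mem_uc.1 hyz)) e2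
  have ez2 : 2 ≤ e z2 := by
    by_cases h : e z2 < e u
    · have := not_gu_of_kd adm z2S ⟨u, mem_dc.2 (mem_uc.1 hz2), h⟩ y hyz
      omega
    · omega
  refine ⟨u, z2, w, w2, y, by omega, pair_eq_of (uc_card_le G.H u) hzu hz2 hne.symm, hcz, hy, hne,
    hw, ?_, ?_, eu, ez, ez2, ew, ew2, ey⟩
  · rintro rfl
    exact hno y hwz hyz
  · rintro rfl
    exact hno y hw2z hyz

include G hT hL in
/-- the energy is at least ten -/
theorem nf_energy {z : P} (hz : z ∈ NFL i e) : 10 ≤ ∑ x, e x := by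
  classical
  obtain ⟨u, z2, w, w2, y, lu, hu, hcz, hy, hne, hw, h1, h2, eu, ez, ez2, ew, ew2, ey⟩ :=
    nf_spec G hT hL hz
  have l1 := lev_uc G.H (x := u) (v := z) (by rw [hu]; simp)
  have l2 := lev_uc G.H (x := u) (v := z2) (by rw [hu]; simp)
  have l3 := lev_uc G.H (x := z) (v := w) (by rw [hcz]; simp)
  have l4 := lev_uc G.H (x := z) (v := w2) (by rw [hcz]; simp)
  have l5 := lev_uc G.H (x := z2) (v := y) (by rw [hy]; simp)
  have hs : ∑ x ∈ ({u, z, z2, w, w2, y} : Finset P), e x ≤ ∑ x, e x :=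
    sum_le_sum_of_subset (subset_univ _)
  have n : ∀ a b : P, lev a ≠ lev b → a ≠ b := fun a b h h' => h (by rw [h'])
  rw [sum_insert, sum_insert, sum_insert, sum_insert, Finset.sum_pair h2.symm] at hs
  · omega
  · simp only [mem_insert, mem_singleton, not_or]
    exact ⟨hw, h1.symm⟩
  · simp only [mem_insert, mem_singleton, not_or]
    exact ⟨n _ _ (by omega), n _ _ (by omega), n _ _ (by omega)⟩
  · simp only [mem_insert, mem_singleton, not_or]
    exact ⟨hne.symm, n _ _ (by omega), n _ _ (by omega), n _ _ (by omega)⟩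
  · simp only [mem_insert, mem_singleton, not_or]
    exact ⟨n _ _ (by omega), n _ _ (by omega), n _ _ (by omega), n _ _ (by omega),
      n _ _ (by omega)⟩

include G hT hL in
/-- the exact pattern at energy ten -/
theorem nf_exact {z : P} (hz : z ∈ NFL i e) (hs : ∑ x, e x = 10) :
    ∃ u z2 w w2 y, lev u = i + 3 ∧ uc u = {z, z2} ∧ uc z = {w, w2} ∧ uc z2 = {y} ∧ z2 ≠ z ∧
    w ≠ w2 ∧ y ≠ w ∧ y ≠ w2 ∧ e u = 3 ∧ e z = 2 ∧ e z2 = 2 ∧ e w = 1 ∧ e w2 = 1 ∧ e y = 1 ∧
    ∀ x, x ∉ ({u, z, z2, w, w2, y} : Finset P) → e x = 0 := by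
  classical
  obtain ⟨u, z2, w, w2, y, lu, hu, hcz, hy, hne, hw, h1, h2, eu, ez, ez2, ew, ew2, ey⟩ :=
    nf_spec G hT hL hz
  have l1 := lev_uc G.H (x := u) (v := z) (by rw [hu]; simp)
  have l2 := lev_uc G.H (x := u) (v := z2) (by rw [hu]; simp)
  have l3 := lev_uc G.H (x := z) (v := w) (by rw [hcz]; simp)
  have l4 := lev_uc G.H (x := z) (v := w2) (by rw [hcz]; simp)
  have l5 := lev_uc G.H (x := z2) (v := y) (by rw [hy]; simp)
  have n : ∀ a b : P, lev a ≠ lev b → a ≠ b := fun a b h h' => h (by rw [h'])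
  have hsum : ∑ x ∈ ({u, z, z2, w, w2, y} : Finset P), e x =
      e u + (e z + (e z2 + (e w + (e w2 + e y)))) := by
    rw [sum_insert, sum_insert, sum_insert, sum_insert, Finset.sum_pair h2.symm]
    · simp only [mem_insert, mem_singleton, not_or]
      exact ⟨hw, h1.symm⟩
    · simp only [mem_insert, mem_singleton, not_or]
      exact ⟨n _ _ (by omega), n _ _ (by omega), n _ _ (by omega)⟩
    · simp only [mem_insert, mem_singleton, not_or]
      exact ⟨hne.symm, n _ _ (by omega), n _ _ (by omega), n _ _ (by omega)⟩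
    · simp only [mem_insert, mem_singleton, not_or]
      exact ⟨n _ _ (by omega), n _ _ (by omega), n _ _ (by omega), n _ _ (by omega),
        n _ _ (by omega)⟩
  have hsplit := sum_sdiff (f := e) (subset_univ ({u, z, z2, w, w2, y} : Finset P))
  rw [hs, hsum] at hsplit
  refine ⟨u, z2, w, w2, y, lu, hu, hcz, hy, hne, hw, h1, h2, by omega, by omega, by omega,
    by omega, by omega, by omega, ?_⟩
  intro x hx
  have : e x ≤ ∑ x ∈ univ \ ({u, z, z2, w, w2, y} : Finset P), e x :=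
    single_le_sum (f := e) (fun _ _ => Nat.zero_le _) (mem_sdiff.2 ⟨mem_univ _, hx⟩)
  omega

include G hT hL in
lemma nf_empty (hs : ∑ x, e x ≤ 9) : NFL i e = ∅ := by
  classical
  rw [eq_empty_iff_forall_notMem]
  intro z hz
  have := nf_energy G hT hL hz
  omega

/-- there are no twins above the window -/
lemma TWU_empty (G : GoodTo P r (i + 1)) : TWU i e = ∅ := by
  classical
  rw [eq_empty_iff_forall_notMem]
  intro z hz
  unfold TWU TW at hz
  rw [mem_filter, mem_uS] at hz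
  obtain ⟨hzi, hD, hk, z', h1, h2, -⟩ := hz
  obtain ⟨-, tz, cz, -⟩ := hD
  have tz' : i - lev z = 2 := tz
  obtain ⟨w, w2, hw, hcz⟩ := card_eq_two.1 cz
  have m1 : w ∈ dc z := by rw [hcz]; simp
  have m2 : w2 ∈ dc z := by rw [hcz]; simp
  have l1 := lev_dc G.H m1
  have l2 := lev_dc G.H m2
  exact h2 (ucv_uniq G (by omega) hw (by omega) (mem_dc.1 (h1 ▸ m1)) (mem_dc.1 (h1 ▸ m2))
    (mem_dc.1 m1) (mem_dc.1 m2))

include G hT hQ hM hL hU hd hc in
/-- THE INEQUALITY FOR CORES of energy at most nine -/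
theorem general9 (hs : ∑ x, e x ≤ 9) : 6 * (((AL i e).card : ℤ) + (AU i e).card) ≤
    2 * ∑ x, (e x : ℤ) + 6 * ((pL i e : ℤ) + pU i e) +
      2 * (((P1L i psi e).card : ℤ) + (P1U i psi e).card + (GS i psi e).card) +
      (((TWL i e).card : ℤ) + (TWLx i e).card) + 4 * ((Xg.CC i e).card : ℤ) := by
  have h1 := generalx G hT hQ hM hL hU hd hc
  have h2 := TWU_empty (e := e) G
  have h3 := (TWx_card (i := i) (e := e)).2
  rw [h2, card_empty] at h3
  rw [nf_empty G hT hL hs, h2, card_empty] at h1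
  have h4 : ((TWUx i e).card : ℤ) = 0 := by
    have : (TWUx i e).card = 0 := by omega
    exact_mod_cast this
  push_cast at h1
  linarith

end Pool.Agent.GaussPoset.Win.Rd
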