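import Pool.Agent.W_448xc_h84.XgC
import Pool.Agent.W_448h2_h63.HC

/-!
MP_448cb3_co, G2, window `j - 1`: the inequality for reduced cores, values.  helper10.

`sv z = 2 e z - 3 cc z` where `cc` is the charge of a killer; its sum over one side is
`2 (energy - 3 (killed sites - free elements))`.
-/

namespace Pool.Agent.GaussPoset.Win.Rd

set_option linter.unusedSectionVars false

open Finset I2 K2
open Pool.Agent.GaussPoset.Win.H2 (SdT)

universe u

variable {P : Type u} [DecidableEq P]
variable {c c' : P → Finset P} {e : P → ℕ} {t : P → ℕ} {V Sd : Finset P}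

open Classical in
/-- the value of an element at slope three -/
noncomputable def sv (c c' : P → Finset P) (e : P → ℕ) (z : P) : ℤ :=
  2 * (e z : ℤ) - 3 * (if kl c e z then cc c c' e z else 0)

/-- the sum of the values -/
theorem sum_sv (S : SideQ c c' t V Sd) (adm : ∀ z ∈ Sd, ¬ (kd c' e z ∧ gu c e z)) :
    ∑ z ∈ Sd, sv c c' e z =
      2 * ∑ z ∈ Sd, (e z : ℤ) + 6 * ((fr c c' e Sd).card : ℤ) - 6 * ((KD c' e V).card : ℤ) := by
  classical
  have h := K2.sum_cc S adm
  unfold sv
  rw [Finset.sum_sub_distrib, ← Finset.mul_sum, ← Finset.mul_sum, ← Finset.sum_filter]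
  unfold KK at h
  rw [h]
  ring

/-- another element than `y` kills `x` -/
def ok (c' : P → Finset P) (e : P → ℕ) (y x : P) : Prop := ∃ w ∈ c' x, w ≠ y ∧ e x < e w

lemma kr_one (S : SideQ c c' t V Sd) {x y : P} (hy : x ∈ c y) (h : e x < e y) :
    (kr c' e x).card = 1 ↔ ¬ ok c' e y x := by
  have hyx : y ∈ c' x := (S.dual _ _).1 hy
  have hm : y ∈ kr c' e x := mem_kr.2 ⟨hyx, h⟩
  constructor
  · intro h1
    rintro ⟨w, hw, hne, hlt⟩
    obtain ⟨a, ha⟩ := card_eq_one.1 h1
    rw [ha, mem_singleton] at hm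
    have : w ∈ kr c' e x := mem_kr.2 ⟨hw, hlt⟩
    rw [ha, mem_singleton] at this
    exact hne (this.trans hm.symm)
  · intro h1
    rw [card_eq_one]
    refine ⟨y, ?_⟩
    ext w
    rw [mem_singleton, mem_kr]
    constructor
    · rintro ⟨a, b⟩
      by_contra hne
      exact h1 ⟨w, a, hne, b⟩
    · rintro rfl
      exact ⟨hyx, h⟩

open Classical in
/-- one if `y` is the only killer of `x` -/
noncomputable def nk (c' : P → Finset P) (e : P → ℕ) (y x : P) : ℤ := if ok c' e y x then 0 else 1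

lemma nk_one {y x : P} (h : ¬ ok c' e y x) : nk c' e y x = 1 := by unfold nk; rw [if_neg h]

lemma nk_zero {y x : P} (h : ok c' e y x) : nk c' e y x = 0 := by unfold nk; rw [if_pos h]

lemma nk_cases (y x : P) : (ok c' e y x ∧ nk c' e y x = 0) ∨ (¬ ok c' e y x ∧ nk c' e y x = 1) := by
  by_cases h : ok c' e y x
  · exact Or.inl ⟨h, nk_zero h⟩
  · exact Or.inr ⟨h, nk_one h⟩

section two

variable (S : SideQ c c' t V Sd) {y o x : P} (hy : c y = {o, x}) (hne : o ≠ x)
include S hy hne

lemma mem_two {z : P} : z ∈ c y ↔ z = o ∨ z = x := by rw [hy]; simp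

lemma kl_two : kl c e y ↔ e o < e y ∨ e x < e y := by
  unfold kl
  rw [hy]
  simp

lemma gu_two : gu c e y ↔ e y ≤ e o ∨ e y ≤ e x := by
  unfold gu
  rw [hy]
  simp

/-- no site is killed -/
lemma sv_none (h1 : e y ≤ e o) (h2 : e y ≤ e x) : sv c c' e y = 2 * e y := by
  unfold sv
  rw [if_neg]
  · ring
  · rw [kl_two S hy hne]
    omega

/-- one site is killed -/
lemma sv_one (h1 : e o < e y) (h2 : e y ≤ e x) :
    sv c c' e y = 2 * e y - 3 * (1 + nk c' e y o) := by
  classical
  have hk : kl c e y := (kl_two S hy hne).2 (Or.inl h1)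
  have hg : gu c e y := (gu_two S hy hne).2 (Or.inr h2)
  have hkn : kn c e y = {o} := by
    ext z
    rw [mem_kn, mem_two S hy hne, mem_singleton]
    constructor
    · rintro ⟨rfl | rfl, h⟩
      · rfl
      · omega
    · rintro rfl
      exact ⟨Or.inl rfl, h1⟩
  have hyo : o ∈ c y := (mem_two S hy hne).2 (Or.inl rfl)
  have hso : ((so c c' e y).card : ℤ) = nk c' e y o := by
    unfold so
    rw [hkn, filter_singleton]
    rcases nk_cases (c' := c') (e := e) y o with ⟨a, b⟩ | ⟨a, b⟩
    · rw [b, if_neg (fun h => (kr_one S hyo h1).1 h a)]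
      simp
    · rw [b, if_pos ((kr_one S hyo h1).2 a)]
      simp
  unfold sv
  rw [if_pos hk]
  unfold cc
  rw [hso, hkn, if_pos hg]
  simp

/-- both sites are killed -/
lemma sv_both (h1 : e o < e y) (h2 : e x < e y) :
    sv c c' e y = 2 * e y - 3 * (nk c' e y o + nk c' e y x) := by
  classical
  have hk : kl c e y := (kl_two S hy hne).2 (Or.inl h1)
  have hg : ¬ gu c e y := by
    rw [gu_two S hy hne]
    omega
  have hkn : kn c e y = {o, x} := by
    ext z
    rw [mem_kn, mem_two S hy hne, mem_insert, mem_singleton]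
    constructor
    · rintro ⟨h, -⟩
      exact h
    · rintro (rfl | rfl)
      · exact ⟨Or.inl rfl, h1⟩
      · exact ⟨Or.inr rfl, h2⟩
  have hyo : o ∈ c y := (mem_two S hy hne).2 (Or.inl rfl)
  have hyx : x ∈ c y := (mem_two S hy hne).2 (Or.inr rfl)
  have hso : ((so c c' e y).card : ℤ) = nk c' e y o + nk c' e y x := by
    unfold so
    rw [hkn, filter_insert, filter_singleton]
    rcases nk_cases (c' := c') (e := e) y o with ⟨a, b⟩ | ⟨a, b⟩ <;>
    rcases nk_cases (c' := c') (e := e) y x with ⟨a', b'⟩ | ⟨a', b'⟩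
    · rw [b, b', if_neg (fun h => (kr_one S hyo h1).1 h a), if_neg (fun h => (kr_one S hyx h2).1 h a')]
      simp
    · rw [b, b', if_neg (fun h => (kr_one S hyo h1).1 h a), if_pos ((kr_one S hyx h2).2 a')]
      simp
    · rw [b, b', if_pos ((kr_one S hyo h1).2 a), if_neg (fun h => (kr_one S hyx h2).1 h a')]
      simp
    · rw [b, b', if_pos ((kr_one S hyo h1).2 a), if_pos ((kr_one S hyx h2).2 a'),
        card_insert_of_notMem (by simpa using hne)]
      simp
  unfold sv
  rw [if_pos hk]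
  unfold cc
  rw [hso, hkn, if_neg hg, card_pair hne]
  push_cast
  ring

end two

lemma sv_one' (S : SideQ c c' t V Sd) {y o x : P} (hy : c y = {o, x}) (hne : o ≠ x)
    (h1 : e y ≤ e o) (h2 : e x < e y) : sv c c' e y = 2 * e y - 3 * (1 + nk c' e y x) :=
  sv_one S (by rw [hy, pair_comm]) hne.symm h2 h1

/-- a single element which kills its site -/
lemma sv_single (S : SideQ c c' t V Sd) {y x : P} (hy : c y = {x}) (h1 : e x < e y) :
    sv c c' e y = 2 * e y + 3 * (1 - nk c' e y x) := by
  classical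
  have hk : kl c e y := ⟨x, by rw [hy]; simp, h1⟩
  have hg : ¬ gu c e y := by
    unfold gu
    rw [hy]
    simp
    omega
  have hkn : kn c e y = {x} := by
    ext z
    rw [mem_kn, hy, mem_singleton]
    constructor
    · rintro ⟨h, -⟩
      exact h
    · rintro rfl
      exact ⟨rfl, h1⟩
  have hyo : x ∈ c y := by rw [hy]; simp
  have hso : ((so c c' e y).card : ℤ) = nk c' e y x := by
    unfold so
    rw [hkn, filter_singleton]
    rcases nk_cases (c' := c') (e := e) y x with ⟨a, b⟩ | ⟨a, b⟩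
    · rw [b, if_neg (fun h => (kr_one S hyo h1).1 h a)]
      simp
    · rw [b, if_pos ((kr_one S hyo h1).2 a)]
      simp
  unfold sv
  rw [if_pos hk]
  unfold cc
  rw [hso, hkn, if_neg hg]
  simp
  ring

/-- a single element has a surplus -/
lemma sv_single_ge (S : SideQ c c' t V Sd) {y x : P} (hy : c y = {x}) :
    2 * (e y : ℤ) ≤ sv c c' e y := by
  by_cases h1 : e x < e y
  · rw [sv_single S hy h1]
    rcases nk_cases (c' := c') (e := e) y x with ⟨a, b⟩ | ⟨a, b⟩ <;> omega
  · unfold sv
    rw [if_neg]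
    · omega
    · unfold kl
      rw [hy]
      simpa using h1

/-- bounds -/
lemma sv_ge (S : SideQ c c' t V Sd) (z : P) : 2 * (e z : ℤ) - 6 ≤ sv c c' e z := by
  unfold sv
  have := K2.cc_le_two (e := e) S z
  split_ifs <;> omega

lemma sv_not_kl {z : P} (h : ¬ kl c e z) : sv c c' e z = 2 * (e z : ℤ) := by
  unfold sv
  rw [if_neg h]
  ring

/-- elements at distance at least three have no deficit -/
lemma sv_far (S : SideQ c c' t V Sd) (adm : ∀ z ∈ Sd, ¬ (kd c' e z ∧ gu c e z)) {z : P}
    (hz : z ∈ Sd) (h3 : 3 ≤ t z) : 0 ≤ sv c c' e z := by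
  by_cases h : kl c e z
  · have h1 := K2.t_le_of_kl S adm _ z hz h rfl
    have h2 := sv_ge (e := e) S z
    omega
  · rw [sv_not_kl h]
    omega

end Pool.Agent.GaussPoset.Win.Rd
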