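import Pool.Agent.W_448rd_h10.RdA

/-!
MP_448cb3_co, G2, window `j - 1`: the inequality for reduced cores, joins of two double
elements.  helper10.
-/

namespace Pool.Agent.GaussPoset.Win.Rd

set_option linter.unusedSectionVars false

open Finset I2 K2
open Pool.Agent.GaussPoset.Win.H2 (SdT)

universe u

variable {P : Type u} [DecidableEq P]
variable {c c' : P → Finset P} {e : P → ℕ} {t : P → ℕ} {V Sd BG EX : Finset P}

/-- a join `z` of two double elements `w = {p, x}`, `w2 = {x, q}` -/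
structure TS (c c' : P → Finset P) (t : P → ℕ) (Sd : Finset P) (z w w2 p x q : P) : Prop where
  zS : z ∈ Sd
  tz : t z = 2
  cz : c z = {w, w2}
  cw : c w = {p, x}
  cw2 : c w2 = {x, q}
  dx : c' x = {w, w2}
  ne : w ≠ w2
  px : p ≠ x
  xq : x ≠ q
  pq : p ≠ q

/-- the side condition for an exchange of `z` and `x` at the cover `y = {o, x}` -/
def So (c' : P → Finset P) (z x y o : P) (e : P → ℕ) : Prop :=
  (e z ≤ e y ∧ e x < e y) ∨ ((∀ d' ∈ c' y, d' ≠ z → e d' ≤ e y) ∧ e o < e y)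

/-- hypotheses on one side; the joins outside `EX` are not exchangeable -/
structure Hyp (c c' : P → Finset P) (e t : P → ℕ) (V Sd BG EX : Finset P) : Prop where
  S : SideQ c c' t V Sd
  adm : ∀ z ∈ Sd, ¬ (kd c' e z ∧ gu c e z)
  hT : SdT c t Sd
  bgt : ∀ y ∈ BG, y ∈ Sd ∧ t y = 1 ∧ (c y).card = 2
  bg : ∀ y ∈ BG, ∀ x ∈ c y, 1 ≤ e x
  touch : ∀ y ∈ Sd, t y = 1 → (c y).card = 2 → y ∉ BG → 1 ≤ e y → ∃ z ∈ c' y, 1 ≤ e z
  share : ∀ y ∈ Sd, ∀ y' ∈ Sd, t y = 1 → y ≠ y' → ∀ x ∈ c y, ∀ x' ∈ c y, x ∈ c y' →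
    x' ∈ c y' → x = x'
  far : ∀ u ∈ Sd, t u = 3 → 2 ≤ e u → ∀ z ∈ c u, ∀ z2 ∈ c u, z ≠ z2 → (c z).card = 2 →
    kl c e z → z ∉ EX → (∃ w, w ∈ c z ∧ w ∈ c z2) ∨ ((c z2).card = 1 ∧ ¬ kl c e u)
  red : ∀ z w w2 p x q, TS c c' t Sd z w w2 p x q → z ∉ EX → 1 ≤ e z → w ∉ BG → w2 ∉ BG →
    (∀ z', c z' = {w, w2} → z' ≠ z → e z' = 0) → (∀ u ∈ c' z, e u ≤ e z ∧ e u ≤ e x + 1) →
    So c' z x w p e → So c' z x w2 q e → ¬ ((e w < e z ∨ e w ≤ e x) ∨ (e w2 < e z ∨ e w2 ≤ e x))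

/-- a positive pendant below `w` -/
def PenP (c c' : P → Finset P) (e : P → ℕ) (w : P) : Prop := ∃ z ∈ c' w, 1 ≤ e z ∧ (c z).card = 1

/-- the claim for a value -/
def clm (v : ℤ) : ℤ := if v < 0 then (if v = -1 then 1 else 2) else 0

open Classical in
/-- the claim of a double element against its joins -/
noncomputable def cl (c c' : P → Finset P) (e : P → ℕ) (BG : Finset P) (w : P) : ℤ :=
  if w ∈ BG ∨ PenP c c' e w then 0 else clm (sv c c' e w)

lemma clm_nonneg (v : ℤ) : 0 ≤ clm v := by unfold clm; split_ifs <;> omega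

lemma clm_le_two (v : ℤ) : clm v ≤ 2 := by unfold clm; split_ifs <;> omega

lemma cl_nonneg (w : P) : 0 ≤ cl c c' e BG w := by
  unfold cl
  split_ifs
  · exact le_rfl
  · exact clm_nonneg _

lemma cl_le_two (w : P) : cl c c' e BG w ≤ 2 := by
  unfold cl
  split_ifs
  · omega
  · exact clm_le_two _

lemma cl_zero {w : P} (h : 0 ≤ sv c c' e w) : cl c c' e BG w = 0 := by
  unfold cl clm
  split_ifs <;> omega

lemma cl_le_one {w : P} (h : -1 ≤ sv c c' e w) : cl c c' e BG w ≤ 1 := by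
  unfold cl clm
  split_ifs <;> omega

lemma cl_bg {w : P} (h : w ∈ BG) : cl c c' e BG w = 0 := by
  unfold cl
  rw [if_pos (Or.inl h)]

lemma cl_pen {w : P} (h : PenP c c' e w) : cl c c' e BG w = 0 := by
  unfold cl
  rw [if_pos (Or.inr h)]

section basic

variable (H : Hyp c c' e t V Sd BG EX)
include H

/-- elements above a positive element are positive -/
lemma Hyp.pos {y z : P} (hy : y ∈ Sd) (hz : z ∈ c' y) (h : 1 ≤ e z) : 1 ≤ e y := by
  by_contra h0
  obtain ⟨a, ha⟩ := H.S.ne y hy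
  exact H.adm y hy ⟨⟨z, hz, by omega⟩, a, ha, by omega⟩

lemma Hyp.kill {y z : P} (hy : y ∈ Sd) (hz : z ∈ c' y) (h : e y < e z) : ∀ a ∈ c y, e a < e y :=
  not_gu_of_kd H.adm hy ⟨z, hz, h⟩

/-- a guarded element is not killed -/
lemma Hyp.le_of_gu {y z a : P} (hy : y ∈ Sd) (hz : z ∈ c' y) (ha : a ∈ c y) (h : e y ≤ e a) :
    e z ≤ e y := by
  by_contra h0
  have := H.kill hy hz (by omega) a ha
  omega

lemma Hyp.cov {z w : P} (hz : z ∈ Sd) (h2 : 2 ≤ t z) (hw : w ∈ c z) : w ∈ Sd ∧ t z = t w + 1 := by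
  obtain ⟨h1, h⟩ := H.S.cin z hz w hw
  refine ⟨?_, h⟩
  rcases h1 with h1 | h1
  · exact h1
  · have := H.S.tV w h1
    omega

lemma Hyp.ch {z w : P} (hw : w ∈ Sd) (hz : z ∈ c' w) : z ∈ Sd ∧ t z = t w + 1 ∧ w ∈ c z := by
  have h1 := H.S.cout w (Or.inl hw) z hz
  have h2 : w ∈ c z := (H.S.dual _ _).2 hz
  exact ⟨h1, (H.S.cin z h1 w h2).2, h2⟩

end basic

namespace TS

variable {z w w2 p x q : P}

lemma symm (T : TS c c' t Sd z w w2 p x q) : TS c c' t Sd z w2 w q x p where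
  zS := T.zS
  tz := T.tz
  cz := by rw [T.cz, pair_comm]
  cw := by rw [T.cw2, pair_comm]
  cw2 := by rw [T.cw, pair_comm]
  dx := by rw [T.dx, pair_comm]
  ne := T.ne.symm
  px := T.xq.symm
  xq := T.px.symm
  pq := T.pq.symm

variable (H : Hyp c c' e t V Sd BG EX) (T : TS c c' t Sd z w w2 p x q)
include H T

lemma w_mem : w ∈ c z := by rw [T.cz]; simp

lemma wS : w ∈ Sd := (H.cov T.zS (by rw [T.tz]) (T.w_mem H)).1

lemma tw : t w = 1 := by
  have := (H.cov T.zS (by rw [T.tz]) (T.w_mem H)).2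
  rw [T.tz] at this
  omega

lemma z_mem : z ∈ c' w := (H.S.dual _ _).1 (T.w_mem H)

lemma x_mem : x ∈ c w := by rw [T.cw]; simp

lemma p_mem : p ∈ c w := by rw [T.cw]; simp

/-- the value of a cover when both covers kill the common site -/
lemma sv_co (h : e x < e w) (hb : e x < e w2) :
    2 * (e w : ℤ) - 3 ≤ sv c c' e w ∧
      (e p < e w → sv c c' e w = 2 * (e w : ℤ) - 3 * nk c' e w p) := by
  have hx : nk c' e w x = 0 := nk_zero ⟨w2, by rw [T.dx]; simp, T.ne.symm, hb⟩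
  by_cases hp : e p < e w
  · have h1 := sv_both H.S T.cw T.px hp h
    rw [hx] at h1
    rcases nk_cases (c' := c') (e := e) w p with ⟨-, h2⟩ | ⟨-, h2⟩ <;> rw [h2] at h1 ⊢ <;>
      exact ⟨by omega, fun _ => by omega⟩
  · have h1 := sv_one' H.S T.cw T.px (by omega) h
    rw [hx] at h1
    exact ⟨by omega, fun h => absurd h hp⟩

/-- the claim of a killed cover -/
lemma ckill (htw : ∀ z', c z' = {w, w2} → z' ≠ z → e z' = 0) (hz1 : e w < e z)
    (hb : e x < e w2) : cl c c' e BG w ≤ nk c' e z w ∧ (2 ≤ e w → cl c c' e BG w = 0) := by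
  have hk := H.kill (T.wS H) (T.z_mem H) hz1
  have hx := hk x (T.x_mem H)
  have hp := hk p (T.p_mem H)
  obtain ⟨h1, h2⟩ := T.sv_co H hx hb
  have h2 := h2 hp
  have hbig : 2 ≤ e w → cl c c' e BG w = 0 := fun h => cl_zero (by omega)
  refine ⟨?_, hbig⟩
  rcases nk_cases (c' := c') (e := e) z w with ⟨⟨d, d1, d2, d3⟩, h3⟩ | ⟨-, h3⟩
  · rw [h3]
    obtain ⟨dS, td, wd⟩ := H.ch (T.wS H) d1
    have hcd : (c d).card ≤ 2 := H.S.c2 d
    have hcd1 : 1 ≤ (c d).card := card_pos.2 ⟨w, wd⟩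
    by_cases hc : (c d).card = 1
    · rw [cl_pen ⟨d, d1, by omega, hc⟩]
    by_cases hw : 2 ≤ e w
    · rw [hbig hw]
    obtain ⟨w3, w3a, w3b⟩ : ∃ w3 ∈ c d, w3 ≠ w := by
      by_contra hno
      push Not at hno
      have : c d ⊆ {w} := fun a ha => mem_singleton.2 (hno a ha)
      have := card_le_card this
      rw [card_singleton] at this
      omega
    have tw := T.tw H
    obtain ⟨x', x1, x2⟩ := H.hT d dS (by omega) w wd w3 w3a w3b.symm (by rw [T.cw, card_pair T.px])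
    have w3S := (H.cov dS (by omega) w3a).1
    have hdw3 : d ∈ c' w3 := (H.S.dual _ _).1 w3a
    rw [T.cw, mem_insert, mem_singleton] at x1
    rcases x1 with rfl | rfl
    · have hpos := H.pos w3S hdw3 (by omega)
      have hok : nk c' e w x' = 0 := nk_zero ⟨w3, (H.S.dual _ _).1 x2, w3b, by omega⟩
      rw [hok] at h2
      rw [cl_zero (by omega)]
    · exfalso
      have h4 : w3 ∈ c' x' := (H.S.dual _ _).1 x2
      rw [T.dx, mem_insert, mem_singleton] at h4
      rcases h4 with h4 | h4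
      · exact w3b h4
      · have h5 : c d = {w, w2} := by
          symm
          apply eq_of_subset_of_card_le
          · intro a ha
            rw [mem_insert, mem_singleton] at ha
            rcases ha with rfl | rfl
            · exact wd
            · exact h4 ▸ w3a
          · rw [card_pair T.ne]
            exact hcd
        have := htw d h5 d2
        omega
  · rw [h3]
    exact cl_le_one (by omega)

/-- a cover without side condition has no claim -/
lemma not_so (h : e z ≤ e w) (hn : ¬ So c' z x w p e) : cl c c' e BG w = 0 := by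
  unfold So at hn
  push Not at hn
  obtain ⟨h1, h2⟩ := hn
  have hx : e w ≤ e x := h1 h
  have hp : e w ≤ e p := by
    by_contra hp
    have h3 : ¬ ∀ d' ∈ c' w, d' ≠ z → e d' ≤ e w := fun h3 => by
      have := h2 h3
      omega
    push Not at h3
    obtain ⟨d, d1, d2, d3⟩ := h3
    have := H.kill (T.wS H) d1 d3 x (T.x_mem H)
    omega
  apply cl_zero
  rw [sv_none H.S T.cw T.px hp hx]
  omega

/-- the join kills no cover -/
lemma rule_none (hEX : z ∉ EX) (hz : 1 ≤ e z) (htw : ∀ z', c z' = {w, w2} → z' ≠ z → e z' = 0)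
    (h1 : e z ≤ e w) (h2 : e z ≤ e w2) :
    cl c c' e BG w + cl c c' e BG w2 ≤ sv c c' e z := by
  have hs := sv_none (c' := c') H.S T.cz T.ne h1 h2
  have a1 := cl_le_two (c := c) (c' := c') (e := e) (BG := BG) w
  have a2 := cl_le_two (c := c) (c' := c') (e := e) (BG := BG) w2
  by_cases h : 2 ≤ e z
  · omega
  have hez : e z = 1 := by omega
  by_cases b1 : w ∈ BG
  · have := cl_bg (c := c) (c' := c') (e := e) b1
    omega
  by_cases b2 : w2 ∈ BG
  · have := cl_bg (c := c) (c' := c') (e := e) b2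
    omega
  have hch : ∀ u ∈ c' z, e u ≤ e z ∧ e u ≤ e x + 1 := by
    intro u hu
    have := H.le_of_gu T.zS hu (T.w_mem H) h1
    omega
  by_cases s1 : So c' z x w p e
  · by_cases s2 : So c' z x w2 q e
    · have hr := H.red z w w2 p x q T hEX hz b1 b2 htw hch s1 s2
      push Not at hr
      have c1 := (T.sv_co H hr.1.2 hr.2.2).1
      have c2 := (T.symm.sv_co H hr.2.2 hr.1.2).1
      have d1 : cl c c' e BG w ≤ 1 := cl_le_one (by omega)
      have d2 : cl c c' e BG w2 ≤ 1 := cl_le_one (by omega)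
      omega
    · have := T.symm.not_so H h2 s2
      omega
  · have := T.not_so H h1 s1
    omega

/-- the join kills one cover -/
lemma rule_one (hEX : z ∉ EX) (htw : ∀ z', c z' = {w, w2} → z' ≠ z → e z' = 0)
    (h1 : e z ≤ e w) (h2 : e w2 < e z) {r R : ℤ} (hr : 0 ≤ r) (hr1 : e z = 2 → 1 ≤ r)
    (hR : 0 ≤ R) (hR1 : ∀ u ∈ c' z, 2 ≤ e u → (c u).card = 1 → 4 ≤ R)
    (hR2 : ∀ u ∈ c' z, 2 ≤ e u → ¬ kl c e u → 2 ≤ R) :
    cl c c' e BG w + cl c c' e BG w2 ≤ sv c c' e z + r + R := by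
  have hk := H.kill (T.symm.wS H) (T.symm.z_mem H) h2
  have hx := hk x (T.symm.x_mem H)
  have hq := hk q (T.symm.p_mem H)
  have hxw : e x < e w := by omega
  have e1 := (T.sv_co H hxw hx).1
  have e2 : cl c c' e BG w = 0 := cl_zero (by omega)
  have htw' : ∀ z', c z' = {w2, w} → z' ≠ z → e z' = 0 := by
    intro z' h
    exact htw z' (by rw [h, pair_comm])
  obtain ⟨e3, e4⟩ := T.symm.ckill H htw' h2 hxw
  have e5 := sv_one' (c' := c') H.S T.cz T.ne h1 h2
  rcases nk_cases (c' := c') (e := e) z w2 with ⟨-, h3⟩ | ⟨hno, h3⟩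
  · rw [h3] at e3 e5
    omega
  rw [h3] at e3 e5
  by_cases h4 : 4 ≤ e z
  · omega
  by_cases h5 : 2 ≤ e w2
  · have := e4 h5
    omega
  have ex : e x = 0 := by omega
  have b1 : w ∉ BG := fun h => by
    have := H.bg w h x (T.x_mem H)
    omega
  have b2 : w2 ∉ BG := fun h => by
    have := H.bg w2 h x (T.symm.x_mem H)
    omega
  have hbl : ¬ ∀ u ∈ c' z, e u ≤ e z ∧ e u ≤ e x + 1 := by
    intro hch
    refine H.red z w w2 p x q T hEX (by omega) b1 b2 htw hch (Or.inl ⟨h1, hxw⟩) (Or.inr ⟨?_, hq⟩)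
      (Or.inr (Or.inl h2))
    intro d' hd hne
    by_contra hlt
    exact hno ⟨d', hd, hne, by omega⟩
  push Not at hbl
  obtain ⟨u, hu, hu2⟩ := hbl
  have huz := H.le_of_gu T.zS hu (T.w_mem H) h1
  have hu3 := hu2 huz
  have hu4 : 2 ≤ e u := by omega
  by_cases hc : (c u).card = 1
  · have := hR1 u hu hu4 hc
    omega
  by_cases hkl : kl c e u
  · exfalso
    obtain ⟨uS, tu, zu⟩ := H.ch T.zS hu
    have tz := T.tz
    have h6 := K2.t_le_of_kl H.S H.adm _ u uS hkl rfl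
    have h7 : e u = 3 ∧ e z = 3 := by omega
    obtain ⟨z2, z2a, z2b⟩ : ∃ z2 ∈ c u, e z2 < e u := id hkl
    have hne : z2 ≠ z := by
      rintro rfl
      omega
    have hf := H.far u uS (by omega) hu4 z zu z2 z2a hne.symm
      (by rw [T.cz, card_pair T.ne]) ⟨w2, T.symm.w_mem H, h2⟩ hEX
    obtain ⟨w', v1, v2⟩ : ∃ w, w ∈ c z ∧ w ∈ c z2 := by
      rcases hf with hf | hf
      · exact hf
      · exact absurd hkl hf.2
    have z2S := (H.cov uS (by omega) z2a).1
    have hk2 := H.kill z2S ((H.S.dual _ _).1 z2a) z2b w' v2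
    rw [T.cz, mem_insert, mem_singleton] at v1
    rcases v1 with rfl | rfl
    · omega
    · exact hno ⟨z2, (H.S.dual _ _).1 v2, hne, hk2⟩
  · have := hR2 u hu hu4 hkl
    by_cases h8 : e z = 2
    · have := hr1 h8
      omega
    · omega

/-- the join kills both covers -/
lemma rule_two (hEX : z ∉ EX) (htw : ∀ z', c z' = {w, w2} → z' ≠ z → e z' = 0)
    (h1 : e w < e z) (h2 : e w2 < e z) {R : ℤ}
    (hR : 0 ≤ R) (hR1 : ∀ u ∈ c' z, 2 ≤ e u → (c u).card = 1 → 4 ≤ R)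
    (hR2 : ∀ u ∈ c' z, 2 ≤ e u → ¬ kl c e u → 2 ≤ R)
    (hR3 : ∀ u ∈ c' z, 2 ≤ e u → ¬ kl c e u → (∃ z2 ∈ c u, z2 ≠ z ∧ (c z2).card = 1) → 4 ≤ R) :
    cl c c' e BG w + cl c c' e BG w2 ≤ sv c c' e z + R := by
  have hk2 := H.kill (T.symm.wS H) (T.symm.z_mem H) h2
  have hx2 := hk2 x (T.symm.x_mem H)
  have hq := hk2 q (T.symm.p_mem H)
  have hk1 := H.kill (T.wS H) (T.z_mem H) h1
  have hx1 := hk1 x (T.x_mem H)
  have hp := hk1 p (T.p_mem H)
  have htw' : ∀ z', c z' = {w2, w} → z' ≠ z → e z' = 0 := by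
    intro z' h
    exact htw z' (by rw [h, pair_comm])
  obtain ⟨e1, e2⟩ := T.ckill H htw h1 hx2
  obtain ⟨e3, e4⟩ := T.symm.ckill H htw' h2 hx1
  have e5 := sv_both (c' := c') H.S T.cz T.ne h1 h2
  rcases nk_cases (c' := c') (e := e) z w with ⟨-, h3⟩ | ⟨hno, h3⟩
  · rw [h3] at e1 e5
    rcases nk_cases (c' := c') (e := e) z w2 with ⟨-, h4⟩ | ⟨-, h4⟩ <;> rw [h4] at e3 e5 <;> omega
  rcases nk_cases (c' := c') (e := e) z w2 with ⟨-, h4⟩ | ⟨hno2, h4⟩
  · rw [h3] at e1 e5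
    rw [h4] at e3 e5
    omega
  rw [h3] at e1 e5
  rw [h4] at e3 e5
  by_cases h5 : 4 ≤ e z
  · omega
  by_cases h6 : 1 ≤ e x
  · have := e2 (by omega)
    have := e4 (by omega)
    omega
  have b1 : w ∉ BG := fun h => by
    have := H.bg w h x (T.x_mem H)
    omega
  have b2 : w2 ∉ BG := fun h => by
    have := H.bg w2 h x (T.symm.x_mem H)
    omega
  have n1 : ∀ d' ∈ c' w, d' ≠ z → e d' ≤ e w := by
    intro d' hd hne
    by_contra hlt
    exact hno ⟨d', hd, hne, by omega⟩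
  have n2 : ∀ d' ∈ c' w2, d' ≠ z → e d' ≤ e w2 := by
    intro d' hd hne
    by_contra hlt
    exact hno2 ⟨d', hd, hne, by omega⟩
  have hbl : ¬ ∀ u ∈ c' z, e u ≤ e z ∧ e u ≤ e x + 1 := by
    intro hch
    exact H.red z w w2 p x q T hEX (by omega) b1 b2 htw hch (Or.inr ⟨n1, hp⟩) (Or.inr ⟨n2, hq⟩)
      (Or.inr (Or.inl h2))
  have hu0 : ∃ u ∈ c' z, 2 ≤ e u := by
    by_contra hno3
    push Not at hno3
    apply hbl
    intro u hu
    have := hno3 u hu
    omega
  obtain ⟨u, hu, hu4⟩ := hu0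
  by_cases hc : (c u).card = 1
  · have := hR1 u hu hu4 hc
    omega
  obtain ⟨uS, tu, zu⟩ := H.ch T.zS hu
  have tz := T.tz
  obtain ⟨z2, z2a, hne⟩ : ∃ z2 ∈ c u, z2 ≠ z := by
    by_contra hno3
    push Not at hno3
    have h7 : c u = {z} := by
      ext a
      rw [mem_singleton]
      exact ⟨hno3 a, fun h => h ▸ zu⟩
    exact hc (by rw [h7, card_singleton])
  have hf := H.far u uS (by omega) hu4 z zu z2 z2a hne.symm
    (by rw [T.cz, card_pair T.ne]) ⟨w2, T.symm.w_mem H, h2⟩ hEX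
  rcases hf with hf | hf
  swap
  · have := hR3 u hu hu4 hf.2 ⟨z2, z2a, hne, hf.1⟩
    omega
  obtain ⟨w', v1, v2⟩ := hf
  have z2S := (H.cov uS (by omega) z2a).1
  have hz2 : z2 ∈ c' w' := (H.S.dual _ _).1 v2
  have h8 : e z2 ≤ e w' ∧ e w' < e z := by
    rw [T.cz, mem_insert, mem_singleton] at v1
    rcases v1 with rfl | rfl
    · exact ⟨n1 z2 hz2 hne, h1⟩
    · exact ⟨n2 z2 hz2 hne, h2⟩
  have h9 := H.le_of_gu z2S ((H.S.dual _ _).1 z2a) v2 h8.1
  have hkl : ¬ kl c e u := by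
    intro hkl
    have := K2.t_le_of_kl H.S H.adm _ u uS hkl rfl
    omega
  have := hR2 u hu hu4 hkl
  omega

/-- the rule for a join without twins -/
theorem rule (hEX : z ∉ EX) (hz : 1 ≤ e z) (htw : ∀ z', c z' = {w, w2} → z' ≠ z → e z' = 0)
    {r R : ℤ} (hr : 0 ≤ r) (hr1 : e z = 2 → kl c e z → gu c e z → 1 ≤ r)
    (hR : 0 ≤ R) (hR1 : ∀ u ∈ c' z, 2 ≤ e u → (c u).card = 1 → 4 ≤ R)
    (hR2 : ∀ u ∈ c' z, 2 ≤ e u → ¬ kl c e u → 2 ≤ R)
    (hR3 : ∀ u ∈ c' z, 2 ≤ e u → ¬ kl c e u → (∃ z2 ∈ c u, z2 ≠ z ∧ (c z2).card = 1) → 4 ≤ R) :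
    cl c c' e BG w + cl c c' e BG w2 ≤ sv c c' e z + r + R := by
  have htw' : ∀ z', c z' = {w2, w} → z' ≠ z → e z' = 0 := by
    intro z' h
    exact htw z' (by rw [h, pair_comm])
  by_cases h1 : e w < e z
  · by_cases h2 : e w2 < e z
    · have := T.rule_two H hEX htw h1 h2 hR hR1 hR2 hR3
      omega
    · have := T.symm.rule_one H hEX htw' (by omega) h1 hr (fun h => hr1 h ⟨w, T.w_mem H, h1⟩
        ⟨w2, T.symm.w_mem H, by omega⟩) hR hR1 hR2
      omega
  · by_cases h2 : e w2 < e z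
    · exact T.rule_one H hEX htw (by omega) h2 hr (fun h => hr1 h ⟨w2, T.symm.w_mem H, h2⟩
        ⟨w, T.w_mem H, by omega⟩) hR hR1 hR2
    · have := T.rule_none H hEX hz htw (by omega) (by omega)
      omega

/-- the rule for an exchangeable join -/
theorem rule_ex (hz : 1 ≤ e z) (htw : ∀ z', c z' = {w, w2} → z' ≠ z → e z' = 0) :
    cl c c' e BG w + cl c c' e BG w2 ≤ sv c c' e z + 4 := by
  have htw' : ∀ z', c z' = {w2, w} → z' ≠ z → e z' = 0 := by
    intro z' h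
    exact htw z' (by rw [h, pair_comm])
  have nle : ∀ y v : P, nk c' e y v ≤ 1 := by
    intro y v
    rcases nk_cases (c' := c') (e := e) y v with ⟨-, h⟩ | ⟨-, h⟩ <;> omega
  have a1 := cl_le_two (c := c) (c' := c') (e := e) (BG := BG) w
  have a2 := cl_le_two (c := c) (c' := c') (e := e) (BG := BG) w2
  have s1 := sv_ge (e := e) H.S z
  by_cases h1 : e w < e z
  · have hk1 := H.kill (T.wS H) (T.z_mem H) h1
    have hx1 := hk1 x (T.x_mem H)
    by_cases h2 : e w2 < e z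
    · have hk2 := H.kill (T.symm.wS H) (T.symm.z_mem H) h2
      have hx2 := hk2 x (T.symm.x_mem H)
      have e1 := (T.ckill H htw h1 hx2).1
      have e2 := (T.symm.ckill H htw' h2 hx1).1
      have := nle z w
      have := nle z w2
      omega
    · have e1 := (T.ckill H htw h1 (by omega)).1
      have e2 := (T.symm.sv_co H (by omega) hx1).1
      have e3 : cl c c' e BG w2 = 0 := cl_zero (by omega)
      have := nle z w
      omega
  · by_cases h2 : e w2 < e z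
    · have hk2 := H.kill (T.symm.wS H) (T.symm.z_mem H) h2
      have hx2 := hk2 x (T.symm.x_mem H)
      have e1 := (T.symm.ckill H htw' h2 (by omega)).1
      have e2 := (T.sv_co H (by omega) hx2).1
      have e3 : cl c c' e BG w = 0 := cl_zero (by omega)
      have := nle z w2
      omega
    · have := sv_none (c' := c') H.S T.cz T.ne (by omega : e z ≤ e w) (by omega : e z ≤ e w2)
      omega

end TS

end Pool.Agent.GaussPoset.Win.Rd
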