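import Pool.Agent.W_448rd_h10.RdB

/-!
MP_448cb3_co, G2, window `j - 1`: the inequality for reduced cores, twins, joins with single
elements, existence of the shape.  helper10.
-/

namespace Pool.Agent.GaussPoset.Win.Rd

set_option linter.unusedSectionVars false

open Finset I2 K2
open Pool.Agent.GaussPoset.Win.H2 (SdT)

universe u

variable {P : Type u} [DecidableEq P]
variable {c c' : P → Finset P} {e : P → ℕ} {t : P → ℕ} {V Sd BG EX : Finset P}

/-- a two element set with a given member -/
lemma pair_of {s : Finset P} {a : P} (h : s.card = 2) (ha : a ∈ s) : ∃ b, b ≠ a ∧ s = {b, a} := by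
  obtain ⟨u, v, huv, rfl⟩ := card_eq_two.1 h
  rw [mem_insert, mem_singleton] at ha
  rcases ha with rfl | rfl
  · exact ⟨v, huv.symm, pair_comm _ _⟩
  · exact ⟨u, huv, rfl⟩

/-- a set with at most two elements contains no third one -/
lemma third {s : Finset P} {a b d : P} (h : s.card ≤ 2) (ha : a ∈ s) (hb : b ∈ s) (hd : d ∈ s)
    (hab : a ≠ b) (hdb : d ≠ b) : d = a := by
  by_contra hda
  have h1 : ({a, b, d} : Finset P) ⊆ s := by
    intro y hy
    simp only [mem_insert, mem_singleton] at hy
    rcases hy with rfl | rfl | rfl <;> assumption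
  have h2 := card_le_card h1
  rw [card_insert_of_notMem (by simp [hab, Ne.symm hda]), card_pair hdb.symm] at h2
  omega

lemma pair_eq_of {s : Finset P} {a b : P} (h : s.card ≤ 2) (ha : a ∈ s) (hb : b ∈ s)
    (hab : a ≠ b) : s = {a, b} := by
  symm
  apply eq_of_subset_of_card_le
  · intro y hy
    rw [mem_insert, mem_singleton] at hy
    rcases hy with rfl | rfl <;> assumption
  · rw [card_pair hab]
    exact h

/-- near single elements -/
def SN (c c' : P → Finset P) (t : P → ℕ) (Sd : Finset P) (s : P) : Prop :=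
  s ∈ Sd ∧ t s = 1 ∧ (c s).card = 1

/-- a single element which kills its site with another element -/
def Non (c c' : P → Finset P) (e : P → ℕ) (s : P) : Prop := ∃ x ∈ c s, e x < e s ∧ ok c' e s x

/-- `s` is single and kills a site together with `w` -/
def SKr (c c' : P → Finset P) (e : P → ℕ) (s w : P) : Prop :=
  (c s).card = 1 ∧ s ≠ w ∧ ∃ x ∈ c s, x ∈ c w ∧ e x < e s ∧ e x < e w

open Classical in
/-- payment of a near single element to its children -/
noncomputable def ns (c c' : P → Finset P) (e : P → ℕ) (t : P → ℕ) (Sd : Finset P) (s : P) : ℤ :=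
  if SN c c' t Sd s ∧ 1 ≤ e s then (if Non c c' e s then 2 else 1) else 0

open Classical in
/-- payment of an element `u` at distance three to its cover `z` -/
noncomputable def r3 (c c' : P → Finset P) (e : P → ℕ) (t : P → ℕ) (z u : P) : ℤ :=
  if 2 ≤ e u ∧ t u = 3 ∧ (c z).card = 2 then (if (c u).card = 1 then 4 else if kl c e u then 0 else
    if ∃ z2 ∈ c u, z2 ≠ z ∧ (c z2).card = 1 then 4 else 2) else 0

lemma ns_nonneg (s : P) : 0 ≤ ns c c' e t Sd s := by unfold ns; split_ifs <;> omega

lemma ns_le (s : P) : ns c c' e t Sd s ≤ 2 := by unfold ns; split_ifs <;> omega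

lemma r3_nonneg (z u : P) : 0 ≤ r3 c c' e t z u := by unfold r3; split_ifs <;> omega

lemma ns_ge {s : P} (h : SN c c' t Sd s) (h1 : 1 ≤ e s) : 1 ≤ ns c c' e t Sd s := by
  unfold ns
  rw [if_pos ⟨h, h1⟩]
  split_ifs <;> omega

lemma ns_non {s : P} (h : SN c c' t Sd s) (h1 : 1 ≤ e s) (h2 : Non c c' e s) :
    ns c c' e t Sd s = 2 := by
  unfold ns
  rw [if_pos ⟨h, h1⟩, if_pos h2]

/-- double joins -/
def DJ (c : P → Finset P) (t : P → ℕ) (Sd : Finset P) (z : P) : Prop :=
  z ∈ Sd ∧ t z = 2 ∧ (c z).card = 2 ∧ ∀ w ∈ c z, (c w).card = 2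

section basic

variable (H : Hyp c c' e t V Sd BG EX)
include H

/-- the shape at a double join -/
lemma Hyp.ts {z w : P} (hz : DJ c t Sd z) (hw : w ∈ c z) :
    ∃ w2 p x q, TS c c' t Sd z w w2 p x q := by
  obtain ⟨hzS, tz, h2, hd⟩ := hz
  obtain ⟨w2, hne, hcz⟩ := pair_of h2 hw
  have hw2 : w2 ∈ c z := by rw [hcz]; simp
  obtain ⟨x, x1, x2⟩ := H.hT z hzS tz w hw w2 hw2 hne.symm (hd w hw)
  obtain ⟨p, p1, p2⟩ := pair_of (hd w hw) x1
  obtain ⟨q, q1, q2⟩ := pair_of (hd w2 hw2) x2
  have wS := (H.cov hzS (by omega) hw)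
  have w2S := (H.cov hzS (by omega) hw2)
  refine ⟨w2, p, x, q, ⟨hzS, tz, by rw [hcz, pair_comm], p2, by rw [q2, pair_comm], ?_, hne.symm, p1,
    q1.symm, ?_⟩⟩
  · exact pair_eq_of (H.S.c2' x) ((H.S.dual _ _).1 x1) ((H.S.dual _ _).1 x2) hne.symm
  · rintro rfl
    have := H.share w wS.1 w2 w2S.1 (by omega) hne.symm x x1 p (by rw [p2]; simp) x2
      (by rw [q2]; simp)
    exact p1 this.symm

/-- values at distance two -/
lemma Hyp.sv_two {z : P} (hz : z ∈ Sd) (tz : t z = 2) : -2 ≤ sv c c' e z := by
  by_cases h : kl c e z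
  · have h1 := K2.t_le_of_kl H.S H.adm _ z hz h rfl
    have h2 := sv_ge (e := e) H.S z
    omega
  · rw [sv_not_kl h]
    omega

/-- the join of a double and a single element -/
lemma Hyp.semi {z w s : P} (hz : z ∈ Sd) (tz : t z = 2) (cz : c z = {w, s}) (hne : w ≠ s)
    (cw : (c w).card = 2) (cs : (c s).card = 1) (h1 : 1 ≤ e z) {k : ℤ} (hk : k ≤ 2)
    (hk2 : SKr c c' e s w → k ≤ 0) : k ≤ sv c c' e z + ns c c' e t Sd s := by
  have hw : w ∈ c z := by rw [cz]; simp
  have hs : s ∈ c z := by rw [cz]; simp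
  obtain ⟨wS, tw⟩ := H.cov hz (by omega) hw
  obtain ⟨sS, ts⟩ := H.cov hz (by omega) hs
  obtain ⟨x, x1, x2⟩ := H.hT z hz tz w hw s hs hne cw
  have zw : z ∈ c' w := (H.S.dual _ _).1 hw
  have zs : z ∈ c' s := (H.S.dual _ _).1 hs
  have ew := H.pos wS zw h1
  have es := H.pos sS zs h1
  have hSN : SN c c' t Sd s := ⟨sS, by omega, cs⟩
  have hns := ns_ge hSN es
  by_cases hc : e x < e s ∧ e x < e w
  · have hN : Non c c' e s := ⟨x, x2, hc.1, w, (H.S.dual _ _).1 x1, hne, hc.2⟩
    have := ns_non hSN es hN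
    have := hk2 ⟨cs, hne.symm, x, x2, x1, hc.1, hc.2⟩
    have := H.sv_two hz tz
    omega
  · have hkl : ¬ kl c e z := by
      rw [kl_two H.S cz hne]
      rintro (h2 | h2)
      · have h3 := H.kill wS zw h2 x x1
        have h4 := H.le_of_gu sS zs x2 (by omega)
        omega
      · have h3 := H.kill sS zs h2 x x2
        have h4 := H.le_of_gu wS zw x1 (by omega)
        omega
    rw [sv_not_kl hkl]
    omega

/-- the join of two single elements -/
lemma Hyp.singles {z w s : P} (hz : z ∈ Sd) (tz : t z = 2) (cz : c z = {w, s})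
    (cw : (c w).card = 1) (cs : (c s).card = 1) (h1 : 1 ≤ e z) :
    0 ≤ sv c c' e z + ns c c' e t Sd w + ns c c' e t Sd s := by
  have hw : w ∈ c z := by rw [cz]; simp
  have hs : s ∈ c z := by rw [cz]; simp
  obtain ⟨wS, tw⟩ := H.cov hz (by omega) hw
  obtain ⟨sS, ts⟩ := H.cov hz (by omega) hs
  have ew := H.pos wS ((H.S.dual _ _).1 hw) h1
  have es := H.pos sS ((H.S.dual _ _).1 hs) h1
  have hs1 : SN c c' t Sd s := ⟨sS, by omega, cs⟩
  have hw1 : SN c c' t Sd w := ⟨wS, by omega, cw⟩
  have a1 := ns_ge (e := e) hs1 es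
  have a2 := ns_ge (e := e) hw1 ew
  have := H.sv_two hz tz
  omega

/-- a near single element can pay -/
lemma Hyp.single {s : P} (hs : SN c c' t Sd s) {k m : ℕ} (hk : k ≤ 2) (hm : m ≤ 1)
    (hm2 : 0 < m → Non c c' e s) : ns c c' e t Sd s * k + m ≤ sv c c' e s := by
  obtain ⟨sS, ts, cs⟩ := hs
  obtain ⟨x, hx⟩ := card_eq_one.1 cs
  by_cases hN : Non c c' e s
  · obtain ⟨x', x1, x2, x3⟩ := hN
    have hx' : x' = x := by rw [hx, mem_singleton] at x1; exact x1
    subst hx'
    rw [ns_non ⟨sS, ts, cs⟩ (by omega) ⟨x', x1, x2, x3⟩, sv_single H.S hx x2, nk_zero x3]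
    omega
  · have h0 : m = 0 := by
      by_contra h0
      exact hN (hm2 (by omega))
    have h1 := sv_single_ge (c' := c') (e := e) H.S hx
    unfold ns
    by_cases h2 : SN c c' t Sd s ∧ 1 ≤ e s
    · rw [if_pos h2, if_neg hN, h0]
      have := h2.2
      push_cast
      omega
    · rw [if_neg h2, h0]
      push_cast
      omega

/-- an element at distance three can pay -/
lemma Hyp.three {u : P} (hu : u ∈ Sd) (tu : t u = 3) :
    ∑ z ∈ c u, r3 c c' e t z u ≤ sv c c' e u := by
  have hc := H.S.c2 u
  have hc1 : 1 ≤ (c u).card := card_pos.2 (H.S.ne u hu)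
  have hf := sv_far H.S H.adm hu (by omega)
  by_cases h2 : 2 ≤ e u
  · by_cases h3 : (c u).card = 1
    · obtain ⟨x, hx⟩ := card_eq_one.1 h3
      have h1 := sv_single_ge (c' := c') (e := e) H.S hx
      rw [hx, sum_singleton]
      unfold r3
      split_ifs <;> omega
    · by_cases h4 : kl c e u
      · rw [sum_eq_zero]
        · exact hf
        · intro z hz
          unfold r3
          rw [if_neg h3, if_pos h4]
          split_ifs <;> rfl
      · rw [sv_not_kl h4]
        obtain ⟨z, z', hne, hcu⟩ := card_eq_two.1 (by omega : (c u).card = 2)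
        rw [hcu, Finset.sum_pair hne]
        have k1 : r3 c c' e t z u ≤ 4 ∧ ((c z').card ≠ 1 → r3 c c' e t z u ≤ 2) ∧
            ((c z).card ≠ 2 → r3 c c' e t z u = 0) := by
          unfold r3
          rw [if_neg h3, if_neg h4]
          refine ⟨by split_ifs <;> omega, ?_, ?_⟩
          · intro h5
            rw [if_neg (c := ∃ z2 ∈ c u, z2 ≠ z ∧ (c z2).card = 1)]
            · split_ifs <;> omega
            · rintro ⟨z2, h6, h7, h8⟩
              rw [hcu, mem_insert, mem_singleton] at h6
              rcases h6 with rfl | rfl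
              · exact h7 rfl
              · exact h5 h8
          · intro h5
            rw [if_neg (fun h => h5 h.2.2)]
        have k2 : r3 c c' e t z' u ≤ 4 ∧ ((c z).card ≠ 1 → r3 c c' e t z' u ≤ 2) ∧
            ((c z').card ≠ 2 → r3 c c' e t z' u = 0) := by
          unfold r3
          rw [if_neg h3, if_neg h4]
          refine ⟨by split_ifs <;> omega, ?_, ?_⟩
          · intro h5
            rw [if_neg (c := ∃ z2 ∈ c u, z2 ≠ z' ∧ (c z2).card = 1)]
            · split_ifs <;> omega
            · rintro ⟨z2, h6, h7, h8⟩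
              rw [hcu, mem_insert, mem_singleton] at h6
              rcases h6 with rfl | rfl
              · exact h5 h8
              · exact h7 rfl
          · intro h5
            rw [if_neg (fun h => h5 h.2.2)]
        by_cases c1 : (c z).card = 2
        · by_cases c2 : (c z').card = 2
          · have := k1.2.1 (by omega)
            have := k2.2.1 (by omega)
            omega
          · have := k2.2.2 c2
            omega
        · have := k1.2.2 c1
          omega
  · rw [sum_eq_zero]
    · exact hf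
    · intro z hz
      unfold r3
      rw [if_neg (fun h => h2 h.1)]

/-- a join of two positive twins -/
lemma Hyp.twins {z z' w w2 p x q : P} (T : TS c c' t Sd z w w2 p x q) (h' : c z' = {w, w2})
    (hne : z' ≠ z) (h1 : 1 ≤ e z') (hle : e z' ≤ e z) {k : ℤ} (hk : 0 ≤ k)
    (hk2 : kl c e z → ¬ kl c e z' → 1 ≤ k)
    (hk3 : e z = 2 → e z' = 1 → e w = 1 → e w2 = 1 → nk c' e w p = 1 → nk c' e w2 q = 1 → 2 ≤ k) :
    cl c c' e BG w + cl c c' e BG w2 ≤ sv c c' e z + sv c c' e z' + k := by
  have zw := T.z_mem H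
  have zw2 := T.symm.z_mem H
  have z'w : z' ∈ c' w := (H.S.dual _ _).1 (by rw [h']; simp)
  have z'w2 : z' ∈ c' w2 := (H.S.dual _ _).1 (by rw [h']; simp)
  have wS := T.wS H
  have w2S := T.symm.wS H
  have ew := H.pos wS z'w h1
  have ew2 := H.pos w2S z'w2 h1
  have a1 := cl_le_two (c := c) (c' := c') (e := e) (BG := BG) w
  have a2 := cl_le_two (c := c) (c' := c') (e := e) (BG := BG) w2
  have nle : ∀ y v : P, nk c' e y v ≤ 1 := by
    intro y v
    rcases nk_cases (c' := c') (e := e) y v with ⟨-, h⟩ | ⟨-, h⟩ <;> omega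
  by_cases f1 : e w < e z'
  · have k1 := H.kill wS z'w f1 x (T.x_mem H)
    have n1 : nk c' e z w = 0 := nk_zero ⟨z', z'w, hne, f1⟩
    have n1' : nk c' e z' w = 0 := nk_zero ⟨z, zw, hne.symm, by omega⟩
    by_cases f2 : e w2 < e z'
    · have n2 : nk c' e z w2 = 0 := nk_zero ⟨z', z'w2, hne, f2⟩
      have n2' : nk c' e z' w2 = 0 := nk_zero ⟨z, zw2, hne.symm, by omega⟩
      have s1 := sv_both (c' := c') H.S T.cz T.ne (by omega : e w < e z) (by omega : e w2 < e z)
      have s2 := sv_both (c' := c') H.S h' T.ne f1 f2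
      rw [n1, n2] at s1
      rw [n1', n2'] at s2
      omega
    · have s2 := sv_one (c' := c') H.S h' T.ne f1 (by omega : e z' ≤ e w2)
      rw [n1'] at s2
      have b1 := (T.symm.sv_co H (by omega) k1).1
      have b2 := (T.sv_co H k1 (by omega)).1
      have c1 : cl c c' e BG w2 = 0 := cl_zero (by omega)
      have c2 : cl c c' e BG w ≤ 1 := cl_le_one (by omega)
      by_cases f3 : e w2 < e z
      · have s1 := sv_both (c' := c') H.S T.cz T.ne (by omega : e w < e z) f3
        rw [n1] at s1
        have := nle z w2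
        omega
      · have s1 := sv_one (c' := c') H.S T.cz T.ne (by omega : e w < e z) (by omega : e z ≤ e w2)
        rw [n1] at s1
        omega
  · by_cases f2 : e w2 < e z'
    · have k1 := H.kill w2S z'w2 f2 x (T.symm.x_mem H)
      have n2 : nk c' e z w2 = 0 := nk_zero ⟨z', z'w2, hne, f2⟩
      have n2' : nk c' e z' w2 = 0 := nk_zero ⟨z, zw2, hne.symm, by omega⟩
      have s2 := sv_one' (c' := c') H.S h' T.ne (by omega : e z' ≤ e w) f2
      rw [n2'] at s2
      have b1 := (T.sv_co H (by omega) k1).1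
      have b2 := (T.symm.sv_co H k1 (by omega)).1
      have c1 : cl c c' e BG w = 0 := cl_zero (by omega)
      have c2 : cl c c' e BG w2 ≤ 1 := cl_le_one (by omega)
      by_cases f3 : e w < e z
      · have s1 := sv_both (c' := c') H.S T.cz T.ne f3 (by omega : e w2 < e z)
        rw [n2] at s1
        have := nle z w
        omega
      · have s1 := sv_one' (c' := c') H.S T.cz T.ne (by omega : e z ≤ e w) (by omega : e w2 < e z)
        rw [n2] at s1
        omega
    · have hn : ¬ kl c e z' := by
        rw [kl_two H.S h' T.ne]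
        omega
      have s2 := sv_none (c' := c') H.S h' T.ne (by omega : e z' ≤ e w) (by omega : e z' ≤ e w2)
      by_cases f3 : e w < e z
      · have hkz : 1 ≤ k := hk2 ⟨w, T.w_mem H, f3⟩ hn
        have k1 := H.kill wS zw f3 x (T.x_mem H)
        have s1 := sv_ge (e := e) H.S z
        by_cases f4 : e w2 < e z
        · have k2 := H.kill w2S zw2 f4 x (T.symm.x_mem H)
          have k3 := H.kill wS zw f3 p (T.p_mem H)
          have k4 := H.kill w2S zw2 f4 q (T.symm.p_mem H)
          obtain ⟨b1, b3⟩ := T.sv_co H k1 k2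
          obtain ⟨b2, b4⟩ := T.symm.sv_co H k2 k1
          have b3 := b3 k3
          have b4 := b4 k4
          have c1 : cl c c' e BG w ≤ 1 := cl_le_one (by omega)
          have c2 : cl c c' e BG w2 ≤ 1 := cl_le_one (by omega)
          by_cases f5 : 4 ≤ e z + e z'
          · omega
          · rcases nk_cases (c' := c') (e := e) w p with ⟨-, n1⟩ | ⟨-, n1⟩
            · rw [n1] at b3
              have c3 : cl c c' e BG w = 0 := cl_zero (by omega)
              omega
            · rcases nk_cases (c' := c') (e := e) w2 q with ⟨-, n2⟩ | ⟨-, n2⟩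
              · rw [n2] at b4
                have c3 : cl c c' e BG w2 = 0 := cl_zero (by omega)
                omega
              · have := hk3 (by omega) (by omega) (by omega) (by omega) n1 n2
                omega
        · have b1 := (T.sv_co H k1 (by omega)).1
          have b2 := (T.symm.sv_co H (by omega) k1).1
          have c1 : cl c c' e BG w ≤ 1 := cl_le_one (by omega)
          have c2 : cl c c' e BG w2 = 0 := cl_zero (by omega)
          omega
      · by_cases f4 : e w2 < e z
        · have hkz : 1 ≤ k := hk2 ⟨w2, T.symm.w_mem H, f4⟩ hn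
          have k1 := H.kill w2S zw2 f4 x (T.symm.x_mem H)
          have s1 := sv_ge (e := e) H.S z
          have b1 := (T.symm.sv_co H k1 (by omega)).1
          have b2 := (T.sv_co H (by omega) k1).1
          have c1 : cl c c' e BG w2 ≤ 1 := cl_le_one (by omega)
          have c2 : cl c c' e BG w = 0 := cl_zero (by omega)
          omega
        · have s1 := sv_none (c' := c') H.S T.cz T.ne (by omega : e z ≤ e w)
            (by omega : e z ≤ e w2)
          omega

end basic

end Pool.Agent.GaussPoset.Win.Rd
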