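import Pool.Agent.W_448rd_h10.RdC

/-!
MP_448cb3_co, G2, window `j - 1`: the inequality for reduced cores, the payments.  helper10.
-/

namespace Pool.Agent.GaussPoset.Win.Rd

set_option linter.unusedSectionVars false

open Finset I2 K2
open Pool.Agent.GaussPoset.Win.H2 (SdT)

universe u

variable {P : Type u} [DecidableEq P]
variable {c c' : P → Finset P} {e : P → ℕ} {t : P → ℕ} {V Sd BG EX : Finset P}

/-- double counting along covers -/
lemma dcount {A B : Finset P} {F : P → P → ℤ} (hd : ∀ z w, w ∈ c z ↔ z ∈ c' w)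
    (h1 : ∀ z ∈ A, ∀ w ∈ c z, w ∉ B → F w z = 0) (h2 : ∀ w ∈ B, ∀ z ∈ c' w, z ∉ A → F w z = 0) :
    ∑ z ∈ A, ∑ w ∈ c z, F w z = ∑ w ∈ B, ∑ z ∈ c' w, F w z := by
  have e1 : ∀ z ∈ A, ∑ w ∈ c z, F w z = ∑ w ∈ B, if w ∈ c z then F w z else 0 := by
    intro z hz
    rw [← sum_filter]
    have : B.filter (fun w => w ∈ c z) = (c z).filter (fun w => w ∈ B) := by
      ext w
      rw [mem_filter, mem_filter]
      tauto
    rw [this, sum_filter]
    apply sum_congr rfl
    intro w hw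
    by_cases h : w ∈ B
    · rw [if_pos h]
    · rw [if_neg h, h1 z hz w hw h]
  have e2 : ∀ w ∈ B, ∑ z ∈ c' w, F w z = ∑ z ∈ A, if w ∈ c z then F w z else 0 := by
    intro w hw
    rw [← sum_filter]
    have : A.filter (fun z => w ∈ c z) = (c' w).filter (fun z => z ∈ A) := by
      ext z
      rw [mem_filter, mem_filter, hd z w]
      tauto
    rw [this, sum_filter]
    apply sum_congr rfl
    intro z hz
    by_cases h : z ∈ A
    · rw [if_pos h]
    · rw [if_neg h, h2 w hw z hz h]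
  rw [sum_congr rfl e1, sum_congr rfl e2, sum_comm]

section defs

variable (c c' : P → Finset P) (e : P → ℕ) (t : P → ℕ) (Sd BG : Finset P)

open Classical in
/-- near double elements outside `BG` -/
noncomputable def Dd : Finset P := Sd.filter (fun w => w ∉ BG ∧ t w = 1 ∧ (c w).card = 2)

open Classical in
/-- near single elements -/
noncomputable def Sn : Finset P := Sd.filter (fun s => t s = 1 ∧ (c s).card = 1)

/-- both sites are killed by `w` only -/
def N4a (w : P) : Prop := sv c c' e w = -4 ∧ ¬ gu c e w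

/-- a single element kills with `w` -/
def SK (w : P) : Prop := ∃ s ∈ Sn c t Sd, SKr c c' e s w

/-- the payment to an element without guard -/
def q4 (n : ℕ) : ℤ := if n = 0 then 0 else if n = 1 then 2 else 4

open Classical in
/-- payments of a child `z` to `w` -/
noncomputable def pc (f : P → P) (w z : P) : ℤ :=
  if w ∈ Dd c t Sd BG ∧ ¬ SK c c' e t Sd w ∧ sv c c' e w < 0 then
    (if N4a c c' e w then q4 (e z) else if f w = z then clm (sv c c' e w) else 0) else 0

/-- joins which get one from their guard -/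
def Z2 (z : P) : Prop := DJ c t Sd z ∧ e z = 2 ∧ kl c e z ∧ gu c e z ∧
  ∀ z', c z' = c z → z' ≠ z → e z' = 0

open Classical in
/-- payments of a guard -/
noncomputable def gp (w z : P) : ℤ :=
  if Z2 c e t Sd z ∧ e z ≤ e w ∧ w ∈ Dd c t Sd BG then 1 else 0

/-- an order on twins -/
def lt (rk : P → ℕ) (z z' : P) : Prop := e z < e z' ∨ (e z = e z' ∧ rk z < rk z')

/-- the smaller one of two positive twins -/
def low (rk : P → ℕ) (z : P) : Prop := ∃ z', c z' = c z ∧ z' ≠ z ∧ 1 ≤ e z' ∧ lt e rk z z'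

/-- the larger one of two positive twins -/
def upp (rk : P → ℕ) (z : P) : Prop := ∃ z', c z' = c z ∧ z' ≠ z ∧ 1 ≤ e z' ∧ lt e rk z' z

/-- the choice of the paying child -/
def FH (rk : P → ℕ) (f : P → P) : Prop := ∀ w ∈ Dd c t Sd BG, 1 ≤ e w →
  f w ∈ c' w ∧ 1 ≤ e (f w) ∧ (PenP c c' e w → (c (f w)).card = 1) ∧
    ¬ (DJ c t Sd (f w) ∧ low c e rk (f w))

end defs

lemma mem_Dd {w : P} : w ∈ Dd c t Sd BG ↔ w ∈ Sd ∧ w ∉ BG ∧ t w = 1 ∧ (c w).card = 2 := by
  unfold Dd
  rw [mem_filter]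

lemma mem_Sn {w : P} : w ∈ Sn c t Sd ↔ w ∈ Sd ∧ t w = 1 ∧ (c w).card = 1 := by
  unfold Sn
  rw [mem_filter]

lemma q4_nonneg (n : ℕ) : 0 ≤ q4 n := by unfold q4; split_ifs <;> omega

lemma q4_le (n : ℕ) : q4 n ≤ 2 * n := by unfold q4; split_ifs <;> omega

lemma gp_nonneg (w z : P) : 0 ≤ gp c e t Sd BG w z := by unfold gp; split_ifs <;> omega

lemma pc_nonneg (f : P → P) (w z : P) : 0 ≤ pc c c' e t Sd BG f w z := by
  unfold pc
  split_ifs
  · exact q4_nonneg _
  · exact clm_nonneg _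
  all_goals exact le_rfl

lemma lt_total {rk : P → ℕ} (hr : ∀ y z, rk y = rk z → y = z) {z z' : P} (h : z' ≠ z) :
    lt e rk z z' ∨ lt e rk z' z := by
  unfold lt
  have : rk z' ≠ rk z := fun h2 => h (hr _ _ h2)
  omega

lemma lt_asymm {rk : P → ℕ} {z z' : P} (h : lt e rk z z') (h' : lt e rk z' z) : False := by
  unfold lt at h h'
  omega

section basic

variable (H : Hyp c c' e t V Sd BG EX)
include H

lemma Hyp.sv_zero {z : P} (h : e z = 0) : sv c c' e z = 0 := by
  rw [sv_not_kl, h]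
  · rfl
  · rintro ⟨a, -, ha⟩
    omega

/-- the values of a double element -/
lemma Hyp.vals {w o x : P} (hw : c w = {o, x}) (hne : o ≠ x) (h : sv c c' e w < 0) :
    (sv c c' e w = -1 ∨ sv c c' e w = -2 ∨ sv c c' e w = -4) ∧
      (sv c c' e w = -4 → e w = 1) := by
  by_cases h1 : e o < e w
  · by_cases h2 : e x < e w
    · have h3 := sv_both (c' := c') H.S hw hne h1 h2
      rcases nk_cases (c' := c') (e := e) w o with ⟨-, h4⟩ | ⟨-, h4⟩ <;>
      rcases nk_cases (c' := c') (e := e) w x with ⟨-, h5⟩ | ⟨-, h5⟩ <;>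
      rw [h4, h5] at h3 <;> omega
    · have h3 := sv_one (c' := c') H.S hw hne h1 (by omega)
      rcases nk_cases (c' := c') (e := e) w o with ⟨-, h4⟩ | ⟨-, h4⟩ <;> rw [h4] at h3 <;> omega
  · by_cases h2 : e x < e w
    · have h3 := sv_one' (c' := c') H.S hw hne (by omega) h2
      rcases nk_cases (c' := c') (e := e) w x with ⟨-, h4⟩ | ⟨-, h4⟩ <;> rw [h4] at h3 <;> omega
    · have h3 := sv_none (c' := c') (e := e) H.S hw hne (by omega) (by omega)
      omega

/-- a co-killed site -/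
lemma Hyp.co {w o x : P} (hw : c w = {o, x}) (hne : o ≠ x) (hx : e x < e w)
    (hk : ok c' e w x) : 2 * (e w : ℤ) - 3 ≤ sv c c' e w := by
  have h5 := nk_zero hk
  by_cases h1 : e o < e w
  · have h3 := sv_both (c' := c') H.S hw hne h1 hx
    rcases nk_cases (c' := c') (e := e) w o with ⟨-, h4⟩ | ⟨-, h4⟩ <;>
    rw [h4, h5] at h3 <;> omega
  · have h3 := sv_one' (c' := c') H.S hw hne (by omega) hx
    rw [h5] at h3
    omega

lemma Hyp.sk_ge {w : P} (hw : w ∈ Dd c t Sd BG) (h : SK c c' e t Sd w) : -1 ≤ sv c c' e w := by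
  rw [mem_Dd] at hw
  obtain ⟨s, s1, s2, s3, x, x1, x2, x3, x4⟩ := h
  obtain ⟨o, o1, o2⟩ := pair_of hw.2.2.2 x2
  have := H.co o2 o1 x4 ⟨s, (H.S.dual _ _).1 x1, s3, x3⟩
  omega

/-- all positive children are pendants -/
lemma Hyp.pend {w z : P} (hw : w ∈ Dd c t Sd BG) (hn : N4a c c' e w) (hz : z ∈ c' w)
    (h1 : 1 ≤ e z) : (c z).card = 1 := by
  rw [mem_Dd] at hw
  obtain ⟨wS, -, tw, cw⟩ := hw
  obtain ⟨hs, hg⟩ := hn
  have hall : ∀ a ∈ c w, e a < e w := by
    intro a ha
    by_contra h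
    exact hg ⟨a, ha, by omega⟩
  obtain ⟨zS, tz, wz⟩ := H.ch wS hz
  by_contra hc
  have hc2 : (c z).card = 2 := by
    have := H.S.c2 z
    have : 1 ≤ (c z).card := card_pos.2 ⟨w, wz⟩
    omega
  obtain ⟨z2, z2a, z2b⟩ := pair_of hc2 wz
  have z2c : z2 ∈ c z := by rw [z2b]; simp
  obtain ⟨x, x1, x2⟩ := H.hT z zS (by omega) w wz z2 z2c z2a.symm cw
  obtain ⟨o, o1, o2⟩ := pair_of cw x1
  have z2S := (H.cov zS (by omega) z2c).1
  have hp := H.pos z2S ((H.S.dual _ _).1 z2c) h1
  have hx := hall x x1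
  have he : e w = 1 := (H.vals o2 o1 (by omega)).2 hs
  have := H.co o2 o1 hx ⟨z2, (H.S.dual _ _).1 x2, z2a, by omega⟩
  omega

variable {rk : P → ℕ} {f : P → P}

lemma Hyp.fzero (hf : FH c c' e t Sd BG rk f) {w z : P} (h : e z = 0) :
    pc c c' e t Sd BG f w z = 0 := by
  unfold pc
  by_cases h1 : w ∈ Dd c t Sd BG ∧ ¬ SK c c' e t Sd w ∧ sv c c' e w < 0
  · rw [if_pos h1]
    by_cases h2 : N4a c c' e w
    · rw [if_pos h2, h]
      rfl
    · rw [if_neg h2]
      by_cases h3 : f w = z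
      · exfalso
        have hw : 1 ≤ e w := by
          by_contra h4
          have := H.sv_zero (z := w) (by omega)
          omega
        have := (hf w h1.1 hw).2.1
        rw [h3] at this
        omega
      · rw [if_neg h3]
  · rw [if_neg h1]

lemma Hyp.fle (hf : FH c c' e t Sd BG rk f) {w z : P} (hz : z ∈ c' w) (h2 : (c z).card = 2) :
    pc c c' e t Sd BG f w z ≤ cl c c' e BG w := by
  by_cases h0 : e z = 0
  · rw [H.fzero hf h0]
    exact cl_nonneg _
  unfold pc
  by_cases h1 : w ∈ Dd c t Sd BG ∧ ¬ SK c c' e t Sd w ∧ sv c c' e w < 0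
  · rw [if_pos h1]
    by_cases h3 : N4a c c' e w
    · have := H.pend h1.1 h3 hz (by omega)
      omega
    · rw [if_neg h3]
      by_cases h4 : f w = z
      · rw [if_pos h4]
        have hw : 1 ≤ e w := H.pos (mem_Dd.1 h1.1).1 hz (by omega)
        unfold cl
        rw [if_neg]
        rintro (h5 | h5)
        · exact (mem_Dd.1 h1.1).2.1 h5
        · have := (hf w h1.1 hw).2.2.1 h5
          rw [h4] at this
          omega
      · rw [if_neg h4]
        exact cl_nonneg _
  · rw [if_neg h1]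
    exact cl_nonneg _

lemma Hyp.fle_two (hf : FH c c' e t Sd BG rk f) {w z : P} (hz : z ∈ c' w) (h2 : (c z).card = 2) :
    pc c c' e t Sd BG f w z ≤ 2 := (H.fle hf hz h2).trans (cl_le_two _)

lemma Hyp.flow (hf : FH c c' e t Sd BG rk f) {w z : P} (hz : z ∈ c' w) (h2 : DJ c t Sd z)
    (hl : low c e rk z) : pc c c' e t Sd BG f w z = 0 := by
  by_cases h0 : e z = 0
  · exact H.fzero hf h0
  unfold pc
  by_cases h1 : w ∈ Dd c t Sd BG ∧ ¬ SK c c' e t Sd w ∧ sv c c' e w < 0
  · rw [if_pos h1]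
    by_cases h3 : N4a c c' e w
    · have := H.pend h1.1 h3 hz (by omega)
      have := h2.2.2.1
      omega
    · rw [if_neg h3]
      by_cases h4 : f w = z
      · exfalso
        have hw : 1 ≤ e w := H.pos (mem_Dd.1 h1.1).1 hz (by omega)
        have := (hf w h1.1 hw).2.2.2
        rw [h4] at this
        exact this ⟨h2, hl⟩
      · rw [if_neg h4]
  · rw [if_neg h1]

lemma Hyp.f_sk {w z : P} (h : SK c c' e t Sd w) : pc c c' e t Sd BG f w z = 0 := by
  unfold pc
  rw [if_neg]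
  rintro ⟨-, h2, -⟩
  exact h2 h

lemma Hyp.f_out {w z : P} (h : w ∉ Dd c t Sd BG) : pc c c' e t Sd BG f w z = 0 := by
  unfold pc
  rw [if_neg]
  rintro ⟨h2, -⟩
  exact h h2

/-- a pendant can pay -/
lemma Hyp.fpen (hf : FH c c' e t Sd BG rk f) {w z : P} :
    pc c c' e t Sd BG f w z ≤ 2 * (e z : ℤ) := by
  by_cases h0 : e z = 0
  · rw [H.fzero hf h0]
    omega
  unfold pc
  by_cases h1 : w ∈ Dd c t Sd BG ∧ ¬ SK c c' e t Sd w ∧ sv c c' e w < 0
  · rw [if_pos h1]
    by_cases h3 : N4a c c' e w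
    · rw [if_pos h3]
      exact q4_le _
    · rw [if_neg h3]
      have := clm_le_two (sv c c' e w)
      split_ifs <;> omega
  · rw [if_neg h1]
    omega

/-- existence of the choice -/
lemma Hyp.exists_f (hr : ∀ y z, rk y = rk z → y = z) : ∃ f, FH c c' e t Sd BG rk f := by
  have key : ∀ w, ∃ z, w ∈ Dd c t Sd BG → 1 ≤ e w → z ∈ c' w ∧ 1 ≤ e z ∧
      (PenP c c' e w → (c z).card = 1) ∧ ¬ (DJ c t Sd z ∧ low c e rk z) := by
    intro w
    by_cases hw : w ∈ Dd c t Sd BG ∧ 1 ≤ e w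
    · obtain ⟨hw, h1⟩ := hw
      obtain ⟨wS, wB, tw, cw⟩ := mem_Dd.1 hw
      by_cases hp : PenP c c' e w
      · obtain ⟨z, z1, z2, z3⟩ := id hp
        refine ⟨z, fun _ _ => ⟨z1, z2, fun _ => z3, ?_⟩⟩
        rintro ⟨⟨-, -, h, -⟩, -⟩
        omega
      · obtain ⟨z, z1, z2⟩ := H.touch w wS tw cw wB h1
        by_cases hl : low c e rk z
        · obtain ⟨z', y1, y2, y3, y4⟩ := hl
          have hwz : w ∈ c z := (H.S.dual _ _).2 z1
          have hz' : z' ∈ c' w := (H.S.dual _ _).1 (y1 ▸ hwz)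
          refine ⟨z', fun _ _ => ⟨hz', y3, fun h => absurd h hp, ?_⟩⟩
          rintro ⟨-, z'', x1, x2, x3, x4⟩
          have hz'' : z'' ∈ c' w := (H.S.dual _ _).1 (x1 ▸ y1 ▸ hwz)
          have := third (H.S.c2' w) z1 hz' hz'' y2.symm x2
          subst this
          exact lt_asymm y4 x4
        · exact ⟨z, fun _ _ => ⟨z1, z2, fun h => absurd h hp, fun h => hl h.2⟩⟩
    · exact ⟨w, fun h1 h2 => absurd ⟨h1, h2⟩ hw⟩
  choose f hf using key
  exact ⟨f, fun w hw h1 => hf w hw h1⟩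

/-- sums over the covers -/
lemma sum_pair {z w w2 : P} (h : c z = {w, w2}) (hne : w ≠ w2) (F : P → ℤ) :
    ∑ y ∈ c z, F y = F w + F w2 := by rw [h, Finset.sum_pair hne]

/-- a join without twin can pay -/
lemma Hyp.at_two (hr : ∀ y z, rk y = rk z → y = z) (hf : FH c c' e t Sd BG rk f) {z : P}
    (hz : z ∈ Sd) (tz : t z = 2) (hn : ¬ (DJ c t Sd z ∧ 1 ≤ e z ∧ (low c e rk z ∨ upp c e rk z))) :
    ∑ w ∈ c z, pc c c' e t Sd BG f w z ≤ sv c c' e z + ∑ w ∈ c z, gp c e t Sd BG w z +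
      ∑ u ∈ c' z, r3 c c' e t z u + ∑ s ∈ c z, ns c c' e t Sd s + 4 * (if z ∈ EX then 1 else 0) := by
  have x0 : (0 : ℤ) ≤ (if z ∈ EX then 1 else 0) := by split_ifs <;> omega
  have g0 : 0 ≤ ∑ w ∈ c z, gp c e t Sd BG w z := sum_nonneg (fun _ _ => gp_nonneg _ _)
  have g1 : 0 ≤ ∑ u ∈ c' z, r3 c c' e t z u := sum_nonneg (fun _ _ => r3_nonneg _ _)
  have g2 : 0 ≤ ∑ s ∈ c z, ns c c' e t Sd s := sum_nonneg (fun _ _ => ns_nonneg _)
  by_cases h0 : e z = 0
  · rw [sum_eq_zero (fun w _ => H.fzero hf h0), H.sv_zero h0]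
    omega
  have hc := H.S.c2 z
  have hc1 : 1 ≤ (c z).card := card_pos.2 (H.S.ne z hz)
  by_cases hc2 : (c z).card = 1
  · obtain ⟨w, hw⟩ := card_eq_one.1 hc2
    have h1 := sv_single_ge (c' := c') (e := e) H.S hw
    have h2 := H.fpen hf (w := w) (z := z)
    have h3 : ∑ w ∈ c z, pc c c' e t Sd BG f w z = pc c c' e t Sd BG f w z := by
      rw [hw, sum_singleton]
    rw [h3]
    omega
  obtain ⟨w, w2, hne, hcz⟩ := card_eq_two.1 (by omega : (c z).card = 2)
  have hw : w ∈ c z := by rw [hcz]; simp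
  have hw2 : w2 ∈ c z := by rw [hcz]; simp
  obtain ⟨wS, tw⟩ := H.cov hz (by omega) hw
  obtain ⟨w2S, tw2⟩ := H.cov hz (by omega) hw2
  have zw : z ∈ c' w := (H.S.dual _ _).1 hw
  have zw2 : z ∈ c' w2 := (H.S.dual _ _).1 hw2
  have l1 := H.fle_two hf zw (by omega)
  have l2 := H.fle_two hf zw2 (by omega)
  have c1 : (c w).card = 1 ∨ (c w).card = 2 := by
    have := H.S.c2 w
    have : 1 ≤ (c w).card := card_pos.2 (H.S.ne w wS)
    omega
  have c2 : (c w2).card = 1 ∨ (c w2).card = 2 := by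
    have := H.S.c2 w2
    have : 1 ≤ (c w2).card := card_pos.2 (H.S.ne w2 w2S)
    omega
  have nd : ∀ y, (c y).card = 1 → y ∉ Dd c t Sd BG := by
    intro y hy h
    have := (mem_Dd.1 h).2.2.2
    omega
  rw [sum_pair H hcz hne] at g2 ⊢
  rw [sum_pair H hcz hne (fun s => ns c c' e t Sd s)]
  rcases c1 with c1 | c1 <;> rcases c2 with c2 | c2
  · rw [H.f_out (nd w c1), H.f_out (nd w2 c2)]
    have := H.singles hz tz hcz c1 c2 (by omega)
    omega
  · have hcz' : c z = {w2, w} := by rw [hcz, pair_comm]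
    rw [H.f_out (nd w c1)]
    have := H.semi hz tz hcz' hne.symm c2 c1 (by omega) l2 (fun h => by
      rw [H.f_sk ⟨w, mem_Sn.2 ⟨wS, by omega, c1⟩, h⟩])
    have := ns_nonneg (c := c) (c' := c') (e := e) (t := t) (Sd := Sd) w2
    omega
  · rw [H.f_out (nd w2 c2)]
    have := H.semi hz tz hcz hne c1 c2 (by omega) l1 (fun h => by
      rw [H.f_sk ⟨w2, mem_Sn.2 ⟨w2S, by omega, c2⟩, h⟩])
    have := ns_nonneg (c := c) (c' := c') (e := e) (t := t) (Sd := Sd) w
    omega
  · have hDJ : DJ c t Sd z := by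
      refine ⟨hz, tz, by omega, ?_⟩
      intro y hy
      rw [hcz, mem_insert, mem_singleton] at hy
      rcases hy with rfl | rfl <;> assumption
    have htw : ∀ z', c z' = c z → z' ≠ z → e z' = 0 := by
      intro z' h1 h2
      by_contra h3
      rcases lt_total (e := e) hr h2 with h4 | h4
      · exact hn ⟨hDJ, by omega, Or.inl ⟨z', h1, h2, by omega, h4⟩⟩
      · exact hn ⟨hDJ, by omega, Or.inr ⟨z', h1, h2, by omega, h4⟩⟩
    obtain ⟨w3, p, x, q, T⟩ := H.ts hDJ hw
    have hw3 : w3 = w2 := by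
      have h1 : w3 ∈ c z := by rw [T.cz]; simp
      rw [hcz, mem_insert, mem_singleton] at h1
      rcases h1 with h1 | h1
      · exact absurd h1.symm T.ne
      · exact h1
    subst hw3
    have b1 := H.fle hf zw (by omega : (c z).card = 2)
    have b2 := H.fle hf zw2 (by omega : (c z).card = 2)
    by_cases hEX : z ∈ EX
    · have := T.rule_ex H (by omega) (fun z' h => htw z' (by rw [h, hcz]))
      rw [if_pos hEX]
      omega
    have hmain := T.rule H hEX (by omega) (fun z' h => htw z' (by rw [h, hcz])) g0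
      (r := ∑ w ∈ c z, gp c e t Sd BG w z) (R := ∑ u ∈ c' z, r3 c c' e t z u) (by
        intro h2 hkl hgu
        obtain ⟨a, ha, hle⟩ := id hgu
        have hZ : Z2 c e t Sd z := ⟨hDJ, h2, hkl, hgu, htw⟩
        obtain ⟨b, hb, hlt⟩ := id hkl
        have hbS := (H.cov hz (by omega) hb).1
        have haS := (H.cov hz (by omega) ha)
        have hab : a ≠ b := by
          rintro rfl
          omega
        have hx : ∃ y ∈ c b, y ∈ c a := by
          obtain ⟨y, y1, y2⟩ := H.hT z hz tz b hb a ha hab.symm (hDJ.2.2.2 b hb)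
          exact ⟨y, y1, y2⟩
        obtain ⟨y, y1, y2⟩ := hx
        have hy := H.kill hbS ((H.S.dual _ _).1 hb) hlt y y1
        have haD : a ∈ Dd c t Sd BG := by
          rw [mem_Dd]
          refine ⟨haS.1, ?_, by omega, hDJ.2.2.2 a ha⟩
          intro hB
          have := H.bg a hB y y2
          omega
        calc (1 : ℤ) = gp c e t Sd BG a z := by
              unfold gp
              rw [if_pos ⟨hZ, hle, haD⟩]
          _ ≤ _ := single_le_sum (f := fun w => gp c e t Sd BG w z)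
                (fun _ _ => gp_nonneg _ _) ha) g1 (by
        intro u hu h2 h3
        obtain ⟨uS, tu, -⟩ := H.ch hz hu
        calc (4 : ℤ) = r3 c c' e t z u := by
              unfold r3
              rw [if_pos ⟨h2, by omega, by omega⟩, if_pos h3]
          _ ≤ _ := single_le_sum (f := fun u => r3 c c' e t z u) (fun _ _ => r3_nonneg _ _) hu) (by
        intro u hu h2 h3
        obtain ⟨uS, tu, -⟩ := H.ch hz hu
        calc (2 : ℤ) ≤ r3 c c' e t z u := by
              unfold r3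
              rw [if_pos ⟨h2, by omega, by omega⟩, if_neg h3]
              split_ifs <;> omega
          _ ≤ _ := single_le_sum (f := fun u => r3 c c' e t z u) (fun _ _ => r3_nonneg _ _) hu) (by
        intro u hu h2 h3 h4
        obtain ⟨uS, tu, -⟩ := H.ch hz hu
        calc (4 : ℤ) ≤ r3 c c' e t z u := by
              unfold r3
              rw [if_pos ⟨h2, by omega, by omega⟩, if_neg h3, if_pos h4]
              split_ifs <;> omega
          _ ≤ _ := single_le_sum (f := fun u => r3 c c' e t z u) (fun _ _ => r3_nonneg _ _) hu)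
    omega

end basic

end Pool.Agent.GaussPoset.Win.Rd
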