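import Pool.Agent.W_448rd_h10.RdD

/-!
MP_448cb3_co, G2, window `j - 1`: the inequality for reduced cores, one side.  helper10.
-/

namespace Pool.Agent.GaussPoset.Win.Rd

set_option linter.unusedSectionVars false

open Finset I2 K2
open Pool.Agent.GaussPoset.Win.H2 (SdT)

universe u

variable {P : Type u} [DecidableEq P]
variable {c c' : P → Finset P} {e : P → ℕ} {t : P → ℕ} {V Sd BG EX : Finset P}

section defs

variable (c c' : P → Finset P) (e : P → ℕ) (t : P → ℕ) (Sd BG : Finset P)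

/-- the larger one of two positive twins kills, the other one does not -/
def TWp (z : P) : Prop := DJ c t Sd z ∧ kl c e z ∧ ∃ z', c z' = c z ∧ z' ≠ z ∧ 1 ≤ e z' ∧ ¬ kl c e z'

open Classical in
/-- pairs of positive twins, one of them kills -/
noncomputable def TW : Finset P := Sd.filter (fun z => TWp c e t Sd z)

/-- the exact pattern `2, 1, 1, 1`, the outer sites are killed by one element only -/
def TWq (z : P) : Prop := TWp c e t Sd z ∧ e z = 2 ∧ (∀ z', c z' = c z → z' ≠ z → e z' = 1) ∧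
  ∀ w ∈ c z, e w = 1 ∧ ∀ y ∈ c w, e y = 0 ∧ ∀ v ∈ c' y, v ∉ c z → e v = 0

open Classical in
/-- pairs of positive twins with the exact pattern -/
noncomputable def TWx : Finset P := Sd.filter (fun z => TWq c c' e t Sd z)

open Classical in
/-- double elements with label one which kill one site alone and are guarded by the other one -/
noncomputable def N4 : Finset P := (Dd c t Sd BG).filter (fun w => sv c c' e w = -4 ∧ gu c e w)

open Classical in
/-- double elements with label one which kill both sites alone, with one child of label one -/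
noncomputable def P1 : Finset P :=
  (Dd c t Sd BG).filter (fun w => N4a c c' e w ∧ ∑ z ∈ c' w, e z = 1)

/-- a child `q` with label one of the pendant of `y`, not shared -/
def RQ (q y : P) : Prop := y ∈ P1 c c' e t Sd BG ∧ q ∈ Sd ∧ t q = 3 ∧ e q = 1 ∧
  (∃ p ∈ c q, y ∈ c p ∧ 1 ≤ e p) ∧
  ∀ y' ∈ P1 c c' e t Sd BG, ∀ p' ∈ c q, y' ∈ c p' → 1 ≤ e p' → y' = y

open Classical in
/-- the elements of `P1` without positive grandchildren (which are not shared) -/
noncomputable def P1s : Finset P := (P1 c c' e t Sd BG).filter (fun y => ∀ q, ¬ RQ c c' e t Sd BG q y)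

open Classical in
/-- elements at distance two -/
noncomputable def T2 : Finset P := Sd.filter (fun z => t z = 2)

open Classical in
/-- elements at distance three -/
noncomputable def T3 : Finset P := Sd.filter (fun z => t z = 3)

open Classical in
/-- elements at distance at least four -/
noncomputable def T4 : Finset P := Sd.filter (fun z => 4 ≤ t z)

end defs

lemma mem_T2 {z : P} : z ∈ T2 t Sd ↔ z ∈ Sd ∧ t z = 2 := by unfold T2; rw [mem_filter]
lemma mem_T3 {z : P} : z ∈ T3 t Sd ↔ z ∈ Sd ∧ t z = 3 := by unfold T3; rw [mem_filter]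

/-- the sum of `q4` -/
lemma q4_sum {A : Finset P} (e : P → ℕ) (h : 2 ≤ ∑ z ∈ A, e z) : 4 ≤ ∑ z ∈ A, q4 (e z) := by
  by_cases hb : ∃ z ∈ A, 2 ≤ e z
  · obtain ⟨z, hz, h2⟩ := hb
    calc (4 : ℤ) = q4 (e z) := by
          unfold q4
          rw [if_neg (by omega), if_neg (by omega)]
      _ ≤ _ := single_le_sum (f := fun z => q4 (e z)) (fun _ _ => q4_nonneg _) hz
  · push Not at hb
    have h1 : ∑ z ∈ A, q4 (e z) = ∑ z ∈ A, 2 * ((e z : ℕ) : ℤ) := by
      apply sum_congr rfl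
      intro z hz
      have := hb z hz
      unfold q4
      split_ifs <;> omega
    rw [h1, ← mul_sum]
    have h2 : ((∑ z ∈ A, e z : ℕ) : ℤ) = ∑ z ∈ A, ((e z : ℕ) : ℤ) := by push_cast; rfl
    omega

section basic

variable (H : Hyp c c' e t V Sd BG EX) {rk : P → ℕ} {f : P → P}
include H

/-- a guard kills the common site together with the other cover -/
lemma Hyp.guard {w z : P} (hw : w ∈ Dd c t Sd BG) (hz : z ∈ c' w) (h : Z2 c e t Sd z)
    (hle : e z ≤ e w) : ∃ w2 p x q, TS c c' t Sd z w w2 p x q ∧ e x = 0 ∧ e w2 = 1 := by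
  obtain ⟨hDJ, h2, hkl, -, -⟩ := h
  have hwz : w ∈ c z := (H.S.dual _ _).2 hz
  obtain ⟨w2, p, x, q, T⟩ := H.ts hDJ hwz
  refine ⟨w2, p, x, q, T, ?_⟩
  have h3 : e w2 < e z := by
    rw [kl_two H.S T.cz T.ne] at hkl
    omega
  have h4 := H.kill (T.symm.wS H) (T.symm.z_mem H) h3 x (T.symm.x_mem H)
  omega

/-- the local inequality at a near double element -/
lemma Hyp.at_D (hf : FH c c' e t Sd BG rk f) {w : P} (hw : w ∈ Dd c t Sd BG) :
    (open Classical in
    ∑ z ∈ c' w, gp c e t Sd BG w z ≤ sv c c' e w + ∑ z ∈ c' w, pc c c' e t Sd BG f w z +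
      (((Sn c t Sd).filter (fun s => SKr c c' e s w)).card : ℤ) +
      2 * (if sv c c' e w = -4 ∧ gu c e w then 1 else 0) +
      2 * (if N4a c c' e w ∧ ∑ z ∈ c' w, e z = 1 then 1 else 0)) := by
  classical
  have p0 : 0 ≤ ∑ z ∈ c' w, pc c c' e t Sd BG f w z := sum_nonneg (fun _ _ => pc_nonneg _ _ _)
  have i1 : (0 : ℤ) ≤ (if sv c c' e w = -4 ∧ gu c e w then 1 else 0) := by split_ifs <;> omega
  have i2 : (0 : ℤ) ≤ (if N4a c c' e w ∧ ∑ z ∈ c' w, e z = 1 then 1 else 0) := by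
    split_ifs <;> omega
  obtain ⟨wS, wB, tw, cw⟩ := mem_Dd.1 hw
  have hgs : ∑ z ∈ c' w, gp c e t Sd BG w z =
      (((c' w).filter (fun z => Z2 c e t Sd z ∧ e z ≤ e w)).card : ℤ) := by
    rw [← sum_boole]
    apply sum_congr rfl
    intro z hz
    unfold gp
    by_cases h : Z2 c e t Sd z ∧ e z ≤ e w
    · rw [if_pos h, if_pos ⟨h.1, h.2, hw⟩]
    · rw [if_neg h, if_neg]
      rintro ⟨h1, h2, -⟩
      exact h ⟨h1, h2⟩
  rw [hgs]
  have hcard : ((c' w).filter (fun z => Z2 c e t Sd z ∧ e z ≤ e w)).card ≤ 2 :=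
    (card_le_card (filter_subset _ _)).trans (H.S.c2' w)
  by_cases hne : ((c' w).filter (fun z => Z2 c e t Sd z ∧ e z ≤ e w)).Nonempty
  · obtain ⟨z, hz⟩ := hne
    rw [mem_filter] at hz
    obtain ⟨z1, z2, z3⟩ := hz
    obtain ⟨w2, p, x, q, T, ex, ew2⟩ := H.guard hw z1 z2 z3
    have ez : e z = 2 := z2.2.1
    obtain ⟨s1, s2⟩ := T.sv_co H (by omega) (by omega)
    by_cases hc : ((c' w).filter (fun z => Z2 c e t Sd z ∧ e z ≤ e w)).card = 2
    · obtain ⟨z', hne, hpr⟩ := pair_of hc (mem_filter.2 ⟨z1, z2, z3⟩ : z ∈ _)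
      have hz' : z' ∈ (c' w).filter (fun z => Z2 c e t Sd z ∧ e z ≤ e w) := by rw [hpr]; simp
      rw [mem_filter] at hz'
      obtain ⟨y1, y2, y3⟩ := hz'
      obtain ⟨w2', p', x', q', T', ex', ew2'⟩ := H.guard hw y1 y2 y3
      have hx' : x' ∈ c w := T'.x_mem H
      rw [T.cw, mem_insert, mem_singleton] at hx'
      rcases hx' with hx' | hx'
      · subst hx'
        have h5 := s2 (by omega)
        have h6 : nk c' e w x' = 0 :=
          nk_zero ⟨w2', by rw [T'.dx]; simp, T'.ne.symm, by omega⟩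
        rw [h6] at h5
        omega
      · exfalso
        subst hx'
        have h5 : w2' ∈ c' x' := by rw [T'.dx]; simp
        rw [T.dx, mem_insert, mem_singleton] at h5
        rcases h5 with h5 | h5
        · exact T'.ne h5.symm
        · subst h5
          have h6 := z2.2.2.2.2 z' (by rw [T'.cz, T.cz]) hne
          have h7 : e z' = 2 := y2.2.1
          omega
    · omega
  · rw [not_nonempty_iff_eq_empty] at hne
    rw [hne, card_empty]
    by_cases hs : 0 ≤ sv c c' e w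
    · push_cast
      omega
    by_cases hk : SK c c' e t Sd w
    · have h1 := H.sk_ge hw hk
      obtain ⟨s, s1, s2⟩ := hk
      have h2 : 0 < ((Sn c t Sd).filter (fun s => SKr c c' e s w)).card :=
        card_pos.2 ⟨s, mem_filter.2 ⟨s1, s2⟩⟩
      push_cast
      omega
    have hcond : w ∈ Dd c t Sd BG ∧ ¬ SK c c' e t Sd w ∧ sv c c' e w < 0 :=
      ⟨hw, hk, by omega⟩
    have ew : 1 ≤ e w := by
      by_contra h
      have := H.sv_zero (z := w) (by omega)
      omega
    obtain ⟨o, x, hox, hcw⟩ := card_eq_two.1 cw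
    have hv := H.vals hcw hox (by omega)
    obtain ⟨f1, f2, f3, f4⟩ := hf w hw ew
    by_cases hN : N4a c c' e w
    · have h1 : ∑ z ∈ c' w, pc c c' e t Sd BG f w z = ∑ z ∈ c' w, q4 (e z) := by
        apply sum_congr rfl
        intro z hz
        unfold pc
        rw [if_pos hcond, if_pos hN]
      rw [h1] at p0 ⊢
      have h4 := hN.1
      by_cases h2 : ∑ z ∈ c' w, e z = 1
      · rw [if_pos (⟨hN, h2⟩ : N4a c c' e w ∧ ∑ z ∈ c' w, e z = 1)]
        have h5 : q4 (e (f w)) ≤ ∑ z ∈ c' w, q4 (e z) :=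
          single_le_sum (f := fun z => q4 (e z)) (fun _ _ => q4_nonneg _) f1
        have h6 : 2 ≤ q4 (e (f w)) := by
          unfold q4
          split_ifs <;> omega
        push_cast
        omega
      · have h3 : e (f w) ≤ ∑ z ∈ c' w, e z :=
          single_le_sum (f := fun z => e z) (fun _ _ => Nat.zero_le _) f1
        have h5 := q4_sum (A := c' w) e (by omega)
        push_cast
        omega
    · have h1 : clm (sv c c' e w) ≤ ∑ z ∈ c' w, pc c c' e t Sd BG f w z := by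
        calc clm (sv c c' e w) = pc c c' e t Sd BG f w (f w) := by
              unfold pc
              rw [if_pos hcond, if_neg hN, if_pos rfl]
          _ ≤ _ := single_le_sum (f := fun z => pc c c' e t Sd BG f w z)
                (fun _ _ => pc_nonneg _ _ _) f1
      by_cases h2 : sv c c' e w = -4
      · have h3 : gu c e w := by
          by_contra h3
          exact hN ⟨h2, h3⟩
        rw [if_pos ⟨h2, h3⟩]
        rw [h2] at h1 ⊢
        have : clm (-4) = 2 := rfl
        push_cast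
        omega
      · have h3 : -(sv c c' e w) ≤ clm (sv c c' e w) := by
          unfold clm
          split_ifs <;> omega
        push_cast
        omega

/-- the local inequality at a near single element -/
lemma Hyp.at_S {s : P} (hs : s ∈ Sn c t Sd) :
    (open Classical in
    ∑ _z ∈ c' s, ns c c' e t Sd s + (((Dd c t Sd BG).filter (fun w => SKr c c' e s w)).card : ℤ) ≤
      sv c c' e s) := by
  classical
  have hs' := mem_Sn.1 hs
  have hSN : SN c c' t Sd s := hs'
  obtain ⟨x, hx⟩ := card_eq_one.1 hs'.2.2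
  have hsub : (Dd c t Sd BG).filter (fun w => SKr c c' e s w) ⊆ (c' x).erase s := by
    intro w hw
    rw [mem_filter] at hw
    obtain ⟨h1, h2, h3, y, y1, y2, y3, y4⟩ := hw
    rw [hx, mem_singleton] at y1
    subst y1
    exact mem_erase.2 ⟨h3.symm, (H.S.dual _ _).1 y2⟩
  have hsx : s ∈ c' x := (H.S.dual _ _).1 (by rw [hx]; simp)
  have hcard : ((Dd c t Sd BG).filter (fun w => SKr c c' e s w)).card ≤ 1 := by
    have h1 := card_le_card hsub
    rw [card_erase_of_mem hsx] at h1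
    have := H.S.c2' x
    omega
  have := H.single hSN (k := (c' s).card)
    (m := ((Dd c t Sd BG).filter (fun w => SKr c c' e s w)).card) (H.S.c2' s) hcard (by
      intro h0
      obtain ⟨w, hw⟩ := card_pos.1 h0
      rw [mem_filter] at hw
      obtain ⟨h1, h2, h3, y, y1, y2, y3, y4⟩ := hw
      exact ⟨y, y1, y3, w, (H.S.dual _ _).1 y2, h3.symm, y4⟩)
  rw [sum_const, nsmul_eq_mul, mul_comm]
  exact this

/-- a positive twin is unique -/
lemma Hyp.twin_unique {z a b : P} (hz : (c z).Nonempty) (ha : c a = c z) (hb : c b = c z)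
    (ha2 : a ≠ z) (hb2 : b ≠ z) : a = b := by
  obtain ⟨w, hw⟩ := hz
  have h1 : z ∈ c' w := (H.S.dual _ _).1 hw
  have h2 : a ∈ c' w := (H.S.dual _ _).1 (ha ▸ hw)
  have h3 : b ∈ c' w := (H.S.dual _ _).1 (hb ▸ hw)
  exact third (H.S.c2' w) h3 h1 h2 hb2 ha2

/-- the local inequality for two twins -/
lemma Hyp.at_pair (hf : FH c c' e t Sd BG rk f) {z z' : P} (hz : DJ c t Sd z)
    (h' : c z' = c z) (hne : z' ≠ z) (h1 : 1 ≤ e z') (hlt : lt e rk z' z) :
    (open Classical in
    ∑ w ∈ c z, pc c c' e t Sd BG f w z + ∑ w ∈ c z', pc c c' e t Sd BG f w z' ≤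
      (sv c c' e z + ∑ w ∈ c z, gp c e t Sd BG w z +
      ∑ u ∈ c' z, r3 c c' e t z u + ∑ s ∈ c z, ns c c' e t Sd s) +
      (sv c c' e z' + ∑ w ∈ c z', gp c e t Sd BG w z' +
      ∑ u ∈ c' z', r3 c c' e t z' u + ∑ s ∈ c z', ns c c' e t Sd s) +
      ((if TWp c e t Sd z then 1 else 0) + (if TWq c c' e t Sd z then 1 else 0))) := by
  classical
  have g0 : ∀ z, 0 ≤ ∑ w ∈ c z, gp c e t Sd BG w z := fun z => sum_nonneg (fun _ _ => gp_nonneg _ _)
  have g1 : ∀ z, 0 ≤ ∑ u ∈ c' z, r3 c c' e t z u := fun z => sum_nonneg (fun _ _ => r3_nonneg _ _)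
  have g2 : ∀ z, 0 ≤ ∑ s ∈ c z, ns c c' e t Sd s := fun z => sum_nonneg (fun _ _ => ns_nonneg _)
  have a1 := g0 z
  have a2 := g0 z'
  have a3 := g1 z
  have a4 := g1 z'
  have a5 := g2 z
  have a6 := g2 z'
  obtain ⟨zS, tz, cz2, hd⟩ := id hz
  obtain ⟨w, hw⟩ := H.S.ne z zS
  obtain ⟨w2, p, x, q, T⟩ := H.ts hz hw
  have hz'w : z' ∈ c' w := (H.S.dual _ _).1 (h' ▸ hw)
  obtain ⟨z'S, tz', -⟩ := H.ch (T.wS H) hz'w
  have tw := T.tw H
  have hDJ' : DJ c t Sd z' := ⟨z'S, by omega, by rw [h']; exact cz2, by rw [h']; exact hd⟩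
  have hle : e z' ≤ e z := by
    unfold lt at hlt
    omega
  have hlow : low c e rk z' := ⟨z, h'.symm, hne.symm, by omega, hlt⟩
  have b0 : ∑ w ∈ c z', pc c c' e t Sd BG f w z' = 0 := by
    apply sum_eq_zero
    intro y hy
    exact H.flow hf ((H.S.dual _ _).1 hy) hDJ' hlow
  have b1 := H.fle hf (T.z_mem H) cz2
  have b2 := H.fle hf (T.symm.z_mem H) cz2
  have tp : (0 : ℤ) ≤ (if TWp c e t Sd z then 1 else 0) := by split_ifs <;> omega
  have tq : (0 : ℤ) ≤ (if TWq c c' e t Sd z then 1 else 0) := by split_ifs <;> omega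
  have b3 := H.twins T (by rw [h', T.cz]) hne h1 hle
    (k := (if TWp c e t Sd z then 1 else 0) + (if TWq c c' e t Sd z then 1 else 0))
    (by omega) (by
      intro h2 h3
      have hp' : TWp c e t Sd z := ⟨hz, h2, z', h', hne, h1, h3⟩
      rw [if_pos hp']
      omega) (by
      intro x1 x2 x3 x4 x5 x6
      have hkz : kl c e z := ⟨w, T.w_mem H, by omega⟩
      have hkz' : ¬ kl c e z' := by
        rw [kl_two H.S (by rw [h', T.cz] : c z' = {w, w2}) T.ne]
        omega
      have hp : TWp c e t Sd z := ⟨hz, hkz, z', h', hne, h1, hkz'⟩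
      have k1 := H.kill (T.wS H) (T.z_mem H) (by omega)
      have k2 := H.kill (T.symm.wS H) (T.symm.z_mem H) (by omega)
      have y1 := k1 x (T.x_mem H)
      have y2 := k1 p (T.p_mem H)
      have y3 := k2 q (T.symm.p_mem H)
      have hcz : c z = {w, w2} := T.cz
      have np : ∀ v ∈ c' p, v ∉ c z → e v = 0 := by
        intro v hv hvz
        by_contra h0
        have : nk c' e w p = 0 := nk_zero ⟨v, hv, fun h => hvz (h ▸ T.w_mem H), by omega⟩
        omega
      have nq : ∀ v ∈ c' q, v ∉ c z → e v = 0 := by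
        intro v hv hvz
        by_contra h0
        have : nk c' e w2 q = 0 := nk_zero ⟨v, hv, fun h => hvz (h ▸ T.symm.w_mem H), by omega⟩
        omega
      have nx : ∀ v ∈ c' x, v ∉ c z → e v = 0 := by
        intro v hv hvz
        rw [T.dx, ← T.cz] at hv
        exact absurd hv hvz
      have hq : TWq c c' e t Sd z := by
        refine ⟨hp, x1, ?_, ?_⟩
        · intro z'' h3 h4
          have := H.twin_unique (z := z) ⟨w, T.w_mem H⟩ h3 h' h4 hne
          rw [this]
          exact x2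
        · intro y hy
          rw [hcz, mem_insert, mem_singleton] at hy
          rcases hy with rfl | rfl
          · refine ⟨x3, ?_⟩
            intro y hy
            rw [T.cw, mem_insert, mem_singleton] at hy
            rcases hy with rfl | rfl
            · exact ⟨by omega, np⟩
            · exact ⟨by omega, nx⟩
          · refine ⟨x4, ?_⟩
            intro y hy
            rw [T.cw2, mem_insert, mem_singleton] at hy
            rcases hy with rfl | rfl
            · exact ⟨by omega, nx⟩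
            · exact ⟨by omega, nq⟩
      rw [if_pos hp, if_pos hq]
      omega)
  have b4 : ∑ w ∈ c z, pc c c' e t Sd BG f w z =
      pc c c' e t Sd BG f w z + pc c c' e t Sd BG f w2 z :=
    sum_pair H T.cz T.ne (fun w => pc c c' e t Sd BG f w z)
  rw [b0, b4]
  omega

/-- the sum over the elements at distance two -/
lemma Hyp.sum_two (hr : ∀ y z, rk y = rk z → y = z) (hf : FH c c' e t Sd BG rk f) :
    ∑ z ∈ T2 t Sd, ∑ w ∈ c z, pc c c' e t Sd BG f w z ≤
      ∑ z ∈ T2 t Sd, (sv c c' e z + ∑ w ∈ c z, gp c e t Sd BG w z +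
      ∑ u ∈ c' z, r3 c c' e t z u + ∑ s ∈ c z, ns c c' e t Sd s) +
      ((TW c e t Sd).card + (TWx c c' e t Sd).card) + 4 * EX.card := by
  classical
  obtain ⟨X, hX⟩ : ∃ X : P → ℤ, X = fun z => ∑ w ∈ c z, pc c c' e t Sd BG f w z := ⟨_, rfl⟩
  obtain ⟨Y, hY⟩ : ∃ Y : P → ℤ, Y = fun z => (sv c c' e z + ∑ w ∈ c z, gp c e t Sd BG w z +
      ∑ u ∈ c' z, r3 c c' e t z u + ∑ s ∈ c z, ns c c' e t Sd s) := ⟨_, rfl⟩
  suffices hs : ∑ z ∈ T2 t Sd, X z ≤ ∑ z ∈ T2 t Sd, Y z +
      ((TW c e t Sd).card + (TWx c c' e t Sd).card) + 4 * EX.card by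
    rw [hX, hY] at hs
    exact hs
  -- the partition
  obtain ⟨G, hG⟩ : ∃ G, G = (T2 t Sd).filter (fun z => DJ c t Sd z ∧ 1 ≤ e z ∧ upp c e rk z) :=
    ⟨_, rfl⟩
  obtain ⟨L, hL⟩ : ∃ L, L = (T2 t Sd).filter (fun z => DJ c t Sd z ∧ 1 ≤ e z ∧ low c e rk z) :=
    ⟨_, rfl⟩
  obtain ⟨B, hB⟩ : ∃ B, B = (T2 t Sd).filter
      (fun z => ¬ (DJ c t Sd z ∧ 1 ≤ e z ∧ (low c e rk z ∨ upp c e rk z))) := ⟨_, rfl⟩
  have hDne : ∀ z, DJ c t Sd z → (c z).Nonempty := fun z h => H.S.ne z h.1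
  have hGL : ∀ z, z ∈ G → z ∉ L := by
    intro z h1 h2
    rw [hG, mem_filter] at h1
    rw [hL, mem_filter] at h2
    obtain ⟨-, hd, -, a, a1, a2, a3, a4⟩ := h1
    obtain ⟨-, -, -, b, b1, b2, b3, b4⟩ := h2
    have := H.twin_unique (hDne z hd) a1 b1 a2 b2
    subst this
    exact lt_asymm a4 b4
  have split : ∀ F : P → ℤ, ∑ z ∈ T2 t Sd, F z = ∑ z ∈ B, F z + ∑ z ∈ G, F z + ∑ z ∈ L, F z := by
    intro F
    rw [← sum_filter_not_add_sum_filter (T2 t Sd)
      (fun z => (DJ c t Sd z ∧ 1 ≤ e z ∧ (low c e rk z ∨ upp c e rk z))) F, ← hB, add_assoc,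
      ← sum_union (disjoint_left.2 hGL)]
    congr 1
    apply sum_congr _ (fun _ _ => rfl)
    ext z
    rw [hG, hL]
    simp only [mem_filter, mem_union]
    tauto
  obtain ⟨tw, htw⟩ : ∃ tw : P → P, ∀ z, (∃ z', c z' = c z ∧ z' ≠ z ∧ 1 ≤ e z') →
      (c (tw z) = c z ∧ tw z ≠ z ∧ 1 ≤ e (tw z)) := by
    have : ∀ z, ∃ y, (∃ z', c z' = c z ∧ z' ≠ z ∧ 1 ≤ e z') →
        (c y = c z ∧ y ≠ z ∧ 1 ≤ e y) := by
      intro z
      by_cases h : ∃ z', c z' = c z ∧ z' ≠ z ∧ 1 ≤ e z'
      · obtain ⟨y, hy⟩ := h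
        exact ⟨y, fun _ => hy⟩
      · exact ⟨z, fun h' => absurd h' h⟩
    choose tw htw using this
    exact ⟨tw, htw⟩
  have hGt : ∀ z ∈ G, DJ c t Sd z ∧ 1 ≤ e z ∧ c (tw z) = c z ∧ tw z ≠ z ∧ 1 ≤ e (tw z) ∧
      lt e rk (tw z) z := by
    intro z h1
    rw [hG, mem_filter] at h1
    obtain ⟨-, hd, h2, a, a1, a2, a3, a4⟩ := h1
    obtain ⟨b1, b2, b3⟩ := htw z ⟨a, a1, a2, a3⟩
    have := H.twin_unique (hDne z hd) a1 b1 a2 b2
    rw [this] at a4
    exact ⟨hd, h2, b1, b2, b3, a4⟩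
  have hLG : ∀ F : P → ℤ, ∑ z ∈ L, F z = ∑ z ∈ G, F (tw z) := by
    intro F
    symm
    apply sum_nbij tw
    · intro z hz
      obtain ⟨d1, d2, d3, d4, d5, d6⟩ := hGt z hz
      obtain ⟨w, hw⟩ := hDne z d1
      have hwS := H.cov d1.1 (by rw [d1.2.1]) hw
      obtain ⟨y1, y2, -⟩ := H.ch hwS.1 ((H.S.dual _ _).1 (d3.symm ▸ hw) : tw z ∈ c' w)
      have y3 : t (tw z) = 2 := by
        have := d1.2.1
        omega
      rw [hL, mem_filter, mem_T2]
      exact ⟨⟨y1, y3⟩, ⟨y1, y3, by rw [d3]; exact d1.2.2.1, by rw [d3]; exact d1.2.2.2⟩, d5,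
        z, d3.symm, d4.symm, d2, d6⟩
    · intro z hz y hy hzy
      obtain ⟨d1, d2, d3, d4, d5, d6⟩ := hGt z hz
      obtain ⟨f1, f2, f3, f4, f5, f6⟩ := hGt y hy
      rw [hzy] at d3 d4
      exact H.twin_unique (z := tw y) (by rw [f3]; exact hDne y f1) d3.symm f3.symm d4.symm f4.symm
    · intro y hy
      rw [mem_coe, hL, mem_filter, mem_T2] at hy
      obtain ⟨⟨y1, y2⟩, yD, y3, z, z1, z2, z3, z4⟩ := hy
      obtain ⟨w, hw⟩ := hDne y yD
      have hwS := H.cov y1 (by rw [y2]) hw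
      obtain ⟨x1, x2, -⟩ := H.ch hwS.1 ((H.S.dual _ _).1 (z1.symm ▸ hw) : z ∈ c' w)
      have x3 : t z = 2 := by omega
      have hzG : z ∈ G := by
        rw [hG, mem_filter, mem_T2]
        exact ⟨⟨x1, x3⟩, ⟨x1, x3, by rw [z1]; exact yD.2.2.1, by rw [z1]; exact yD.2.2.2⟩, z3,
          y, z1.symm, z2.symm, y3, z4⟩
      refine ⟨z, hzG, ?_⟩
      obtain ⟨d1, d2, d3, d4, d5, d6⟩ := hGt z hzG
      exact H.twin_unique (z := z) (hDne z d1) d3 z1.symm d4 z2.symm
    · intro z hz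
      rfl
  rw [split X, split Y, hLG X, hLG Y]
  have k1 : ∑ z ∈ B, X z ≤ ∑ z ∈ B, (Y z + 4 * (if z ∈ EX then 1 else 0)) := by
    apply sum_le_sum
    intro z hz
    rw [hB, mem_filter, mem_T2] at hz
    rw [hX, hY]
    exact H.at_two hr hf hz.1.1 hz.1.2 hz.2
  have k4 : ∑ z ∈ B, (4 * (if z ∈ EX then (1 : ℤ) else 0)) ≤ 4 * EX.card := by
    rw [← mul_sum, sum_boole]
    have : (B.filter (fun z => z ∈ EX)).card ≤ EX.card := by
      apply card_le_card
      intro z hz
      exact (mem_filter.1 hz).2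
    omega
  have k2 : ∑ z ∈ G, (X z + X (tw z)) ≤ ∑ z ∈ G, (Y z + Y (tw z) +
      ((if TWp c e t Sd z then 1 else 0) + (if TWq c c' e t Sd z then 1 else 0))) := by
    apply sum_le_sum
    intro z hz
    obtain ⟨d1, d2, d3, d4, d5, d6⟩ := hGt z hz
    rw [hX, hY]
    exact H.at_pair hf d1 d3 d4 d5 d6
  have k3 : ∑ z ∈ G, ((if TWp c e t Sd z then (1 : ℤ) else 0) +
      (if TWq c c' e t Sd z then (1 : ℤ) else 0)) ≤
      ((TW c e t Sd).card + (TWx c c' e t Sd).card) := by
    rw [sum_add_distrib, sum_boole, sum_boole]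
    have h1 : (G.filter (fun z => TWp c e t Sd z)).card ≤ (TW c e t Sd).card := by
      apply card_le_card
      intro z hz
      rw [mem_filter] at hz
      unfold TW
      rw [mem_filter]
      exact ⟨hz.2.1.1, hz.2⟩
    have h2 : (G.filter (fun z => TWq c c' e t Sd z)).card ≤ (TWx c c' e t Sd).card := by
      apply card_le_card
      intro z hz
      rw [mem_filter] at hz
      unfold TWx
      rw [mem_filter]
      exact ⟨hz.2.1.1.1, hz.2⟩
    omega
  rw [sum_add_distrib, sum_add_distrib] at k2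
  have k5 : ∑ z ∈ G, (Y z + Y (tw z)) = ∑ z ∈ G, Y z + ∑ z ∈ G, Y (tw z) := sum_add_distrib
  rw [k5] at k2
  rw [sum_add_distrib] at k1
  omega

/-- an element at distance three can also pay to the double element above its cover -/
lemma Hyp.at_T3 {u : P} (hu : u ∈ T3 t Sd) :
    (open Classical in
    ∑ z ∈ c u, r3 c c' e t z u + 2 * (((P1 c c' e t Sd BG).filter
      (fun y => RQ c c' e t Sd BG u y)).card : ℤ) ≤ sv c c' e u) := by
  classical
  rw [mem_T3] at hu
  by_cases hne : ((P1 c c' e t Sd BG).filter (fun y => RQ c c' e t Sd BG u y)).Nonempty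
  · obtain ⟨y, hy⟩ := hne
    have hR := (mem_filter.1 hy).2
    have hcard : ((P1 c c' e t Sd BG).filter (fun y => RQ c c' e t Sd BG u y)).card ≤ 1 := by
      rw [card_le_one]
      intro a ha b hb
      obtain ⟨a1, -, -, -, -, a5⟩ := (mem_filter.1 ha).2
      obtain ⟨b1, -, -, -, ⟨p, b2, b3, b4⟩, b5⟩ := (mem_filter.1 hb).2
      exact (a5 b b1 p b2 b3 b4).symm
    have h1 : e u = 1 := hR.2.2.2.1
    have hkl : ¬ kl c e u := by
      intro hkl
      have := K2.t_le_of_kl H.S H.adm _ u hu.1 hkl rfl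
      omega
    rw [sv_not_kl hkl, sum_eq_zero]
    · push_cast
      omega
    · intro z _
      unfold r3
      rw [if_neg (by omega)]
  · rw [not_nonempty_iff_eq_empty] at hne
    rw [hne, card_empty]
    have := H.three hu.1 hu.2
    push_cast
    omega

/-- the facts about `P1s` -/
lemma Hyp.P1s_spec {y : P} (hy : y ∈ P1s c c' e t Sd BG) {p q : P} (hp : p ∈ c' y) (h1 : 1 ≤ e p)
    (hq : q ∈ c' p) (h2 : 1 ≤ e q) :
    ∃ y' ∈ P1 c c' e t Sd BG, y' ≠ y ∧ ∃ p' ∈ c q, y' ∈ c p' ∧ 1 ≤ e p' := by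
  classical
  unfold P1s at hy
  rw [mem_filter] at hy
  obtain ⟨hy, hno⟩ := hy
  have hy' := hy
  unfold P1 at hy'
  rw [mem_filter, mem_Dd] at hy'
  obtain ⟨⟨yS, yB, ty, cy⟩, hN, hsum⟩ := hy'
  obtain ⟨pS, tp, yp⟩ := H.ch yS hp
  obtain ⟨qS, tq, pq⟩ := H.ch pS hq
  have h3 : e p ≤ ∑ z ∈ c' y, e z := single_le_sum (f := fun z => e z) (fun _ _ => Nat.zero_le _) hp
  have h4 := H.pos yS hp h1
  have h5 := H.le_of_gu pS hq yp (by omega)
  by_contra hcon
  push Not at hcon
  refine hno q ⟨hy, qS, by omega, by omega, ⟨p, pq, yp, h1⟩, ?_⟩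
  intro y' hy' p' hp' h6 h7
  by_contra hne
  have := hcon y' hy' hne p' hp' h6
  omega

/-- the inequality on one side -/
theorem Hyp.side (hr : ∀ y z, rk y = rk z → y = z) :
    -2 * (((N4 c c' e t Sd BG).card : ℤ) + (P1s c c' e t Sd BG).card) -
      ((TW c e t Sd).card + (TWx c c' e t Sd).card) - 4 * EX.card ≤
        ∑ z ∈ Sd \ BG, sv c c' e z := by
  classical
  obtain ⟨f, hf⟩ := H.exists_f hr
  -- decomposition
  have dec : ∑ z ∈ Sd \ BG, sv c c' e z = ∑ z ∈ Dd c t Sd BG, sv c c' e z +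
      ∑ z ∈ Sn c t Sd, sv c c' e z + ∑ z ∈ T2 t Sd, sv c c' e z + ∑ z ∈ T3 t Sd, sv c c' e z +
      ∑ z ∈ T4 t Sd, sv c c' e z := by
    have hbg : ∀ z ∈ BG, t z = 1 ∧ (c z).card = 2 := fun z hz => ⟨(H.bgt z hz).2.1, (H.bgt z hz).2.2⟩
    have e1 : Dd c t Sd BG = (Sd \ BG).filter (fun z => t z = 1 ∧ (c z).card = 2) := by
      ext z
      rw [mem_Dd, mem_filter, mem_sdiff]
      tauto
    have e2 : Sn c t Sd = (Sd \ BG).filter (fun z => t z = 1 ∧ (c z).card = 1) := by
      ext z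
      rw [mem_Sn, mem_filter, mem_sdiff]
      constructor
      · rintro ⟨a, b, d⟩
        refine ⟨⟨a, fun h => ?_⟩, b, d⟩
        have := (hbg z h).2
        omega
      · rintro ⟨⟨a, -⟩, b, d⟩
        exact ⟨a, b, d⟩
    have e3 : T2 t Sd = (Sd \ BG).filter (fun z => t z = 2) := by
      ext z
      rw [mem_T2, mem_filter, mem_sdiff]
      constructor
      · rintro ⟨a, b⟩
        refine ⟨⟨a, fun h => ?_⟩, b⟩
        have := (hbg z h).1
        omega
      · rintro ⟨⟨a, -⟩, b⟩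
        exact ⟨a, b⟩
    have e4 : T3 t Sd = (Sd \ BG).filter (fun z => t z = 3) := by
      ext z
      rw [mem_T3, mem_filter, mem_sdiff]
      constructor
      · rintro ⟨a, b⟩
        refine ⟨⟨a, fun h => ?_⟩, b⟩
        have := (hbg z h).1
        omega
      · rintro ⟨⟨a, -⟩, b⟩
        exact ⟨a, b⟩
    have e5 : T4 t Sd = (Sd \ BG).filter (fun z => 4 ≤ t z) := by
      ext z
      unfold T4
      rw [mem_filter, mem_filter, mem_sdiff]
      constructor
      · rintro ⟨a, b⟩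
        refine ⟨⟨a, fun h => ?_⟩, b⟩
        have := (hbg z h).1
        omega
      · rintro ⟨⟨a, -⟩, b⟩
        exact ⟨a, b⟩
    rw [e1, e2, e3, e4, e5]
    simp only [sum_filter]
    rw [← sum_add_distrib, ← sum_add_distrib, ← sum_add_distrib, ← sum_add_distrib]
    apply sum_congr rfl
    intro z hz
    rw [mem_sdiff] at hz
    have h1 := H.S.tS z hz.1
    have h2 := H.S.c2 z
    have h3 : 1 ≤ (c z).card := card_pos.2 (H.S.ne z hz.1)
    by_cases t1 : t z = 1
    · by_cases c1 : (c z).card = 1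
      · rw [if_neg (by omega), if_pos ⟨t1, c1⟩, if_neg (by omega), if_neg (by omega),
          if_neg (by omega)]
        ring
      · rw [if_pos ⟨t1, by omega⟩, if_neg (by omega), if_neg (by omega), if_neg (by omega),
          if_neg (by omega)]
        ring
    · by_cases t2 : t z = 2
      · rw [if_neg (by omega), if_neg (by omega), if_pos t2, if_neg (by omega), if_neg (by omega)]
        ring
      · by_cases t3 : t z = 3
        · rw [if_neg (by omega), if_neg (by omega), if_neg (by omega), if_pos t3,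
            if_neg (by omega)]
          ring
        · rw [if_neg (by omega), if_neg (by omega), if_neg (by omega), if_neg (by omega),
            if_pos (by omega)]
          ring
  -- local inequalities
  have i1 := sum_le_sum (fun w hw => H.at_D hf (w := w) hw)
  have i2 := sum_le_sum (fun s hs => H.at_S (s := s) hs)
  have i3 := H.sum_two hr hf
  have i4 := sum_le_sum (fun u hu => H.at_T3 (u := u) hu)
  have i5 : 0 ≤ ∑ z ∈ T4 t Sd, sv c c' e z := by
    apply sum_nonneg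
    intro z hz
    unfold T4 at hz
    rw [mem_filter] at hz
    exact sv_far H.S H.adm hz.1 (by omega)
  -- double counting
  have j1 : ∑ z ∈ T2 t Sd, ∑ w ∈ c z, pc c c' e t Sd BG f w z =
      ∑ w ∈ Dd c t Sd BG, ∑ z ∈ c' w, pc c c' e t Sd BG f w z := by
    apply dcount (F := fun w z => pc c c' e t Sd BG f w z) H.S.dual
    · intro z hz w hw h
      exact H.f_out h
    · intro w hw z hz h
      exfalso
      obtain ⟨a1, a2, a3, a4⟩ := mem_Dd.1 hw
      obtain ⟨b1, b2, -⟩ := H.ch a1 hz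
      exact h (mem_T2.2 ⟨b1, by omega⟩)
  have j2 : ∑ z ∈ T2 t Sd, ∑ w ∈ c z, gp c e t Sd BG w z =
      ∑ w ∈ Dd c t Sd BG, ∑ z ∈ c' w, gp c e t Sd BG w z := by
    apply dcount (F := fun w z => gp c e t Sd BG w z) H.S.dual
    · intro z hz w hw h
      unfold gp
      rw [if_neg (fun h2 => h h2.2.2)]
    · intro w hw z hz h
      exfalso
      obtain ⟨a1, a2, a3, a4⟩ := mem_Dd.1 hw
      obtain ⟨b1, b2, -⟩ := H.ch a1 hz
      exact h (mem_T2.2 ⟨b1, by omega⟩)
  have j3 : ∑ u ∈ T3 t Sd, ∑ z ∈ c u, r3 c c' e t z u =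
      ∑ z ∈ T2 t Sd, ∑ u ∈ c' z, r3 c c' e t z u := by
    apply dcount (F := fun z u => r3 c c' e t z u) H.S.dual
    · intro u hu z hz h
      exfalso
      rw [mem_T3] at hu
      obtain ⟨b1, b2⟩ := H.cov hu.1 (by omega) hz
      exact h (mem_T2.2 ⟨b1, by omega⟩)
    · intro z hz u hu h
      exfalso
      rw [mem_T2] at hz
      obtain ⟨b1, b2, -⟩ := H.ch hz.1 hu
      exact h (mem_T3.2 ⟨b1, by omega⟩)
  have j4 : ∑ z ∈ T2 t Sd, ∑ s ∈ c z, ns c c' e t Sd s =
      ∑ s ∈ Sn c t Sd, ∑ _z ∈ c' s, ns c c' e t Sd s := by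
    apply dcount (F := fun s _ => ns c c' e t Sd s) H.S.dual
    · intro z hz s hs h
      unfold ns
      rw [if_neg]
      rintro ⟨h1, -⟩
      exact h (mem_Sn.2 h1)
    · intro s hs z hz h
      exfalso
      obtain ⟨a1, a2, a3⟩ := mem_Sn.1 hs
      obtain ⟨b1, b2, -⟩ := H.ch a1 hz
      exact h (mem_T2.2 ⟨b1, by omega⟩)
  have j5 : ∑ s ∈ Sn c t Sd, (((Dd c t Sd BG).filter (fun w => SKr c c' e s w)).card : ℤ) =
      ∑ w ∈ Dd c t Sd BG, (((Sn c t Sd).filter (fun s => SKr c c' e s w)).card : ℤ) := by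
    simp only [← sum_boole]
    rw [sum_comm]
  have n4 : ∑ w ∈ Dd c t Sd BG, (2 * (if sv c c' e w = -4 ∧ gu c e w then (1 : ℤ) else 0)) =
      2 * (N4 c c' e t Sd BG).card := by
    rw [← mul_sum, sum_boole]
    rfl
  have p1 : ∑ w ∈ Dd c t Sd BG, (2 * (if N4a c c' e w ∧ ∑ z ∈ c' w, e z = 1 then (1 : ℤ) else 0)) =
      2 * (P1 c c' e t Sd BG).card := by
    rw [← mul_sum, sum_boole]
    rfl
  have p1s : ((P1 c c' e t Sd BG).card : ℤ) ≤ (P1s c c' e t Sd BG).card +
      ∑ u ∈ T3 t Sd, (((P1 c c' e t Sd BG).filter (fun y => RQ c c' e t Sd BG u y)).card : ℤ) := by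
    have h1 : ((P1s c c' e t Sd BG).card : ℤ) =
        ∑ y ∈ P1 c c' e t Sd BG, (if ∀ q, ¬ RQ c c' e t Sd BG q y then (1 : ℤ) else 0) := by
      rw [sum_boole]
      rfl
    have h2 : ∑ u ∈ T3 t Sd, (((P1 c c' e t Sd BG).filter
        (fun y => RQ c c' e t Sd BG u y)).card : ℤ) =
        ∑ y ∈ P1 c c' e t Sd BG, (((T3 t Sd).filter (fun u => RQ c c' e t Sd BG u y)).card : ℤ) := by
      simp only [← sum_boole]
      rw [sum_comm]
    rw [h1, h2, ← sum_add_distrib]
    calc ((P1 c c' e t Sd BG).card : ℤ) = ∑ y ∈ P1 c c' e t Sd BG, (1 : ℤ) := by simp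
      _ ≤ _ := by
        apply sum_le_sum
        intro y hy
        by_cases h : ∀ q, ¬ RQ c c' e t Sd BG q y
        · rw [if_pos h]
          omega
        · rw [if_neg h]
          push Not at h
          obtain ⟨q, hq⟩ := h
          have : 0 < ((T3 t Sd).filter (fun u => RQ c c' e t Sd BG u y)).card :=
            card_pos.2 ⟨q, mem_filter.2 ⟨mem_T3.2 ⟨hq.2.1, hq.2.2.1⟩, hq⟩⟩
          omega
  simp only [sum_add_distrib] at i1 i2 i3 i4
  rw [← mul_sum] at i4
  rw [dec]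
  omega

end basic

end Pool.Agent.GaussPoset.Win.Rd
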