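import Pool.Agent.W_448rd_h10.RdE
import Pool.Agent.W_448h2_h63.HC
import Pool.Agent.W_448so_h39.FH

/-!
MP_448cb3_co, G2, window `j - 1`: the inequality for reduced cores, both sides.  helper10.
-/

namespace Pool.Agent.GaussPoset.Win.Rd

set_option linter.unusedSectionVars false

open Finset I2 K2
open Pool.Agent.GaussPoset.Win.H2 (SdT NoT low_T up_T sum_all)
open Pool.Agent.GaussPoset.Win.Xg (CanD Can Tee Exo SdO Act laL laU)

universe u

variable {P : Type u} [Fintype P] [PartialOrder P] [DecidableEq P] {r i : ℕ} {e : P → ℕ}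
variable {psi : P → P}

section defs

open Classical in
/-- double lower elements, positive together with their partner -/
noncomputable def BGL (i : ℕ) (psi : P → P) (e : P → ℕ) : Finset P :=
  (dbL P i).filter (fun y => 1 ≤ e y ∧ 1 ≤ e (psi y))

open Classical in
/-- double upper elements, positive together with their partner -/
noncomputable def BGU (i : ℕ) (psi : P → P) (e : P → ℕ) : Finset P :=
  (dbU P i).filter (fun y => 1 ≤ e y ∧ 1 ≤ e (psi y))

lemma mem_BGL {y : P} : y ∈ BGL i psi e ↔ (lev y = i + 1 ∧ (uc y).card = 2) ∧ 1 ≤ e y ∧ 1 ≤ e (psi y) := by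
  unfold BGL
  rw [mem_filter, mem_dbL']

lemma mem_BGU {y : P} : y ∈ BGU i psi e ↔ (lev y + 1 = i ∧ (dc y).card = 2) ∧ 1 ≤ e y ∧ 1 ≤ e (psi y) := by
  unfold BGU
  rw [mem_filter, mem_dbU']

open Classical in
/-- double joins below which a killer of level `i + 3` joins them with a pendant -/
noncomputable def NFL (i : ℕ) (e : P → ℕ) : Finset P :=
  (lS P i).filter (fun z => lev z = i + 2 ∧ (uc z).card = 2 ∧ kl uc e z ∧
    ∃ u ∈ dc z, 1 ≤ e u ∧ kl uc e u ∧ ∃ z2 ∈ uc u, z2 ≠ z ∧ (uc z2).card = 1 ∧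
      ∀ w, w ∈ uc z → w ∉ uc z2)

open Classical in
/-- lower ends of exchangeable places -/
noncomputable def EXL (i : ℕ) (e : P → ℕ) : Finset P :=
  (lS P i).filter (fun z => (∃ x, (z, x) ∈ Xg.CC i e) ∨ z ∈ NFL i e)

open Classical in
/-- upper ends of exchangeable places -/
noncomputable def EXU (i : ℕ) (e : P → ℕ) : Finset P :=
  (uS P i).filter (fun z => ∃ x, (z, x) ∈ Xg.CC i e)

lemma ex_card : (EXL i e).card + (EXU i e).card ≤ (Xg.CC i e).card + (NFL i e).card := by
  classical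
  obtain ⟨A, hA⟩ : ∃ A : Finset P, A = (EXL i e).filter (fun z => ∃ x, (z, x) ∈ Xg.CC i e) :=
    ⟨_, rfl⟩
  have h0 : (EXL i e).card ≤ A.card + (NFL i e).card := by
    refine le_trans (card_le_card (t := A ∪ NFL i e) ?_) (card_union_le _ _)
    intro z hz
    rw [mem_union, hA, mem_filter]
    have h := hz
    unfold EXL at h
    rcases (mem_filter.1 h).2 with h | h
    · exact Or.inl ⟨hz, h⟩
    · exact Or.inr h
  have hd : Disjoint A (EXU i e) := by
    rw [disjoint_left]
    intro z h1 h2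
    rw [hA, mem_filter] at h1
    have h1 := h1.1
    unfold EXL at h1
    unfold EXU at h2
    rw [mem_filter, mem_lS] at h1
    rw [mem_filter, mem_uS] at h2
    omega
  suffices hs : A.card + (EXU i e).card ≤ (Xg.CC i e).card by omega
  rw [← card_union_of_disjoint hd]
  have : ∀ z, ∃ x, z ∈ A ∪ EXU i e → (z, x) ∈ Xg.CC i e := by
    intro z
    by_cases h : z ∈ A ∪ EXU i e
    · have : ∃ x, (z, x) ∈ Xg.CC i e := by
        rw [mem_union] at h
        rcases h with h | h
        · rw [hA] at h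
          exact (mem_filter.1 h).2
        · unfold EXU at h
          exact (mem_filter.1 h).2
      obtain ⟨x, hx⟩ := this
      exact ⟨x, fun _ => hx⟩
    · exact ⟨z, fun h' => absurd h' h⟩
  choose f hf using this
  apply card_le_card_of_injOn (fun z => (z, f z))
  · intro z hz
    exact hf z hz
  · intro z _ z' _ h
    exact (Prod.ext_iff.1 h).1

end defs

section inst

variable (G : GoodTo P r (i + 1)) (hT : NoT P (i + 2)) (hQ : NoQ P (i + 3)) (hM : Mat P i ∅ psi)
  (hL : AdmL i e) (hU : AdmU i e) (hd : Disjoint (AL i e) (AU i e)) (hc : IsCore i ∅ psi e)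

include hM in
lemma psiL {y : P} (h1 : lev y = i + 1) (h2 : (uc y).card = 2) :
    (lev (psi y) + 1 = i ∧ (dc (psi y)).card = 2) ∧ dc (psi y) = uc y ∧ psi (psi y) = y := by
  obtain ⟨a, b, d, -⟩ := psi_low hM (mem_dbL'.2 ⟨h1, h2⟩) (notMem_empty _)
  exact ⟨mem_dbU'.1 a, b, d⟩

include hM in
lemma psiU {y : P} (h1 : lev y + 1 = i) (h2 : (dc y).card = 2) :
    (lev (psi y) = i + 1 ∧ (uc (psi y)).card = 2) ∧ uc (psi y) = dc y ∧ psi (psi y) = y := by
  obtain ⟨a, b, d, -⟩ := psi_up hM (mem_dbU'.2 ⟨h1, h2⟩) (notMem_empty _)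
  exact ⟨mem_dbL'.1 a, b, d⟩

include hd in
lemma not_both {x y u : P} (hx : lev x = i) (hy : y ∈ dc x) (hu : u ∈ uc x) :
    ¬ (e x < e y ∧ e x < e u) := by
  rintro ⟨h1, h2⟩
  have h4 : x ∈ AL i e := by
    rw [NormD_mem_AL]
    exact ⟨hx, y, mem_dc.1 hy, h1⟩
  have h5 : x ∈ AU i e := by
    rw [NormD_mem_AU]
    exact ⟨hx, u, mem_uc.1 hu, h2⟩
  exact disjoint_left.1 hd h4 h5

include hM hd G in
lemma bgL {y : P} (hy : y ∈ BGL i psi e) : ∀ x ∈ uc y, 1 ≤ e x := by
  intro x hx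
  rw [mem_BGL] at hy
  obtain ⟨⟨h1, h2⟩, h3, h4⟩ := hy
  obtain ⟨p1, p2, p3⟩ := psiL hM h1 h2
  have hlx := lev_uc G.H hx
  have h5 : psi y ∈ uc x := by
    rw [mem_uc, ← mem_dc, p2]
    exact hx
  have := not_both (e := e) hd (by omega) (mem_dc.2 (mem_uc.1 hx)) h5
  omega

include hM hd G in
lemma bgU {y : P} (hy : y ∈ BGU i psi e) : ∀ x ∈ dc y, 1 ≤ e x := by
  intro x hx
  rw [mem_BGU] at hy
  obtain ⟨⟨h1, h2⟩, h3, h4⟩ := hy
  obtain ⟨p1, p2, p3⟩ := psiU hM h1 h2
  have hlx := lev_dc G.H hx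
  have h5 : psi y ∈ dc x := by
    rw [mem_dc, ← mem_uc, p2]
    exact hx
  have := not_both (e := e) hd (by omega) h5 (mem_uc.2 (mem_dc.1 hx))
  omega

include hM hU hc in
lemma touchL {y : P} (h1 : lev y = i + 1) (h2 : (uc y).card = 2) (hb : y ∉ BGL i psi e)
    (h3 : 1 ≤ e y) : ∃ z ∈ dc y, 1 ≤ e z := by
  classical
  by_contra hno
  push Not at hno
  obtain ⟨p1, p2, p3⟩ := psiL hM h1 h2
  have hy : y ∉ Rst i ∅ psi e := by
    intro h
    have := hc y h
    omega
  unfold Rst at hy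
  rw [mem_filter] at hy
  have hT1 : y ∉ Tch i e := by
    unfold Tch
    rw [mem_filter]
    rintro ⟨-, ⟨-, z, hz, hz2⟩ | ⟨h, -⟩⟩
    · have := hno z (mem_dc.2 hz)
      omega
    · omega
  have hT2 : psi y ∈ Tch i e := by
    by_contra hT2
    apply hy
    refine ⟨?_, notMem_empty _, hT1, fun h => hT2 h.2⟩
    unfold near
    rw [mem_filter]
    exact ⟨mem_univ _, Or.inl h1⟩
  unfold Tch at hT2
  rw [mem_filter] at hT2
  rcases hT2 with ⟨-, ⟨h, -⟩ | ⟨-, v, hv, hv2⟩⟩
  · omega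
  · apply hb
    rw [mem_BGL]
    refine ⟨⟨h1, h2⟩, h3, ?_⟩
    by_contra h0
    obtain ⟨a, ha⟩ : (dc (psi y)).Nonempty := card_pos.1 (by omega)
    exact hU (psi y) (by omega) ⟨⟨v, hv, by omega⟩, a, mem_dc.1 ha, by omega⟩

include hM hL hc in
lemma touchU {y : P} (h1 : lev y + 1 = i) (h2 : (dc y).card = 2) (hb : y ∉ BGU i psi e)
    (h3 : 1 ≤ e y) : ∃ z ∈ uc y, 1 ≤ e z := by
  classical
  by_contra hno
  push Not at hno
  obtain ⟨p1, p2, p3⟩ := psiU hM h1 h2
  have hy : y ∉ Rst i ∅ psi e := by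
    intro h
    have := hc y h
    omega
  unfold Rst at hy
  rw [mem_filter] at hy
  have hT1 : y ∉ Tch i e := by
    unfold Tch
    rw [mem_filter]
    rintro ⟨-, ⟨h, -⟩ | ⟨-, z, hz, hz2⟩⟩
    · omega
    · have := hno z (mem_uc.2 hz)
      omega
  have hT2 : psi y ∈ Tch i e := by
    by_contra hT2
    apply hy
    refine ⟨?_, notMem_empty _, hT1, fun h => hT2 h.2⟩
    unfold near
    rw [mem_filter]
    exact ⟨mem_univ _, Or.inr h1⟩
  unfold Tch at hT2
  rw [mem_filter] at hT2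
  rcases hT2 with ⟨-, ⟨-, v, hv, hv2⟩ | ⟨h, -⟩⟩
  · apply hb
    rw [mem_BGU]
    refine ⟨⟨h1, h2⟩, h3, ?_⟩
    by_contra h0
    obtain ⟨a, ha⟩ : (uc (psi y)).Nonempty := card_pos.1 (by omega)
    exact hL (psi y) (by omega) ⟨⟨v, hv, by omega⟩, a, mem_uc.1 ha, by omega⟩
  · omega

include G hT hQ hM hL hU hd hc in
/-- the lower side -/
lemma hypL : Hyp (P := P) uc dc e (fun x : P => lev x - i) (lv P i) (lS P i) (BGL i psi e)
    (EXL i e) where
  S := K2.side_low (i := i) G.H hT.noQ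
  adm := adm_low hL
  hT := low_T hT
  bgt := by
    intro y hy
    rw [mem_BGL] at hy
    rw [mem_lS]
    exact ⟨by omega, by omega, hy.1.2⟩
  bg := fun y hy => bgL G hM hd hy
  touch := by
    intro y hy ht h2 hb h1
    rw [mem_lS] at hy
    exact touchL hM hU hc (by omega) h2 hb h1
  share := by
    intro y hy y' hy' ht hne x hx x' hx' h1 h2
    rw [mem_lS] at hy
    have a1 := lev_uc G.H hx
    have a2 := lev_uc G.H h1
    exact ucv_uniq G (by omega) hne (by omega) (mem_uc.1 hx) (mem_uc.1 h1) (mem_uc.1 hx')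
      (mem_uc.1 h2)
  far := by
    intro u hu ht h2 z hz z2 hz2 hne h3 hkl hEX
    by_cases hw : ∃ w, w ∈ uc z ∧ w ∈ uc z2
    · exact Or.inl hw
    right
    rw [mem_lS] at hu
    have hlu : lev u = i + 3 := by omega
    have l1 := lev_uc G.H hz
    have l2 := lev_uc G.H hz2
    have hc2 : (uc z2).card = 1 := by
      have h4 := uc_card_le G.H z2
      have h5 : 1 ≤ (uc z2).card := card_pos.2 (uc_nonempty G.H (by omega))
      by_contra h6
      exact hw (hQ u hlu z hz z2 hz2 hne h3 (by omega))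
    refine ⟨hc2, fun hklu => hEX ?_⟩
    classical
    unfold EXL NFL
    rw [mem_filter, mem_filter]
    refine ⟨mem_lS.2 (by omega), Or.inr ⟨mem_lS.2 (by omega), by omega, h3, hkl, u,
      mem_dc.2 (mem_uc.1 hz), by omega, hklu, z2, hz2, hne.symm, hc2, ?_⟩⟩
    intro w hw1 hw2
    exact hw ⟨w, hw1, hw2⟩
  red := by
    intro z w w2 p x q T hEX hz hb1 hb2 htw hch s1 s2 ha
    have S := K2.side_low (i := i) G.H hT.noQ
    have hzS := mem_lS.1 T.zS
    have htz := T.tz
    have hwz : w ∈ uc z := by rw [T.cz]; simp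
    have hw2z : w2 ∈ uc z := by rw [T.cz]; simp
    have hxw : x ∈ uc w := by rw [T.cw]; simp
    have hxw2 : x ∈ uc w2 := by rw [T.cw2]; simp
    have l1 := lev_uc G.H hwz
    have l2 := lev_uc G.H hw2z
    have l3 := lev_uc G.H hxw
    have c1 : (uc w).card = 2 := by rw [T.cw, card_pair T.px]
    have c2 : (uc w2).card = 2 := by rw [T.cw2, card_pair T.xq]
    have pos : ∀ y : P, i < lev y → z ∈ dc y → 1 ≤ e y := by
      intro y hy hzy
      by_contra h0
      obtain ⟨a, ha⟩ := S.ne y (mem_lS.2 hy)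
      exact hL y hy ⟨⟨z, mem_dc.1 hzy, by omega⟩, a, mem_uc.1 ha, by omega⟩
    have e1 := pos w (by omega) (mem_dc.2 (mem_uc.1 hwz))
    have e2 := pos w2 (by omega) (mem_dc.2 (mem_uc.1 hw2z))
    have g1 : e (psi w) = 0 := by
      by_contra h
      exact hb1 (mem_BGL.2 ⟨⟨by omega, c1⟩, e1, by omega⟩)
    have g2 : e (psi w2) = 0 := by
      by_contra h
      exact hb2 (mem_BGL.2 ⟨⟨by omega, c2⟩, e2, by omega⟩)
    obtain ⟨p1, p2, p3⟩ := psiL hM (by omega : lev w = i + 1) c1
    obtain ⟨q1, q2, q3⟩ := psiL hM (by omega : lev w2 = i + 1) c2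
    have m1 : psi w ∈ uc x := by
      rw [mem_uc, ← mem_dc, p2]
      exact hxw
    have m2 : psi w2 ∈ uc x := by
      rw [mem_uc, ← mem_dc, q2]
      exact hxw2
    have hne : psi w ≠ psi w2 := by
      intro h
      apply T.ne
      rw [← p3, ← q3, h]
    have hux : uc x = {psi w, psi w2} := pair_eq_of (uc_card_le G.H x) m1 m2 hne
    have hu0 : ∀ u ∈ uc x, e u = 0 := by
      intro u hu
      rw [hux, mem_insert, mem_singleton] at hu
      rcases hu with rfl | rfl <;> assumption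
    have TT : Tee dc uc (laL i) z w w2 p x q :=
      ⟨by unfold laL; omega, T.cz, T.cw, T.cw2, T.dx, T.ne, T.px, T.xq, T.pq⟩
    have EE : Exo dc uc z w w2 p x q e := by
      refine ⟨hz, hch, ?_, s1, s2, ha⟩
      intro u hu
      rw [hu0 u hu]
      omega
    have hmem : (z, x) ∈ Xg.CC i e := by
      rw [Xg.mem_CC G.H]
      left
      refine ⟨w, w2, p, q, TT, EE, ?_⟩
      intro d' hd' hrk
      apply htw d' hd'
      rintro rfl
      exact lt_irrefl _ hrk
    apply hEX
    classical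
    unfold EXL
    exact mem_filter.2 ⟨T.zS, Or.inl ⟨x, hmem⟩⟩

include G hT hM hL hU hd hc in
/-- the upper side -/
lemma hypU : Hyp (P := P) dc uc e (fun x : P => i - lev x) (lv P i) (uS P i) (BGU i psi e)
    (EXU i e) where
  S := K2.side_up (i := i) G.H (by have := G.hr; omega) (fun m hm => G.good m (by omega))
  adm := adm_up hU
  hT := up_T G.H (by have := G.hr; omega) (fun m hm => G.good m (by omega))
  bgt := by
    intro y hy
    rw [mem_BGU] at hy
    rw [mem_uS]
    exact ⟨by omega, by omega, hy.1.2⟩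
  bg := fun y hy => bgU G hM hd hy
  touch := by
    intro y hy ht h2 hb h1
    rw [mem_uS] at hy
    exact touchU hM hL hc (by omega) h2 hb h1
  share := by
    intro y hy y' hy' ht hne x hx x' hx' h1 h2
    rw [mem_uS] at hy
    have a1 := lev_dc G.H hx
    have a2 := lev_dc G.H h1
    exact dcv_uniq G (by omega) hne (by omega) (mem_dc.1 hx) (mem_dc.1 h1) (mem_dc.1 hx')
      (mem_dc.1 h2)
  far := by
    intro u hu ht h2 z hz z2 hz2 hne h3 _ _
    left
    rw [mem_uS] at hu
    have S1 := I2.side_up (i := i - 1) G.H (by have := G.hr; omega)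
      (fun m hm => G.good m (by omega))
    exact S1.good u (mem_uS.2 (by omega)) (by omega) z hz z2 hz2 hne
  red := by
    intro z w w2 p x q T hEX hz hb1 hb2 htw hch s1 s2 ha
    have S := K2.side_up (i := i) G.H (by have := G.hr; omega) (fun m hm => G.good m (by omega))
    have hzS := mem_uS.1 T.zS
    have htz := T.tz
    have hwz : w ∈ dc z := by rw [T.cz]; simp
    have hw2z : w2 ∈ dc z := by rw [T.cz]; simp
    have hxw : x ∈ dc w := by rw [T.cw]; simp
    have hxw2 : x ∈ dc w2 := by rw [T.cw2]; simp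
    have l1 := lev_dc G.H hwz
    have l2 := lev_dc G.H hw2z
    have l3 := lev_dc G.H hxw
    have c1 : (dc w).card = 2 := by rw [T.cw, card_pair T.px]
    have c2 : (dc w2).card = 2 := by rw [T.cw2, card_pair T.xq]
    have pos : ∀ y : P, lev y < i → z ∈ uc y → 1 ≤ e y := by
      intro y hy hzy
      by_contra h0
      obtain ⟨a, ha⟩ := S.ne y (mem_uS.2 hy)
      exact hU y hy ⟨⟨z, mem_uc.1 hzy, by omega⟩, a, mem_dc.1 ha, by omega⟩
    have e1 := pos w (by omega) (mem_uc.2 (mem_dc.1 hwz))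
    have e2 := pos w2 (by omega) (mem_uc.2 (mem_dc.1 hw2z))
    have g1 : e (psi w) = 0 := by
      by_contra h
      exact hb1 (mem_BGU.2 ⟨⟨by omega, c1⟩, e1, by omega⟩)
    have g2 : e (psi w2) = 0 := by
      by_contra h
      exact hb2 (mem_BGU.2 ⟨⟨by omega, c2⟩, e2, by omega⟩)
    obtain ⟨p1, p2, p3⟩ := psiU hM (by omega : lev w + 1 = i) c1
    obtain ⟨q1, q2, q3⟩ := psiU hM (by omega : lev w2 + 1 = i) c2
    have m1 : psi w ∈ dc x := by
      rw [mem_dc, ← mem_uc, p2]
      exact hxw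
    have m2 : psi w2 ∈ dc x := by
      rw [mem_dc, ← mem_uc, q2]
      exact hxw2
    have hne : psi w ≠ psi w2 := by
      intro h
      apply T.ne
      rw [← p3, ← q3, h]
    have hux : dc x = {psi w, psi w2} := pair_eq_of (dc_card_le G.H x) m1 m2 hne
    have hu0 : ∀ u ∈ dc x, e u = 0 := by
      intro u hu
      rw [hux, mem_insert, mem_singleton] at hu
      rcases hu with rfl | rfl <;> assumption
    have TT : Tee uc dc (laU i) z w w2 p x q :=
      ⟨by unfold laU; omega, T.cz, T.cw, T.cw2, T.dx, T.ne, T.px, T.xq, T.pq⟩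
    have EE : Exo uc dc z w w2 p x q e := by
      refine ⟨hz, hch, ?_, s1, s2, ha⟩
      intro u hu
      rw [hu0 u hu]
      omega
    have hmem : (z, x) ∈ Xg.CC i e := by
      rw [Xg.mem_CC G.H]
      right
      refine ⟨w, w2, p, q, TT, EE, ?_⟩
      intro d' hd' hrk
      apply htw d' hd'
      rintro rfl
      exact lt_irrefl _ hrk
    apply hEX
    classical
    unfold EXU
    exact mem_filter.2 ⟨T.zS, x, hmem⟩

end inst

end Pool.Agent.GaussPoset.Win.Rd
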