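import Pool.Agent.W_448rd_h10.RdF

/-!
MP_448cb3_co, G2, window `j - 1`: THE INEQUALITY FOR REDUCED CORES.  helper10.

`6 (|AL| + |AU|) ≤ 2 energy + 6 (pL + pU) + 2 (#P1 + #TW + #GS) + 4 #CC`
-/

namespace Pool.Agent.GaussPoset.Win.Rd

set_option linter.unusedSectionVars false

open Finset I2 K2
open Pool.Agent.GaussPoset.Win.H2 (SdT NoT low_T up_T sum_all)

universe u

variable {P : Type u} [Fintype P] [PartialOrder P] [DecidableEq P] {r i : ℕ} {e : P → ℕ}
variable {psi : P → P}

section defs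

variable (i : ℕ) (psi : P → P) (e : P → ℕ)

/-- lower elements with label one, one site killed alone, guarded by the other one -/
noncomputable def N4L : Finset P := N4 uc dc e (fun x : P => lev x - i) (lS P i) (BGL i psi e)

/-- upper elements with label one, one site killed alone, guarded by the other one -/
noncomputable def N4U : Finset P := N4 dc uc e (fun x : P => i - lev x) (uS P i) (BGU i psi e)

/-- lower elements with label one, both sites killed alone, one child of label one (without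
positive children of its own) -/
noncomputable def P1L : Finset P := P1s uc dc e (fun x : P => lev x - i) (lS P i) (BGL i psi e)

/-- upper elements with label one, both sites killed alone, one child of label one (without
positive children of its own) -/
noncomputable def P1U : Finset P := P1s dc uc e (fun x : P => i - lev x) (uS P i) (BGU i psi e)

/-- pairs of positive lower twins, one kills -/
noncomputable def TWL : Finset P := TW uc e (fun x : P => lev x - i) (lS P i)

/-- pairs of positive upper twins, one kills -/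
noncomputable def TWU : Finset P := TW dc e (fun x : P => i - lev x) (uS P i)

/-- pairs of positive lower twins, the exact pattern `2, 1, 1, 1` -/
noncomputable def TWLx : Finset P := TWx uc dc e (fun x : P => lev x - i) (lS P i)

/-- pairs of positive upper twins, the exact pattern `2, 1, 1, 1` -/
noncomputable def TWUx : Finset P := TWx dc uc e (fun x : P => i - lev x) (uS P i)

open Classical in
/-- sites with label one which guard two elements of `N4L`, `N4U` -/
noncomputable def GS : Finset P := (lv P i).filter (fun x => e x = 1 ∧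
  ∃ y y', y ≠ y' ∧ ((y ∈ N4L i psi e ∧ x ∈ uc y) ∨ (y ∈ N4U i psi e ∧ x ∈ dc y)) ∧
    ((y' ∈ N4L i psi e ∧ x ∈ uc y') ∨ (y' ∈ N4U i psi e ∧ x ∈ dc y')))

end defs

section main

variable (G : GoodTo P r (i + 1)) (hT : NoT P (i + 2)) (hQ : NoQ P (i + 3)) (hM : Mat P i ∅ psi)
  (hL : AdmL i e) (hU : AdmU i e) (hd : Disjoint (AL i e) (AU i e)) (hc : IsCore i ∅ psi e)

/-- the facts about `N4L` -/
lemma mem_N4L' {y : P} (h : y ∈ N4L i psi e) : (lev y = i + 1 ∧ (uc y).card = 2) ∧
    y ∉ BGL i psi e ∧ sv uc dc e y = -4 ∧ gu uc e y := by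
  classical
  unfold N4L N4 at h
  rw [mem_filter, mem_Dd, mem_lS] at h
  exact ⟨⟨by omega, h.1.2.2.2⟩, h.1.2.1, h.2⟩

lemma mem_N4U' {y : P} (h : y ∈ N4U i psi e) : (lev y + 1 = i ∧ (dc y).card = 2) ∧
    y ∉ BGU i psi e ∧ sv dc uc e y = -4 ∧ gu dc e y := by
  classical
  unfold N4U N4 at h
  rw [mem_filter, mem_Dd, mem_uS] at h
  exact ⟨⟨by omega, h.1.2.2.2⟩, h.1.2.1, h.2⟩

include G hT hQ hM hL hU hd hc in
lemma N4L_one {y : P} (h : y ∈ N4L i psi e) : e y = 1 := by
  have HL := hypL G hT hQ hM hL hU hd hc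
  obtain ⟨⟨h1, h2⟩, h3, h4, h5⟩ := mem_N4L' h
  obtain ⟨o, x, hox, hcw⟩ := card_eq_two.1 h2
  exact (HL.vals hcw hox (by omega)).2 h4

include G hT hM hL hU hd hc in
lemma N4U_one {y : P} (h : y ∈ N4U i psi e) : e y = 1 := by
  have HU := hypU G hT hM hL hU hd hc
  obtain ⟨⟨h1, h2⟩, h3, h4, h5⟩ := mem_N4U' h
  obtain ⟨o, x, hox, hcw⟩ := card_eq_two.1 h2
  exact (HU.vals hcw hox (by omega)).2 h4

include G hT hQ hM hL hU hd hc in
/-- the pairs in `BG` have no deficit -/
lemma bg_sum : 0 ≤ ∑ y ∈ BGL i psi e, sv uc dc e y + ∑ y ∈ BGU i psi e, sv dc uc e y := by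
  have HL := hypL G hT hQ hM hL hU hd hc
  have HU := hypU G hT hM hL hU hd hc
  have h1 : ∑ y ∈ BGU i psi e, sv dc uc e y = ∑ y ∈ BGL i psi e, sv dc uc e (psi y) := by
    symm
    apply sum_nbij' psi psi
    · intro y hy
      rw [mem_BGL] at hy
      obtain ⟨p1, p2, p3⟩ := psiL hM hy.1.1 hy.1.2
      rw [mem_BGU]
      exact ⟨p1, hy.2.2, by rw [p3]; exact hy.2.1⟩
    · intro y hy
      rw [mem_BGU] at hy
      obtain ⟨p1, p2, p3⟩ := psiU hM hy.1.1 hy.1.2
      rw [mem_BGL]
      exact ⟨p1, hy.2.2, by rw [p3]; exact hy.2.1⟩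
    · intro y hy
      rw [mem_BGL] at hy
      exact (psiL hM hy.1.1 hy.1.2).2.2
    · intro y hy
      rw [mem_BGU] at hy
      exact (psiU hM hy.1.1 hy.1.2).2.2
    · intro y _
      rfl
  rw [h1, ← sum_add_distrib]
  apply sum_nonneg
  intro y hy
  have hb := bgL G hM hd hy
  have hy' := hy
  rw [mem_BGL] at hy
  obtain ⟨⟨l1, l2⟩, l3, l4⟩ := hy
  obtain ⟨p1, p2, p3⟩ := psiL hM l1 l2
  have s1 := sv_ge (e := e) HL.S y
  have s2 := sv_ge (e := e) HU.S (psi y)
  by_cases k1 : kl uc e y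
  · obtain ⟨a, ha, hlt⟩ := k1
    have a1 := hb a ha
    by_cases k2 : kl dc e (psi y)
    · exfalso
      obtain ⟨b, hb', hlt'⟩ := k2
      have hla := lev_uc G.H ha
      have hb2 : b ∈ uc y := p2 ▸ hb'
      have hlb := lev_uc G.H hb2
      have n1 := not_both (e := e) hd (x := a) (by omega) (mem_dc.2 (mem_uc.1 ha))
        (u := psi y) (by rw [mem_uc, ← mem_dc, p2]; exact ha)
      have n2 := not_both (e := e) hd (x := b) (by omega) (mem_dc.2 (mem_uc.1 hb2))
        (u := psi y) (by rw [mem_uc, ← mem_dc]; exact hb')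
      omega
    · rw [sv_not_kl k2]
      omega
  · rw [sv_not_kl k1]
    by_cases k2 : kl dc e (psi y)
    · obtain ⟨b, hb', hlt'⟩ := k2
      have := hb b (p2 ▸ hb')
      omega
    · rw [sv_not_kl k2]
      omega

include G hT hQ hM hL hU hd hc in
/-- the guard sites pay -/
lemma n4_sum : ((N4L i psi e).card : ℤ) + (N4U i psi e).card ≤
    ∑ x ∈ lv P i, (e x : ℤ) + (GS i psi e).card := by
  classical
  have g1 : ∀ y, ∃ x, y ∈ N4L i psi e → x ∈ uc y ∧ 1 ≤ e x := by
    intro y
    by_cases h : y ∈ N4L i psi e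
    · obtain ⟨-, -, -, x, hx, hle⟩ := mem_N4L' h
      have := N4L_one G hT hQ hM hL hU hd hc h
      exact ⟨x, fun _ => ⟨hx, by omega⟩⟩
    · exact ⟨y, fun h' => absurd h' h⟩
  have g2 : ∀ y, ∃ x, y ∈ N4U i psi e → x ∈ dc y ∧ 1 ≤ e x := by
    intro y
    by_cases h : y ∈ N4U i psi e
    · obtain ⟨-, -, -, x, hx, hle⟩ := mem_N4U' h
      have := N4U_one G hT hM hL hU hd hc h
      exact ⟨x, fun _ => ⟨hx, by omega⟩⟩
    · exact ⟨y, fun h' => absurd h' h⟩
  choose f hf using g1
  choose g hg using g2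
  have s1 : ((N4L i psi e).card : ℤ) =
      ∑ x ∈ lv P i, (((N4L i psi e).filter (fun y => f y = x)).card : ℤ) := by
    rw [card_eq_sum_card_fiberwise (f := f) (t := lv P i)]
    · push_cast
      rfl
    · intro y hy
      have h1 := hf y hy
      have h2 := (mem_N4L' (mem_coe.1 hy)).1
      have := lev_uc G.H h1.1
      rw [mem_coe, mem_lv]
      omega
  have s2 : ((N4U i psi e).card : ℤ) =
      ∑ x ∈ lv P i, (((N4U i psi e).filter (fun y => g y = x)).card : ℤ) := by
    rw [card_eq_sum_card_fiberwise (f := g) (t := lv P i)]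
    · push_cast
      rfl
    · intro y hy
      have h1 := hg y hy
      have h2 := (mem_N4U' (mem_coe.1 hy)).1
      have := lev_dc G.H h1.1
      rw [mem_coe, mem_lv]
      omega
  have s3 : ((GS i psi e).card : ℤ) = ∑ x ∈ lv P i, (if x ∈ GS i psi e then (1 : ℤ) else 0) := by
    rw [sum_boole]
    congr 2
    ext x
    rw [mem_filter]
    constructor
    · intro h
      refine ⟨?_, h⟩
      unfold GS at h
      rw [mem_filter] at h
      exact h.1
    · exact fun h => h.2
  rw [s1, s2, s3, ← sum_add_distrib, ← sum_add_distrib]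
  apply sum_le_sum
  intro x hx
  obtain ⟨A, hA⟩ : ∃ A, A = (N4L i psi e).filter (fun y => f y = x) := ⟨_, rfl⟩
  obtain ⟨B, hB⟩ : ∃ B, B = (N4U i psi e).filter (fun y => g y = x) := ⟨_, rfl⟩
  rw [← hA, ← hB]
  have mA : ∀ y ∈ A, y ∈ N4L i psi e ∧ x ∈ uc y ∧ 1 ≤ e x := by
    intro y hy
    rw [hA, mem_filter] at hy
    have := hf y hy.1
    rw [hy.2] at this
    exact ⟨hy.1, this⟩
  have mB : ∀ y ∈ B, y ∈ N4U i psi e ∧ x ∈ dc y ∧ 1 ≤ e x := by
    intro y hy
    rw [hB, mem_filter] at hy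
    have := hg y hy.1
    rw [hy.2] at this
    exact ⟨hy.1, this⟩
  have inj : Set.InjOn psi (B : Set P) := by
    intro y hy y' hy' heq
    have h1 := (mem_N4U' (mB y hy).1).1
    have h2 := (mem_N4U' (mB y' hy').1).1
    rw [← (psiU hM h1.1 h1.2).2.2, ← (psiU hM h2.1 h2.2).2.2, heq]
  have hdisj : Disjoint A (B.image psi) := by
    rw [disjoint_left]
    intro y hy hy2
    rw [mem_image] at hy2
    obtain ⟨u, hu, rfl⟩ := hy2
    obtain ⟨k1, -, k2⟩ := mB u hu
    obtain ⟨l1, -, -⟩ := mA _ hy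
    have e1 := N4U_one G hT hM hL hU hd hc k1
    have e2 := N4L_one G hT hQ hM hL hU hd hc l1
    obtain ⟨m1, m2, -⟩ := mem_N4U' k1
    exact m2 (mem_BGU.2 ⟨m1, by omega, by omega⟩)
  have hsub : A ∪ B.image psi ⊆ dc x := by
    intro y hy
    rw [mem_union, mem_image] at hy
    rcases hy with hy | ⟨u, hu, rfl⟩
    · exact mem_dc.2 (mem_uc.1 (mA y hy).2.1)
    · have h1 := (mem_N4U' (mB u hu).1).1
      have h2 := (psiU hM h1.1 h1.2).2.1
      rw [mem_dc, ← mem_uc, h2]
      exact (mB u hu).2.1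
  have hcard : A.card + B.card ≤ 2 := by
    have h1 := card_le_card hsub
    rw [card_union_of_disjoint hdisj, card_image_of_injOn inj] at h1
    have := dc_card_le G.H x
    omega
  by_cases h2 : A.card + B.card ≤ e x
  · split_ifs <;> omega
  · have hpos : 1 ≤ e x := by
      by_contra h0
      have hA0 : A = ∅ := by
        by_contra hne
        obtain ⟨y, hy⟩ := nonempty_iff_ne_empty.2 hne
        have := (mA y hy).2.2
        omega
      have hB0 : B = ∅ := by
        by_contra hne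
        obtain ⟨y, hy⟩ := nonempty_iff_ne_empty.2 hne
        have := (mB y hy).2.2
        omega
      rw [hA0, hB0, card_empty] at h2
      omega
    have hx1 : e x = 1 ∧ A.card + B.card = 2 := by omega
    have hGS : x ∈ GS i psi e := by
      unfold GS
      rw [mem_filter]
      refine ⟨hx, hx1.1, ?_⟩
      rcases Nat.lt_or_ge 1 A.card with h3 | h3
      · obtain ⟨y, hy, y', hy', hne⟩ := one_lt_card.1 h3
        exact ⟨y, y', hne, Or.inl ⟨(mA y hy).1, (mA y hy).2.1⟩,
          Or.inl ⟨(mA y' hy').1, (mA y' hy').2.1⟩⟩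
      rcases Nat.lt_or_ge 1 B.card with h4 | h4
      · obtain ⟨y, hy, y', hy', hne⟩ := one_lt_card.1 h4
        exact ⟨y, y', hne, Or.inr ⟨(mB y hy).1, (mB y hy).2.1⟩,
          Or.inr ⟨(mB y' hy').1, (mB y' hy').2.1⟩⟩
      obtain ⟨y, hy⟩ := card_pos.1 (by omega : 0 < A.card)
      obtain ⟨y', hy'⟩ := card_pos.1 (by omega : 0 < B.card)
      refine ⟨y, y', ?_, Or.inl ⟨(mA y hy).1, (mA y hy).2.1⟩,
        Or.inr ⟨(mB y' hy').1, (mB y' hy').2.1⟩⟩
      rintro rfl
      have k1 := (mem_N4L' (mA y hy).1).1.1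
      have k2 := (mem_N4U' (mB y hy').1).1.1
      omega
    rw [if_pos hGS]
    omega

include G hT hQ hM hL hU hd hc in
/-- THE INEQUALITY FOR CORES, exact form -/
theorem generalx : 6 * (((AL i e).card : ℤ) + (AU i e).card) ≤
    2 * ∑ x, (e x : ℤ) + 6 * ((pL i e : ℤ) + pU i e) +
      2 * (((P1L i psi e).card : ℤ) + (P1U i psi e).card + (GS i psi e).card) +
      (((TWL i e).card : ℤ) + (TWU i e).card + (TWLx i e).card + (TWUx i e).card) +
      4 * (((Xg.CC i e).card : ℤ) + (NFL i e).card) := by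
  classical
  have HL := hypL G hT hQ hM hL hU hd hc
  have HU := hypU G hT hM hL hU hd hc
  have a1 := HL.side (rk := Xg.rk) (fun y z h => Xg.rk_inj h)
  have a2 := HU.side (rk := Xg.rk) (fun y z h => Xg.rk_inj h)
  have b1 := sum_sv HL.S HL.adm
  have b2 := sum_sv HU.S HU.adm
  rw [KD_low, fr_low] at b1
  rw [KD_up, fr_up] at b2
  have c1 := sum_sdiff (f := fun z => sv uc dc e z) (fun y hy => (HL.bgt y hy).1 :
    BGL i psi e ⊆ lS P i)
  have c2 := sum_sdiff (f := fun z => sv dc uc e z) (fun y hy => (HU.bgt y hy).1 :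
    BGU i psi e ⊆ uS P i)
  have d1 := bg_sum G hT hQ hM hL hU hd hc
  have d2 := n4_sum G hT hQ hM hL hU hd hc
  have d3 := sum_all (i := i) e
  have d4 : ((EXL i e).card : ℤ) + (EXU i e).card ≤ (Xg.CC i e).card + (NFL i e).card := by
    exact_mod_cast ex_card
  unfold P1L P1U TWL TWU TWLx TWUx
  unfold N4L N4U at d2
  linarith

lemma TWx_card : (TWLx i e).card ≤ (TWL i e).card ∧ (TWUx i e).card ≤ (TWU i e).card := by
  classical
  unfold TWLx TWL TWUx TWU TW TWx
  constructor
  · apply card_le_card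
    intro z hz
    rw [mem_filter] at hz ⊢
    exact ⟨hz.1, hz.2.1⟩
  · apply card_le_card
    intro z hz
    rw [mem_filter] at hz ⊢
    exact ⟨hz.1, hz.2.1⟩

include G hT hQ hM hL hU hd hc in
/-- THE INEQUALITY FOR CORES -/
theorem general : 6 * (((AL i e).card : ℤ) + (AU i e).card) ≤
    2 * ∑ x, (e x : ℤ) + 6 * ((pL i e : ℤ) + pU i e) +
      2 * (((P1L i psi e).card : ℤ) + (P1U i psi e).card + (TWL i e).card + (TWU i e).card +
        (GS i psi e).card) + 4 * (((Xg.CC i e).card : ℤ) + (NFL i e).card) := by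
  have h1 := generalx G hT hQ hM hL hU hd hc
  obtain ⟨h2, h3⟩ := TWx_card (i := i) (e := e)
  have h2' : ((TWLx i e).card : ℤ) ≤ (TWL i e).card := by exact_mod_cast h2
  have h3' : ((TWUx i e).card : ℤ) ≤ (TWU i e).card := by exact_mod_cast h3
  linarith

include G hT hQ hM hL hU hd hc in
/-- THE INEQUALITY FOR REDUCED CORES -/
theorem reduced (hCC : Xg.CC i e = ∅) (hNF : NFL i e = ∅) :
    6 * (((AL i e).card : ℤ) + (AU i e).card) ≤
    2 * ∑ x, (e x : ℤ) + 6 * ((pL i e : ℤ) + pU i e) +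
      2 * (((P1L i psi e).card : ℤ) + (P1U i psi e).card + (TWL i e).card + (TWU i e).card +
        (GS i psi e).card) := by
  have := general G hT hQ hM hL hU hd hc
  rw [hCC, hNF, card_empty, card_empty] at this
  push_cast at this
  linarith

end main

end Pool.Agent.GaussPoset.Win.Rd
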