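import Pool.Agent.W_448rd_h10.RdG

/-!
MP_448cb3_co, G2, window `j - 1`: the exceptional elements of the inequality, local description.
helper10.
-/

namespace Pool.Agent.GaussPoset.Win.Rd

set_option linter.unusedSectionVars false

open Finset I2 K2
open Pool.Agent.GaussPoset.Win.H2 (SdT NoT low_T up_T sum_all)

universe u

section abs

variable {P : Type u} [DecidableEq P]
variable {c c' : P → Finset P} {e : P → ℕ} {t : P → ℕ} {V Sd BG EX : Finset P}

lemma P1s_sub : P1s c c' e t Sd BG ⊆ P1 c c' e t Sd BG := by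
  classical
  unfold P1s
  exact filter_subset _ _

variable (H : Hyp c c' e t V Sd BG EX)
include H

/-- an element which kills both sites alone -/
lemma Hyp.n4a_spec {w o x : P} (hw : w ∈ Dd c t Sd BG) (hn : N4a c c' e w) (hc : c w = {o, x})
    (hox : o ≠ x) : e w = 1 ∧ e o = 0 ∧ e x = 0 ∧ (∀ v ∈ c' o, v ≠ w → e v = 0) ∧
      (∀ v ∈ c' x, v ≠ w → e v = 0) := by
  obtain ⟨hs, hg⟩ := hn
  have hall : ∀ a ∈ c w, e a < e w := by
    intro a ha
    by_contra h
    exact hg ⟨a, ha, by omega⟩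
  have ho := hall o (by rw [hc]; simp)
  have hx := hall x (by rw [hc]; simp)
  have h1 := (H.vals hc hox (by omega)).2 hs
  have h2 := sv_both (c' := c') H.S hc hox ho hx
  rcases nk_cases (c' := c') (e := e) w o with ⟨a1, h4⟩ | ⟨a1, h4⟩ <;>
  rcases nk_cases (c' := c') (e := e) w x with ⟨a2, h5⟩ | ⟨a2, h5⟩ <;>
  rw [h4, h5] at h2
  · omega
  · omega
  · omega
  · refine ⟨h1, by omega, by omega, ?_, ?_⟩
    · intro v hv hne
      by_contra h0
      exact a1 ⟨v, hv, hne, by omega⟩
    · intro v hv hne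
      by_contra h0
      exact a2 ⟨v, hv, hne, by omega⟩

/-- an element which kills one site alone and is guarded by the other one -/
lemma Hyp.n4_spec {w : P} (hw : w ∈ N4 c c' e t Sd BG) : ∃ o x, o ≠ x ∧ c w = {o, x} ∧
    e w = 1 ∧ e o = 0 ∧ 1 ≤ e x ∧ (∀ v ∈ c' o, v ≠ w → e v = 0) := by
  classical
  unfold N4 at hw
  rw [mem_filter, mem_Dd] at hw
  obtain ⟨⟨wS, wB, tw, cw⟩, hs, a, ha, hle⟩ := hw
  obtain ⟨o, ho, hc⟩ := pair_of cw ha
  have h1 := (H.vals hc ho (by omega)).2 hs
  have h0 : e o < e w := by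
    by_contra h0
    have := sv_none (c' := c') (e := e) H.S hc ho (by omega) hle
    omega
  have h2 := sv_one (c' := c') H.S hc ho h0 hle
  rcases nk_cases (c' := c') (e := e) w o with ⟨a1, h4⟩ | ⟨a1, h4⟩ <;> rw [h4] at h2
  · omega
  · refine ⟨o, a, ho, hc, h1, by omega, by omega, ?_⟩
    intro v hv hne
    by_contra h0
    exact a1 ⟨v, hv, hne, by omega⟩

/-- an element of `P1` -/
lemma Hyp.p1_spec {y : P} (hy : y ∈ P1 c c' e t Sd BG) : y ∈ Dd c t Sd BG ∧ N4a c c' e y ∧
    ∃ p ∈ c' y, e p = 1 ∧ c p = {y} ∧ ∀ z ∈ c' y, z ≠ p → e z = 0 := by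
  classical
  unfold P1 at hy
  rw [mem_filter] at hy
  obtain ⟨hD, hN, hsum⟩ := hy
  refine ⟨hD, hN, ?_⟩
  obtain ⟨yS, yB, ty, cy⟩ := mem_Dd.1 hD
  obtain ⟨p, hp, hp1⟩ : ∃ p ∈ c' y, 1 ≤ e p := by
    by_contra hno
    push Not at hno
    rw [sum_eq_zero (fun z hz => by have := hno z hz; omega)] at hsum
    omega
  have h1 : e p ≤ ∑ z ∈ c' y, e z := single_le_sum (f := fun z => e z) (fun _ _ => Nat.zero_le _) hp
  have hpen := H.pend hD hN hp hp1
  obtain ⟨pS, tp, yp⟩ := H.ch yS hp
  refine ⟨p, hp, by omega, ?_, ?_⟩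
  · obtain ⟨a, ha⟩ := card_eq_one.1 hpen
    rw [ha, mem_singleton] at yp
    rw [ha, yp]
  · intro z hz hne
    have h2 : e z + e p ≤ ∑ z ∈ c' y, e z := by
      rw [← Finset.sum_pair hne]
      apply sum_le_sum_of_subset
      intro a ha
      rw [mem_insert, mem_singleton] at ha
      rcases ha with rfl | rfl <;> assumption
    omega

/-- an element of `TW` -/
lemma Hyp.tw_spec {z : P} (hz : z ∈ TW c e t Sd) : ∃ w w2 p x q z', TS c c' t Sd z w w2 p x q ∧
    c z' = {w, w2} ∧ z' ≠ z ∧ c' w = {z, z'} ∧ c' w2 = {z, z'} ∧ 1 ≤ e z' ∧ e z' ≤ e w ∧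
    e z' ≤ e w2 ∧ 2 ≤ e z ∧ (e w < e z ∨ e w2 < e z) := by
  classical
  unfold TW at hz
  rw [mem_filter] at hz
  obtain ⟨zS, hD, hkl, z', h1, h2, h3, h4⟩ := hz
  obtain ⟨w, hw⟩ := H.S.ne z zS
  obtain ⟨w2, p, x, q, T⟩ := H.ts hD hw
  have h5 : c z' = {w, w2} := by rw [h1, T.cz]
  rw [kl_two H.S T.cz T.ne] at hkl
  rw [kl_two H.S h5 T.ne] at h4
  have m1 : z' ∈ c' w := (H.S.dual _ _).1 (by rw [h5]; simp)
  have m2 : z' ∈ c' w2 := (H.S.dual _ _).1 (by rw [h5]; simp)
  refine ⟨w, w2, p, x, q, z', T, h5, h2, pair_eq_of (H.S.c2' w) (T.z_mem H) m1 h2.symm,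
    pair_eq_of (H.S.c2' w2) (T.symm.z_mem H) m2 h2.symm, h3, by omega, by omega, ?_, hkl⟩
  omega

/-- the energy of the exceptional elements -/
theorem Hyp.energy : 5 * (TW c e t Sd).card + 2 * (P1 c c' e t Sd BG).card ≤ ∑ z ∈ Sd, e z := by
  classical
  -- the blocks
  obtain ⟨bl, hbl⟩ : ∃ bl : P → Finset P, ∀ a, bl a = if t a = 2 then
      (Sd.filter (fun v => c v = c a ∨ v ∈ c a)) else (insert a ((c' a).filter (fun v => 1 ≤ e v))) :=
    ⟨_, fun a => rfl⟩
  have hTt : ∀ z ∈ TW c e t Sd, t z = 2 := by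
    intro z hz
    obtain ⟨w, w2, p, x, q, z', T, -⟩ := H.tw_spec hz
    exact T.tz
  have hPt : ∀ y ∈ P1 c c' e t Sd BG, t y = 1 := fun y hy =>
    (mem_Dd.1 (H.p1_spec hy).1).2.2.1
  have hTin : ∀ z ∈ TW c e t Sd, ∀ v ∈ bl z, c v = c z ∨ v ∈ c z := by
    intro z hz v hv
    rw [hbl, if_pos (hTt z hz), mem_filter] at hv
    exact hv.2
  have hPin : ∀ y ∈ P1 c c' e t Sd BG, ∀ v ∈ bl y, v = y ∨ (v ∈ c' y ∧ 1 ≤ e v) := by
    intro y hy v hv
    rw [hbl, if_neg (by rw [hPt y hy]; omega), mem_insert, mem_filter] at hv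
    exact hv
  have hsub : ∀ a ∈ TW c e t Sd ∪ P1 c c' e t Sd BG, bl a ⊆ Sd := by
    intro a ha v hv
    rw [mem_union] at ha
    rcases ha with ha | ha
    · rw [hbl, if_pos (hTt a ha), mem_filter] at hv
      exact hv.1
    · have hS := (mem_Dd.1 (H.p1_spec ha).1).1
      rcases hPin a ha v hv with rfl | h
      · exact hS
      · exact (H.ch hS h.1).1
  have hTT : ∀ a ∈ TW c e t Sd, ∀ b ∈ TW c e t Sd, a ≠ b → ∀ v, v ∈ bl a → v ∈ bl b → False := by
    intro a ha b hb hne v hva hvb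
    obtain ⟨w, w2, p, x, q, a', T, h1, h2, h3, h4, h5, h6, h7, h8, h9⟩ := H.tw_spec ha
    obtain ⟨y, y2, o, m, n, b', T', k1, k2, k3, k4, k5, k6, k7, k8, k9⟩ := H.tw_spec hb
    -- `b` would be the twin of `a`
    suffices hba : b = a' by
      subst hba
      unfold TW at hb
      rw [mem_filter] at hb
      have h10 := hb.2.2.1
      rw [kl_two H.S h1 T.ne] at h10
      omega
    have key : ∀ v, v ∈ c a → v ∈ c b → b = a' := by
      intro v va vb
      have hb' : b ∈ c' v := (H.S.dual _ _).1 vb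
      rw [T.cz, mem_insert, mem_singleton] at va
      rcases va with rfl | rfl
      · rw [h3, mem_insert, mem_singleton] at hb'
        rcases hb' with h | h
        · exact absurd h.symm hne
        · exact h
      · rw [h4, mem_insert, mem_singleton] at hb'
        rcases hb' with h | h
        · exact absurd h.symm hne
        · exact h
    have tlv : ∀ z ∈ TW c e t Sd, ∀ v, v ∈ c z → t v = 1 := by
      intro z hz v hv
      have hzS : z ∈ Sd := by
        unfold TW at hz
        exact (mem_filter.1 hz).1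
      have := (H.cov hzS (by rw [hTt z hz]) hv).2
      rw [hTt z hz] at this
      omega
    have tlv2 : ∀ z ∈ TW c e t Sd, ∀ v, c v = c z → v ∈ Sd → t v = 2 := by
      intro z hz v hv hvS
      obtain ⟨w0, hw0⟩ := H.S.ne v hvS
      have h10 := (H.S.cin v hvS w0 hw0).2
      have := tlv z hz w0 (hv ▸ hw0)
      omega
    have hvS : v ∈ Sd := hsub a (mem_union_left _ ha) hva
    rcases hTin a ha v hva with h | h <;> rcases hTin b hb v hvb with h' | h'
    · exact key w (T.w_mem H) (h' ▸ h ▸ T.w_mem H)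
    · have := tlv2 a ha v h hvS
      have := tlv b hb v h'
      omega
    · have := tlv2 b hb v h' hvS
      have := tlv a ha v h
      omega
    · exact key v h h'
  have hTP : ∀ a ∈ TW c e t Sd, ∀ b ∈ P1 c c' e t Sd BG, ∀ v, v ∈ bl a → v ∈ bl b → False := by
    intro a ha b hb v hva hvb
    obtain ⟨w, w2, p, x, q, a', T, h1, h2, h3, h4, h5, h6, h7, h8, h9⟩ := H.tw_spec ha
    obtain ⟨hD, hN, p', hp', hp1, hcp, hz0⟩ := H.p1_spec hb
    have hbt := hPt b hb
    have hbS := (mem_Dd.1 hD).1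
    have hvS : v ∈ Sd := hsub a (mem_union_left _ ha) hva
    have ta := hTt a ha
    rcases hTin a ha v hva with h | h
    · -- `v` at distance two with two covers
      have hw : w ∈ c v := h ▸ T.w_mem H
      rcases hPin b hb v hvb with rfl | ⟨h', h''⟩
      · have := (H.S.cin v hvS w hw).2
        have := T.tw H
        omega
      · have := H.pend hD hN h' h''
        rw [h, T.cz, card_pair T.ne] at this
        omega
    · have hv1 := (H.cov T.zS (by omega) h).2
      rcases hPin b hb v hvb with rfl | ⟨h', h''⟩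
      · have := H.pend hD hN ((H.S.dual _ _).1 h) (by omega)
        rw [T.cz, card_pair T.ne] at this
        omega
      · have := (H.ch hbS h').2.1
        omega
  have hPP : ∀ a ∈ P1 c c' e t Sd BG, ∀ b ∈ P1 c c' e t Sd BG, a ≠ b →
      ∀ v, v ∈ bl a → v ∈ bl b → False := by
    intro a ha b hb hne v hva hvb
    obtain ⟨hD, hN, p', hp', hp1, hcp, hz0⟩ := H.p1_spec ha
    obtain ⟨hD2, hN2, p2, hp2, hp12, hcp2, hz2⟩ := H.p1_spec hb
    have haS := (mem_Dd.1 hD).1
    have hbS := (mem_Dd.1 hD2).1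
    have hat := hPt a ha
    have hbt := hPt b hb
    rcases hPin a ha v hva with h | ⟨h, h1⟩ <;> rcases hPin b hb v hvb with h' | ⟨h', h1'⟩
    · exact hne (h.symm.trans h')
    · have := (H.ch hbS h').2.1
      rw [h] at this
      omega
    · have := (H.ch haS h).2.1
      rw [h'] at this
      omega
    · have c1 := H.pend hD hN h h1
      obtain ⟨y, hy⟩ := card_eq_one.1 c1
      have m1 : a ∈ c v := (H.S.dual _ _).2 h
      have m2 : b ∈ c v := (H.S.dual _ _).2 h'
      rw [hy, mem_singleton] at m1 m2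
      exact hne (m1.trans m2.symm)
  have hdisj : Disjoint (TW c e t Sd) (P1 c c' e t Sd BG) := by
    rw [disjoint_left]
    intro a ha hb
    have := hTt a ha
    have := hPt a hb
    omega
  have hpw : ((TW c e t Sd ∪ P1 c c' e t Sd BG : Finset P) : Set P).PairwiseDisjoint bl := by
    intro a ha b hb hne
    rw [mem_coe, mem_union] at ha hb
    rw [Function.onFun, disjoint_left]
    intro v hva hvb
    rcases ha with ha | ha <;> rcases hb with hb | hb
    · exact hTT a ha b hb hne v hva hvb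
    · exact hTP a ha b hb v hva hvb
    · exact hTP b hb a ha v hvb hva
    · exact hPP a ha b hb hne v hva hvb
  have hTe : ∀ z ∈ TW c e t Sd, 5 ≤ ∑ v ∈ bl z, e v := by
    intro z hz
    obtain ⟨w, w2, p, x, q, z', T, h1, h2, h3, h4, h5, h6, h7, h8, h9⟩ := H.tw_spec hz
    have hwS := T.wS H
    have hw2S := T.symm.wS H
    have hz'S : z' ∈ Sd := (H.ch hwS (by rw [h3]; simp)).1
    have tw := T.tw H
    have tw2 := T.symm.tw H
    have tz := T.tz
    have tz' := (H.ch hwS (by rw [h3]; simp : z' ∈ c' w)).2.1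
    have hs : ({w, w2, z', z} : Finset P) ⊆ bl z := by
      intro v hv
      rw [hbl, if_pos tz, mem_filter]
      simp only [mem_insert, mem_singleton] at hv
      rcases hv with rfl | rfl | rfl | rfl
      · exact ⟨hwS, Or.inr (T.w_mem H)⟩
      · exact ⟨hw2S, Or.inr (T.symm.w_mem H)⟩
      · exact ⟨hz'S, Or.inl (by rw [h1, T.cz])⟩
      · exact ⟨T.zS, Or.inl rfl⟩
    refine le_trans ?_ (sum_le_sum_of_subset (f := e) hs)
    have n1 : w ∉ ({w2, z', z} : Finset P) := by
      simp only [mem_insert, mem_singleton]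
      rintro (h | h | h)
      · exact T.ne h
      · have h' := tw
        rw [h] at h'
        omega
      · have h' := tw
        rw [h] at h'
        omega
    have n2 : w2 ∉ ({z', z} : Finset P) := by
      simp only [mem_insert, mem_singleton]
      rintro (h | h)
      · have h' := tw2
        rw [h] at h'
        have := (H.ch hw2S (by rw [h4]; simp : z' ∈ c' w2)).2.1
        omega
      · have h' := tw2
        rw [h] at h'
        omega
    rw [sum_insert n1, sum_insert n2, Finset.sum_pair h2]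
    omega
  have hPe : ∀ y ∈ P1 c c' e t Sd BG, 2 ≤ ∑ v ∈ bl y, e v := by
    intro y hy
    obtain ⟨hD, hN, p, hp, hp1, hcp, hz0⟩ := H.p1_spec hy
    have hyt := hPt y hy
    have hyS := (mem_Dd.1 hD).1
    have ht := (H.ch hyS hp).2.1
    have hs : ({y, p} : Finset P) ⊆ bl y := by
      intro v hv
      rw [hbl, if_neg (by omega), mem_insert, mem_filter]
      simp only [mem_insert, mem_singleton] at hv
      rcases hv with rfl | rfl
      · exact Or.inl rfl
      · exact Or.inr ⟨hp, by omega⟩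
    refine le_trans ?_ (sum_le_sum_of_subset (f := e) hs)
    rw [Finset.sum_pair (by rintro rfl; omega)]
    have := H.pos hyS hp (by omega)
    omega
  calc 5 * (TW c e t Sd).card + 2 * (P1 c c' e t Sd BG).card
      = ∑ _z ∈ TW c e t Sd, 5 + ∑ _y ∈ P1 c c' e t Sd BG, 2 := by
        rw [sum_const, sum_const, smul_eq_mul, smul_eq_mul]
        ring
    _ ≤ ∑ z ∈ TW c e t Sd, ∑ v ∈ bl z, e v + ∑ y ∈ P1 c c' e t Sd BG, ∑ v ∈ bl y, e v :=
        Nat.add_le_add (sum_le_sum hTe) (sum_le_sum hPe)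
    _ = ∑ a ∈ TW c e t Sd ∪ P1 c c' e t Sd BG, ∑ v ∈ bl a, e v := (sum_union hdisj).symm
    _ = ∑ v ∈ (TW c e t Sd ∪ P1 c c' e t Sd BG).biUnion bl, e v := (sum_biUnion hpw).symm
    _ ≤ _ := by
        apply sum_le_sum_of_subset
        intro v hv
        rw [mem_biUnion] at hv
        obtain ⟨a, ha, hv⟩ := hv
        exact hsub a ha hv

end abs

section win

variable {P : Type u} [Fintype P] [PartialOrder P] [DecidableEq P] {r i : ℕ} {e : P → ℕ}
variable {psi : P → P}
variable (G : GoodTo P r (i + 1)) (hT : NoT P (i + 2)) (hQ : NoQ P (i + 3)) (hM : Mat P i ∅ psi)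
  (hL : AdmL i e) (hU : AdmU i e) (hd : Disjoint (AL i e) (AU i e)) (hc : IsCore i ∅ psi e)

include G hT hQ hM hL hU hd hc in
/-- the energy of the exceptional elements -/
theorem energy_ge : 5 * ((TWL i e).card + (TWU i e).card) +
    2 * ((P1L i psi e).card + (P1U i psi e).card) ≤ ∑ x, e x := by
  classical
  have h1 := (hypL G hT hQ hM hL hU hd hc).energy
  have h2 := (hypU G hT hM hL hU hd hc).energy
  have h3 := sum_all (i := i) e
  have h4 : ∑ x, e x = ∑ x ∈ lS P i, e x + ∑ x ∈ uS P i, e x + ∑ x ∈ lv P i, e x := by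
    exact_mod_cast h3
  have h5 : (P1L i psi e).card ≤
      (P1 uc dc e (fun x : P => lev x - i) (lS P i) (BGL i psi e)).card := by
    exact card_le_card P1s_sub
  have h6 : (P1U i psi e).card ≤
      (P1 dc uc e (fun x : P => i - lev x) (uS P i) (BGU i psi e)).card := by
    exact card_le_card P1s_sub
  unfold TWL TWU
  omega

end win

end Pool.Agent.GaussPoset.Win.Rd
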