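import Pool.Agent.W_448rd_h10.RdH

/-!
MP_448cb3_co, G2, window `j - 1`: the inequality of slope two for all cores.  helper10.
-/

namespace Pool.Agent.GaussPoset.Win.Rd

set_option linter.unusedSectionVars false

open Finset I2 K2
open Pool.Agent.GaussPoset.Win.H2 (SdT NoT low_T up_T sum_all BLx BUx Full full_T slL_nonneg
  slU_nonneg)

universe u

variable {P : Type u} [Fintype P] [PartialOrder P] [DecidableEq P] {r i : ℕ} {e : P → ℕ}
variable {psi : P → P}
variable (G : GoodTo P r (i + 1)) (hT : NoT P (i + 2)) (hM : Mat P i ∅ psi)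
  (hL : AdmL i e) (hU : AdmU i e) (hd : Disjoint (AL i e) (AU i e)) (hc : IsCore i ∅ psi e)

include hM hc in
/-- a core has no simple edges -/
lemma SK_empty : K2.SK i ∅ psi e = ∅ := by
  classical
  rw [eq_empty_iff_forall_notMem]
  intro y hy
  rw [mem_SK] at hy
  obtain ⟨h1, -, S⟩ := hy
  rw [mem_dbL'] at h1
  obtain ⟨p1, p2, p3⟩ := psiL hM h1.1 h1.2
  have t1 : y ∉ Tch i e := by
    unfold Tch
    rw [mem_filter]
    rintro ⟨-, ⟨-, z, hz, hz2⟩ | ⟨h, -⟩⟩
    · have := S.lo z (mem_dc.2 hz)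
      omega
    · omega
  have t2 : psi y ∉ Tch i e := by
    unfold Tch
    rw [mem_filter]
    rintro ⟨-, ⟨h, -⟩ | ⟨-, z, hz, hz2⟩⟩
    · omega
    · have := S.up z (mem_uc.2 hz)
      omega
  have r1 : y ∈ Rst i ∅ psi e := by
    unfold Rst near
    rw [mem_filter, mem_filter]
    exact ⟨⟨mem_univ _, Or.inl h1.1⟩, notMem_empty _, t1, fun h => t2 h.2⟩
  have r2 : psi y ∈ Rst i ∅ psi e := by
    unfold Rst near
    rw [mem_filter, mem_filter]
    exact ⟨⟨mem_univ _, Or.inr p1.1⟩, notMem_empty _, t2, fun h => t1 (p3 ▸ h.2)⟩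
  have := hc y r1
  have := hc _ r2
  have := S.one
  omega

include G hT hM hL hU hd hc in
/-- THE INEQUALITY OF SLOPE TWO FOR ALL CORES -/
theorem half : 2 * (((AL i e).card : ℤ) + (AU i e).card) ≤
    ∑ x, (e x : ℤ) + 2 * ((pL i e : ℤ) + pU i e) := by
  classical
  have hir : i ≤ r := by
    have := G.hr
    omega
  have hg : ∀ m, m + 1 = i → Good P m := fun m hm => G.good m (by omega)
  obtain ⟨ZL, XL, ZU, XU, fL, fU, F⟩ := full_T G.H hir hT hg hM hL hU hd
  have h1 := F.ineq
  rw [SK_empty hM hc] at h1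
  have h2 : (K2.KB i ∅ e).card = 0 := by
    rw [card_eq_zero, eq_empty_iff_forall_notMem]
    intro y hy
    rw [mem_KB] at hy
    exact notMem_empty _ hy.1
  rw [h2] at h1
  have h3 : 0 ≤ ∑ z ∈ lS P i, H2.slL i e ZL z := by
    apply sum_nonneg
    intro z hz
    exact slL_nonneg G.H hT hL F.low (mem_lS.1 hz)
  have h4 : 0 ≤ ∑ z ∈ uS P i, H2.slU i e ZU z := by
    apply sum_nonneg
    intro z hz
    exact slU_nonneg G.H hir hg hU F.upp (mem_uS.1 hz)
  have hdj : Disjoint XL XU := by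
    rw [disjoint_left]
    intro x hx hx'
    obtain ⟨lx, ex, ⟨y, hy⟩, hall, -⟩ := F.low.xx x hx
    obtain ⟨-, -, -, hall', -⟩ := F.upp.xx x hx'
    have hb := (hall y hy).1
    unfold bL at hb
    rw [mem_bd] at hb
    obtain ⟨hyS, ty, ey, ⟨a, ha, hlt⟩, hcc⟩ := hb
    rw [mem_lS] at hyS
    have ty' : lev y = i + 1 := by
      have : lev y - i = 1 := ty
      omega
    have cy := (K2.cc_eq_two (K2.side_low (i := i) G.H hT.noQ) hcc).1
    obtain ⟨p1, p2, p3⟩ := psiL hM ty' cy
    have hpx : psi y ∈ uc x := by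
      rw [mem_uc, ← mem_dc, p2]
      exact mem_uc.2 (mem_dc.1 hy)
    have hb' := (hall' _ hpx).1
    unfold bU at hb'
    rw [mem_bd] at hb'
    have ep : e (psi y) = 1 := hb'.2.2.1
    have hla := lev_uc G.H ha
    refine not_both (e := e) hd (x := a) (by omega) (mem_dc.2 (mem_uc.1 ha)) (u := psi y) ?_
      ⟨hlt, by omega⟩
    rw [mem_uc, ← mem_dc, p2]
    exact ha
  have h5 : ((XL.card : ℤ) + XU.card) ≤ ∑ x ∈ lv P i, (e x : ℤ) := by
    have hsub : XL ∪ XU ⊆ lv P i := by
      intro x hx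
      rw [mem_union] at hx
      rw [mem_lv]
      rcases hx with hx | hx
      · exact (F.low.xx x hx).1
      · exact (F.upp.xx x hx).1
    calc ((XL.card : ℤ) + XU.card) = ∑ x ∈ XL ∪ XU, (1 : ℤ) := by
          rw [sum_const, card_union_of_disjoint hdj]
          simp
      _ ≤ ∑ x ∈ XL ∪ XU, (e x : ℤ) := by
          apply sum_le_sum
          intro x hx
          rw [mem_union] at hx
          rcases hx with hx | hx
          · exact_mod_cast (F.low.xx x hx).2.1
          · exact_mod_cast (F.upp.xx x hx).2.1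
      _ ≤ _ := by
          apply sum_le_sum_of_subset_of_nonneg hsub
          intro x _ _
          omega
  unfold H2.EE at h1
  rw [card_empty] at h1
  push_cast at h1
  linarith

end Pool.Agent.GaussPoset.Win.Rd
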