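import Pool.Agent.W_448rd_h10.RdI

/-!
MP_448cb3_co, G2, window `j - 1`: the energy of the exceptional elements, with guard sites.
helper10.
-/

namespace Pool.Agent.GaussPoset.Win.Rd

set_option linter.unusedSectionVars false

open Finset I2 K2
open Pool.Agent.GaussPoset.Win.H2 (SdT NoT low_T up_T sum_all)
open Pool.Agent.GaussPoset.Win.Xg (CanD Can Tee Exo SdO Act laL laU)

universe u

section abs

variable {P : Type u} [DecidableEq P]
variable {c c' : P → Finset P} {e : P → ℕ} {t : P → ℕ} {V Sd BG EX : Finset P}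
variable (H : Hyp c c' e t V Sd BG EX)
include H

/-- the energy of twins and of double elements without common positive children -/
theorem Hyp.energyQ {Q R : Finset P} (hR1 : ∀ y ∈ R, y ∈ Dd c t Sd BG ∧ 1 ≤ e y)
    (hR2 : ∀ y ∈ R, ∀ z ∈ TW c e t Sd, y ∉ c z) (hQR : Disjoint Q R) (hQ1 : ∀ y ∈ Q, y ∈ Dd c t Sd BG ∧ 1 ≤ e y)
    (hQ2 : ∀ y ∈ Q, ∀ z ∈ TW c e t Sd, y ∉ c z)
    (hQ3 : ∀ y ∈ Q, ∀ y' ∈ Q, y ≠ y' → ∀ z ∈ c' y, z ∈ c' y' → e z = 0) :
    5 * (TW c e t Sd).card + 2 * Q.card + R.card ≤ ∑ z ∈ Sd, e z := by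
  classical
  suffices hs : ∃ U ⊆ Sd, Disjoint U R ∧ 5 * (TW c e t Sd).card + 2 * Q.card ≤ ∑ z ∈ U, e z by
    obtain ⟨U, hU, hUR, hle⟩ := hs
    have h1 : R.card ≤ ∑ z ∈ R, e z := by
      calc R.card = ∑ z ∈ R, 1 := by simp
        _ ≤ _ := sum_le_sum (fun z hz => (hR1 z hz).2)
    have h2 : ∑ z ∈ U ∪ R, e z ≤ ∑ z ∈ Sd, e z := by
      apply sum_le_sum_of_subset
      apply union_subset hU
      intro y hy
      exact (mem_Dd.1 (hR1 y hy).1).1
    rw [sum_union hUR] at h2
    omega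
  obtain ⟨bl, hbl⟩ : ∃ bl : P → Finset P, ∀ a, bl a = if t a = 2 then
      (Sd.filter (fun v => c v = c a ∨ v ∈ c a)) else (insert a ((c' a).filter (fun v => 1 ≤ e v))) :=
    ⟨_, fun a => rfl⟩
  have hTt : ∀ z ∈ TW c e t Sd, t z = 2 := by
    intro z hz
    obtain ⟨w, w2, p, x, q, z', T, -⟩ := H.tw_spec hz
    exact T.tz
  have hPt : ∀ y ∈ Q, t y = 1 := fun y hy => (mem_Dd.1 (hQ1 y hy).1).2.2.1
  have hPS : ∀ y ∈ Q, y ∈ Sd := fun y hy => (mem_Dd.1 (hQ1 y hy).1).1
  have hTin : ∀ z ∈ TW c e t Sd, ∀ v ∈ bl z, c v = c z ∨ v ∈ c z := by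
    intro z hz v hv
    rw [hbl, if_pos (hTt z hz), mem_filter] at hv
    exact hv.2
  have hPin : ∀ y ∈ Q, ∀ v ∈ bl y, v = y ∨ (v ∈ c' y ∧ 1 ≤ e v) := by
    intro y hy v hv
    rw [hbl, if_neg (by rw [hPt y hy]; omega), mem_insert, mem_filter] at hv
    exact hv
  have hsub : ∀ a ∈ TW c e t Sd ∪ Q, bl a ⊆ Sd := by
    intro a ha v hv
    rw [mem_union] at ha
    rcases ha with ha | ha
    · rw [hbl, if_pos (hTt a ha), mem_filter] at hv
      exact hv.1
    · have hS := hPS a ha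
      rcases hPin a ha v hv with rfl | h
      · exact hS
      · exact (H.ch hS h.1).1
  have hTT : ∀ a ∈ TW c e t Sd, ∀ b ∈ TW c e t Sd, a ≠ b → ∀ v, v ∈ bl a → v ∈ bl b → False := by
    intro a ha b hb hne v hva hvb
    obtain ⟨w, w2, p, x, q, a', T, h1, h2, h3, h4, h5, h6, h7, h8, h9⟩ := H.tw_spec ha
    obtain ⟨y, y2, o, m, n, b', T', k1, k2, k3, k4, k5, k6, k7, k8, k9⟩ := H.tw_spec hb
    suffices hba : b = a' by
      subst hba
      unfold TW at hb
      rw [mem_filter] at hb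
      have h10 := hb.2.2.1
      rw [kl_two H.S h1 T.ne] at h10
      omega
    have key : ∀ v, v ∈ c a → v ∈ c b → b = a' := by
      intro v va vb
      have hb' : b ∈ c' v := (H.S.dual _ _).1 vb
      rw [T.cz, mem_insert, mem_singleton] at va
      rcases va with rfl | rfl
      · rw [h3, mem_insert, mem_singleton] at hb'
        rcases hb' with h | h
        · exact absurd h.symm hne
        · exact h
      · rw [h4, mem_insert, mem_singleton] at hb'
        rcases hb' with h | h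
        · exact absurd h.symm hne
        · exact h
    have tlv : ∀ z ∈ TW c e t Sd, ∀ v, v ∈ c z → t v = 1 := by
      intro z hz v hv
      have hzS : z ∈ Sd := by
        unfold TW at hz
        exact (mem_filter.1 hz).1
      have := (H.cov hzS (by rw [hTt z hz]) hv).2
      rw [hTt z hz] at this
      omega
    have tlv2 : ∀ z ∈ TW c e t Sd, ∀ v, c v = c z → v ∈ Sd → t v = 2 := by
      intro z hz v hv hvS
      obtain ⟨w0, hw0⟩ := H.S.ne v hvS
      have h10 := (H.S.cin v hvS w0 hw0).2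
      have := tlv z hz w0 (hv ▸ hw0)
      omega
    have hvS : v ∈ Sd := hsub a (mem_union_left _ ha) hva
    rcases hTin a ha v hva with h | h <;> rcases hTin b hb v hvb with h' | h'
    · exact key w (T.w_mem H) (h' ▸ h ▸ T.w_mem H)
    · have := tlv2 a ha v h hvS
      have := tlv b hb v h'
      omega
    · have := tlv2 b hb v h' hvS
      have := tlv a ha v h
      omega
    · exact key v h h'
  have hTP : ∀ a ∈ TW c e t Sd, ∀ b ∈ Q, ∀ v, v ∈ bl a → v ∈ bl b → False := by
    intro a ha b hb v hva hvb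
    obtain ⟨w, w2, p, x, q, a', T, h1, h2, h3, h4, h5, h6, h7, h8, h9⟩ := H.tw_spec ha
    have hbt := hPt b hb
    have hbS := hPS b hb
    have hno := hQ2 b hb a ha
    rcases hTin a ha v hva with h | h
    · have hw : w ∈ c v := h ▸ T.w_mem H
      rcases hPin b hb v hvb with rfl | ⟨h', h''⟩
      · have := (H.S.cin v hbS w hw).2
        have := T.tw H
        omega
      · apply hno
        rw [← h]
        exact (H.S.dual _ _).2 h'
    · have hv1 := (H.cov T.zS (by rw [T.tz]) h).2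
      have ta := T.tz
      rcases hPin b hb v hvb with rfl | ⟨h', h''⟩
      · exact hno h
      · have := (H.ch hbS h').2.1
        omega
  have hPP : ∀ a ∈ Q, ∀ b ∈ Q, a ≠ b → ∀ v, v ∈ bl a → v ∈ bl b → False := by
    intro a ha b hb hne v hva hvb
    have haS := hPS a ha
    have hbS := hPS b hb
    have hat := hPt a ha
    have hbt := hPt b hb
    rcases hPin a ha v hva with h | ⟨h, h1⟩ <;> rcases hPin b hb v hvb with h' | ⟨h', h1'⟩
    · exact hne (h.symm.trans h')
    · have := (H.ch hbS h').2.1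
      rw [h] at this
      omega
    · have := (H.ch haS h).2.1
      rw [h'] at this
      omega
    · have := hQ3 a ha b hb hne v h h'
      omega
  have hdisj : Disjoint (TW c e t Sd) Q := by
    rw [disjoint_left]
    intro a ha hb
    have := hTt a ha
    have := hPt a hb
    omega
  have hpw : ((TW c e t Sd ∪ Q : Finset P) : Set P).PairwiseDisjoint bl := by
    intro a ha b hb hne
    rw [mem_coe, mem_union] at ha hb
    rw [Function.onFun, disjoint_left]
    intro v hva hvb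
    rcases ha with ha | ha <;> rcases hb with hb | hb
    · exact hTT a ha b hb hne v hva hvb
    · exact hTP a ha b hb v hva hvb
    · exact hTP b hb a ha v hvb hva
    · exact hPP a ha b hb hne v hva hvb
  have hTe : ∀ z ∈ TW c e t Sd, 5 ≤ ∑ v ∈ bl z, e v := by
    intro z hz
    obtain ⟨w, w2, p, x, q, z', T, h1, h2, h3, h4, h5, h6, h7, h8, h9⟩ := H.tw_spec hz
    have hwS := T.wS H
    have hw2S := T.symm.wS H
    have hz'S : z' ∈ Sd := (H.ch hwS (by rw [h3]; simp)).1
    have tw := T.tw H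
    have tw2 := T.symm.tw H
    have tz := T.tz
    have tz' := (H.ch hwS (by rw [h3]; simp : z' ∈ c' w)).2.1
    have hs : ({w, w2, z', z} : Finset P) ⊆ bl z := by
      intro v hv
      rw [hbl, if_pos tz, mem_filter]
      simp only [mem_insert, mem_singleton] at hv
      rcases hv with rfl | rfl | rfl | rfl
      · exact ⟨hwS, Or.inr (T.w_mem H)⟩
      · exact ⟨hw2S, Or.inr (T.symm.w_mem H)⟩
      · exact ⟨hz'S, Or.inl (by rw [h1, T.cz])⟩
      · exact ⟨T.zS, Or.inl rfl⟩
    refine le_trans ?_ (sum_le_sum_of_subset (f := e) hs)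
    have n1 : w ∉ ({w2, z', z} : Finset P) := by
      simp only [mem_insert, mem_singleton]
      rintro (h | h | h)
      · exact T.ne h
      · have h' := tw
        rw [h] at h'
        omega
      · have h' := tw
        rw [h] at h'
        omega
    have n2 : w2 ∉ ({z', z} : Finset P) := by
      simp only [mem_insert, mem_singleton]
      rintro (h | h)
      · have h' := tw2
        rw [h] at h'
        have := (H.ch hw2S (by rw [h4]; simp : z' ∈ c' w2)).2.1
        omega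
      · have h' := tw2
        rw [h] at h'
        omega
    rw [sum_insert n1, sum_insert n2, Finset.sum_pair h2]
    omega
  have hPe : ∀ y ∈ Q, 2 ≤ ∑ v ∈ bl y, e v := by
    intro y hy
    have hyt := hPt y hy
    have hyS := hPS y hy
    obtain ⟨hD, h1⟩ := hQ1 y hy
    obtain ⟨-, yB, -, cy⟩ := mem_Dd.1 hD
    obtain ⟨p, hp, hp1⟩ := H.touch y hyS hyt cy yB h1
    have ht := (H.ch hyS hp).2.1
    have hs : ({y, p} : Finset P) ⊆ bl y := by
      intro v hv
      rw [hbl, if_neg (by omega), mem_insert, mem_filter]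
      simp only [mem_insert, mem_singleton] at hv
      rcases hv with rfl | rfl
      · exact Or.inl rfl
      · exact Or.inr ⟨hp, by omega⟩
    refine le_trans ?_ (sum_le_sum_of_subset (f := e) hs)
    rw [Finset.sum_pair (by rintro rfl; omega)]
    omega
  refine ⟨(TW c e t Sd ∪ Q).biUnion bl, ?_, ?_, ?_⟩
  · intro v hv
    rw [mem_biUnion] at hv
    obtain ⟨a, ha, hv⟩ := hv
    exact hsub a ha hv
  · rw [disjoint_left]
    intro v hv hvR
    rw [mem_biUnion] at hv
    obtain ⟨a, ha, hv⟩ := hv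
    have tv := (mem_Dd.1 (hR1 v hvR).1).2.2.1
    rw [mem_union] at ha
    rcases ha with ha | ha
    · rcases hTin a ha v hv with h | h
      · have hvS : v ∈ Sd := hsub a (mem_union_left _ ha) hv
        obtain ⟨w, w2, p, x, q, a', T, h1, -⟩ := H.tw_spec ha
        have h2 := (H.S.cin v hvS w (h ▸ T.w_mem H)).2
        have := T.tw H
        omega
      · exact hR2 v hvR a ha h
    · rcases hPin a ha v hv with h | h
      · exact disjoint_left.1 hQR ha (h ▸ hvR)
      · have := (H.ch (hPS a ha) h.1).2.1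
        have := hPt a ha
        omega
  calc 5 * (TW c e t Sd).card + 2 * Q.card
      = ∑ _z ∈ TW c e t Sd, 5 + ∑ _y ∈ Q, 2 := by
        rw [sum_const, sum_const, smul_eq_mul, smul_eq_mul]
        ring
    _ ≤ ∑ z ∈ TW c e t Sd, ∑ v ∈ bl z, e v + ∑ y ∈ Q, ∑ v ∈ bl y, e v :=
        Nat.add_le_add (sum_le_sum hTe) (sum_le_sum hPe)
    _ = ∑ a ∈ TW c e t Sd ∪ Q, ∑ v ∈ bl a, e v := (sum_union hdisj).symm
    _ = ∑ v ∈ (TW c e t Sd ∪ Q).biUnion bl, e v := (sum_biUnion hpw).symm
    _ ≤ _ := le_rfl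

/-- the energy of twins, `P1` and `N4` -/
theorem Hyp.energyN (hN : ∀ y ∈ N4 c c' e t Sd BG, ∀ y' ∈ N4 c c' e t Sd BG, y ≠ y' →
    ∀ z ∈ c' y, z ∈ c' y' → e z = 0) : 5 * (TW c e t Sd).card +
    2 * ((P1 c c' e t Sd BG).card + (N4 c c' e t Sd BG).card) ≤ ∑ z ∈ Sd, e z := by
  classical
  have hN4 : ∀ y ∈ N4 c c' e t Sd BG, y ∈ Dd c t Sd BG ∧ gu c e y ∧ sv c c' e y = -4 := by
    intro y hy
    unfold N4 at hy
    rw [mem_filter] at hy
    exact ⟨hy.1, hy.2.2, hy.2.1⟩
  have hP1 : ∀ y ∈ P1 c c' e t Sd BG, y ∈ Dd c t Sd BG ∧ N4a c c' e y := by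
    intro y hy
    obtain ⟨h1, h2, -⟩ := H.p1_spec hy
    exact ⟨h1, h2⟩
  have hdj : Disjoint (P1 c c' e t Sd BG) (N4 c c' e t Sd BG) := by
    rw [disjoint_left]
    intro y h1 h2
    exact (hP1 y h1).2.2 (hN4 y h2).2.1
  rw [← card_union_of_disjoint hdj]
  have hmain := H.energyQ (Q := P1 c c' e t Sd BG ∪ N4 c c' e t Sd BG) (R := ∅)
    (fun y hy => absurd hy (notMem_empty _)) (fun y hy => absurd hy (notMem_empty _))
    (disjoint_empty_right _)
  rw [card_empty, add_zero] at hmain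
  apply hmain
  · intro y hy
    rw [mem_union] at hy
    rcases hy with hy | hy
    · refine ⟨(hP1 y hy).1, ?_⟩
      obtain ⟨-, -, -, cy⟩ := mem_Dd.1 (hP1 y hy).1
      obtain ⟨o, x, hox, hc⟩ := card_eq_two.1 cy
      have := (H.n4a_spec (hP1 y hy).1 (hP1 y hy).2 hc hox).1
      omega
    · refine ⟨(hN4 y hy).1, ?_⟩
      obtain ⟨o, x, -, -, h, -⟩ := H.n4_spec hy
      omega
  · intro y hy z hz hyz
    obtain ⟨w, w2, p, x, q, z', T, h1, h2, h3, h4, h5, h6, h7, h8, h9⟩ := H.tw_spec hz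
    have hzy : z ∈ c' y := (H.S.dual _ _).1 hyz
    rw [mem_union] at hy
    rcases hy with hy | hy
    · have := H.pend (hP1 y hy).1 (hP1 y hy).2 hzy (by omega)
      rw [T.cz, card_pair T.ne] at this
      omega
    · obtain ⟨o, x', -, hc, h, -, hx, -⟩ := H.n4_spec hy
      have hyS := (mem_Dd.1 (hN4 y hy).1).1
      have := H.le_of_gu hyS hzy (a := x') (by rw [hc]; simp) (by omega)
      omega
  · intro y hy y' hy' hne z hz hz'
    rw [mem_union] at hy hy'
    by_contra h0
    have m1 : y ∈ c z := (H.S.dual _ _).2 hz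
    have m2 : y' ∈ c z := (H.S.dual _ _).2 hz'
    have hcz : ∀ v, v ∈ P1 c c' e t Sd BG → z ∈ c' v → y = y' := by
      intro v hv hzv
      have := H.pend (hP1 v hv).1 (hP1 v hv).2 hzv (by omega)
      obtain ⟨a, ha⟩ := card_eq_one.1 this
      rw [ha, mem_singleton] at m1 m2
      exact m1.trans m2.symm
    rcases hy with hy | hy
    · exact hne (hcz y hy hz)
    · rcases hy' with hy' | hy'
      · exact hne (hcz y' hy' hz')
      · exact h0 (hN y hy y' hy' hne z hz hz')

/-- the energy of twins, `P1` and `N4`, all cores -/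
theorem Hyp.energy1 : 5 * (TW c e t Sd).card + 2 * (P1 c c' e t Sd BG).card +
    (N4 c c' e t Sd BG).card ≤ ∑ z ∈ Sd, e z := by
  classical
  have hN4 : ∀ y ∈ N4 c c' e t Sd BG, y ∈ Dd c t Sd BG ∧ gu c e y ∧ sv c c' e y = -4 := by
    intro y hy
    unfold N4 at hy
    rw [mem_filter] at hy
    exact ⟨hy.1, hy.2.2, hy.2.1⟩
  have hP1 : ∀ y ∈ P1 c c' e t Sd BG, y ∈ Dd c t Sd BG ∧ N4a c c' e y := by
    intro y hy
    obtain ⟨h1, h2, -⟩ := H.p1_spec hy
    exact ⟨h1, h2⟩
  apply H.energyQ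
  · intro y hy
    refine ⟨(hN4 y hy).1, ?_⟩
    obtain ⟨o, x, -, -, h, -⟩ := H.n4_spec hy
    omega
  · intro y hy z hz hyz
    obtain ⟨w, w2, p, x, q, z', T, h1, h2, h3, h4, h5, h6, h7, h8, h9⟩ := H.tw_spec hz
    have hzy : z ∈ c' y := (H.S.dual _ _).1 hyz
    obtain ⟨o, x', -, hc, h, -, hx, -⟩ := H.n4_spec hy
    have hyS := (mem_Dd.1 (hN4 y hy).1).1
    have := H.le_of_gu hyS hzy (a := x') (by rw [hc]; simp) (by omega)
    omega
  · rw [disjoint_left]
    intro y h1 h2
    exact (hP1 y h1).2.2 (hN4 y h2).2.1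
  · intro y hy
    refine ⟨(hP1 y hy).1, ?_⟩
    obtain ⟨-, -, -, cy⟩ := mem_Dd.1 (hP1 y hy).1
    obtain ⟨o, x, hox, hc⟩ := card_eq_two.1 cy
    have := (H.n4a_spec (hP1 y hy).1 (hP1 y hy).2 hc hox).1
    omega
  · intro y hy z hz hyz
    obtain ⟨w, w2, p, x, q, z', T, h1, h2, h3, h4, h5, h6, h7, h8, h9⟩ := H.tw_spec hz
    have hzy : z ∈ c' y := (H.S.dual _ _).1 hyz
    have := H.pend (hP1 y hy).1 (hP1 y hy).2 hzy (by omega)
    rw [T.cz, card_pair T.ne] at this
    omega
  · intro y hy y' hy' hne z hz hz'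
    by_contra h0
    have m1 : y ∈ c z := (H.S.dual _ _).2 hz
    have m2 : y' ∈ c z := (H.S.dual _ _).2 hz'
    have := H.pend (hP1 y hy).1 (hP1 y hy).2 hz (by omega)
    obtain ⟨a, ha⟩ := card_eq_one.1 this
    rw [ha, mem_singleton] at m1 m2
    exact hne (m1.trans m2.symm)

end abs

section win

variable {P : Type u} [Fintype P] [PartialOrder P] [DecidableEq P] {r i : ℕ} {e : P → ℕ}
variable {psi : P → P}
variable (G : GoodTo P r (i + 1)) (hT : NoT P (i + 2)) (hQ : NoQ P (i + 3)) (hM : Mat P i ∅ psi)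
  (hL : AdmL i e) (hU : AdmU i e) (hd : Disjoint (AL i e) (AU i e)) (hc : IsCore i ∅ psi e)

include G hT hQ hM hL hU hd hc in
/-- two elements of `N4L` with a common positive child give an exchangeable place -/
lemma n4L_child {y y' z : P} (hy : y ∈ N4L i psi e) (hy' : y' ∈ N4L i psi e) (hne : y ≠ y')
    (hz : z ∈ dc y) (hz' : z ∈ dc y') (h1 : 1 ≤ e z) : (Xg.CC i e).Nonempty := by
  classical
  have HL := hypL G hT hQ hM hL hU hd hc
  obtain ⟨o, x, hox, hcy, ey, eo, ex, hso⟩ := HL.n4_spec hy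
  obtain ⟨o', x', hox', hcy', ey', eo', ex', hso'⟩ := HL.n4_spec hy'
  obtain ⟨⟨ly, cy⟩, yB, -, -⟩ := mem_N4L' hy
  obtain ⟨⟨ly', cy'⟩, yB', -, -⟩ := mem_N4L' hy'
  have yS : y ∈ lS P i := mem_lS.2 (by omega)
  have yS' : y' ∈ lS P i := mem_lS.2 (by omega)
  obtain ⟨zS, tz, yz⟩ := HL.ch yS hz
  obtain ⟨-, -, yz'⟩ := HL.ch yS' hz'
  -- among the twins choose the one of smallest rank
  obtain ⟨d, hd1, hmin⟩ : ∃ d, (uc d = {y, y'} ∧ 1 ≤ e d) ∧
      ∀ d', (uc d' = {y, y'} ∧ 1 ≤ e d') → Xg.rk d ≤ Xg.rk d' := by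
    have hcz : uc z = {y, y'} := pair_eq_of (uc_card_le G.H z) yz yz' hne
    have hne' : ((univ : Finset P).filter (fun d => uc d = {y, y'} ∧ 1 ≤ e d)).Nonempty :=
      ⟨z, mem_filter.2 ⟨mem_univ _, hcz, h1⟩⟩
    obtain ⟨d, hd, hm⟩ := exists_min_image _ Xg.rk hne'
    exact ⟨d, (mem_filter.1 hd).2, fun d' hd' => hm d' (mem_filter.2 ⟨mem_univ _, hd'⟩)⟩
  obtain ⟨hcd, ed⟩ := hd1
  have yd : y ∈ uc d := by rw [hcd]; simp
  have yd' : y' ∈ uc d := by rw [hcd]; simp
  have ld := lev_uc G.H yd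
  have hDJ : DJ uc (fun x : P => lev x - i) (lS P i) d := by
    refine ⟨mem_lS.2 (by omega), ?_, by rw [hcd, card_pair hne], ?_⟩
    · show lev d - i = 2
      omega
    · intro w hw
      rw [hcd, mem_insert, mem_singleton] at hw
      rcases hw with rfl | rfl <;> assumption
  obtain ⟨w2, p, x0, q, T⟩ := HL.ts hDJ yd
  have hw2 : w2 = y' := by
    have h2 : w2 ∈ uc d := by rw [T.cz]; simp
    rw [hcd, mem_insert, mem_singleton] at h2
    rcases h2 with h2 | h2
    · exact absurd h2.symm T.ne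
    · exact h2
  subst hw2
  -- the common site is the guard of both
  have hx0 : x0 = x ∧ p = o := by
    have hx0y : x0 ∈ uc y := T.x_mem HL
    have hpy : p ∈ uc y := T.p_mem HL
    rw [hcy, mem_insert, mem_singleton] at hx0y hpy
    rcases hx0y with h | h
    · exfalso
      subst h
      have := hso w2 (by rw [T.dx]; simp) T.ne.symm
      omega
    · refine ⟨h, ?_⟩
      rcases hpy with h2 | h2
      · exact h2
      · exact absurd (h2.trans h.symm) T.px
  have hq : x0 = x' ∧ q = o' := by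
    have hx0y : x0 ∈ uc w2 := T.symm.x_mem HL
    have hpy : q ∈ uc w2 := T.symm.p_mem HL
    rw [hcy', mem_insert, mem_singleton] at hx0y hpy
    rcases hx0y with h | h
    · exfalso
      subst h
      have := hso' y (by rw [T.dx]; simp) T.ne
      omega
    · refine ⟨h, ?_⟩
      rcases hpy with h2 | h2
      · exact h2
      · exact absurd (h2.trans h.symm) T.xq.symm
  have ed1 : e d ≤ 1 := by
    have := HL.le_of_gu yS (T.z_mem HL) (a := x) (by rw [hcy]; simp) (by omega)
    omega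
  obtain ⟨p1, p2, p3⟩ := psiL hM ly cy
  obtain ⟨q1, q2, q3⟩ := psiL hM ly' cy'
  have g1 : e (psi y) = 0 := by
    by_contra h
    exact yB (mem_BGL.2 ⟨⟨by omega, cy⟩, by omega, by omega⟩)
  have g2 : e (psi w2) = 0 := by
    by_contra h
    exact yB' (mem_BGL.2 ⟨⟨by omega, cy'⟩, by omega, by omega⟩)
  have m1 : psi y ∈ uc x0 := by
    rw [mem_uc, ← mem_dc, p2]
    exact T.x_mem HL
  have m2 : psi w2 ∈ uc x0 := by
    rw [mem_uc, ← mem_dc, q2]
    exact T.symm.x_mem HL
  have hne2 : psi y ≠ psi w2 := by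
    intro h
    apply T.ne
    rw [← p3, ← q3, h]
  have hux : uc x0 = {psi y, psi w2} := pair_eq_of (uc_card_le G.H x0) m1 m2 hne2
  have hu0 : ∀ u ∈ uc x0, e u = 0 := by
    intro u hu
    rw [hux, mem_insert, mem_singleton] at hu
    rcases hu with rfl | rfl <;> assumption
  have htz : lev d = i + 2 := by omega
  have TT : Tee dc uc (laL i) d y w2 p x0 q :=
    ⟨by unfold laL; omega, T.cz, T.cw, T.cw2, T.dx, T.ne, T.px, T.xq, T.pq⟩
  have hgd : ∀ a ∈ dc d, e a ≤ e d := by
    intro a ha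
    exact HL.le_of_gu T.zS ha (a := y) yd (by omega)
  have kids : ∀ w : P, w ∈ lS P i → (∃ a ∈ uc w, e w ≤ e a) → ∀ d' ∈ dc w, e d' ≤ e w := by
    rintro w hw ⟨a, ha, hle⟩ d' hd'
    exact HL.le_of_gu hw hd' ha hle
  have EE : Exo dc uc d y w2 p x0 q e := by
    refine ⟨ed, ?_, ?_, ?_, ?_, ?_⟩
    · intro a ha
      have := hgd a ha
      omega
    · intro u hu
      rw [hu0 u hu]
      omega
    · right
      refine ⟨fun d' hd' _ => kids y yS ⟨x, by rw [hcy]; simp, by omega⟩ d' hd', ?_⟩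
      rw [hx0.2]
      omega
    · right
      refine ⟨fun d' hd' _ => kids w2 yS' ⟨x', by rw [hcy']; simp, by omega⟩ d' hd', ?_⟩
      rw [hq.2]
      omega
    · left
      right
      rw [hx0.1]
      omega
  refine ⟨(d, x0), ?_⟩
  rw [Xg.mem_CC G.H]
  left
  refine ⟨y, w2, p, q, TT, EE, ?_⟩
  intro d' hd' hrk
  by_contra h0
  have h9 := hmin d' ⟨hd', by omega⟩
  have h10 : Xg.rk d' < Xg.rk d := hrk
  omega

include G hT hQ hM hL hU hd hc in
/-- the same above the window -/
lemma n4U_child {y y' z : P} (hy : y ∈ N4U i psi e) (hy' : y' ∈ N4U i psi e) (hne : y ≠ y')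
    (hz : z ∈ uc y) (hz' : z ∈ uc y') (h1 : 1 ≤ e z) : (Xg.CC i e).Nonempty := by
  classical
  have HU := hypU G hT hM hL hU hd hc
  obtain ⟨o, x, hox, hcy, ey, eo, ex, hso⟩ := HU.n4_spec hy
  obtain ⟨o', x', hox', hcy', ey', eo', ex', hso'⟩ := HU.n4_spec hy'
  obtain ⟨⟨ly, cy⟩, yB, -, -⟩ := mem_N4U' hy
  obtain ⟨⟨ly', cy'⟩, yB', -, -⟩ := mem_N4U' hy'
  have yS : y ∈ uS P i := mem_uS.2 (by omega)
  have yS' : y' ∈ uS P i := mem_uS.2 (by omega)
  obtain ⟨zS, tz, yz⟩ := HU.ch yS hz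
  obtain ⟨-, -, yz'⟩ := HU.ch yS' hz'
  obtain ⟨d, hd1, hmin⟩ : ∃ d, (dc d = {y, y'} ∧ 1 ≤ e d) ∧
      ∀ d', (dc d' = {y, y'} ∧ 1 ≤ e d') → Xg.rk d ≤ Xg.rk d' := by
    have hcz : dc z = {y, y'} := pair_eq_of (dc_card_le G.H z) yz yz' hne
    have hne' : ((univ : Finset P).filter (fun d => dc d = {y, y'} ∧ 1 ≤ e d)).Nonempty :=
      ⟨z, mem_filter.2 ⟨mem_univ _, hcz, h1⟩⟩
    obtain ⟨d, hd, hm⟩ := exists_min_image _ Xg.rk hne'
    exact ⟨d, (mem_filter.1 hd).2, fun d' hd' => hm d' (mem_filter.2 ⟨mem_univ _, hd'⟩)⟩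
  obtain ⟨hcd, ed⟩ := hd1
  have yd : y ∈ dc d := by rw [hcd]; simp
  have yd' : y' ∈ dc d := by rw [hcd]; simp
  have ld := lev_dc G.H yd
  have hDJ : DJ dc (fun x : P => i - lev x) (uS P i) d := by
    refine ⟨mem_uS.2 (by omega), ?_, by rw [hcd, card_pair hne], ?_⟩
    · show i - lev d = 2
      omega
    · intro w hw
      rw [hcd, mem_insert, mem_singleton] at hw
      rcases hw with rfl | rfl <;> assumption
  obtain ⟨w2, p, x0, q, T⟩ := HU.ts hDJ yd
  have hw2 : w2 = y' := by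
    have h2 : w2 ∈ dc d := by rw [T.cz]; simp
    rw [hcd, mem_insert, mem_singleton] at h2
    rcases h2 with h2 | h2
    · exact absurd h2.symm T.ne
    · exact h2
  subst hw2
  have hx0 : x0 = x ∧ p = o := by
    have hx0y : x0 ∈ dc y := T.x_mem HU
    have hpy : p ∈ dc y := T.p_mem HU
    rw [hcy, mem_insert, mem_singleton] at hx0y hpy
    rcases hx0y with h | h
    · exfalso
      subst h
      have := hso w2 (by rw [T.dx]; simp) T.ne.symm
      omega
    · refine ⟨h, ?_⟩
      rcases hpy with h2 | h2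
      · exact h2
      · exact absurd (h2.trans h.symm) T.px
  have hq : x0 = x' ∧ q = o' := by
    have hx0y : x0 ∈ dc w2 := T.symm.x_mem HU
    have hpy : q ∈ dc w2 := T.symm.p_mem HU
    rw [hcy', mem_insert, mem_singleton] at hx0y hpy
    rcases hx0y with h | h
    · exfalso
      subst h
      have := hso' y (by rw [T.dx]; simp) T.ne
      omega
    · refine ⟨h, ?_⟩
      rcases hpy with h2 | h2
      · exact h2
      · exact absurd (h2.trans h.symm) T.xq.symm
  have ed1 : e d ≤ 1 := by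
    have := HU.le_of_gu yS (T.z_mem HU) (a := x) (by rw [hcy]; simp) (by omega)
    omega
  obtain ⟨p1, p2, p3⟩ := psiU hM ly cy
  obtain ⟨q1, q2, q3⟩ := psiU hM ly' cy'
  have g1 : e (psi y) = 0 := by
    by_contra h
    exact yB (mem_BGU.2 ⟨⟨by omega, cy⟩, by omega, by omega⟩)
  have g2 : e (psi w2) = 0 := by
    by_contra h
    exact yB' (mem_BGU.2 ⟨⟨by omega, cy'⟩, by omega, by omega⟩)
  have m1 : psi y ∈ dc x0 := by
    rw [mem_dc, ← mem_uc, p2]
    exact T.x_mem HU
  have m2 : psi w2 ∈ dc x0 := by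
    rw [mem_dc, ← mem_uc, q2]
    exact T.symm.x_mem HU
  have hne2 : psi y ≠ psi w2 := by
    intro h
    apply T.ne
    rw [← p3, ← q3, h]
  have hux : dc x0 = {psi y, psi w2} := pair_eq_of (dc_card_le G.H x0) m1 m2 hne2
  have hu0 : ∀ u ∈ dc x0, e u = 0 := by
    intro u hu
    rw [hux, mem_insert, mem_singleton] at hu
    rcases hu with rfl | rfl <;> assumption
  have htz : lev d + 2 = i := by omega
  have TT : Tee uc dc (laU i) d y w2 p x0 q :=
    ⟨by unfold laU; omega, T.cz, T.cw, T.cw2, T.dx, T.ne, T.px, T.xq, T.pq⟩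
  have hgd : ∀ a ∈ uc d, e a ≤ e d := by
    intro a ha
    exact HU.le_of_gu T.zS ha (a := y) yd (by omega)
  have kids : ∀ w : P, w ∈ uS P i → (∃ a ∈ dc w, e w ≤ e a) → ∀ d' ∈ uc w, e d' ≤ e w := by
    rintro w hw ⟨a, ha, hle⟩ d' hd'
    exact HU.le_of_gu hw hd' ha hle
  have EE : Exo uc dc d y w2 p x0 q e := by
    refine ⟨ed, ?_, ?_, ?_, ?_, ?_⟩
    · intro a ha
      have := hgd a ha
      omega
    · intro u hu
      rw [hu0 u hu]
      omega
    · right
      refine ⟨fun d' hd' _ => kids y yS ⟨x, by rw [hcy]; simp, by omega⟩ d' hd', ?_⟩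
      rw [hx0.2]
      omega
    · right
      refine ⟨fun d' hd' _ => kids w2 yS' ⟨x', by rw [hcy']; simp, by omega⟩ d' hd', ?_⟩
      rw [hq.2]
      omega
    · left
      right
      rw [hx0.1]
      omega
  refine ⟨(d, x0), ?_⟩
  rw [Xg.mem_CC G.H]
  right
  refine ⟨y, w2, p, q, TT, EE, ?_⟩
  intro d' hd' hrk
  by_contra h0
  have h9 := hmin d' ⟨hd', by omega⟩
  have h10 : Xg.rk d' < Xg.rk d := hrk
  omega

include G hT hQ hM hL hU hd hc in
/-- the guard sites and their elements -/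
lemma gs_facts : (GS i psi e).card ≤ ∑ x ∈ lv P i, e x ∧
    2 * (GS i psi e).card ≤ (N4L i psi e).card + (N4U i psi e).card := by
  classical
  have HL := hypL G hT hQ hM hL hU hd hc
  have HU := hypU G hT hM hL hU hd hc
  -- the guard sites
  have h7 : (GS i psi e).card ≤ ∑ x ∈ lv P i, e x := by
    have hs : GS i psi e ⊆ lv P i := by
      intro x hx
      unfold GS at hx
      exact (mem_filter.1 hx).1
    calc (GS i psi e).card = ∑ x ∈ GS i psi e, 1 := by simp
      _ ≤ ∑ x ∈ GS i psi e, e x := by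
        apply sum_le_sum
        intro x hx
        unfold GS at hx
        have := (mem_filter.1 hx).2.1
        omega
      _ ≤ _ := sum_le_sum_of_subset hs
  have h8 : 2 * (GS i psi e).card ≤ (N4L i psi e).card + (N4U i psi e).card := by
    -- each guard site has two elements, each element has one guard site
    have uniqL : ∀ y ∈ N4L i psi e, ∀ x ∈ uc y, ∀ x' ∈ uc y, 1 ≤ e x → 1 ≤ e x' → x = x' := by
      intro y hy x hx x' hx' h9 h10
      obtain ⟨o, x0, hox, hcy, ey, eo, ex, hso⟩ := HL.n4_spec hy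
      rw [hcy, mem_insert, mem_singleton] at hx hx'
      rcases hx with rfl | rfl <;> rcases hx' with rfl | rfl
      · rfl
      · omega
      · omega
      · rfl
    have uniqU : ∀ y ∈ N4U i psi e, ∀ x ∈ dc y, ∀ x' ∈ dc y, 1 ≤ e x → 1 ≤ e x' → x = x' := by
      intro y hy x hx x' hx' h9 h10
      obtain ⟨o, x0, hox, hcy, ey, eo, ex, hso⟩ := HU.n4_spec hy
      rw [hcy, mem_insert, mem_singleton] at hx hx'
      rcases hx with rfl | rfl <;> rcases hx' with rfl | rfl
      · rfl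
      · omega
      · omega
      · rfl
    have hdj : Disjoint (N4L i psi e) (N4U i psi e) := by
      rw [disjoint_left]
      intro y hy hy'
      have k1 := (mem_N4L' hy).1.1
      have k2 := (mem_N4U' hy').1.1
      omega
    rw [← card_union_of_disjoint hdj]
    obtain ⟨A, hA⟩ : ∃ A : P → Finset P, ∀ x, A x = (N4L i psi e ∪ N4U i psi e).filter
      (fun y => (y ∈ N4L i psi e ∧ x ∈ uc y) ∨ (y ∈ N4U i psi e ∧ x ∈ dc y)) := ⟨_, fun _ => rfl⟩
    have hpw : ((GS i psi e : Finset P) : Set P).PairwiseDisjoint A := by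
      intro x hx x' hx' hne
      rw [mem_coe] at hx hx'
      unfold GS at hx hx'
      have ex := (mem_filter.1 hx).2.1
      have ex' := (mem_filter.1 hx').2.1
      rw [Function.onFun, disjoint_left]
      intro y hy hy'
      rw [hA, mem_filter] at hy hy'
      rcases hy.2 with ⟨k1, k2⟩ | ⟨k1, k2⟩ <;> rcases hy'.2 with ⟨k3, k4⟩ | ⟨k3, k4⟩
      · exact hne (uniqL y k1 x k2 x' k4 (by omega) (by omega))
      · exact disjoint_left.1 hdj k1 k3
      · exact disjoint_left.1 hdj k3 k1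
      · exact hne (uniqU y k1 x k2 x' k4 (by omega) (by omega))
    have hge : ∀ x ∈ GS i psi e, 2 ≤ (A x).card := by
      intro x hx
      unfold GS at hx
      obtain ⟨-, -, y, y', hne, k1, k2⟩ := mem_filter.1 hx
      have : 1 < (A x).card := by
        rw [one_lt_card]
        refine ⟨y, ?_, y', ?_, hne⟩
        · rw [hA, mem_filter, mem_union]
          refine ⟨?_, k1⟩
          rcases k1 with k1 | k1
          · exact Or.inl k1.1
          · exact Or.inr k1.1
        · rw [hA, mem_filter, mem_union]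
          refine ⟨?_, k2⟩
          rcases k2 with k2 | k2
          · exact Or.inl k2.1
          · exact Or.inr k2.1
      omega
    calc 2 * (GS i psi e).card = ∑ _x ∈ GS i psi e, 2 := by
          rw [sum_const, smul_eq_mul, mul_comm]
      _ ≤ ∑ x ∈ GS i psi e, (A x).card := sum_le_sum hge
      _ = ((GS i psi e).biUnion A).card := (card_biUnion hpw).symm
      _ ≤ _ := by
        apply card_le_card
        intro y hy
        rw [mem_biUnion] at hy
        obtain ⟨x, -, hy⟩ := hy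
        rw [hA] at hy
        exact (mem_filter.1 hy).1
  exact ⟨h7, h8⟩

include G hT hQ hM hL hU hd hc in
/-- the energy of the exceptional elements of a reduced core -/
theorem energy_gs (hCC : Xg.CC i e = ∅) : 5 * ((TWL i e).card + (TWU i e).card) +
    2 * ((P1L i psi e).card + (P1U i psi e).card) + 5 * (GS i psi e).card ≤ ∑ x, e x := by
  classical
  have HL := hypL G hT hQ hM hL hU hd hc
  have HU := hypU G hT hM hL hU hd hc
  have h1 := HL.energyN (by
    intro y hy y' hy' hne z hz hz'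
    by_contra h0
    obtain ⟨a, ha⟩ := n4L_child G hT hQ hM hL hU hd hc hy hy' hne hz hz' (by omega)
    rw [hCC] at ha
    exact notMem_empty _ ha)
  have h2 := HU.energyN (by
    intro y hy y' hy' hne z hz hz'
    by_contra h0
    obtain ⟨a, ha⟩ := n4U_child G hT hQ hM hL hU hd hc hy hy' hne hz hz' (by omega)
    rw [hCC] at ha
    exact notMem_empty _ ha)
  have h3 := sum_all (i := i) e
  have h4 : ∑ x, e x = ∑ x ∈ lS P i, e x + ∑ x ∈ uS P i, e x + ∑ x ∈ lv P i, e x := by
    exact_mod_cast h3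
  have h5 : (P1L i psi e).card ≤
      (P1 uc dc e (fun x : P => lev x - i) (lS P i) (BGL i psi e)).card := card_le_card P1s_sub
  have h6 : (P1U i psi e).card ≤
      (P1 dc uc e (fun x : P => i - lev x) (uS P i) (BGU i psi e)).card := card_le_card P1s_sub
  obtain ⟨h7, h8⟩ := gs_facts G hT hQ hM hL hU hd hc
  unfold TWL TWU
  unfold N4L N4U at h8
  omega

include G hT hQ hM hL hU hd hc in
/-- the energy of the exceptional elements, all cores -/
theorem energy_ge3 : 5 * ((TWL i e).card + (TWU i e).card) +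
    2 * ((P1L i psi e).card + (P1U i psi e).card) + 3 * (GS i psi e).card ≤ ∑ x, e x := by
  classical
  have h1 := (hypL G hT hQ hM hL hU hd hc).energy1
  have h2 := (hypU G hT hM hL hU hd hc).energy1
  have h3 := sum_all (i := i) e
  have h4 : ∑ x, e x = ∑ x ∈ lS P i, e x + ∑ x ∈ uS P i, e x + ∑ x ∈ lv P i, e x := by
    exact_mod_cast h3
  have h5 : (P1L i psi e).card ≤
      (P1 uc dc e (fun x : P => lev x - i) (lS P i) (BGL i psi e)).card := card_le_card P1s_sub
  have h6 : (P1U i psi e).card ≤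
      (P1 dc uc e (fun x : P => i - lev x) (uS P i) (BGU i psi e)).card := card_le_card P1s_sub
  obtain ⟨h7, h8⟩ := gs_facts G hT hQ hM hL hU hd hc
  unfold TWL TWU
  unfold N4L N4U at h8
  omega

end win

end Pool.Agent.GaussPoset.Win.Rd
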