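import Pool.Agent.W_448rd_h10.RdJ
import Pool.Agent.W_448xc_h84.XgD

/-!
MP_448cb3_co, G2, window `j - 1`: removal of a block of lower elements.  helper10.

`e` = configuration with the block `W` (labels `b`, killed sites `X`), `B` = the same without the
block.  `AL e = AL B ∪ X`, `AU`, `aU`, `pU` are the same, `aL`, `pL` add, admissibility, the core
condition and the exchangeable places outside the block are the same.
-/

namespace Pool.Agent.GaussPoset.Win.Rd

set_option linter.unusedSectionVars false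

open Finset I2 K2
open Pool.Agent.GaussPoset.Win.Xg (CanD Can Tee Exo SdO Act laL laU)

universe u

variable {P : Type u} [Fintype P] [PartialOrder P] [DecidableEq P] {r i : ℕ}
variable {W X : Finset P} {b e B : P → ℕ} {psi : P → P}

/-- an element of the block is killed in the block -/
def bF (W : Finset P) (b : P → ℕ) (w : P) : Prop := ∃ z ∈ dc w, z ∈ W ∧ b w < b z

/-- an element of the block is guarded in the block -/
def bG (W : Finset P) (b : P → ℕ) (w : P) : Prop := ∃ y ∈ uc w, y ∈ W ∧ b w ≤ b y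

/-- a block of lower elements over the sites `X` -/
structure Blk (i : ℕ) (W X : Finset P) (b : P → ℕ) : Prop where
  lv : ∀ v ∈ W, i < lev v
  pos : ∀ v ∈ W, 1 ≤ b v
  up1 : ∀ v ∈ W, lev v = i + 1 → uc v ⊆ X
  up2 : ∀ v ∈ W, i + 1 < lev v → uc v ⊆ W
  ad : ∀ v ∈ W, i + 1 < lev v → ¬ (bF W b v ∧ bG W b v)
  tch : ∀ v ∈ W, lev v = i + 1 → ∃ z ∈ dc v, z ∈ W
  X : ∀ x ∈ X, lev x = i ∧ ∃ w ∈ W, w ∈ dc x

/-- `B` is `e` without the block `W` -/
structure Rem (W X : Finset P) (b e B : P → ℕ) : Prop where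
  eW : ∀ v ∈ W, e v = b v
  BW : ∀ v ∈ W, B v = 0
  eq : ∀ v, v ∉ W → e v = B v
  BX : ∀ x ∈ X, B x = 0
  dX : ∀ x ∈ X, ∀ v ∈ dc x, v ∉ W → B v = 0
  uX : ∀ x ∈ X, ∀ u ∈ uc x, B u = 0
  ch : ∀ w ∈ W, ∀ z ∈ dc w, z ∉ W → B z = 0

open Classical in
/-- number of killed elements of the block -/
noncomputable def aW (W : Finset P) (b : P → ℕ) : ℕ := (W.filter (fun w => bF W b w)).card

open Classical in
/-- number of free elements of the block -/
noncomputable def pW (W : Finset P) (b : P → ℕ) : ℕ :=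
  (W.filter (fun w => ¬ bF W b w ∧ ¬ bG W b w)).card

section rem

variable (H : Gr P r) (K : Blk i W X b) (R : Rem W X b e B)
include H K R

lemma Rem.lvW {v : P} (hv : v ∈ W) : i < lev v := K.lv v hv

lemma Rem.lvX {v : P} (hv : v ∈ X) : lev v = i ∧ v ∉ W := by
  refine ⟨(K.X v hv).1, fun h => ?_⟩
  have := R.lvW H K h
  have := (K.X v hv).1
  omega

lemma Rem.eX {x : P} (hx : x ∈ X) : e x = 0 := by
  rw [R.eq x (R.lvX H K hx).2, R.BX x hx]

lemma Rem.FD_out {v : P} (hv : v ∉ W) (hx : v ∉ X) : FD e v ↔ FD B v := by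
  constructor
  · rintro ⟨z, hz, hlt⟩
    by_cases h : z ∈ W
    · exfalso
      have h0 := K.lv z h
      by_cases h1 : lev z = i + 1
      · exact hx (K.up1 z h h1 (mem_uc.2 hz))
      · exact hv (K.up2 z h (by omega) (mem_uc.2 hz))
    · exact ⟨z, hz, by rw [← R.eq v hv, ← R.eq z h]; exact hlt⟩
  · rintro ⟨z, hz, hlt⟩
    by_cases h : z ∈ W
    · have := R.BW z h
      omega
    · exact ⟨z, hz, by rw [R.eq v hv, R.eq z h]; exact hlt⟩

lemma Rem.GU_out {v : P} (hv : v ∉ W) : GU e v ↔ GU B v := by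
  constructor
  · rintro ⟨y, hy, hle⟩
    refine ⟨y, hy, ?_⟩
    by_cases h : y ∈ W
    · rw [R.ch y h v (mem_dc.2 hy) hv]
      omega
    · rw [← R.eq v hv, ← R.eq y h]
      exact hle
  · rintro ⟨y, hy, hle⟩
    refine ⟨y, hy, ?_⟩
    by_cases h : y ∈ W
    · rw [R.eq v hv, R.ch y h v (mem_dc.2 hy) hv]
      omega
    · rw [R.eq v hv, R.eq y h]
      exact hle

lemma Rem.up_eq {v : P} (hv : lev v ≤ i) : e v = B v :=
  R.eq v (fun h => by have := R.lvW H K h; omega)

lemma Rem.FU_out {v : P} (hv : lev v ≤ i) : FU e v ↔ FU B v := by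
  constructor
  · rintro ⟨y, hy, hlt⟩
    have := lev_uc H (mem_uc.2 hy)
    exact ⟨y, hy, by rw [← R.up_eq H K hv, ← R.up_eq H K (by omega)]; exact hlt⟩
  · rintro ⟨y, hy, hlt⟩
    have := lev_uc H (mem_uc.2 hy)
    exact ⟨y, hy, by rw [R.up_eq H K hv, R.up_eq H K (by omega)]; exact hlt⟩

lemma Rem.GD_out {v : P} (hv : lev v < i) : GD e v ↔ GD B v := by
  constructor
  · rintro ⟨y, hy, hlt⟩
    have := lev_dc H (mem_dc.2 hy)
    exact ⟨y, hy, by rw [← R.up_eq H K (by omega), ← R.up_eq H K (by omega)]; exact hlt⟩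
  · rintro ⟨y, hy, hlt⟩
    have := lev_dc H (mem_dc.2 hy)
    exact ⟨y, hy, by rw [R.up_eq H K (by omega), R.up_eq H K (by omega)]; exact hlt⟩

lemma Rem.FD_X {x : P} (hx : x ∈ X) : FD e x ∧ ¬ FD B x := by
  constructor
  · obtain ⟨w, hw, hwx⟩ := (K.X x hx).2
    refine ⟨w, mem_dc.1 hwx, ?_⟩
    rw [R.eX H K hx, R.eW w hw]
    exact K.pos w hw
  · rintro ⟨z, hz, hlt⟩
    by_cases h : z ∈ W
    · have := R.BW z h
      omega
    · have := R.dX x hx z (mem_dc.2 hz) h
      omega

lemma Rem.FD_W {w : P} (hw : w ∈ W) : (FD e w ↔ bF W b w) ∧ ¬ FD B w := by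
  refine ⟨⟨?_, ?_⟩, ?_⟩
  · rintro ⟨z, hz, hlt⟩
    by_cases h : z ∈ W
    · exact ⟨z, mem_dc.2 hz, h, by rw [← R.eW w hw, ← R.eW z h]; exact hlt⟩
    · rw [R.eq z h, R.ch w hw z (mem_dc.2 hz) h] at hlt
      omega
  · rintro ⟨z, hz, h, hlt⟩
    exact ⟨z, mem_dc.1 hz, by rw [R.eW w hw, R.eW z h]; exact hlt⟩
  · rintro ⟨z, hz, hlt⟩
    by_cases h : z ∈ W
    · have := R.BW z h
      omega
    · have := R.ch w hw z (mem_dc.2 hz) h
      omega

lemma Rem.GU_W {w : P} (hw : w ∈ W) : (GU e w ↔ bG W b w) ∧ GU B w := by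
  have hpos := K.pos w hw
  refine ⟨⟨?_, ?_⟩, ?_⟩
  · rintro ⟨y, hy, hle⟩
    rw [R.eW w hw] at hle
    have h0 := K.lv w hw
    by_cases h1 : lev w = i + 1
    · have := R.eX H K (K.up1 w hw h1 (mem_uc.2 hy))
      omega
    · have h2 := K.up2 w hw (by omega) (mem_uc.2 hy)
      exact ⟨y, mem_uc.2 hy, h2, by rw [← R.eW y h2]; exact hle⟩
  · rintro ⟨y, hy, h, hle⟩
    exact ⟨y, mem_uc.1 hy, by rw [R.eW w hw, R.eW y h]; exact hle⟩
  · obtain ⟨y, hy⟩ := uc_nonempty H (x := w) (by have := R.lvW H K hw; omega)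
    exact ⟨y, mem_uc.1 hy, by rw [R.BW w hw]; omega⟩

lemma Rem.nG {w : P} (hw : w ∈ W) (h1 : lev w = i + 1) : ¬ GU e w := by
  rintro ⟨y, hy, hle⟩
  have := R.eX H K (K.up1 w hw h1 (mem_uc.2 hy))
  have := K.pos w hw
  rw [R.eW w hw] at hle
  omega

lemma Rem.nFG {w : P} (hw : w ∈ W) (h1 : i + 1 < lev w) : ¬ (FD e w ∧ GU e w) := by
  rintro ⟨h2, h3⟩
  exact K.ad w hw h1 ⟨(R.FD_W H K hw).1.1 h2, (R.GU_W H K hw).1.1 h3⟩

lemma Rem.AL : AL i e = AL i B ∪ X ∧ Disjoint (AL i B) X := by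
  classical
  constructor
  · ext v
    rw [mem_union, NormD_mem_AL, NormD_mem_AL]
    by_cases hx : v ∈ X
    · have := R.FD_X H K hx
      have := (K.X v hx).1
      tauto
    · constructor
      · rintro ⟨h1, h2⟩
        have hv : v ∉ W := fun h => by have := R.lvW H K h; omega
        exact Or.inl ⟨h1, (R.FD_out H K hv hx).1 h2⟩
      · rintro (⟨h1, h2⟩ | h)
        · have hv : v ∉ W := fun h => by have := R.lvW H K h; omega
          exact ⟨h1, (R.FD_out H K hv hx).2 h2⟩
        · exact absurd h hx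
  · rw [disjoint_left]
    intro v hv hx
    rw [NormD_mem_AL] at hv
    exact (R.FD_X H K hx).2 hv.2

lemma Rem.AU : AU i e = AU i B ∧ Disjoint (AU i B) X := by
  classical
  constructor
  · ext v
    rw [NormD_mem_AU, NormD_mem_AU]
    constructor
    · rintro ⟨h1, h2⟩
      exact ⟨h1, (R.FU_out H K (by omega)).1 h2⟩
    · rintro ⟨h1, h2⟩
      exact ⟨h1, (R.FU_out H K (by omega)).2 h2⟩
  · rw [disjoint_left]
    intro v hv hx
    rw [NormD_mem_AU] at hv
    obtain ⟨-, y, hy, hlt⟩ := hv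
    have := R.uX v hx y (mem_uc.2 hy)
    omega

lemma Rem.disj : Disjoint (Win.AL i e) (Win.AU i e) ↔
    Disjoint (Win.AL i B) (Win.AU i B) := by
  rw [(R.AL H K).1, (R.AU H K).1, disjoint_union_left]
  exact ⟨fun h => h.1, fun h => ⟨h, (R.AU H K).2.symm⟩⟩

lemma Rem.adL : AdmL i e ↔ AdmL i B := by
  constructor
  · rintro h z hz ⟨h1, h2⟩
    by_cases hW : z ∈ W
    · exact (R.FD_W H K hW).2 h1
    · have hX : z ∉ X := fun hx => by have := (K.X z hx).1; omega
      exact h z hz ⟨(R.FD_out H K hW hX).2 h1, (R.GU_out H K hW).2 h2⟩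
  · rintro h z hz ⟨h1, h2⟩
    by_cases hW : z ∈ W
    · by_cases h3 : lev z = i + 1
      · exact R.nG H K hW h3 h2
      · exact R.nFG H K hW (by omega) ⟨h1, h2⟩
    · have hX : z ∉ X := fun hx => by have := (K.X z hx).1; omega
      exact h z hz ⟨(R.FD_out H K hW hX).1 h1, (R.GU_out H K hW).1 h2⟩

lemma Rem.adU : AdmU i e ↔ AdmU i B := by
  constructor
  · rintro h z hz ⟨h1, h2⟩
    exact h z hz ⟨(R.FU_out H K hz.le).2 h1, (R.GD_out H K hz).2 h2⟩
  · rintro h z hz ⟨h1, h2⟩
    exact h z hz ⟨(R.FU_out H K hz.le).1 h1, (R.GD_out H K hz).1 h2⟩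

lemma Rem.aU : aU i e = aU i B := by
  classical
  unfold Win.aU
  congr 1
  apply filter_congr
  intro z _
  constructor
  · rintro ⟨h1, h2⟩
    exact ⟨h1, (R.FU_out H K h1.le).1 h2⟩
  · rintro ⟨h1, h2⟩
    exact ⟨h1, (R.FU_out H K h1.le).2 h2⟩

lemma Rem.pU : pU i e = pU i B := by
  classical
  unfold Win.pU
  congr 1
  apply filter_congr
  intro z _
  constructor
  · rintro ⟨h1, h2, h3⟩
    exact ⟨h1, fun h => h2 ((R.FU_out H K h1.le).2 h), fun h => h3 ((R.GD_out H K h1).2 h)⟩
  · rintro ⟨h1, h2, h3⟩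
    exact ⟨h1, fun h => h2 ((R.FU_out H K h1.le).1 h), fun h => h3 ((R.GD_out H K h1).1 h)⟩

lemma Rem.aL : aL i e = aL i B + aW W b := by
  classical
  unfold Win.aL aW
  rw [← card_union_of_disjoint]
  · congr 1
    ext z
    simp only [mem_union, mem_filter, mem_univ, true_and]
    by_cases hW : z ∈ W
    · have := R.lvW H K hW
      have := R.FD_W H K hW
      tauto
    · constructor
      · rintro ⟨h1, h2⟩
        have hX : z ∉ X := fun hx => by have := (K.X z hx).1; omega
        exact Or.inl ⟨h1, (R.FD_out H K hW hX).1 h2⟩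
      · rintro (⟨h1, h2⟩ | ⟨h1, h2⟩)
        · have hX : z ∉ X := fun hx => by have := (K.X z hx).1; omega
          exact ⟨h1, (R.FD_out H K hW hX).2 h2⟩
        · exact absurd h1 hW
  · rw [disjoint_left]
    intro z h1 h2
    rw [mem_filter] at h1 h2
    exact (R.FD_W H K h2.1).2 h1.2.2

lemma Rem.pL : pL i e = pL i B + pW W b := by
  classical
  unfold Win.pL pW
  rw [← card_union_of_disjoint]
  · congr 1
    ext z
    simp only [mem_union, mem_filter, mem_univ, true_and]
    by_cases hW : z ∈ W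
    · have := R.lvW H K hW
      have := R.FD_W H K hW
      have := R.GU_W H K hW
      tauto
    · constructor
      · rintro ⟨h1, h2, h3⟩
        have hX : z ∉ X := fun hx => by have := (K.X z hx).1; omega
        exact Or.inl ⟨h1, fun h => h2 ((R.FD_out H K hW hX).2 h),
          fun h => h3 ((R.GU_out H K hW).2 h)⟩
      · rintro (⟨h1, h2, h3⟩ | ⟨h1, h2⟩)
        · have hX : z ∉ X := fun hx => by have := (K.X z hx).1; omega
          exact ⟨h1, fun h => h2 ((R.FD_out H K hW hX).1 h),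
            fun h => h3 ((R.GU_out H K hW).1 h)⟩
        · exact absurd h1 hW
  · rw [disjoint_left]
    intro z h1 h2
    rw [mem_filter] at h1 h2
    exact h1.2.2.2 (R.GU_W H K h2.1).2

/-- the core condition -/
lemma Rem.core (hM : Mat P i ∅ psi) : IsCore i ∅ psi e ↔ IsCore i ∅ psi B := by
  classical
  have T1 : ∀ v, v ∈ Tch i B → v ∈ Tch i e := by
    intro v hv
    unfold Tch at hv ⊢
    rw [mem_filter] at hv ⊢
    refine ⟨hv.1, ?_⟩
    rcases hv.2 with ⟨h1, z, hz, hz2⟩ | ⟨h1, z, hz, hz2⟩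
    · left
      refine ⟨h1, z, hz, ?_⟩
      by_cases h : z ∈ W
      · have := R.BW z h
        omega
      · rw [R.eq z h]
        exact hz2
    · right
      refine ⟨h1, z, hz, ?_⟩
      by_cases h : z ∈ W
      · have := R.BW z h
        omega
      · rw [R.eq z h]
        exact hz2
  have T2 : ∀ v, v ∈ Tch i e → v ∉ W → v ∈ Tch i B := by
    intro v hv hvW
    unfold Tch at hv ⊢
    rw [mem_filter] at hv ⊢
    refine ⟨hv.1, ?_⟩
    rcases hv.2 with ⟨h1, z, hz, hz2⟩ | ⟨h1, z, hz, hz2⟩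
    · left
      refine ⟨h1, z, hz, ?_⟩
      by_cases h : z ∈ W
      · exfalso
        have := (lev_dc H (mem_dc.2 hz))
        exact hvW (K.up2 z h (by omega) (mem_uc.2 hz))
      · rw [← R.eq z h]
        exact hz2
    · right
      refine ⟨h1, z, hz, ?_⟩
      by_cases h : z ∈ W
      · exfalso
        have := R.lvW H K h
        have := lev_uc H (mem_uc.2 hz)
        omega
      · rw [← R.eq z h]
        exact hz2
  have T3 : ∀ v ∈ W, lev v = i + 1 → v ∈ Tch i e := by
    intro v hv h1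
    obtain ⟨z, hz, hzW⟩ := K.tch v hv h1
    unfold Tch
    rw [mem_filter]
    refine ⟨mem_univ _, Or.inl ⟨h1, z, mem_dc.1 hz, ?_⟩⟩
    rw [R.eW z hzW]
    exact K.pos z hzW
  have T4 : ∀ v, v ∈ dbL P i ∪ dbU P i → psi v ∈ W → B v = 0 := by
    intro v hv hpv
    rw [mem_union, mem_dbL', mem_dbU'] at hv
    rcases hv with hv | hv
    · obtain ⟨p1, p2, p3⟩ := psiL hM hv.1 hv.2
      have := R.lvW H K hpv
      omega
    · obtain ⟨p1, p2, p3⟩ := psiU hM hv.1 hv.2
      obtain ⟨x, hx⟩ : (dc v).Nonempty := card_pos.1 (by omega)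
      have hxX : x ∈ X := K.up1 (psi v) hpv p1.1 (by rw [p2]; exact hx)
      exact R.uX x hxX v (mem_uc.2 (mem_dc.1 hx))
  constructor
  · intro hc v hv
    by_cases hW : v ∈ W
    · exact R.BW v hW
    · by_cases hr : v ∈ Rst i ∅ psi e
      · rw [← R.eq v hW]
        exact hc v hr
      · unfold Rst at hv hr
        rw [mem_filter] at hv hr
        obtain ⟨hn, hK, h1, h2⟩ := hv
        have h3 : v ∉ Tch i e := fun h => h1 (T2 v h hW)
        have h4 : v ∈ dbL P i ∪ dbU P i ∧ psi v ∈ Tch i e := by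
          by_contra h4
          exact hr ⟨hn, hK, h3, h4⟩
        by_cases hp : psi v ∈ W
        · exact T4 v h4.1 hp
        · exact absurd ⟨h4.1, T2 _ h4.2 hp⟩ h2
  · intro hc v hv
    have hvW : v ∉ W := by
      intro hW
      unfold Rst near at hv
      rw [mem_filter, mem_filter] at hv
      obtain ⟨⟨-, hn⟩, hK, h1, h2⟩ := hv
      rcases hn with hn | hn
      · exact h1 (T3 v hW hn)
      · have := R.lvW H K hW
        omega
    rw [R.eq v hvW]
    apply hc
    unfold Rst at hv ⊢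
    rw [mem_filter] at hv ⊢
    exact ⟨hv.1, hv.2.1, fun h => hv.2.2.1 (T1 v h), fun h => hv.2.2.2 ⟨h.1, T1 _ h.2⟩⟩

/-- the support -/
lemma Rem.spt {C : Finset P} (hW : W ⊆ C) : Spt C e ↔ Spt C B := by
  constructor
  · intro h x hx
    rw [← R.eq x (fun h' => hx (hW h'))]
    exact h x hx
  · intro h x hx
    rw [R.eq x (fun h' => hx (hW h'))]
    exact h x hx

/-- the energy -/
lemma Rem.sum {C : Finset P} (hW : W ⊆ C) : ∑ x ∈ C, e x = ∑ x ∈ C, B x + ∑ x ∈ W, b x := by
  classical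
  rw [← sum_sdiff hW, ← sum_sdiff (f := B) hW]
  have h1 : ∑ x ∈ C \ W, e x = ∑ x ∈ C \ W, B x :=
    sum_congr rfl (fun x hx => R.eq x (mem_sdiff.1 hx).2)
  have h2 : ∑ x ∈ W, e x = ∑ x ∈ W, b x := sum_congr rfl (fun x hx => R.eW x hx)
  have h3 : ∑ x ∈ W, B x = 0 := sum_eq_zero (fun x hx => R.BW x hx)
  omega

/-- the term -/
theorem Rem.tC {C : Finset P} (hC : Part i C) (hs : Spt C B) (hX : X ⊆ C) (hW : W ⊆ C) :
    dd ^ X.card * tC i C e = xx ^ (aW W b + X.card) * dd ^ pW W b * tC i C B := by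
  classical
  unfold Win.tC
  by_cases hd : Disjoint (Win.AL i B) (Win.AU i B)
  · rw [if_pos hd, if_pos ((R.disj H K).2 hd)]
    unfold cw
    by_cases ha : AdmL i B ∧ AdmU i B
    · rw [if_pos ha, if_pos ⟨(R.adL H K).2 ha.1, (R.adU H K).2 ha.2⟩, R.aL H K, R.pL H K,
        R.aU H K, R.pU H K, (R.AU H K).1]
      have hse : Spt C e := (R.spt H K hW).2 hs
      have hcard : (Win.AL i e).card = (Win.AL i B).card + X.card := by
        rw [(R.AL H K).1, card_union_of_disjoint (R.AL H K).2]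
      have hle : (Win.AL i B).card + X.card + (Win.AU i B).card ≤ (st i C).card := by
        rw [← hcard, ← (R.AU H K).1, ← card_union_of_disjoint ((R.disj H K).2 hd)]
        exact card_le_card (union_subset (AL_sub hC hse) (AU_sub H hC hse))
      rw [hcard]
      obtain ⟨m, hm⟩ := Nat.exists_eq_add_of_le hle
      rw [hm]
      rw [show (Win.AL i B).card + X.card + (Win.AU i B).card + m - ((Win.AL i B).card + X.card) -
          (Win.AU i B).card = m by omega,
        show (Win.AL i B).card + X.card + (Win.AU i B).card + m - (Win.AL i B).card -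
          (Win.AU i B).card = X.card + m by omega]
      ring
    · rw [if_neg ha, if_neg (fun h => ha ⟨(R.adL H K).1 h.1, (R.adU H K).1 h.2⟩)]
      ring
  · rw [if_neg hd, if_neg (fun h => hd ((R.disj H K).1 h))]
    ring

/-- lower exchangeable places outside the block -/
lemma Rem.canL {d x : P} (hd : d ∉ W) : Can dc uc (laL i) e d x ↔ Can dc uc (laL i) B d x := by
  have key : ∀ w w2 p q, Tee dc uc (laL i) d w w2 p x q → 1 ≤ B d →
      (Exo dc uc d w w2 p x q e ↔ Exo dc uc d w w2 p x q B) ∧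
      ((∀ d', uc d' = {w, w2} → Xg.rk d' < Xg.rk d → e d' = 0) ↔
        (∀ d', uc d' = {w, w2} → Xg.rk d' < Xg.rk d → B d' = 0)) := by
    intro w w2 p q T hpos
    have ld : lev d = i + 2 := by
      have := T.ld
      unfold laL at this
      omega
    have hw : w ∈ uc d := by rw [T.ud]; simp
    have hw2 : w2 ∈ uc d := by rw [T.ud]; simp
    have lw := lev_uc H hw
    have lw2 := lev_uc H hw2
    have hx : x ∈ uc w := by rw [T.uw]; simp
    have hp : p ∈ uc w := by rw [T.uw]; simp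
    have hq : q ∈ uc w2 := by rw [T.uw2]; simp
    have lx := lev_uc H hx
    have lp := lev_uc H hp
    have lq := lev_uc H hq
    have nW : ∀ y ∈ uc d, y ∉ W := by
      intro y hy hyW
      have := R.ch y hyW d (mem_dc.2 (mem_uc.1 hy)) hd
      omega
    have e1 := R.eq d hd
    have e2 := R.eq w (nW w hw)
    have e3 := R.eq w2 (nW w2 hw2)
    have e4 := R.up_eq H K (v := x) (by omega)
    have e5 := R.up_eq H K (v := p) (by omega)
    have e6 := R.up_eq H K (v := q) (by omega)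
    have e7 : ∀ u ∈ uc x, e u = B u := fun u hu => by
      have := lev_uc H hu
      exact R.up_eq H K (by omega)
    have e8 : ∀ a ∈ dc d, e a = B a := fun a ha => by
      have h1 := lev_dc H ha
      exact R.eq a (fun h => hd (K.up2 a h (by omega) (mem_uc.2 (mem_dc.1 ha))))
    have e9 : ∀ y ∈ uc d, ∀ a ∈ dc y, e a = B a := fun y hy a ha => by
      have h1 := lev_dc H ha
      have h2 := lev_uc H hy
      refine R.eq a (fun h => ?_)
      exact nW y hy (K.up2 a h (by omega) (mem_uc.2 (mem_dc.1 ha)))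
    have s : ∀ y o, y ∈ uc d → e y = B y → e o = B o →
        (SdO dc d x y o e ↔ SdO dc d x y o B) := by
      intro y o hy h1 h2
      unfold SdO
      rw [h1, h2, e1, e4]
      have : (∀ d' ∈ dc y, d' ≠ d → e d' ≤ B y) ↔ (∀ d' ∈ dc y, d' ≠ d → B d' ≤ B y) := by
        constructor
        · intro h d' h3 h4
          rw [← e9 y hy d' h3]
          exact h d' h3 h4
        · intro h d' h3 h4
          rw [e9 y hy d' h3]
          exact h d' h3 h4
      rw [this]
    refine ⟨⟨fun E => ⟨by rw [← e1]; exact E.pos, ?_, ?_, (s w p hw e2 e5).1 E.s1,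
      (s w2 q hw2 e3 e6).1 E.s2, ?_⟩, fun E => ⟨by rw [e1]; exact E.pos, ?_, ?_,
      (s w p hw e2 e5).2 E.s1, (s w2 q hw2 e3 e6).2 E.s2, ?_⟩⟩, ?_⟩
    · intro a ha
      rw [← e8 a ha, ← e1, ← e4]
      exact E.t1 a ha
    · intro u hu
      rw [← e7 u hu, ← e1, ← e4]
      exact E.u1 u hu
    · have := E.act
      unfold Act at this ⊢
      rw [← e1, ← e2, ← e3, ← e4]
      exact this
    · intro a ha
      rw [e8 a ha, e1, e4]
      exact E.t1 a ha
    · intro u hu
      rw [e7 u hu, e1, e4]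
      exact E.u1 u hu
    · have := E.act
      unfold Act at this ⊢
      rw [e1, e2, e3, e4]
      exact this
    · have h1 : ∀ d', uc d' = {w, w2} → e d' = B d' := by
        intro d' hd'
        exact e9 w hw d' (mem_dc.2 (mem_uc.1 (by rw [hd']; simp)))
      constructor
      · intro h d' h2 h3
        rw [← h1 d' h2]
        exact h d' h2 h3
      · intro h d' h2 h3
        rw [h1 d' h2]
        exact h d' h2 h3
  constructor
  · rintro ⟨w, w2, p, q, T, E, h⟩
    obtain ⟨k1, k2⟩ := key w w2 p q T (by rw [← R.eq d hd]; exact E.pos)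
    exact ⟨w, w2, p, q, T, k1.1 E, k2.1 h⟩
  · rintro ⟨w, w2, p, q, T, E, h⟩
    obtain ⟨k1, k2⟩ := key w w2 p q T E.pos
    exact ⟨w, w2, p, q, T, k1.2 E, k2.2 h⟩

/-- upper exchangeable places -/
lemma Rem.canU {d x : P} : Can uc dc (laU i) e d x ↔ Can uc dc (laU i) B d x := by
  have key : ∀ w w2 p q, Tee uc dc (laU i) d w w2 p x q → 1 ≤ B d → (x ∈ X → False) →
      (Exo uc dc d w w2 p x q e ↔ Exo uc dc d w w2 p x q B) ∧
      ((∀ d', dc d' = {w, w2} → Xg.rk d' < Xg.rk d → e d' = 0) ↔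
        (∀ d', dc d' = {w, w2} → Xg.rk d' < Xg.rk d → B d' = 0)) := by
    intro w w2 p q T hpos hxX
    have ld : lev d + 2 = i := by
      have := T.ld
      unfold laU at this
      omega
    have hw : w ∈ dc d := by rw [T.ud]; simp
    have hw2 : w2 ∈ dc d := by rw [T.ud]; simp
    have lw := lev_dc H hw
    have lw2 := lev_dc H hw2
    have hx : x ∈ dc w := by rw [T.uw]; simp
    have hp : p ∈ dc w := by rw [T.uw]; simp
    have hq : q ∈ dc w2 := by rw [T.uw2]; simp
    have lx := lev_dc H hx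
    have lp := lev_dc H hp
    have lq := lev_dc H hq
    have E : ∀ v : P, lev v ≤ i → e v = B v := fun v hv => R.up_eq H K hv
    have e1 := E d (by omega)
    have e2 := E w (by omega)
    have e3 := E w2 (by omega)
    have e4 := E x (by omega)
    have e5 := E p (by omega)
    have e6 := E q (by omega)
    have e7 : ∀ u ∈ dc x, e u = B u := fun u hu => by
      have h1 := lev_dc H hu
      refine R.eq u (fun h => hxX ?_)
      exact K.up1 u h (by omega) (mem_uc.2 (mem_dc.1 hu))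
    have e8 : ∀ a ∈ uc d, e a = B a := fun a ha => by
      have h1 := lev_uc H ha
      exact E a (by omega)
    have e9 : ∀ y ∈ dc d, ∀ a ∈ uc y, e a = B a := fun y hy a ha => by
      have h1 := lev_uc H ha
      have h2 := lev_dc H hy
      exact E a (by omega)
    have s : ∀ y o, y ∈ dc d → e y = B y → e o = B o →
        (SdO uc d x y o e ↔ SdO uc d x y o B) := by
      intro y o hy h1 h2
      unfold SdO
      rw [h1, h2, e1, e4]
      have : (∀ d' ∈ uc y, d' ≠ d → e d' ≤ B y) ↔ (∀ d' ∈ uc y, d' ≠ d → B d' ≤ B y) := by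
        constructor
        · intro h d' h3 h4
          rw [← e9 y hy d' h3]
          exact h d' h3 h4
        · intro h d' h3 h4
          rw [e9 y hy d' h3]
          exact h d' h3 h4
      rw [this]
    refine ⟨⟨fun E => ⟨by rw [← e1]; exact E.pos, ?_, ?_, (s w p hw e2 e5).1 E.s1,
      (s w2 q hw2 e3 e6).1 E.s2, ?_⟩, fun E => ⟨by rw [e1]; exact E.pos, ?_, ?_,
      (s w p hw e2 e5).2 E.s1, (s w2 q hw2 e3 e6).2 E.s2, ?_⟩⟩, ?_⟩
    · intro a ha
      rw [← e8 a ha, ← e1, ← e4]
      exact E.t1 a ha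
    · intro u hu
      rw [← e7 u hu, ← e1, ← e4]
      exact E.u1 u hu
    · have := E.act
      unfold Act at this ⊢
      rw [← e1, ← e2, ← e3, ← e4]
      exact this
    · intro a ha
      rw [e8 a ha, e1, e4]
      exact E.t1 a ha
    · intro u hu
      rw [e7 u hu, e1, e4]
      exact E.u1 u hu
    · have := E.act
      unfold Act at this ⊢
      rw [e1, e2, e3, e4]
      exact this
    · have h1 : ∀ d', dc d' = {w, w2} → e d' = B d' := by
        intro d' hd'
        exact e9 w hw d' (mem_uc.2 (mem_dc.1 (by rw [hd']; simp)))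
      constructor
      · intro h d' h2 h3
        rw [← h1 d' h2]
        exact h d' h2 h3
      · intro h d' h2 h3
        rw [h1 d' h2]
        exact h d' h2 h3
  have noX : ∀ w w2 p q, Tee uc dc (laU i) d w w2 p x q → ∀ f : P → ℕ,
      Exo uc dc d w w2 p x q f → f w = 0 → False := by
    intro w w2 p q T f E h
    have hp := E.pos
    rcases E.s1 with ⟨h1, -⟩ | ⟨-, h1⟩ <;> omega
  constructor
  · rintro ⟨w, w2, p, q, T, E, h⟩
    have hxX : x ∈ X → False := by
      intro hx
      have hxw : x ∈ dc w := by rw [T.uw]; simp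
      have h1 := R.uX x hx w (mem_uc.2 (mem_dc.1 hxw))
      have ld : lev d + 2 = i := by
        have := T.ld
        unfold laU at this
        omega
      have hw : w ∈ dc d := by rw [T.ud]; simp
      have lw := lev_dc H hw
      have h2 := R.up_eq H K (v := w) (by omega)
      exact noX w w2 p q T e E (by omega)
    have ld : lev d + 2 = i := by
      have := T.ld
      unfold laU at this
      omega
    obtain ⟨k1, k2⟩ := key w w2 p q T (by rw [← R.up_eq H K (by omega)]; exact E.pos) hxX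
    exact ⟨w, w2, p, q, T, k1.1 E, k2.1 h⟩
  · rintro ⟨w, w2, p, q, T, E, h⟩
    have hxX : x ∈ X → False := by
      intro hx
      have hxw : x ∈ dc w := by rw [T.uw]; simp
      have h1 := R.uX x hx w (mem_uc.2 (mem_dc.1 hxw))
      exact noX w w2 p q T B E h1
    obtain ⟨k1, k2⟩ := key w w2 p q T E.pos hxX
    exact ⟨w, w2, p, q, T, k1.2 E, k2.2 h⟩

/-- the exchangeable places of `B` are those of `e` outside the block -/
lemma Rem.CC {t : P × P} : t ∈ Xg.CC i B ↔ t ∈ Xg.CC i e ∧ t.1 ∉ W := by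
  rw [Xg.mem_CC H, Xg.mem_CC H]
  unfold CanD
  by_cases hW : t.1 ∈ W
  · constructor
    · rintro (⟨w, w2, p, q, T, E, -⟩ | ⟨w, w2, p, q, T, E, -⟩) <;>
      · have := E.pos
        have := R.BW _ hW
        omega
    · rintro ⟨-, h⟩
      exact absurd hW h
  · rw [R.canL H K hW, R.canU H K]
    tauto

end rem

end Pool.Agent.GaussPoset.Win.Rd
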