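import Pool.Agent.W_448rd_h10.RdL
import Pool.Agent.W_448xc_h84.XgJ

/-!
MP_448cb3_co, G2, window `j - 1`: the parts with at most one matched pendant; the exceptional
elements `P1`, `GS` are absent in the leftover cores.  helper10.
-/

namespace Pool.Agent.GaussPoset.Win.Rd

set_option linter.unusedSectionVars false

open Finset I2 K2
open Pool.Agent.GaussPoset.Win.H2 (SdT NoT low_T up_T sum_all)
open Pool.Agent.GaussPoset.Win.Xg (FlS Zr LoP UpP FP rm rm_le rm_of rm_y rm_p Okc Adm kp Lft mem_Lft)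

universe u

lemma mem_P1s {P : Type u} [DecidableEq P] {c c' : P → Finset P} {e : P → ℕ} {t : P → ℕ}
    {Sd BG : Finset P} {y : P} : y ∈ P1s c c' e t Sd BG ↔ y ∈ P1 c c' e t Sd BG ∧
      ∀ q, ¬ RQ c c' e t Sd BG q y := by
  classical
  unfold P1s
  rw [mem_filter]

/-- a positive child of an element of `N4` is single or hangs at a second element of the guard -/
lemma Hyp.n4_chld {P : Type u} [DecidableEq P] {c c' : P → Finset P} {e : P → ℕ} {t : P → ℕ}
    {V Sd BG EX : Finset P} (H : Hyp c c' e t V Sd BG EX) {y x z : P}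
    (hy : y ∈ N4 c c' e t Sd BG) (hx : x ∈ c y) (ex : 1 ≤ e x) (hz : z ∈ c' y) (ez : 1 ≤ e z) :
    c z = {y} ∨ ∃ a, a ≠ y ∧ a ∈ c z ∧ a ∈ c' x ∧ 1 ≤ e a := by
  classical
  obtain ⟨o, x', hox, hcy, ey, eo, ex', hso⟩ := H.n4_spec hy
  have hyD : y ∈ Dd c t Sd BG := by
    unfold N4 at hy
    exact (mem_filter.1 hy).1
  obtain ⟨yS, yB, ty, cy⟩ := mem_Dd.1 hyD
  obtain ⟨zS, tz, yz⟩ := H.ch yS hz
  by_cases h1 : (c z).card = 1
  · left
    obtain ⟨a, ha⟩ := card_eq_one.1 h1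
    rw [ha, mem_singleton] at yz
    rw [ha, yz]
  · right
    have h2 : 1 < (c z).card := by
      have : 0 < (c z).card := card_pos.2 ⟨y, yz⟩
      omega
    obtain ⟨a, ha, hne⟩ := exists_mem_ne h2 y
    obtain ⟨aS, ta⟩ := H.cov zS (by omega) ha
    have ea : 1 ≤ e a := H.pos aS ((H.S.dual _ _).1 ha) ez
    obtain ⟨x0, h3, h4⟩ := H.hT z zS (by omega) y yz a ha hne.symm cy
    have h5 : x0 = x' := by
      rw [hcy, mem_insert, mem_singleton] at h3
      rcases h3 with h3 | h3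
      · exfalso
        subst h3
        have := hso a ((H.S.dual _ _).1 h4) hne
        omega
      · exact h3
    have h6 : x = x' := by
      rw [hcy, mem_insert, mem_singleton] at hx
      rcases hx with hx | hx
      · subst hx
        omega
      · exact hx
    refine ⟨a, hne, ha, ?_, ea⟩
    rw [h6, ← h5]
    exact (H.S.dual _ _).1 h4

variable {P : Type u} [Fintype P] [PartialOrder P] [DecidableEq P] {r i : ℕ} {e : P → ℕ}
variable {psi : P → P} {C : Finset P} {Q : (P → ℕ) → Prop}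

/-- the environment -/
structure Ev (r i : ℕ) (psi : P → P) (C : Finset P) : Prop where
  G : GoodTo P r (i + 1)
  hT : NoT P (i + 2)
  hQ : NoQ P (i + 3)
  hM : Mat P i ∅ psi
  hi : 1 ≤ i
  hC : Part (i + 1) C

lemma Ev.H (E : Ev r i psi C) : Gr P r := E.G.H

lemma Ev.hr (E : Ev r i psi C) : i + 1 ≤ r := E.G.hr

lemma Ev.part (E : Ev r i psi C) : Part i C :=
  ⟨fun h1 h2 => E.hC.up h1 h2, fun h1 h2 h3 => E.hC.dn h1 (by omega) h3⟩

/-- the part has no pendant over a double element, or one matched pendant -/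
def Kls (i : ℕ) (psi : P → P) (C : Finset P) (Q : (P → ℕ) → Prop) : Prop :=
  ((∀ z ∈ C, z ∉ PD P i ∧ z ∉ PU P i) ∧ Q = fun _ => False) ∨
  ∃ y p w u v v', FlS i y p w u v v' ∧ psi y = w ∧ (y ∈ C ∧ p ∈ C ∧ w ∈ C ∧ u ∈ C) ∧
    (∀ z ∈ C, z ∈ PD P i → z = p) ∧ (∀ z ∈ C, z ∈ PU P i → z = u) ∧ Q = FP y p w u v v'

lemma mem_PD' {z : P} : z ∈ PD P i ↔ lev z = i + 2 ∧ (uc z).card = 1 ∧
    ∃ w, z ⋖ w ∧ (uc w).card = 2 := by
  classical
  unfold PD
  rw [mem_filter]
  exact ⟨fun h => h.2, fun h => ⟨mem_univ _, h⟩⟩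

lemma mem_PU' {z : P} : z ∈ PU P i ↔ lev z + 2 = i ∧ (dc z).card = 1 ∧
    ∃ w, w ⋖ z ∧ (dc w).card = 2 := by
  classical
  unfold PU
  rw [mem_filter]
  exact ⟨fun h => h.2, fun h => ⟨mem_univ _, h⟩⟩

lemma spt_mem {z : P} (h : Spt C e) (hz : 1 ≤ e z) : z ∈ C := by
  by_contra h1
  have := h z h1
  omega

section pd

variable (E : Ev r i psi C) (K : Kls i psi C Q)
include E K

/-- a pendant over a double element -/
lemma Kls.pd {p' y' : P} (h1 : p' ∈ C) (h2 : uc p' = {y'}) (h3 : (uc y').card = 2)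
    (h4 : lev y' = i + 1) : ∃ w u v v', FlS i y' p' w u v v' ∧ psi y' = w ∧
      (y' ∈ C ∧ p' ∈ C ∧ w ∈ C ∧ u ∈ C) ∧ (∀ z ∈ C, z ∈ PD P i → z = p') ∧
      (∀ z ∈ C, z ∈ PU P i → z = u) ∧ Q = FP y' p' w u v v' := by
  have hy : y' ∈ uc p' := by rw [h2]; simp
  have l := lev_uc E.H hy
  have hpd : p' ∈ PD P i := mem_PD'.2 ⟨by omega, by rw [h2, card_singleton], y', mem_uc.1 hy, h3⟩
  rcases K with ⟨h, -⟩ | ⟨y, p, w, u, v, v', F, h5, h6, h7, h8, h9⟩
  · exact absurd hpd (h p' h1).1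
  · have := h7 p' h1 hpd
    subst this
    have h10 : y' = y := by
      have := F.up
      rw [h2] at this
      exact singleton_injective this
    subst h10
    exact ⟨w, u, v, v', F, h5, h6, h7, h8, h9⟩

lemma Kls.pu {u' w' : P} (h1 : u' ∈ C) (h2 : dc u' = {w'}) (h3 : (dc w').card = 2)
    (h4 : lev w' + 1 = i) : ∃ y p v v', FlS i y p w' u' v v' ∧ psi y = w' ∧
      (y ∈ C ∧ p ∈ C ∧ w' ∈ C ∧ u' ∈ C) ∧ (∀ z ∈ C, z ∈ PD P i → z = p) ∧
      (∀ z ∈ C, z ∈ PU P i → z = u') ∧ Q = FP y p w' u' v v' := by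
  have hy : w' ∈ dc u' := by rw [h2]; simp
  have l := lev_dc E.H hy
  have hpd : u' ∈ PU P i := mem_PU'.2 ⟨by omega, by rw [h2, card_singleton], w', mem_dc.1 hy, h3⟩
  rcases K with ⟨h, -⟩ | ⟨y, p, w, u, v, v', F, h5, h6, h7, h8, h9⟩
  · exact absurd hpd (h u' h1).2
  · have := h8 u' h1 hpd
    subst this
    have h10 : w' = w := by
      have := F.du
      rw [h2] at this
      exact singleton_injective this
    subst h10
    exact ⟨y, p, v, v', F, h5, h6, h7, h8, h9⟩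

end pd

section zero

variable (H : Gr P r)
include H

/-- positive labels climb down on the lower side -/
lemma adm_pos (hL : AdmL i e) {y z : P} (hy : i < lev y) (hz : z ∈ dc y) (h1 : 1 ≤ e z) :
    1 ≤ e y := by
  by_contra h0
  obtain ⟨x, hx⟩ := uc_nonempty H (x := y) (by omega)
  exact hL y hy ⟨⟨z, mem_dc.1 hz, by omega⟩, x, mem_uc.1 hx, by omega⟩

/-- positive labels on the upper side -/
lemma adm_posU (hir : i ≤ r) (hU : AdmU i e) {y z : P} (hy : lev y < i) (hz : z ∈ uc y)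
    (h1 : 1 ≤ e z) : 1 ≤ e y := by
  by_contra h0
  obtain ⟨x, hx⟩ := dc_nonempty H (x := y) (by omega)
  exact hU y hy ⟨⟨z, mem_uc.1 hz, by omega⟩, x, mem_dc.1 hx, by omega⟩

end zero

section p1

variable (E : Ev r i psi C) (K : Kls i psi C Q) (O : Okc i psi C e)
include E K O

/-- no `P1` below the window outside `Q` -/
theorem Kls.P1L (hQ : ¬ Q e) : P1L i psi e = ∅ := by
  classical
  have HL := hypL E.G E.hT E.hQ E.hM O.adm.l O.adm.u O.adm.d O.core
  rw [eq_empty_iff_forall_notMem]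
  intro y0 hy0
  obtain ⟨hP1, hnq⟩ := mem_P1s.1 hy0
  obtain ⟨hD, hN, p0, hp0, ep0, cp0, hoth⟩ := HL.p1_spec hP1
  obtain ⟨y0S, y0B, ty0, cy0⟩ := mem_Dd.1 hD
  have ly0 : lev y0 = i + 1 := by
    have h1 := mem_lS.1 y0S
    have h2 : lev y0 - i = 1 := ty0
    omega
  have hp0C : p0 ∈ C := spt_mem O.spt (by omega)
  obtain ⟨w, u, v, v', F, hpsi, hmC, hPD, hPU, rfl⟩ := K.pd E hp0C cp0 cy0 ly0
  apply hQ
  left
  have hcy : uc y0 = {v, v'} := F.uy
  obtain ⟨e1, e2, e3, e4, e5⟩ := HL.n4a_spec hD hN hcy F.ne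
  obtain ⟨k1, k2, k3, k4⟩ := F.lv E.H
  obtain ⟨n1, n2, n3, n4, n5, n6⟩ := F.nes E.H
  obtain ⟨m1, m2, m3, m4⟩ := F.mems E.H
  have hlw := F.lw
  have hv : v ∈ AL i e := by
    rw [NormD_mem_AL]
    exact ⟨k1, y0, mem_dc.1 m3, by omega⟩
  have m3' : y0 ∈ dc v' := by rw [mem_dc, ← mem_uc, F.uy]; simp
  have hv' : v' ∈ AL i e := by
    rw [NormD_mem_AL]
    exact ⟨k2, y0, mem_dc.1 m3', by omega⟩
  have hup : ∀ x, x ∈ AL i e → e x = 0 → ∀ z ∈ uc x, e z = 0 := by
    intro x hx ex z hz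
    by_contra h0
    have hxU : x ∈ AU i e := by
      rw [NormD_mem_AU]
      exact ⟨((NormD_mem_AL _ _ _).1 hx).1, z, mem_uc.1 hz, by omega⟩
    exact disjoint_left.1 O.adm.d hx hxU
  have r0 : ∀ z, e z = 0 → rm y0 p0 e z = 0 := by
    intro z hz
    have := rm_le (y := y0) (p := p0) (e := e) (z := z)
    omega
  have hr := E.hr
  have ew : e w = 0 := hup v hv e2 w m1
  have eu : e u = 0 := by
    by_contra h0
    have := adm_posU E.H (by omega) O.adm.u (by omega) m2 (by omega)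
    omega
  have dv : ∀ x, (∀ a ∈ dc x, a ≠ y0 → e a = 0) → ∀ z ∈ dc x, rm y0 p0 e z = 0 := by
    intro x hx z hz
    by_cases h : z = y0
    · rw [h, rm_y]
    · exact r0 z (hx z hz h)
  refine ⟨e1, ep0, ⟨r0 v e2, r0 v' e3, dv v e4, dv v' e5, fun z hz => r0 z (hup v hv e2 z hz),
    fun z hz => r0 z (hup v' hv' e3 z hz), ?_, ?_, ?_, ?_⟩⟩
  · intro z hz
    by_cases h : z = p0
    · rw [h, rm_p]
    · exact r0 z (hoth z hz h)
  · intro q hq
    apply r0
    by_contra h0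
    have lq := lev_dc E.H hq
    have eq1 : e q = 1 := by
      by_contra h1
      exact O.adm.l p0 (by omega) ⟨⟨q, mem_dc.1 hq, by omega⟩, y0,
        mem_uc.1 (by rw [cp0]; simp), by omega⟩
    have hqp : p0 ∈ uc q := mem_uc.2 (mem_dc.1 hq)
    apply hnq q
    refine ⟨hP1, mem_lS.2 (by omega), ?_, eq1, ⟨p0, hqp, by rw [cp0]; simp, by omega⟩, ?_⟩
    · show lev q - i = 3
      omega
    · intro y' hy' p' hp' hyp' ep'
      obtain ⟨hD', hN', p1, hp1, ep1, cp1, hoth'⟩ := HL.p1_spec hy'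
      obtain ⟨y'S, -, ty', cy'⟩ := mem_Dd.1 hD'
      have ly' : lev y' = i + 1 := by
        have h1 := mem_lS.1 y'S
        have h2 : lev y' - i = 1 := ty'
        omega
      have hy1 : y' ∈ uc p1 := by rw [cp1]; simp
      have lp1 := lev_uc E.H hy1
      have h5 : p1 ∈ PD P i := mem_PD'.2 ⟨by omega, by rw [cp1, card_singleton], y',
        mem_uc.1 hy1, cy'⟩
      have h6 := hPD p1 (spt_mem O.spt (by omega)) h5
      subst h6
      rw [cp0] at cp1
      exact (singleton_injective cp1).symm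
  · intro z hz
    apply r0
    by_contra h0
    have := adm_posU E.H (by omega) O.adm.u (by omega) hz (by omega)
    omega
  · intro z hz
    apply r0
    by_contra h0
    have := adm_posU E.H (by omega) O.adm.u (by omega) hz (by omega)
    omega

/-- no `P1` above the window outside `Q` -/
theorem Kls.P1U (hQ : ¬ Q e) : P1U i psi e = ∅ := by
  classical
  have HL := hypU E.G E.hT E.hM O.adm.l O.adm.u O.adm.d O.core
  rw [eq_empty_iff_forall_notMem]
  intro w0 hw0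
  obtain ⟨hP1, hnq⟩ := mem_P1s.1 hw0
  obtain ⟨hD, hN, u0, hu0, eu0, cu0, hoth⟩ := HL.p1_spec hP1
  obtain ⟨w0S, w0B, tw0, cw0⟩ := mem_Dd.1 hD
  have lw0 : lev w0 + 1 = i := by
    have h1 := mem_uS.1 w0S
    have h2 : i - lev w0 = 1 := tw0
    omega
  have hu0C : u0 ∈ C := spt_mem O.spt (by omega)
  obtain ⟨y, p, v, v', F, hpsi, hmC, hPD, hPU, rfl⟩ := K.pu E hu0C cu0 cw0 lw0
  apply hQ
  right
  have hcy : dc w0 = {v, v'} := F.dw
  obtain ⟨e1, e2, e3, e4, e5⟩ := HL.n4a_spec hD hN hcy F.ne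
  obtain ⟨k1, k2, k3, k4⟩ := F.lv E.H
  obtain ⟨n1, n2, n3, n4, n5, n6⟩ := F.nes E.H
  obtain ⟨m1, m2, m3, m4⟩ := F.mems E.H
  have hly := F.ly
  have hv : v ∈ AU i e := by
    rw [NormD_mem_AU]
    exact ⟨k1, w0, mem_uc.1 m1, by omega⟩
  have m1' : w0 ∈ uc v' := by rw [mem_uc, ← mem_dc, F.dw]; simp
  have hv' : v' ∈ AU i e := by
    rw [NormD_mem_AU]
    exact ⟨k2, w0, mem_uc.1 m1', by omega⟩
  have hdn : ∀ x, x ∈ AU i e → e x = 0 → ∀ z ∈ dc x, e z = 0 := by
    intro x hx ex z hz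
    by_contra h0
    have hxU : x ∈ AL i e := by
      rw [NormD_mem_AL]
      exact ⟨((NormD_mem_AU _ _ _).1 hx).1, z, mem_dc.1 hz, by omega⟩
    exact disjoint_left.1 O.adm.d hxU hx
  have r0 : ∀ z, e z = 0 → rm w0 u0 e z = 0 := by
    intro z hz
    have := rm_le (y := w0) (p := u0) (e := e) (z := z)
    omega
  have hr := E.hr
  have ey : e y = 0 := hdn v hv e2 y m3
  have ep : e p = 0 := by
    by_contra h0
    have := adm_pos E.H O.adm.l (by omega) m4 (by omega)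
    omega
  have dv : ∀ x, (∀ a ∈ uc x, a ≠ w0 → e a = 0) → ∀ z ∈ uc x, rm w0 u0 e z = 0 := by
    intro x hx z hz
    by_cases h : z = w0
    · rw [h, rm_y]
    · exact r0 z (hx z hz h)
  refine ⟨e1, eu0, ⟨r0 v e2, r0 v' e3, fun z hz => r0 z (hdn v hv e2 z hz),
    fun z hz => r0 z (hdn v' hv' e3 z hz), dv v e4, dv v' e5, ?_, ?_, ?_, ?_⟩⟩
  · intro z hz
    apply r0
    by_contra h0
    have := adm_pos E.H O.adm.l (by omega) hz (by omega)
    omega
  · intro z hz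
    apply r0
    by_contra h0
    have := adm_pos E.H O.adm.l (by omega) hz (by omega)
    omega
  · intro z hz
    by_cases h : z = u0
    · rw [h, rm_p]
    · exact r0 z (hoth z hz h)
  · intro q hq
    apply r0
    by_contra h0
    have lq := lev_uc E.H hq
    have eq1 : e q = 1 := by
      by_contra h1
      exact O.adm.u u0 (by omega) ⟨⟨q, mem_uc.1 hq, by omega⟩, w0,
        mem_dc.1 (by rw [cu0]; simp), by omega⟩
    have hqp : u0 ∈ dc q := mem_dc.2 (mem_uc.1 hq)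
    apply hnq q
    refine ⟨hP1, mem_uS.2 (by omega), ?_, eq1, ⟨u0, hqp, by rw [cu0]; simp, by omega⟩, ?_⟩
    · show i - lev q = 3
      omega
    · intro y' hy' p' hp' hyp' ep'
      obtain ⟨hD', hN', p1, hp1, ep1, cp1, hoth'⟩ := HL.p1_spec hy'
      obtain ⟨y'S, -, ty', cy'⟩ := mem_Dd.1 hD'
      have ly' : lev y' + 1 = i := by
        have h1 := mem_uS.1 y'S
        have h2 : i - lev y' = 1 := ty'
        omega
      have hy1 : y' ∈ dc p1 := by rw [cp1]; simp
      have lp1 := lev_dc E.H hy1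
      have h5 : p1 ∈ PU P i := mem_PU'.2 ⟨by omega, by rw [cp1, card_singleton], y',
        mem_dc.1 hy1, cy'⟩
      have h6 := hPU p1 (spt_mem O.spt (by omega)) h5
      subst h6
      rw [cu0] at cp1
      exact (singleton_injective cp1).symm

/-- no guard sites with two elements -/
theorem Kls.GS (hCC : Xg.CC i e = ∅) : GS i psi e = ∅ := by
  classical
  have HL := hypL E.G E.hT E.hQ E.hM O.adm.l O.adm.u O.adm.d O.core
  have HU := hypU E.G E.hT E.hM O.adm.l O.adm.u O.adm.d O.core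
  have hr := E.hr
  -- elements of `N4L` and their positive children
  have kL : ∀ y ∈ N4L i psi e, ∃ z, z ∈ dc y ∧ 1 ≤ e z := by
    intro y hy
    obtain ⟨⟨ly, cy⟩, yB, -, -⟩ := mem_N4L' hy
    obtain ⟨o, x, hox, hcy, ey, -⟩ := HL.n4_spec hy
    exact touchL E.hM O.adm.u O.core ly cy yB (by omega)
  have kU : ∀ y ∈ N4U i psi e, ∃ z, z ∈ uc y ∧ 1 ≤ e z := by
    intro y hy
    obtain ⟨⟨ly, cy⟩, yB, -, -⟩ := mem_N4U' hy
    obtain ⟨o, x, hox, hcy, ey, -⟩ := HU.n4_spec hy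
    exact touchU E.hM O.adm.l O.core ly cy yB (by omega)
  have key : ∀ x, e x = 1 → ∀ y y', y ≠ y' →
      ((y ∈ N4L i psi e ∧ x ∈ uc y) ∨ (y ∈ N4U i psi e ∧ x ∈ dc y)) →
      ((y' ∈ N4L i psi e ∧ x ∈ uc y') ∨ (y' ∈ N4U i psi e ∧ x ∈ dc y')) → False := by
    intro x ex
    have LU : ∀ y y', y ∈ N4L i psi e → x ∈ uc y → y' ∈ N4U i psi e → x ∈ dc y' → False := by
      intro y y' hy hx hy' hx'
      obtain ⟨⟨ly, cy⟩, yB, -, -⟩ := mem_N4L' hy
      obtain ⟨⟨ly', cy'⟩, yB', -, -⟩ := mem_N4U' hy'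
      obtain ⟨o, x1, hox, hcy, ey, -⟩ := HL.n4_spec hy
      obtain ⟨o', x1', hox', hcy', ey', -⟩ := HU.n4_spec hy'
      obtain ⟨p1, p2, p3⟩ := psiL E.hM ly cy
      obtain ⟨q1, q2, q3⟩ := psiU E.hM ly' cy'
      have g1 : e (psi y) = 0 := by
        by_contra h
        exact yB (mem_BGL.2 ⟨⟨by omega, cy⟩, by omega, by omega⟩)
      have g2 : e (psi y') = 0 := by
        by_contra h
        exact yB' (mem_BGU.2 ⟨⟨by omega, cy'⟩, by omega, by omega⟩)
      have n1 : psi y' ≠ y := by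
        intro h
        rw [h] at g2
        omega
      have n2 : psi y ≠ y' := by
        intro h
        rw [h] at g1
        omega
      have m1 : psi y' ∈ dc x := by
        rw [mem_dc, ← mem_uc, q2]
        exact hx'
      have m2 : psi y ∈ uc x := by
        rw [mem_uc, ← mem_dc, p2]
        exact hx
      have m3 : y ∈ dc x := mem_dc.2 (mem_uc.1 hx)
      have m4 : y' ∈ uc x := mem_uc.2 (mem_dc.1 hx')
      obtain ⟨z, hz, ez⟩ := kL y hy
      obtain ⟨z', hz', ez'⟩ := kU y' hy'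
      have hz1 : uc z = {y} := by
        rcases HL.n4_chld hy hx (by omega) hz ez with h | ⟨a, a1, a2, a3, a4⟩
        · exact h
        · exfalso
          have := third (dc_card_le E.H x) m1 m3 a3 n1 a1
          rw [this] at a4
          omega
      have hz2 : dc z' = {y'} := by
        rcases HU.n4_chld hy' hx' (by omega) hz' ez' with h | ⟨a, a1, a2, a3, a4⟩
        · exact h
        · exfalso
          have := third (uc_card_le E.H x) m2 m4 a3 n2 a1
          rw [this] at a4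
          omega
      obtain ⟨w, u, v, v', F, hpsi, hmC, hPD, hPU, -⟩ :=
        K.pd E (spt_mem O.spt ez) hz1 cy ly
      have hy'z : y' ∈ dc z' := by rw [hz2]; simp
      have lz' := lev_dc E.H hy'z
      have h5 := hPU z' (spt_mem O.spt ez') (mem_PU'.2 ⟨by omega, by rw [hz2, card_singleton], y',
        mem_dc.1 hy'z, cy'⟩)
      subst h5
      have h6 : w = y' := by
        have := F.du
        rw [hz2] at this
        exact (singleton_injective this).symm
      exact n2 (hpsi.trans h6)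
    have LL : ∀ y y', y ≠ y' → y ∈ N4L i psi e → x ∈ uc y → y' ∈ N4L i psi e → x ∈ uc y' →
        ∃ z, uc z = {y} ∧ 1 ≤ e z := by
      intro y y' hne hy hx hy' hx'
      obtain ⟨z, hz, ez⟩ := kL y hy
      rcases HL.n4_chld hy hx (by omega) hz ez with h | ⟨a, a1, a2, a3, a4⟩
      · exact ⟨z, h, ez⟩
      · exfalso
        have := third (dc_card_le E.H x) (mem_dc.2 (mem_uc.1 hx')) (mem_dc.2 (mem_uc.1 hx)) a3
          hne.symm a1
        rw [this] at a2
        obtain ⟨t, ht⟩ := n4L_child E.G E.hT E.hQ E.hM O.adm.l O.adm.u O.adm.d O.core hy hy' hne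
          hz (mem_dc.2 (mem_uc.1 a2)) ez
        rw [hCC] at ht
        exact notMem_empty _ ht
    have UU : ∀ y y', y ≠ y' → y ∈ N4U i psi e → x ∈ dc y → y' ∈ N4U i psi e → x ∈ dc y' →
        ∃ z, dc z = {y} ∧ 1 ≤ e z := by
      intro y y' hne hy hx hy' hx'
      obtain ⟨z, hz, ez⟩ := kU y hy
      rcases HU.n4_chld hy hx (by omega) hz ez with h | ⟨a, a1, a2, a3, a4⟩
      · exact ⟨z, h, ez⟩
      · exfalso
        have := third (uc_card_le E.H x) (mem_uc.2 (mem_dc.1 hx')) (mem_uc.2 (mem_dc.1 hx)) a3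
          hne.symm a1
        rw [this] at a2
        obtain ⟨t, ht⟩ := n4U_child E.G E.hT E.hQ E.hM O.adm.l O.adm.u O.adm.d O.core hy hy' hne
          hz (mem_uc.2 (mem_dc.1 a2)) ez
        rw [hCC] at ht
        exact notMem_empty _ ht
    intro y y' hne h1 h2
    rcases h1 with ⟨h1, h3⟩ | ⟨h1, h3⟩ <;> rcases h2 with ⟨h2, h4⟩ | ⟨h2, h4⟩
    · obtain ⟨z, hz, ez⟩ := LL y y' hne h1 h3 h2 h4
      obtain ⟨z', hz', ez'⟩ := LL y' y hne.symm h2 h4 h1 h3
      obtain ⟨⟨ly, cy⟩, -⟩ := mem_N4L' h1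
      obtain ⟨⟨ly', cy'⟩, -⟩ := mem_N4L' h2
      obtain ⟨w, u, v, v', F, hpsi, hmC, hPD, hPU, -⟩ := K.pd E (spt_mem O.spt ez) hz cy ly
      have hy'z : y' ∈ uc z' := by rw [hz']; simp
      have lz' := lev_uc E.H hy'z
      have h5 := hPD z' (spt_mem O.spt ez') (mem_PD'.2 ⟨by omega, by rw [hz', card_singleton], y',
        mem_uc.1 hy'z, cy'⟩)
      subst h5
      rw [hz] at hz'
      exact hne (singleton_injective hz')
    · exact LU y y' h1 h3 h2 h4
    · exact LU y' y h2 h4 h1 h3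
    · obtain ⟨z, hz, ez⟩ := UU y y' hne h1 h3 h2 h4
      obtain ⟨z', hz', ez'⟩ := UU y' y hne.symm h2 h4 h1 h3
      obtain ⟨⟨ly, cy⟩, -⟩ := mem_N4U' h1
      obtain ⟨⟨ly', cy'⟩, -⟩ := mem_N4U' h2
      obtain ⟨y0, p, v, v', F, hpsi, hmC, hPD, hPU, -⟩ := K.pu E (spt_mem O.spt ez) hz cy ly
      have hy'z : y' ∈ dc z' := by rw [hz']; simp
      have lz' := lev_dc E.H hy'z
      have h5 := hPU z' (spt_mem O.spt ez') (mem_PU'.2 ⟨by omega, by rw [hz', card_singleton], y',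
        mem_dc.1 hy'z, cy'⟩)
      subst h5
      rw [hz] at hz'
      exact hne (singleton_injective hz')
  rw [eq_empty_iff_forall_notMem]
  intro x hx
  unfold Rd.GS at hx
  obtain ⟨-, ex, y, y', hne, h1, h2⟩ := mem_filter.1 hx
  exact key x ex y y' hne h1 h2

end p1

end Pool.Agent.GaussPoset.Win.Rd
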