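import Pool.Agent.W_448rd_h10.RdM

/-!
MP_448cb3_co, G2, window `j - 1`: signs of cores, the leading coefficient; the twin blocks.
helper10.
-/

namespace Pool.Agent.GaussPoset.Win.Rd

set_option linter.unusedSectionVars false

open Finset I2 K2
open Pool.Agent.GaussPoset.Win.H2 (SdT NoT low_T up_T sum_all)
open Pool.Agent.GaussPoset.Win.Xg (FlS Zr LoP UpP FP rm rm_le rm_of rm_y rm_p Okc Adm kp Lft mem_Lft
  CanD Can Tee Exo SdO Act laL laU)

universe u

variable {P : Type u} [Fintype P] [PartialOrder P] [DecidableEq P] {r i : ℕ} {e B : P → ℕ}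
variable {psi : P → P} {C : Finset P} {Q : (P → ℕ) → Prop}

/-- the sign of a configuration -/
noncomputable def sg (i : ℕ) (e : P → ℕ) : ℤ :=
  (-1) ^ (aL i e + aU i e + pU i e + (AL i e).card)

lemma cc_pow (a b : ℕ) : dd ∣ xx ^ a * xi ^ b - (((-1) ^ (a + b) : ℤ) : A) := by
  unfold dd
  rw [PowerSeries.X_dvd_iff, map_sub, map_mul, map_pow, map_pow, cc_xx, cc_xi, ← pow_add]
  simp

/-- the leading coefficient of the term of a core -/
theorem tC_lead (H : Gr P r) (hC : Part i C) (O : Okc i psi C e) {k : ℕ} (hk : kp i e = k) :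
    k ≤ (st i C).card ∧
    dd ^ ((st i C).card - k + 1) ∣ tC i C e - (sg i e : A) * dd ^ ((st i C).card - k) := by
  have hle := card_le_st H hC O.spt O.adm.d
  have hk' : (AL i e).card + (AU i e).card = k + (pL i e + pU i e) := by
    unfold Xg.kp at hk
    omega
  refine ⟨by omega, ?_⟩
  unfold Win.tC cw
  rw [if_pos O.adm.d, if_pos ⟨O.adm.l, O.adm.u⟩]
  have h1 : (pL i e + pU i e) + ((st i C).card - (AL i e).card - (AU i e).card) =
      (st i C).card - k := by omega
  have h2 : xx ^ aL i e * xi ^ (aU i e + pU i e) * dd ^ (pL i e + pU i e) *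
      (xx ^ (AL i e).card * dd ^ ((st i C).card - (AL i e).card - (AU i e).card)) =
      (xx ^ (aL i e + (AL i e).card) * xi ^ (aU i e + pU i e)) * dd ^ ((st i C).card - k) := by
    rw [← h1, pow_add dd, pow_add xx]
    ring
  have h3 : sg i e = (-1) ^ ((aL i e + (AL i e).card) + (aU i e + pU i e)) := by
    unfold sg
    congr 1
    omega
  rw [h2, h3, ← sub_mul, pow_succ, mul_comm _ dd]
  exact mul_dvd_mul (cc_pow _ _) (dvd_refl _)

/-- the sum over the leftover cores -/
theorem sum_lead (H : Gr P r) (hC : Part i C) (n K : ℕ) :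
    dd ^ ((st i C).card - K) ∣ ∑ e ∈ Lft i psi C Q n K, tC i C e -
      ((∑ e ∈ Lft i psi C Q n K, sg i e : ℤ) : A) * dd ^ ((st i C).card - (K + 1)) := by
  rw [Int.cast_sum, sum_mul, ← sum_sub_distrib]
  apply dvd_sum
  intro e he
  rw [mem_Lft] at he
  obtain ⟨h1, h2⟩ := tC_lead (k := K + 1) H hC he.2.1 (by rw [he.2.2.1]; push_cast; ring)
  have h3 : (st i C).card - (K + 1) + 1 = (st i C).card - K := by omega
  rwa [h3] at h2

section lft

variable (E : Ev r i psi C) (K : Kls i psi C Q)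
include E K

/-- the inequality for the leftover cores -/
theorem lft_ineq {n k : ℕ} (he : e ∈ Lft i psi C Q n k) :
    6 * (k + 1) ≤ 2 * n + ((TWL i e).card + (TWLx i e).card) + 4 * (NFL i e).card ∧
    5 * (TWL i e).card ≤ n := by
  obtain ⟨h1, O, h3, h4, h5⟩ := mem_Lft.1 he
  have g := generalx E.G E.hT E.hQ E.hM O.adm.l O.adm.u O.adm.d O.core
  have g2 := energy_gs E.G E.hT E.hQ E.hM O.adm.l O.adm.u O.adm.d O.core h4
  have h6 : TWU i e = ∅ := TWU_empty E.G
  have h7 := (TWx_card (i := i) (e := e)).2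
  rw [h6, card_empty] at h7
  have h8 : (TWUx i e).card = 0 := by omega
  rw [K.P1L E O h5, K.P1U E O h5, K.GS E O h4, h4, h6, h8] at g
  simp only [card_empty] at g
  have h9 : ∑ x, (e x : ℤ) = n := by exact_mod_cast h1
  rw [h9] at g
  have h10 : ((AL i e).card : ℤ) + (AU i e).card = (k + 1) + (pL i e + pU i e) := by
    unfold Xg.kp at h3
    omega
  constructor
  · have : (6 : ℤ) * (k + 1) ≤ 2 * n + ((TWL i e).card + (TWLx i e).card) +
        4 * (NFL i e).card := by
      push_cast at g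
      linarith
    exact_mod_cast this
  · omega

end lft

/-! ### the twin blocks -/

/-- two twins over two double elements -/
structure Tw (i : ℕ) (z z' w w2 p x q : P) : Prop where
  lz : lev z = i + 2
  uz : uc z = {w, w2}
  uz' : uc z' = {w, w2}
  uw : uc w = {p, x}
  uw2 : uc w2 = {x, q}
  dx : dc x = {w, w2}
  dw : dc w = {z, z'}
  dw2 : dc w2 = {z, z'}
  zz : z ≠ z'
  ww : w ≠ w2
  px : p ≠ x
  xq : x ≠ q
  pq : p ≠ q

/-- the elements of a twin block -/
noncomputable def WT (t : P × P) : Finset P := insert t.1 (insert t.2 (uc t.1))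

/-- the sites of a twin block -/
noncomputable def XT (t : P × P) : Finset P := (uc t.1).biUnion uc

/-- the labels of a twin block -/
noncomputable def bT (t : P × P) : P → ℕ :=
  fun v => if v = t.1 then 2 else if v ∈ WT t then 1 else 0

/-- the twin blocks of a part -/
structure IsTw (i : ℕ) (C : Finset P) (t : P × P) : Prop where
  tw : ∃ w w2 p x q, Tw i t.1 t.2 w w2 p x q
  m1 : t.1 ∈ C
  m2 : t.2 ∈ C
  rk : Xg.rk t.2 < Xg.rk t.1

open Classical in
/-- the twin blocks of a part -/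
noncomputable def TWC (i : ℕ) (C : Finset P) : Finset (P × P) := univ.filter (IsTw i C)

lemma mem_TWC {t : P × P} : t ∈ TWC i C ↔ IsTw i C t := by
  classical
  unfold TWC
  rw [mem_filter]
  exact ⟨fun h => h.2, fun h => ⟨mem_univ _, h⟩⟩

section tw

variable {z z' w w2 p x q : P} (H : Gr P r) (T : Tw i z z' w w2 p x q)

include T in
lemma Tw.W : WT (z, z') = {z, z', w, w2} := by
  unfold WT
  rw [T.uz]

include T in
lemma Tw.X : XT (z, z') = {p, x, q} := by
  unfold XT
  rw [T.uz, biUnion_insert, singleton_biUnion, T.uw, T.uw2]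
  ext v
  simp only [mem_union, mem_insert, mem_singleton]
  tauto

include T in
lemma Tw.swap : Tw i z z' w2 w q x p where
  lz := T.lz
  uz := by rw [T.uz, pair_comm]
  uz' := by rw [T.uz', pair_comm]
  uw := by rw [T.uw2, pair_comm]
  uw2 := by rw [T.uw, pair_comm]
  dx := by rw [T.dx, pair_comm]
  dw := T.dw2
  dw2 := T.dw
  zz := T.zz
  ww := T.ww.symm
  px := T.xq.symm
  xq := T.px.symm
  pq := T.pq.symm

include H T

lemma Tw.lv : lev z' = i + 2 ∧ lev w = i + 1 ∧ lev w2 = i + 1 ∧ lev p = i ∧ lev x = i ∧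
    lev q = i := by
  have h1 := lev_uc H (show w ∈ uc z by rw [T.uz]; simp)
  have h2 := lev_uc H (show w2 ∈ uc z by rw [T.uz]; simp)
  have h3 := lev_uc H (show w ∈ uc z' by rw [T.uz']; simp)
  have h4 := lev_uc H (show p ∈ uc w by rw [T.uw]; simp)
  have h5 := lev_uc H (show x ∈ uc w by rw [T.uw]; simp)
  have h6 := lev_uc H (show q ∈ uc w2 by rw [T.uw2]; simp)
  have := T.lz
  omega

lemma Tw.nes : z ≠ w ∧ z ≠ w2 ∧ z' ≠ w ∧ z' ≠ w2 := by
  obtain ⟨h1, h2, h3, -⟩ := T.lv H
  have := T.lz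
  refine ⟨?_, ?_, ?_, ?_⟩ <;> (rintro rfl; omega)

lemma Tw.b : bT (z, z') z = 2 ∧ bT (z, z') z' = 1 ∧ bT (z, z') w = 1 ∧ bT (z, z') w2 = 1 ∧
    ∀ v, v ∉ WT (z, z') → bT (z, z') v = 0 := by
  obtain ⟨n1, n2, n3, n4⟩ := T.nes H
  have hW := T.W
  refine ⟨?_, ?_, ?_, ?_, ?_⟩
  · unfold bT
    rw [if_pos rfl]
  · unfold bT
    rw [if_neg T.zz.symm, if_pos (by rw [hW]; simp)]
  · unfold bT
    rw [if_neg n1.symm, if_pos (by rw [hW]; simp)]
  · unfold bT
    rw [if_neg n2.symm, if_pos (by rw [hW]; simp)]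
  · intro v hv
    unfold bT
    rw [if_neg, if_neg hv]
    rintro rfl
    apply hv
    rw [hW]
    simp

/-- the block of two twins -/
lemma Tw.blk : Blk i (WT (z, z')) (XT (z, z')) (bT (z, z')) := by
  obtain ⟨l1, l2, l3, l4, l5, l6⟩ := T.lv H
  obtain ⟨n1, n2, n3, n4⟩ := T.nes H
  obtain ⟨b1, b2, b3, b4, b5⟩ := T.b H
  have lz := T.lz
  have hW := T.W
  have hX := T.X
  have mW : ∀ v, v ∈ WT (z, z') ↔ v = z ∨ v = z' ∨ v = w ∨ v = w2 := by
    intro v
    rw [hW]
    simp only [mem_insert, mem_singleton]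
  refine ⟨?_, ?_, ?_, ?_, ?_, ?_, ?_⟩
  · intro v hv
    rcases (mW v).1 hv with rfl | rfl | rfl | rfl <;> omega
  · intro v hv
    rcases (mW v).1 hv with rfl | rfl | rfl | rfl <;> omega
  · intro v hv hl
    rcases (mW v).1 hv with rfl | rfl | rfl | rfl
    · omega
    · omega
    · rw [T.uw, hX]
      intro a
      simp only [mem_insert, mem_singleton]
      tauto
    · rw [T.uw2, hX]
      intro a
      simp only [mem_insert, mem_singleton]
      tauto
  · intro v hv hl
    have h2 : ({w, w2} : Finset P) ⊆ WT (z, z') := by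
      rw [hW]
      intro a
      simp only [mem_insert, mem_singleton]
      tauto
    rcases (mW v).1 hv with rfl | rfl | rfl | rfl
    · rw [T.uz]
      exact h2
    · rw [T.uz']
      exact h2
    · omega
    · omega
  · rintro v hv hl ⟨⟨a, ha, haW, -⟩, -⟩
    have := lev_dc H ha
    rcases (mW v).1 hv with rfl | rfl | rfl | rfl
    · rcases (mW a).1 haW with rfl | rfl | rfl | rfl <;> omega
    · rcases (mW a).1 haW with rfl | rfl | rfl | rfl <;> omega
    · omega
    · omega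
  · intro v hv hl
    rcases (mW v).1 hv with rfl | rfl | rfl | rfl
    · omega
    · omega
    · exact ⟨z, by rw [T.dw]; simp, (mW z).2 (Or.inl rfl)⟩
    · exact ⟨z, by rw [T.dw2]; simp, (mW z).2 (Or.inl rfl)⟩
  · intro a ha
    rw [hX, mem_insert, mem_insert, mem_singleton] at ha
    rcases ha with rfl | rfl | rfl
    · exact ⟨l4, w, (mW w).2 (by simp), mem_dc.2 (mem_uc.1 (by rw [T.uw]; simp))⟩
    · exact ⟨l5, w, (mW w).2 (by simp), mem_dc.2 (mem_uc.1 (by rw [T.uw]; simp))⟩
    · exact ⟨l6, w2, (mW w2).2 (by simp), mem_dc.2 (mem_uc.1 (by rw [T.uw2]; simp))⟩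

lemma Tw.nums : aW (WT (z, z')) (bT (z, z')) = 2 ∧ pW (WT (z, z')) (bT (z, z')) = 1 ∧
    (XT (z, z')).card = 3 := by
  classical
  obtain ⟨l1, l2, l3, l4, l5, l6⟩ := T.lv H
  obtain ⟨n1, n2, n3, n4⟩ := T.nes H
  obtain ⟨b1, b2, b3, b4, b5⟩ := T.b H
  have lz := T.lz
  have hW := T.W
  have mW : ∀ v, v ∈ WT (z, z') ↔ v = z ∨ v = z' ∨ v = w ∨ v = w2 := by
    intro v
    rw [hW]
    simp only [mem_insert, mem_singleton]
  have lW : ∀ v ∈ WT (z, z'), lev v ≤ i + 2 := by
    intro v hv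
    rcases (mW v).1 hv with rfl | rfl | rfl | rfl <;> omega
  have f1 : bF (WT (z, z')) (bT (z, z')) w :=
    ⟨z, by rw [T.dw]; simp, (mW z).2 (Or.inl rfl), by omega⟩
  have f2 : bF (WT (z, z')) (bT (z, z')) w2 :=
    ⟨z, by rw [T.dw2]; simp, (mW z).2 (Or.inl rfl), by omega⟩
  have f3 : ∀ v, lev v = i + 2 → ¬ bF (WT (z, z')) (bT (z, z')) v := by
    rintro v hv ⟨a, ha, haW, -⟩
    have := lev_dc H ha
    have := lW a haW
    omega
  have g1 : ¬ bG (WT (z, z')) (bT (z, z')) z := by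
    rintro ⟨y, hy, -, hle⟩
    rw [T.uz, mem_insert, mem_singleton] at hy
    rcases hy with rfl | rfl <;> omega
  have g2 : bG (WT (z, z')) (bT (z, z')) z' :=
    ⟨w, by rw [T.uz']; simp, (mW w).2 (by simp), by omega⟩
  refine ⟨?_, ?_, ?_⟩
  · unfold aW
    rw [card_eq_two]
    refine ⟨w, w2, T.ww, ?_⟩
    ext v
    rw [mem_filter, mem_insert, mem_singleton, mW]
    constructor
    · rintro ⟨rfl | rfl | rfl | rfl, h2⟩
      · exact absurd h2 (f3 _ lz)
      · exact absurd h2 (f3 _ l1)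
      · exact Or.inl rfl
      · exact Or.inr rfl
    · rintro (rfl | rfl)
      · exact ⟨by simp, f1⟩
      · exact ⟨by simp, f2⟩
  · unfold pW
    rw [card_eq_one]
    refine ⟨z, ?_⟩
    ext v
    rw [mem_filter, mem_singleton, mW]
    constructor
    · rintro ⟨rfl | rfl | rfl | rfl, h2, h3⟩
      · rfl
      · exact absurd g2 h3
      · exact absurd f1 h2
      · exact absurd f2 h2
    · rintro rfl
      exact ⟨by simp, f3 _ lz, g1⟩
  · rw [T.X, card_insert_of_notMem, card_pair T.xq]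
    simp only [mem_insert, mem_singleton, not_or]
    exact ⟨T.px, T.pq⟩

end tw

end Pool.Agent.GaussPoset.Win.Rd
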