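import Pool.Agent.W_448rd_h10.RdN

/-!
MP_448cb3_co, G2, window `j - 1`: exact twin blocks inside a core; removal.  helper10.
-/

namespace Pool.Agent.GaussPoset.Win.Rd

set_option linter.unusedSectionVars false

open Finset I2 K2
open Pool.Agent.GaussPoset.Win.H2 (SdT NoT low_T up_T sum_all)
open Pool.Agent.GaussPoset.Win.Xg (FlS Zr LoP UpP FP rm rm_le rm_of rm_y rm_p Okc Adm kp Lft mem_Lft
  CanD Can Tee Exo SdO Act laL laU)

universe u

lemma mem_TWx {P : Type u} [DecidableEq P] {c c' : P → Finset P} {e : P → ℕ} {t : P → ℕ}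
    {Sd : Finset P} {z : P} : z ∈ TWx c c' e t Sd ↔ z ∈ Sd ∧ TWq c c' e t Sd z := by
  classical
  unfold TWx
  rw [mem_filter]

lemma mem_TW {P : Type u} [DecidableEq P] {c : P → Finset P} {e : P → ℕ} {t : P → ℕ}
    {Sd : Finset P} {z : P} : z ∈ TW c e t Sd ↔ z ∈ Sd ∧ TWp c e t Sd z := by
  classical
  unfold TW
  rw [mem_filter]

variable {P : Type u} [Fintype P] [PartialOrder P] [DecidableEq P] {r i : ℕ} {e B : P → ℕ}
variable {psi : P → P} {C : Finset P} {Q : (P → ℕ) → Prop}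

section rem

variable {W X : Finset P} {b : P → ℕ} (H : Gr P r) (K : Blk i W X b) (R : Rem W X b e B)
include H K R

lemma Rem.adm : Xg.Adm i e ↔ Xg.Adm i B := by
  constructor
  · intro h
    exact ⟨(R.adL H K).1 h.l, (R.adU H K).1 h.u, (R.disj H K).1 h.d⟩
  · intro h
    exact ⟨(R.adL H K).2 h.l, (R.adU H K).2 h.u, (R.disj H K).2 h.d⟩

lemma Rem.okc (hM : Mat P i ∅ psi) (hW : W ⊆ C) : Okc i psi C e ↔ Okc i psi C B := by
  constructor
  · intro h
    exact ⟨(R.spt H K hW).1 h.spt, (R.core H K hM).1 h.core, (R.adm H K).1 h.adm⟩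
  · intro h
    exact ⟨(R.spt H K hW).2 h.spt, (R.core H K hM).2 h.core, (R.adm H K).2 h.adm⟩

lemma Rem.kp : kp i e = kp i B + X.card - pW W b := by
  unfold Xg.kp
  rw [(R.AL H K).1, card_union_of_disjoint (R.AL H K).2, (R.AU H K).1, R.pL H K, R.pU H K]
  push_cast
  ring

lemma Rem.sg : Rd.sg i e = (-1) ^ (aW W b + X.card) * Rd.sg i B := by
  unfold Rd.sg
  rw [← pow_add, (R.AL H K).1, card_union_of_disjoint (R.AL H K).2, R.aL H K, R.aU H K, R.pU H K]
  congr 1
  ring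

end rem

/-- the labels of an exact twin block -/
structure Ex (i : ℕ) (e : P → ℕ) (t : P × P) : Prop where
  tw : ∃ w w2 p x q, Tw i t.1 t.2 w w2 p x q
  lab : ∀ v ∈ WT t, e v = bT t v
  X0 : ∀ x ∈ XT t, e x = 0
  dX : ∀ x ∈ XT t, ∀ v ∈ dc x, v ∉ WT t → e v = 0
  uX : ∀ x ∈ XT t, ∀ u ∈ uc x, e u = 0

/-- the labels without the block -/
noncomputable def offB (t : P × P) (e : P → ℕ) : P → ℕ := fun v => if v ∈ WT t then 0 else e v

section ex

variable {t : P × P}

lemma Ex.sptW (X : Ex i e t) (H : Gr P r) (hs : Spt C e) : WT t ⊆ C := by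
  obtain ⟨w, w2, p, x, q, T⟩ := X.tw
  obtain ⟨b1, b2, b3, b4, b5⟩ := Tw.b H T
  intro v hv
  apply spt_mem hs
  rw [X.lab v hv]
  have hW := T.W
  rw [show t = (t.1, t.2) from rfl] at hv ⊢
  rw [hW, mem_insert, mem_insert, mem_insert, mem_singleton] at hv
  rcases hv with rfl | rfl | rfl | rfl <;> omega

lemma Ex.rem (X : Ex i e t) (hch : ∀ w ∈ WT t, ∀ z ∈ dc w, z ∉ WT t → e z = 0) :
    Rem (WT t) (XT t) (bT t) e (offB t e) := by
  have h0 : ∀ v, e v = 0 → offB t e v = 0 := by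
    intro v hv
    unfold offB
    split_ifs
    · rfl
    · exact hv
  refine ⟨X.lab, ?_, ?_, ?_, ?_, ?_, ?_⟩
  · intro v hv
    unfold offB
    rw [if_pos hv]
  · intro v hv
    unfold offB
    rw [if_neg hv]
  · intro x hx
    exact h0 x (X.X0 x hx)
  · intro x hx v hv hvW
    exact h0 v (X.dX x hx v hv hvW)
  · intro x hx u hu
    exact h0 u (X.uX x hx u hu)
  · intro w hw z hz hzW
    exact h0 z (hch w hw z hz hzW)

/-- the places of a twin block are not exchangeable -/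
lemma Ex.cc (X : Ex i e t) (H : Gr P r) (hrk : Xg.rk t.2 < Xg.rk t.1) {s : P × P}
    (hs : s ∈ Xg.CC i e) : s.1 ∉ WT t := by
  obtain ⟨w, w2, p, x, q, T⟩ := X.tw
  obtain ⟨b1, b2, b3, b4, b5⟩ := Tw.b H T
  obtain ⟨l1, l2, l3, l4, l5, l6⟩ := Tw.lv H T
  have lz := T.lz
  have hW := T.W
  have mW : ∀ v, v ∈ WT t ↔ v = t.1 ∨ v = t.2 ∨ v = w ∨ v = w2 := by
    intro v
    rw [show WT t = WT (t.1, t.2) from rfl, hW]
    simp only [mem_insert, mem_singleton]
  have m1 : t.1 ∈ WT t := (mW _).2 (Or.inl rfl)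
  have m2 : t.2 ∈ WT t := (mW _).2 (Or.inr (Or.inl rfl))
  have m3 : w ∈ WT t := (mW _).2 (by simp)
  have m4 : w2 ∈ WT t := (mW _).2 (by simp)
  have e1 : e t.1 = 2 := by rw [X.lab _ m1]; exact b1
  have e2 : e t.2 = 1 := by rw [X.lab _ m2]; exact b2
  have e3 : e w = 1 := by rw [X.lab _ m3]; exact b3
  have e4 : e w2 = 1 := by rw [X.lab _ m4]; exact b4
  have hu : ∀ a ∈ uc t.1, e a = 1 ∧ ∀ s ∈ uc a, e s = 0 := by
    intro a ha
    refine ⟨?_, fun s hs => X.X0 s ?_⟩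
    · rw [T.uz, mem_insert, mem_singleton] at ha
      rcases ha with rfl | rfl <;> assumption
    · unfold XT
      exact mem_biUnion.2 ⟨a, ha, hs⟩
  have hzz : uc t.2 = uc t.1 := by rw [T.uz, T.uz']
  intro hsW
  rw [Xg.mem_CC H] at hs
  rcases hs with ⟨w', w2', p', q', TT, EE, hr⟩ | ⟨w', w2', p', q', TT, EE, hr⟩
  · have ld : lev s.1 = i + 2 := by
      have := TT.ld
      unfold laL at this
      omega
    have hs1 : s.1 = t.1 ∨ s.1 = t.2 := by
      rcases (mW _).1 hsW with h | h | h | h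
      · exact Or.inl h
      · exact Or.inr h
      · rw [h] at ld; omega
      · rw [h] at ld; omega
    rcases hs1 with hs1 | hs1
    · have := hr t.2 (by rw [hzz, ← hs1]; exact TT.ud) (by rw [hs1]; exact hrk)
      omega
    · have hw' : w' ∈ uc t.1 := by rw [← hzz, ← hs1, TT.ud]; simp
      have hw2' : w2' ∈ uc t.1 := by rw [← hzz, ← hs1, TT.ud]; simp
      have k1 := hu w' hw'
      have k2 := hu w2' hw2'
      have k3 := k1.2 s.2 (by rw [TT.uw]; simp)
      have k4 := EE.act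
      unfold Act at k4
      rw [hs1] at k4
      omega
  · have ld : lev s.1 + 2 = i := by
      have := TT.ld
      unfold laU at this
      omega
    rcases (mW _).1 hsW with h | h | h | h <;> rw [h] at ld <;> omega

/-- the reduced labelling -/
lemma Ex.rk (X : Ex i e t) (H : Gr P r) (hch : ∀ a ∈ dc t.1, e a ≤ 1)
    (hCC : Xg.CC i e = ∅) : Xg.rk t.2 < Xg.rk t.1 := by
  obtain ⟨w, w2, p, x, q, T⟩ := X.tw
  obtain ⟨b1, b2, b3, b4, b5⟩ := Tw.b H T
  obtain ⟨l1, l2, l3, l4, l5, l6⟩ := Tw.lv H T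
  have lz := T.lz
  have hW := T.W
  have hX := T.X
  have mW : ∀ v, v ∈ WT t ↔ v = t.1 ∨ v = t.2 ∨ v = w ∨ v = w2 := by
    intro v
    rw [show WT t = WT (t.1, t.2) from rfl, hW]
    simp only [mem_insert, mem_singleton]
  have m1 : t.1 ∈ WT t := (mW _).2 (Or.inl rfl)
  have m2 : t.2 ∈ WT t := (mW _).2 (Or.inr (Or.inl rfl))
  have m3 : w ∈ WT t := (mW _).2 (by simp)
  have m4 : w2 ∈ WT t := (mW _).2 (by simp)
  have e1 : e t.1 = 2 := by rw [X.lab _ m1]; exact b1
  have e2 : e t.2 = 1 := by rw [X.lab _ m2]; exact b2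
  have e3 : e w = 1 := by rw [X.lab _ m3]; exact b3
  have e4 : e w2 = 1 := by rw [X.lab _ m4]; exact b4
  have x1 : p ∈ XT t := by rw [show XT t = XT (t.1, t.2) from rfl, hX]; simp
  have x2 : x ∈ XT t := by rw [show XT t = XT (t.1, t.2) from rfl, hX]; simp
  have x3 : q ∈ XT t := by rw [show XT t = XT (t.1, t.2) from rfl, hX]; simp
  have e5 := X.X0 p x1
  have e6 := X.X0 x x2
  have e7 := X.X0 q x3
  by_contra hno
  have hne : Xg.rk t.1 ≠ Xg.rk t.2 := fun h => T.zz (Xg.rk_inj h)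
  have hcan : Can dc uc (laL i) e t.1 x := by
    refine ⟨w, w2, p, q, ⟨by unfold laL; omega, T.uz, T.uw, T.uw2, T.dx, T.ww, T.px, T.xq, T.pq⟩,
      ⟨by omega, ?_, ?_, ?_, ?_, ?_⟩, ?_⟩
    · intro a ha
      have := hch a ha
      omega
    · intro u hu
      rw [X.uX x x2 u hu]
      omega
    · right
      refine ⟨fun d' hd' hne' => ?_, by omega⟩
      rw [T.dw, mem_insert, mem_singleton] at hd'
      rcases hd' with rfl | rfl
      · exact absurd rfl hne'
      · omega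
    · right
      refine ⟨fun d' hd' hne' => ?_, by omega⟩
      rw [T.dw2, mem_insert, mem_singleton] at hd'
      rcases hd' with rfl | rfl
      · exact absurd rfl hne'
      · omega
    · left
      left
      show e w < e t.1
      omega
    · intro d' hd' hlt
      have hd1 : d' ∈ dc w := mem_dc.2 (mem_uc.1 (by rw [hd']; simp))
      rw [T.dw, mem_insert, mem_singleton] at hd1
      have hlt' : Xg.rk d' < Xg.rk t.1 := hlt
      rcases hd1 with rfl | rfl
      · omega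
      · omega
  have hmem : (t.1, x) ∈ Xg.CC i e := by
    rw [Xg.mem_CC H]
    exact Or.inl hcan
  rw [hCC] at hmem
  exact notMem_empty _ hmem

end ex

section find

variable (E : Ev r i psi C) (O : Okc i psi C e)
include E O

/-- the exceptional twins form a block -/
lemma twx_ex {z : P} (hz : z ∈ TWLx i e) : ∃ z', Ex i e (z, z') := by
  classical
  have HL := hypL E.G E.hT E.hQ E.hM O.adm.l O.adm.u O.adm.d O.core
  obtain ⟨zS, hp, ez, htw, hlab⟩ := mem_TWx.1 hz
  obtain ⟨w, w2, p, x, q, z', T, cz', hne, d1, d2, -⟩ := HL.tw_spec (mem_TW.2 ⟨zS, hp⟩)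
  have lz : lev z = i + 2 := by
    have h1 := mem_lS.1 zS
    have h2 : lev z - i = 2 := T.tz
    omega
  have TT : Tw i z z' w w2 p x q :=
    ⟨lz, T.cz, cz', T.cw, T.cw2, T.dx, d1, d2, hne.symm, T.ne, T.px, T.xq, T.pq⟩
  obtain ⟨b1, b2, b3, b4, b5⟩ := TT.b E.H
  obtain ⟨l1, l2, l3, l4, l5, l6⟩ := TT.lv E.H
  have hX : ∀ y ∈ XT (z, z'), ∃ a ∈ uc z, y ∈ uc a := by
    intro y hy
    unfold XT at hy
    obtain ⟨a, ha, hya⟩ := mem_biUnion.1 hy
    exact ⟨a, ha, hya⟩
  have hX0 : ∀ y ∈ XT (z, z'), e y = 0 := by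
    intro y hy
    obtain ⟨a, ha, hya⟩ := hX y hy
    exact ((hlab a ha).2 y hya).1
  have hXl : ∀ y ∈ XT (z, z'), lev y = i := by
    intro y hy
    rw [TT.X, mem_insert, mem_insert, mem_singleton] at hy
    rcases hy with rfl | rfl | rfl <;> assumption
  refine ⟨z', ⟨⟨w, w2, p, x, q, TT⟩, ?_, hX0, ?_, ?_⟩⟩
  · intro v hv
    rw [TT.W, mem_insert, mem_insert, mem_insert, mem_singleton] at hv
    rcases hv with rfl | rfl | rfl | rfl
    · rw [b1, ez]
    · rw [b2, htw v (by rw [cz', T.cz]) hne]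
    · rw [b3, (hlab v (by rw [T.cz]; simp)).1]
    · rw [b4, (hlab v (by rw [T.cz]; simp)).1]
  · intro y hy v hv hvW
    obtain ⟨a, ha, hya⟩ := hX y hy
    refine ((hlab a ha).2 y hya).2 v hv (fun h => hvW ?_)
    unfold WT
    exact mem_insert_of_mem (mem_insert_of_mem h)
  · intro y hy u hu
    by_contra h0
    obtain ⟨a, ha, hya⟩ := hX y hy
    have ey := hX0 y hy
    have h1 : y ∈ AL i e := by
      rw [NormD_mem_AL]
      refine ⟨hXl y hy, a, mem_uc.1 hya, ?_⟩
      rw [(hlab a ha).1]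
      omega
    have h2 : y ∈ AU i e := by
      rw [NormD_mem_AU]
      exact ⟨hXl y hy, u, mem_uc.1 hu, by omega⟩
    exact disjoint_left.1 O.adm.d h1 h2

end find

end Pool.Agent.GaussPoset.Win.Rd
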