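import Pool.Agent.W_448rd_h10.RdO

/-!
MP_448cb3_co, G2, window `j - 1`: the leftover cores of energy eight: the rest of a twin block has
no positive child of the block, or it is the chain of an inner join.  helper10.
-/

namespace Pool.Agent.GaussPoset.Win.Rd

set_option linter.unusedSectionVars false

open Finset I2 K2
open Pool.Agent.GaussPoset.Win.H2 (SdT NoT low_T up_T sum_all)
open Pool.Agent.GaussPoset.Win.Xg (FlS Zr LoP UpP FP rm rm_le rm_of rm_y rm_p Okc kp Lft mem_Lft
  CanD Can Tee Exo SdO Act laL laU)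

universe u

variable {P : Type u} [Fintype P] [PartialOrder P] [DecidableEq P] {r i : ℕ} {e B : P → ℕ}
variable {psi : P → P} {C : Finset P} {Q : (P → ℕ) → Prop} {t : P × P}

/-- the elements of a block -/
lemma Ex.mW (X : Ex i e t) : ∃ w w2 p x q, Tw i t.1 t.2 w w2 p x q ∧
    (∀ v, v ∈ WT t ↔ v = t.1 ∨ v = t.2 ∨ v = w ∨ v = w2) ∧
    (∀ v, v ∈ XT t ↔ v = p ∨ v = x ∨ v = q) := by
  obtain ⟨w, w2, p, x, q, T⟩ := X.tw
  refine ⟨w, w2, p, x, q, T, ?_, ?_⟩
  · intro v
    rw [show WT t = WT (t.1, t.2) from rfl, T.W]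
    simp only [mem_insert, mem_singleton]
  · intro v
    rw [show XT t = XT (t.1, t.2) from rfl, T.X]
    simp only [mem_insert, mem_singleton]

lemma Ex.levW (X : Ex i e t) (H : Gr P r) {v : P} (hv : v ∈ WT t) :
    (lev v = i + 1 ∨ lev v = i + 2) ∧ 1 ≤ e v ∧ e v ≤ 2 ∧ (lev v = i + 1 → v ∈ uc t.1 ∧ e v = 1) := by
  obtain ⟨w, w2, p, x, q, T, mW, -⟩ := X.mW
  obtain ⟨l1, l2, l3, l4, l5, l6⟩ := T.lv H
  obtain ⟨b1, b2, b3, b4, b5⟩ := Tw.b H T
  have lz := T.lz
  rw [X.lab v hv]
  have h1 : bT (t.1, t.2) = bT t := rfl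
  rw [h1] at b1 b2 b3 b4
  rcases (mW v).1 hv with rfl | rfl | rfl | rfl
  · exact ⟨Or.inr lz, by omega, by omega, fun h => by omega⟩
  · exact ⟨Or.inr l1, by omega, by omega, fun h => by omega⟩
  · exact ⟨Or.inl l2, by omega, by omega, fun _ => ⟨by rw [T.uz]; simp, b3⟩⟩
  · exact ⟨Or.inl l3, by omega, by omega, fun _ => ⟨by rw [T.uz]; simp, b4⟩⟩

lemma Ex.sumW (X : Ex i e t) (H : Gr P r) : ∑ v ∈ WT t, e v = 5 := by
  obtain ⟨w, w2, p, x, q, T, mW, -⟩ := X.mW
  obtain ⟨n1, n2, n3, n4⟩ := Tw.nes H T
  obtain ⟨b1, b2, b3, b4, b5⟩ := Tw.b H T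
  have h1 : ∑ v ∈ WT t, e v = ∑ v ∈ WT t, bT t v := sum_congr rfl X.lab
  rw [h1, show WT t = WT (t.1, t.2) from rfl, T.W]
  have h2 : bT (t.1, t.2) = bT t := rfl
  rw [h2] at b1 b2 b3 b4
  have g1 : t.2 ∉ ({w, w2} : Finset P) := by
    simp only [mem_insert, mem_singleton, not_or]
    exact ⟨n3, n4⟩
  have g2 : t.1 ∉ ({t.2, w, w2} : Finset P) := by
    simp only [mem_insert, mem_singleton, not_or]
    exact ⟨T.zz, n1, n2⟩
  rw [sum_insert g2, sum_insert g1, Finset.sum_pair T.ww, b1, b2, b3, b4]
  rfl

/-- the children of the upper elements of the block -/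
lemma Ex.dcW (X : Ex i e t) (H : Gr P r) {a v : P} (hv : v ∈ WT t) (ha : a ∈ dc v)
    (haW : a ∉ WT t) : (v = t.1 ∨ v = t.2) ∧ lev a = i + 3 := by
  obtain ⟨w, w2, p, x, q, T, mW, -⟩ := X.mW
  obtain ⟨l1, l2, l3, l4, l5, l6⟩ := T.lv H
  have lz := T.lz
  have la := lev_dc H ha
  have key : v ≠ w ∧ v ≠ w2 := by
    constructor
    · rintro rfl
      apply haW
      rw [T.dw, mem_insert, mem_singleton] at ha
      exact (mW a).2 (by tauto)
    · rintro rfl
      apply haW
      rw [T.dw2, mem_insert, mem_singleton] at ha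
      exact (mW a).2 (by tauto)
  rcases (mW v).1 hv with rfl | rfl | rfl | rfl
  · exact ⟨Or.inl rfl, by omega⟩
  · exact ⟨Or.inr rfl, by omega⟩
  · exact absurd rfl key.1
  · exact absurd rfl key.2

/-- parents of the block are in the block, or sites of the block -/
lemma Ex.ucW (X : Ex i e t) (H : Gr P r) {a v : P} (hv : v ∈ WT t) (ha : a ∈ uc v) :
    a ∈ WT t ∨ (lev v = i + 1 ∧ a ∈ XT t) := by
  obtain ⟨w, w2, p, x, q, T, mW, mX⟩ := X.mW
  obtain ⟨l1, l2, l3, l4, l5, l6⟩ := T.lv H
  rcases (mW v).1 hv with rfl | rfl | rfl | rfl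
  · rw [T.uz, mem_insert, mem_singleton] at ha
    exact Or.inl ((mW a).2 (by tauto))
  · rw [T.uz', mem_insert, mem_singleton] at ha
    exact Or.inl ((mW a).2 (by tauto))
  · rw [T.uw, mem_insert, mem_singleton] at ha
    exact Or.inr ⟨l2, (mX a).2 (by tauto)⟩
  · rw [T.uw2, mem_insert, mem_singleton] at ha
    exact Or.inr ⟨l3, (mX a).2 (by tauto)⟩

/-- the core of an inner join: a chain `y0, p0, c` with `c` below a twin -/
structure EtD (i : ℕ) (e : P → ℕ) (t : P × P) (c p0 y0 : P) : Prop where
  ly : lev y0 = i + 1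
  cy : (uc y0).card = 2
  up : uc p0 = {y0}
  cp : c ∈ dc p0
  cz : c ∈ dc t.1 ∨ c ∈ dc t.2
  yW : y0 ∉ WT t
  ey : e y0 = 1
  ep : e p0 = 1
  ec : e c = 1
  out : ∀ v, v ∉ WT t → v ≠ y0 → v ≠ p0 → v ≠ c → e v = 0

section main

variable (E : Ev r i psi C) (K : Kls i psi C Q)
include E K

/-- the leftover cores of energy eight have one exact block of twins -/
lemma lft_small {n k : ℕ} (he : e ∈ Lft i psi C Q n k) (hn : n ≤ 9) (hk : n < 3 * (k + 1)) :
    ∃ z, TWL i e = {z} ∧ z ∈ TWLx i e := by
  obtain ⟨h1, h2⟩ := lft_ineq E K he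
  obtain ⟨h3, O, h5, h6, h7⟩ := mem_Lft.1 he
  have h8 : NFL i e = ∅ := nf_empty E.G E.hT O.adm.l (by omega)
  rw [h8, card_empty] at h1
  have h9 := (TWx_card (i := i) (e := e)).1
  have h10 : (TWL i e).card = 1 := by omega
  have h11 : 0 < (TWLx i e).card := by omega
  obtain ⟨z, hz⟩ := card_eq_one.1 h10
  obtain ⟨z', hz'⟩ := card_pos.1 h11
  have h12 : z' ∈ TWL i e := by
    obtain ⟨a, b⟩ := mem_TWx.1 hz'
    exact mem_TW.2 ⟨a, b.1⟩
  rw [hz, mem_singleton] at h12
  subst h12
  exact ⟨z', hz, hz'⟩

theorem lft8_cases (he : e ∈ Lft i psi C Q 8 2) : ∃ t, Ex i e t ∧ TWL i e = {t.1} ∧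
    ((∀ w ∈ WT t, ∀ a ∈ dc w, a ∉ WT t → e a = 0) ∨ ∃ c p0 y0, EtD i e t c p0 y0) := by
  classical
  obtain ⟨z, hz, hzx⟩ := lft_small E K he (by norm_num) (by norm_num)
  obtain ⟨hsum, O, hkp, hCC, hnQ⟩ := mem_Lft.1 he
  obtain ⟨z', X⟩ := twx_ex E O hzx
  refine ⟨(z, z'), X, hz, ?_⟩
  by_cases hch : ∀ w ∈ WT (z, z'), ∀ a ∈ dc w, a ∉ WT (z, z') → e a = 0
  · exact Or.inl hch
  right
  push Not at hch
  obtain ⟨w0, hw0, a, ha, haW, ea⟩ := hch
  obtain ⟨hw01, la⟩ := X.dcW E.H hw0 ha haW
  have ea1 : 1 ≤ e a := by omega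
  have H := E.H
  have hr := E.hr
  have hS : ∀ S : Finset P, (∀ v ∈ S, v ∉ WT (z, z')) → ∑ v ∈ S, e v ≤ 3 := by
    intro S hS
    have h1 : Disjoint S (WT (z, z')) := by
      rw [disjoint_left]
      exact hS
    have h2 : ∑ v ∈ S ∪ WT (z, z'), e v ≤ ∑ v, e v := sum_le_sum_of_subset (subset_univ _)
    rw [sum_union h1, X.sumW H, hsum] at h2
    omega
  have nW : ∀ v, lev v ≠ i + 1 → lev v ≠ i + 2 → v ∉ WT (z, z') := by
    intro v h1 h2 h3
    rcases (X.levW H h3).1 with h | h <;> omega
  have hl : ∀ a b : P, lev a ≠ lev b → a ≠ b := fun a b h h' => h (by rw [h'])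
  obtain ⟨hz1, hz2, hz3, -⟩ := X.levW H (show z ∈ WT (z, z') by unfold WT; simp)
  obtain ⟨w, w2, p, x, q, T, mW, mX⟩ := X.mW
  have T' : Tw i z z' w w2 p x q := T
  have lz : lev z = i + 2 := T.lz
  have ez : e z = 2 := by
    rw [X.lab z (by unfold WT; simp)]
    exact (T'.b H).1
  -- a free element of level at least `i + 2`
  have hfree : ∃ b, i + 2 ≤ lev b ∧ ¬ FD e b ∧ ¬ GU e b := by
    by_cases hFD : FD e z
    · obtain ⟨b, hb, hlt⟩ := hFD
      have lb := lev_dc H (mem_dc.2 hb)
      have hbW := nW b (by omega) (by omega)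
      refine ⟨b, by omega, ?_, ?_⟩
      · rintro ⟨g, hg, hlt2⟩
        have lg := lev_dc H (mem_dc.2 hg)
        have := hS {b, g} (by
          intro v hv
          rw [mem_insert, mem_singleton] at hv
          rcases hv with rfl | rfl
          · exact hbW
          · exact nW v (by omega) (by omega))
        rw [Finset.sum_pair (hl _ _ (by omega))] at this
        omega
      · rintro ⟨y', hy', hle⟩
        by_cases hyW : y' ∈ WT (z, z')
        · have := (X.levW H hyW).2.2.1
          omega
        · have ly := lev_uc H (mem_uc.2 hy')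
          have := hS {b, y'} (by
            intro v hv
            rw [mem_insert, mem_singleton] at hv
            rcases hv with rfl | rfl
            · exact hbW
            · exact hyW)
          rw [Finset.sum_pair (hl _ _ (by omega))] at this
          omega
    · refine ⟨z, by omega, hFD, ?_⟩
      rintro ⟨y', hy', hle⟩
      have h1 := X.ucW H (show z ∈ WT (z, z') by unfold WT; simp) (mem_uc.2 hy')
      rcases h1 with h1 | ⟨h1, -⟩
      · have ly := lev_uc H (mem_uc.2 hy')
        have := ((X.levW H h1).2.2.2 (by omega)).2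
        omega
      · omega
  have hkp' : (AL i e).card + (AU i e).card = 3 + (pL i e + pU i e) := by
    unfold Xg.kp at hkp
    omega
  by_cases hB : ∃ g, g ∉ WT (z, z') ∧ 1 ≤ e g ∧
      ((lev g = i + 1 ∧ (uc g).card = 2) ∨ (lev g + 1 = i ∧ (dc g).card = 2))
  swap
  · -- case A: all near positive elements outside the block are single
    exfalso
    push Not at hB
    obtain ⟨b, hb1, hb2, hb3⟩ := hfree
    obtain ⟨FL, hFL⟩ : ∃ F : Finset P, F = univ.filter (fun g : P => lev g = i + 1 ∧ ¬ FD e g ∧
      ¬ GU e g) := ⟨_, rfl⟩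
    obtain ⟨FU', hFU⟩ : ∃ F : Finset P, F = univ.filter (fun g : P => lev g + 1 = i ∧ ¬ FU e g ∧
      ¬ GD e g) := ⟨_, rfl⟩
    have mFL : ∀ g, g ∈ FL ↔ lev g = i + 1 ∧ ¬ FD e g ∧ ¬ GU e g := by
      intro g
      rw [hFL, mem_filter]
      simp only [mem_univ, true_and]
    have mFU : ∀ g, g ∈ FU' ↔ lev g + 1 = i ∧ ¬ FU e g ∧ ¬ GD e g := by
      intro g
      rw [hFU, mem_filter]
      simp only [mem_univ, true_and]
    have hcL : ∀ g ∈ FL, (uc g).card ≤ 1 := by
      intro g hg
      obtain ⟨h1, h2, h3⟩ := (mFL g).1 hg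
      have hgW : g ∉ WT (z, z') := by
        intro h
        have h4 := (X.levW H h).2.2.2 h1
        apply h2
        have h5 : g ∈ uc z := h4.1
        exact ⟨z, mem_uc.1 h5, by omega⟩
      obtain ⟨s, hs⟩ := uc_nonempty H (x := g) (by omega)
      have eg : 1 ≤ e g := by
        by_contra h4
        exact h3 ⟨s, mem_uc.1 hs, by omega⟩
      have h5 := (hB g hgW eg).1 h1
      have := uc_card_le H g
      omega
    have hcU : ∀ g ∈ FU', (dc g).card ≤ 1 := by
      intro g hg
      obtain ⟨h1, h2, h3⟩ := (mFU g).1 hg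
      have hgW : g ∉ WT (z, z') := nW g (by omega) (by omega)
      obtain ⟨s, hs⟩ := dc_nonempty H (x := g) (by omega)
      have eg : 1 ≤ e g := by
        by_contra h4
        exact h3 ⟨s, mem_dc.1 hs, by omega⟩
      have h5 := (hB g hgW eg).2 h1
      have := dc_card_le H g
      omega
    have hsub : (AL i e ∪ AU i e) ⊆ XT (z, z') ∪ (FL.biUnion uc ∪ FU'.biUnion dc) := by
      intro s hs
      by_cases hsX : s ∈ XT (z, z')
      · exact mem_union_left _ hsX
      refine mem_union_right _ ?_
      rcases mem_union.1 hs with h | h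
      · refine mem_union_left _ (mem_biUnion.2 ?_)
        rw [NormD_mem_AL] at h
        obtain ⟨ls, g, hg, hlt⟩ := h
        have lg := lev_dc H (mem_dc.2 hg)
        have hgW : g ∉ WT (z, z') := by
          intro h1
          rcases X.ucW H h1 (mem_uc.2 hg) with h2 | ⟨-, h2⟩
          · have := (X.levW H h2).1
            omega
          · exact hsX h2
        have h5 := (hB g hgW (by omega)).1 (by omega)
        have h6 := uc_card_le H g
        have h7 : s ∈ uc g := mem_uc.2 hg
        have h8 : uc g = {s} := by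
          have : (uc g).card = 1 := by
            have : 0 < (uc g).card := card_pos.2 ⟨s, h7⟩
            omega
          obtain ⟨s', hs'⟩ := card_eq_one.1 this
          rw [hs', mem_singleton] at h7
          rw [hs', h7]
        refine ⟨g, (mFL g).2 ⟨by omega, ?_, ?_⟩, h7⟩
        · rintro ⟨h9, hh, hlt2⟩
          have lh := lev_dc H (mem_dc.2 hh)
          have hhW : h9 ∉ WT (z, z') := by
            intro h1
            rcases X.ucW H h1 (mem_uc.2 hh) with h2 | ⟨h2, -⟩
            · exact hgW h2
            · omega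
          have := hS {g, h9, a} (by
            intro v hv
            rw [mem_insert, mem_insert, mem_singleton] at hv
            rcases hv with rfl | rfl | rfl <;> assumption)
          rw [sum_insert, Finset.sum_pair (hl _ _ (by omega))] at this
          · omega
          · simp only [mem_insert, mem_singleton, not_or]
            exact ⟨hl _ _ (by omega), hl _ _ (by omega)⟩
        · rintro ⟨y', hy', hle⟩
          have : y' ∈ uc g := mem_uc.2 hy'
          rw [h8, mem_singleton] at this
          subst this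
          omega
      · refine mem_union_right _ (mem_biUnion.2 ?_)
        rw [NormD_mem_AU] at h
        obtain ⟨ls, g, hg, hlt⟩ := h
        have lg := lev_uc H (mem_uc.2 hg)
        have hgW : g ∉ WT (z, z') := nW g (by omega) (by omega)
        have h5 := (hB g hgW (by omega)).2 (by omega)
        have h6 := dc_card_le H g
        have h7 : s ∈ dc g := mem_dc.2 hg
        have h8 : dc g = {s} := by
          have : (dc g).card = 1 := by
            have : 0 < (dc g).card := card_pos.2 ⟨s, h7⟩
            omega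
          obtain ⟨s', hs'⟩ := card_eq_one.1 this
          rw [hs', mem_singleton] at h7
          rw [hs', h7]
        refine ⟨g, (mFU g).2 ⟨by omega, ?_, ?_⟩, h7⟩
        · rintro ⟨h9, hh, hlt2⟩
          have lh := lev_uc H (mem_uc.2 hh)
          have hhW : h9 ∉ WT (z, z') := nW h9 (by omega) (by omega)
          have := hS {g, h9, a} (by
            intro v hv
            rw [mem_insert, mem_insert, mem_singleton] at hv
            rcases hv with rfl | rfl | rfl <;> assumption)
          rw [sum_insert, Finset.sum_pair (hl _ _ (by omega))] at this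
          · omega
          · simp only [mem_insert, mem_singleton, not_or]
            exact ⟨hl _ _ (by omega), hl _ _ (by omega)⟩
        · rintro ⟨y', hy', hle⟩
          have : y' ∈ dc g := mem_dc.2 hy'
          rw [h8, mem_singleton] at this
          subst this
          omega
    have c1 : (AL i e ∪ AU i e).card ≤ 3 + (FL.card + FU'.card) := by
      have h1 := card_le_card hsub
      have h2 := card_union_le (XT (z, z')) (FL.biUnion uc ∪ FU'.biUnion dc)
      have h3 := card_union_le (FL.biUnion uc) (FU'.biUnion dc)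
      have h4 : (FL.biUnion uc).card ≤ FL.card := by
        have := card_biUnion_le_card_mul FL uc 1 hcL
        omega
      have h5 : (FU'.biUnion dc).card ≤ FU'.card := by
        have := card_biUnion_le_card_mul FU' dc 1 hcU
        omega
      have h6 := (T'.nums H).2.2
      omega
    rw [card_union_of_disjoint O.adm.d] at c1
    have c2 : FL.card + 1 ≤ pL i e := by
      have h1 : b ∉ FL := by
        intro h
        have := ((mFL b).1 h).1
        omega
      rw [← card_insert_of_notMem h1]
      unfold Win.pL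
      apply card_le_card
      intro g hg
      rw [mem_filter]
      rcases mem_insert.1 hg with rfl | hg
      · exact ⟨mem_univ _, by omega, hb2, hb3⟩
      · obtain ⟨h2, h3, h4⟩ := (mFL g).1 hg
        exact ⟨mem_univ _, by omega, h3, h4⟩
    have c3 : FU'.card ≤ pU i e := by
      unfold Win.pU
      apply card_le_card
      intro g hg
      rw [mem_filter]
      obtain ⟨h2, h3, h4⟩ := (mFU g).1 hg
      exact ⟨mem_univ _, by omega, h3, h4⟩
    omega
  -- case B
  obtain ⟨g, hgW, eg, hg⟩ := hB
  rcases hg with ⟨lg, cg⟩ | ⟨lg, cg⟩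
  · -- lower
    obtain ⟨s1, s2, hs12, hcg⟩ := card_eq_two.1 cg
    have l1 := lev_uc H (show s1 ∈ uc g by rw [hcg]; simp)
    have l2 := lev_uc H (show s2 ∈ uc g by rw [hcg]; simp)
    have hgB : g ∉ BGL i psi e := by
      intro h
      have h1 := bgL E.G E.hM O.adm.d h
      have h2 := (mem_BGL.1 h).2.2
      obtain ⟨p1, p2, p3⟩ := psiL E.hM lg cg
      have e1 := h1 s1 (by rw [hcg]; simp)
      have e2 := h1 s2 (by rw [hcg]; simp)
      have := hS {g, psi g, s1, s2} (by
        intro v hv
        rw [mem_insert, mem_insert, mem_insert, mem_singleton] at hv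
        rcases hv with rfl | rfl | rfl | rfl
        · exact hgW
        · exact nW _ (by omega) (by omega)
        · exact nW _ (by omega) (by omega)
        · exact nW _ (by omega) (by omega))
      rw [sum_insert, sum_insert, Finset.sum_pair hs12] at this
      · omega
      · simp only [mem_insert, mem_singleton, not_or]
        exact ⟨hl _ _ (by omega), hl _ _ (by omega)⟩
      · simp only [mem_insert, mem_singleton, not_or]
        exact ⟨hl _ _ (by omega), hl _ _ (by omega), hl _ _ (by omega)⟩
    obtain ⟨b, hb, eb⟩ := touchL E.hM O.adm.u O.core lg cg hgB eg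
    have lb := lev_dc H hb
    have hbW : b ∉ WT (z, z') := by
      intro h
      rcases X.ucW H h (mem_uc.2 (mem_dc.1 hb)) with h1 | ⟨h1, -⟩
      · exact hgW h1
      · omega
    have ngb : g ≠ b := hl _ _ (by omega)
    have nga : g ≠ a := hl _ _ (by omega)
    have nba : b ≠ a := hl _ _ (by omega)
    have hfour : ∀ v, v ∉ WT (z, z') → v ≠ g → v ≠ b → v ≠ a → e v = 0 := by
      intro v hv h1 h2 h3
      have := hS {v, g, b, a} (by
        intro v' hv'
        rw [mem_insert, mem_insert, mem_insert, mem_singleton] at hv'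
        rcases hv' with rfl | rfl | rfl | rfl <;> assumption)
      rw [sum_insert, sum_insert, Finset.sum_pair nba] at this
      · omega
      · simp only [mem_insert, mem_singleton, not_or]
        exact ⟨ngb, nga⟩
      · simp only [mem_insert, mem_singleton, not_or]
        exact ⟨h1, h2, h3⟩
    have hthree := hS {g, b, a} (by
      intro v' hv'
      rw [mem_insert, mem_insert, mem_singleton] at hv'
      rcases hv' with rfl | rfl | rfl <;> assumption)
    rw [sum_insert (by simp only [mem_insert, mem_singleton, not_or]; exact ⟨ngb, nga⟩),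
      Finset.sum_pair nba] at hthree
    have eg1 : e g = 1 := by omega
    have eb1 : e b = 1 := by omega
    have ea2 : e a = 1 := by omega
    have hgb : g ∈ uc b := mem_uc.2 (mem_dc.1 hb)
    have hub : uc b = {g} := by
      by_contra hne
      have h2 : 1 < (uc b).card := by
        by_contra h3
        apply hne
        have : (uc b).card = 1 := by
          have : 0 < (uc b).card := card_pos.2 ⟨g, hgb⟩
          omega
        obtain ⟨y, hy⟩ := card_eq_one.1 this
        rw [hy, mem_singleton] at hgb
        rw [hy, hgb]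
      obtain ⟨g', hg', hne'⟩ := exists_mem_ne h2 g
      have lg' := lev_uc H hg'
      have eg' : 1 ≤ e g' := adm_pos H O.adm.l (by omega) (mem_dc.2 (mem_uc.1 hg')) (by omega)
      have hgW' : g' ∉ WT (z, z') := by
        intro h
        have h5 : b ∈ dc g' := mem_dc.2 (mem_uc.1 hg')
        have := (X.dcW H h h5 hbW).2
        omega
      have := hfour g' hgW' hne' (hl _ _ (by omega)) (hl _ _ (by omega))
      omega
    obtain ⟨w1, u1, v, v', F, hpsi, hmC, hPD, hPU, rfl⟩ := K.pd E (spt_mem O.spt eb) hub cg lg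
    obtain ⟨k1, k2, k3, k4⟩ := F.lv H
    have lw1 := F.lw
    have hab : a ∈ dc b := by
      by_contra hab
      apply hnQ
      left
      have r0 : ∀ z, e z = 0 → rm g b e z = 0 := by
        intro z hz
        have := rm_le (y := g) (p := b) (e := e) (z := z)
        omega
      have hv : v ∈ uc g := by rw [F.uy]; simp
      have hv' : v' ∈ uc g := by rw [F.uy]; simp
      have dv : ∀ x ∈ uc g, ∀ c ∈ dc x, rm g b e c = 0 := by
        intro x hx c hc
        by_cases hcg' : c = g
        · rw [hcg', rm_y]
        have lx := lev_uc H hx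
        have lc := lev_dc H hc
        apply r0
        by_cases hcW : c ∈ WT (z, z')
        · exfalso
          rcases X.ucW H hcW (mem_uc.2 (mem_dc.1 hc)) with h1 | ⟨-, h1⟩
          · exact nW x (by omega) (by omega) h1
          · have := X.dX x h1 g (mem_dc.2 (mem_uc.1 hx)) hgW
            omega
        · exact hfour c hcW hcg' (hl _ _ (by omega)) (hl _ _ (by omega))
      have hlow : ∀ c, lev c ≤ i → e c = 0 := by
        intro c hc
        exact hfour c (nW c (by omega) (by omega)) (hl _ _ (by omega)) (hl _ _ (by omega))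
          (hl _ _ (by omega))
      refine ⟨eg1, eb1, ⟨r0 v (hlow v (by omega)), r0 v' (hlow v' (by omega)), dv v hv, dv v' hv',
        fun c hc => r0 c (hlow c (by have := lev_uc H hc; omega)),
        fun c hc => r0 c (hlow c (by have := lev_uc H hc; omega)), ?_, ?_,
        fun c hc => r0 c (hlow c (by have := lev_uc H hc; omega)),
        fun c hc => r0 c (hlow c (by have := lev_uc H hc; omega))⟩⟩
      · intro c hc
        by_cases hcb : c = b
        · rw [hcb, rm_p]
        have lc := lev_dc H hc
        apply r0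
        have hcW : c ∉ WT (z, z') := by
          intro h
          rcases X.ucW H h (mem_uc.2 (mem_dc.1 hc)) with h1 | ⟨h1, -⟩
          · exact hgW h1
          · omega
        exact hfour c hcW (hl _ _ (by omega)) hcb (hl _ _ (by omega))
      · intro c hc
        have lc := lev_dc H hc
        apply r0
        refine hfour c (nW c (by omega) (by omega)) (hl _ _ (by omega)) (hl _ _ (by omega)) ?_
        rintro rfl
        exact hab hc
    refine ⟨a, b, g, ⟨lg, cg, hub, hab, ?_, hgW, eg1, eb1, ea2, hfour⟩⟩
    rcases hw01 with rfl | rfl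
    · exact Or.inl ha
    · exact Or.inr ha
  · -- upper
    exfalso
    obtain ⟨s1, s2, hs12, hcg⟩ := card_eq_two.1 cg
    have l1 := lev_dc H (show s1 ∈ dc g by rw [hcg]; simp)
    have l2 := lev_dc H (show s2 ∈ dc g by rw [hcg]; simp)
    have hgB : g ∉ BGU i psi e := by
      intro h
      have h1 := bgU E.G E.hM O.adm.d h
      have h2 := (mem_BGU.1 h).2.2
      obtain ⟨p1, p2, p3⟩ := psiU E.hM lg cg
      have e1 := h1 s1 (by rw [hcg]; simp)
      have e2 := h1 s2 (by rw [hcg]; simp)
      have := hS {a, g, s1, s2} (by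
        intro v hv
        rw [mem_insert, mem_insert, mem_insert, mem_singleton] at hv
        rcases hv with rfl | rfl | rfl | rfl
        · exact haW
        · exact nW _ (by omega) (by omega)
        · exact nW _ (by omega) (by omega)
        · exact nW _ (by omega) (by omega))
      rw [sum_insert, sum_insert, Finset.sum_pair hs12] at this
      · omega
      · simp only [mem_insert, mem_singleton, not_or]
        exact ⟨hl _ _ (by omega), hl _ _ (by omega)⟩
      · simp only [mem_insert, mem_singleton, not_or]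
        exact ⟨hl _ _ (by omega), hl _ _ (by omega), hl _ _ (by omega)⟩
    obtain ⟨b, hb, eb⟩ := touchU E.hM O.adm.l O.core lg cg hgB eg
    have lb := lev_uc H hb
    have hbW : b ∉ WT (z, z') := nW b (by omega) (by omega)
    have ngb : g ≠ b := hl _ _ (by omega)
    have nga : g ≠ a := hl _ _ (by omega)
    have nba : b ≠ a := hl _ _ (by omega)
    have hfour : ∀ v, v ∉ WT (z, z') → v ≠ g → v ≠ b → v ≠ a → e v = 0 := by
      intro v hv h1 h2 h3
      have := hS {v, g, b, a} (by
        intro v' hv'
        rw [mem_insert, mem_insert, mem_insert, mem_singleton] at hv'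
        rcases hv' with rfl | rfl | rfl | rfl <;> assumption)
      rw [sum_insert, sum_insert, Finset.sum_pair nba] at this
      · omega
      · simp only [mem_insert, mem_singleton, not_or]
        exact ⟨ngb, nga⟩
      · simp only [mem_insert, mem_singleton, not_or]
        exact ⟨h1, h2, h3⟩
    have hthree := hS {g, b, a} (by
      intro v' hv'
      rw [mem_insert, mem_insert, mem_singleton] at hv'
      rcases hv' with rfl | rfl | rfl <;> assumption)
    rw [sum_insert (by simp only [mem_insert, mem_singleton, not_or]; exact ⟨ngb, nga⟩),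
      Finset.sum_pair nba] at hthree
    have eg1 : e g = 1 := by omega
    have eb1 : e b = 1 := by omega
    have hgb : g ∈ dc b := mem_dc.2 (mem_uc.1 hb)
    have hub : dc b = {g} := by
      by_contra hne
      have h2 : 1 < (dc b).card := by
        by_contra h3
        apply hne
        have : (dc b).card = 1 := by
          have : 0 < (dc b).card := card_pos.2 ⟨g, hgb⟩
          omega
        obtain ⟨y, hy⟩ := card_eq_one.1 this
        rw [hy, mem_singleton] at hgb
        rw [hy, hgb]
      obtain ⟨g', hg', hne'⟩ := exists_mem_ne h2 g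
      have lg' := lev_dc H hg'
      have eg' : 1 ≤ e g' := adm_posU H (by omega) O.adm.u (by omega) (mem_uc.2 (mem_dc.1 hg'))
        (by omega)
      have := hfour g' (nW g' (by omega) (by omega)) hne' (hl _ _ (by omega))
        (hl _ _ (by omega))
      omega
    obtain ⟨y1, p1, v, v', F, hpsi, hmC, hPD, hPU, rfl⟩ := K.pu E (spt_mem O.spt eb) hub cg lg
    obtain ⟨k1, k2, k3, k4⟩ := F.lv H
    obtain ⟨f1, f2, f3, f4⟩ := F.mems H
    have ly1 := F.ly
    apply hnQ
    right
    have r0 : ∀ z, e z = 0 → rm g b e z = 0 := by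
      intro z hz
      have := rm_le (y := g) (p := b) (e := e) (z := z)
      omega
    have hv : v ∈ dc g := by rw [F.dw]; simp
    have hv' : v' ∈ dc g := by rw [F.dw]; simp
    have vX : ∀ x ∈ dc g, x ∉ XT (z, z') := by
      intro x hx h1
      have := X.uX x h1 g (mem_uc.2 (mem_dc.1 hx))
      omega
    have dv0 : ∀ x ∈ dc g, ∀ c ∈ dc x, e c = 0 := by
      intro x hx c hc
      have lx := lev_dc H hx
      have lc := lev_dc H hc
      by_cases hcW : c ∈ WT (z, z')
      · exfalso
        rcases X.ucW H hcW (mem_uc.2 (mem_dc.1 hc)) with h1 | ⟨-, h1⟩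
        · exact nW x (by omega) (by omega) h1
        · exact vX x hx h1
      · exact hfour c hcW (hl _ _ (by omega)) (hl _ _ (by omega)) (hl _ _ (by omega))
    have ey1 : e y1 = 0 := dv0 v hv y1 f3
    have hlow : ∀ c, lev c ≤ i → c ≠ g → c ≠ b → e c = 0 := by
      intro c hc h1 h2
      exact hfour c (nW c (by omega) (by omega)) h1 h2 (hl _ _ (by omega))
    have uv : ∀ x ∈ dc g, ∀ c ∈ uc x, rm g b e c = 0 := by
      intro x hx c hc
      have lx := lev_dc H hx
      have lc := lev_uc H hc
      by_cases h1 : c = g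
      · rw [h1, rm_y]
      by_cases h2 : c = b
      · rw [h2, rm_p]
      exact r0 c (hlow c (by omega) h1 h2)
    have ep1 : e p1 = 0 := by
      by_contra h0
      have := adm_pos H O.adm.l (by omega) f4 (by omega)
      omega
    refine ⟨eg1, eb1, ⟨r0 v (hlow v (by omega) (hl _ _ (by omega)) (hl _ _ (by omega))),
      r0 v' (hlow v' (by omega) (hl _ _ (by omega)) (hl _ _ (by omega))),
      fun c hc => r0 c (dv0 v hv c hc), fun c hc => r0 c (dv0 v' hv' c hc),
      uv v hv, uv v' hv', ?_, ?_, ?_, ?_⟩⟩
    · intro c hc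
      apply r0
      by_contra h0
      have := adm_pos H O.adm.l (by omega) hc (by omega)
      omega
    · intro c hc
      apply r0
      by_contra h0
      have := adm_pos H O.adm.l (by omega) hc (by omega)
      omega
    · intro c hc
      have lc := lev_uc H hc
      by_cases h1 : c = g
      · rw [h1, rm_y]
      by_cases h2 : c = b
      · rw [h2, rm_p]
      exact r0 c (hlow c (by omega) h1 h2)
    · intro c hc
      have lc := lev_uc H hc
      by_cases h1 : c = g
      · rw [h1, rm_y]
      by_cases h2 : c = b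
      · rw [h2, rm_p]
      exact r0 c (hlow c (by omega) h1 h2)

end main

end Pool.Agent.GaussPoset.Win.Rd
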