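import Pool.Agent.W_448rd_h10.RdP

/-!
MP_448cb3_co, G2, window `j - 1`: a core of energy at most eight with an exact twin block has
order at most three.  helper10.
-/

namespace Pool.Agent.GaussPoset.Win.Rd

set_option linter.unusedSectionVars false

open Finset I2 K2
open Pool.Agent.GaussPoset.Win.H2 (SdT NoT low_T up_T sum_all)
open Pool.Agent.GaussPoset.Win.Xg (FlS Zr LoP UpP FP rm rm_le rm_of rm_y rm_p Okc kp Lft mem_Lft
  CanD Can Tee Exo SdO Act laL laU)

universe u

variable {P : Type u} [Fintype P] [PartialOrder P] [DecidableEq P] {r i : ℕ} {e B : P → ℕ}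
variable {psi : P → P} {C : Finset P} {Q : (P → ℕ) → Prop} {t : P × P}

/-- AN EXACT TWIN BLOCK at energy at most eight: order at most three -/
theorem ex8_kp (E : Ev r i psi C) (O : Okc i psi C e) (X : Ex i e t) (hsum : ∑ v, e v ≤ 8) :
    kp i e ≤ 3 := by
  classical
  obtain ⟨z, z'⟩ := t
  have H := E.H
  have hr := E.hr
  by_cases hch : ∀ w ∈ WT (z, z'), ∀ a ∈ dc w, a ∉ WT (z, z') → e a = 0
  · -- removal
    obtain ⟨w, w2, p, x, q, T⟩ := X.tw
    have R := X.rem hch
    have K := Tw.blk H T
    have hW := X.sptW H O.spt
    have OB := (R.okc H K E.hM hW).1 O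
    have h1 := half E.G E.hT E.hM OB.adm.l OB.adm.u OB.adm.d OB.core
    have h2 := R.kp H K
    obtain ⟨n1, n2, n3⟩ := Tw.nums H T
    rw [show XT (z, z') = XT ((z, z').1, (z, z').2) from rfl, n3,
      show WT (z, z') = WT ((z, z').1, (z, z').2) from rfl,
      show bT (z, z') = bT ((z, z').1, (z, z').2) from rfl, n2] at h2
    have h3 : ∑ v, e v = ∑ v, offB (z, z') e v + 5 := by
      have h4 := R.sum H K (C := univ) (subset_univ _)
      have h5 := X.sumW H
      have h6 : ∑ x ∈ WT (z, z'), bT (z, z') x = 5 := by
        rw [← h5]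
        exact sum_congr rfl (fun v hv => (X.lab v hv).symm)
      have h8 : ∑ x ∈ WT ((z, z').1, (z, z').2), bT ((z, z').1, (z, z').2) x = 5 := h6
      omega
    have h7 : ∑ v, (offB (z, z') e v : ℤ) ≤ 3 := by
      have : ∑ v, offB (z, z') e v ≤ 3 := by omega
      exact_mod_cast this
    unfold Xg.kp at h2 ⊢
    omega
  push Not at hch
  obtain ⟨w0, hw0, a, ha, haW, ea⟩ := hch
  obtain ⟨hw01, la⟩ := X.dcW E.H hw0 ha haW
  have ea1 : 1 ≤ e a := by omega
  have hS : ∀ S : Finset P, (∀ v ∈ S, v ∉ WT (z, z')) → ∑ v ∈ S, e v ≤ 3 := by
    intro S hS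
    have h1 : Disjoint S (WT (z, z')) := by
      rw [disjoint_left]
      exact hS
    have h2 : ∑ v ∈ S ∪ WT (z, z'), e v ≤ ∑ v, e v := sum_le_sum_of_subset (subset_univ _)
    rw [sum_union h1, X.sumW H] at h2
    omega
  have nW : ∀ v, lev v ≠ i + 1 → lev v ≠ i + 2 → v ∉ WT (z, z') := by
    intro v h1 h2 h3
    rcases (X.levW H h3).1 with h | h <;> omega
  have hl : ∀ a b : P, lev a ≠ lev b → a ≠ b := fun a b h h' => h (by rw [h'])
  obtain ⟨hz1, hz2, hz3, -⟩ := X.levW H (show z ∈ WT (z, z') by unfold WT; simp)
  obtain ⟨w, w2, p, x, q, T, mW, mX⟩ := X.mW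
  have T' : Tw i z z' w w2 p x q := T
  have lz : lev z = i + 2 := T.lz
  have ez : e z = 2 := by
    rw [X.lab z (by unfold WT; simp)]
    exact (T'.b H).1
  -- a free element of level at least `i + 2`
  have hfree : ∃ b, i + 2 ≤ lev b ∧ ¬ FD e b ∧ ¬ GU e b := by
    by_cases hFD : FD e z
    · obtain ⟨b, hb, hlt⟩ := hFD
      have lb := lev_dc H (mem_dc.2 hb)
      have hbW := nW b (by omega) (by omega)
      refine ⟨b, by omega, ?_, ?_⟩
      · rintro ⟨g, hg, hlt2⟩
        have lg := lev_dc H (mem_dc.2 hg)
        have := hS {b, g} (by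
          intro v hv
          rw [mem_insert, mem_singleton] at hv
          rcases hv with rfl | rfl
          · exact hbW
          · exact nW v (by omega) (by omega))
        rw [Finset.sum_pair (hl _ _ (by omega))] at this
        omega
      · rintro ⟨y', hy', hle⟩
        by_cases hyW : y' ∈ WT (z, z')
        · have := (X.levW H hyW).2.2.1
          omega
        · have ly := lev_uc H (mem_uc.2 hy')
          have := hS {b, y'} (by
            intro v hv
            rw [mem_insert, mem_singleton] at hv
            rcases hv with rfl | rfl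
            · exact hbW
            · exact hyW)
          rw [Finset.sum_pair (hl _ _ (by omega))] at this
          omega
    · refine ⟨z, by omega, hFD, ?_⟩
      rintro ⟨y', hy', hle⟩
      have h1 := X.ucW H (show z ∈ WT (z, z') by unfold WT; simp) (mem_uc.2 hy')
      rcases h1 with h1 | ⟨h1, -⟩
      · have ly := lev_uc H (mem_uc.2 hy')
        have := ((X.levW H h1).2.2.2 (by omega)).2
        omega
      · omega
  by_contra hkp
  have hkp' : 4 + (pL i e + pU i e) ≤ (AL i e).card + (AU i e).card := by
    unfold Xg.kp at hkp
    omega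
  by_cases hB : ∃ g, g ∉ WT (z, z') ∧ 1 ≤ e g ∧
      ((lev g = i + 1 ∧ (uc g).card = 2) ∨ (lev g + 1 = i ∧ (dc g).card = 2))
  swap
  · -- case A: all near positive elements outside the block are single
    exfalso
    push Not at hB
    obtain ⟨b, hb1, hb2, hb3⟩ := hfree
    obtain ⟨FL, hFL⟩ : ∃ F : Finset P, F = univ.filter (fun g : P => lev g = i + 1 ∧ ¬ FD e g ∧
      ¬ GU e g) := ⟨_, rfl⟩
    obtain ⟨FU', hFU⟩ : ∃ F : Finset P, F = univ.filter (fun g : P => lev g + 1 = i ∧ ¬ FU e g ∧
      ¬ GD e g) := ⟨_, rfl⟩
    have mFL : ∀ g, g ∈ FL ↔ lev g = i + 1 ∧ ¬ FD e g ∧ ¬ GU e g := by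
      intro g
      rw [hFL, mem_filter]
      simp only [mem_univ, true_and]
    have mFU : ∀ g, g ∈ FU' ↔ lev g + 1 = i ∧ ¬ FU e g ∧ ¬ GD e g := by
      intro g
      rw [hFU, mem_filter]
      simp only [mem_univ, true_and]
    have hcL : ∀ g ∈ FL, (uc g).card ≤ 1 := by
      intro g hg
      obtain ⟨h1, h2, h3⟩ := (mFL g).1 hg
      have hgW : g ∉ WT (z, z') := by
        intro h
        have h4 := (X.levW H h).2.2.2 h1
        apply h2
        have h5 : g ∈ uc z := h4.1
        exact ⟨z, mem_uc.1 h5, by omega⟩
      obtain ⟨s, hs⟩ := uc_nonempty H (x := g) (by omega)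
      have eg : 1 ≤ e g := by
        by_contra h4
        exact h3 ⟨s, mem_uc.1 hs, by omega⟩
      have h5 := (hB g hgW eg).1 h1
      have := uc_card_le H g
      omega
    have hcU : ∀ g ∈ FU', (dc g).card ≤ 1 := by
      intro g hg
      obtain ⟨h1, h2, h3⟩ := (mFU g).1 hg
      have hgW : g ∉ WT (z, z') := nW g (by omega) (by omega)
      obtain ⟨s, hs⟩ := dc_nonempty H (x := g) (by omega)
      have eg : 1 ≤ e g := by
        by_contra h4
        exact h3 ⟨s, mem_dc.1 hs, by omega⟩
      have h5 := (hB g hgW eg).2 h1
      have := dc_card_le H g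
      omega
    have hsub : (AL i e ∪ AU i e) ⊆ XT (z, z') ∪ (FL.biUnion uc ∪ FU'.biUnion dc) := by
      intro s hs
      by_cases hsX : s ∈ XT (z, z')
      · exact mem_union_left _ hsX
      refine mem_union_right _ ?_
      rcases mem_union.1 hs with h | h
      · refine mem_union_left _ (mem_biUnion.2 ?_)
        rw [NormD_mem_AL] at h
        obtain ⟨ls, g, hg, hlt⟩ := h
        have lg := lev_dc H (mem_dc.2 hg)
        have hgW : g ∉ WT (z, z') := by
          intro h1
          rcases X.ucW H h1 (mem_uc.2 hg) with h2 | ⟨-, h2⟩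
          · have := (X.levW H h2).1
            omega
          · exact hsX h2
        have h5 := (hB g hgW (by omega)).1 (by omega)
        have h6 := uc_card_le H g
        have h7 : s ∈ uc g := mem_uc.2 hg
        have h8 : uc g = {s} := by
          have : (uc g).card = 1 := by
            have : 0 < (uc g).card := card_pos.2 ⟨s, h7⟩
            omega
          obtain ⟨s', hs'⟩ := card_eq_one.1 this
          rw [hs', mem_singleton] at h7
          rw [hs', h7]
        refine ⟨g, (mFL g).2 ⟨by omega, ?_, ?_⟩, h7⟩
        · rintro ⟨h9, hh, hlt2⟩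
          have lh := lev_dc H (mem_dc.2 hh)
          have hhW : h9 ∉ WT (z, z') := by
            intro h1
            rcases X.ucW H h1 (mem_uc.2 hh) with h2 | ⟨h2, -⟩
            · exact hgW h2
            · omega
          have := hS {g, h9, a} (by
            intro v hv
            rw [mem_insert, mem_insert, mem_singleton] at hv
            rcases hv with rfl | rfl | rfl <;> assumption)
          rw [sum_insert, Finset.sum_pair (hl _ _ (by omega))] at this
          · omega
          · simp only [mem_insert, mem_singleton, not_or]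
            exact ⟨hl _ _ (by omega), hl _ _ (by omega)⟩
        · rintro ⟨y', hy', hle⟩
          have : y' ∈ uc g := mem_uc.2 hy'
          rw [h8, mem_singleton] at this
          subst this
          omega
      · refine mem_union_right _ (mem_biUnion.2 ?_)
        rw [NormD_mem_AU] at h
        obtain ⟨ls, g, hg, hlt⟩ := h
        have lg := lev_uc H (mem_uc.2 hg)
        have hgW : g ∉ WT (z, z') := nW g (by omega) (by omega)
        have h5 := (hB g hgW (by omega)).2 (by omega)
        have h6 := dc_card_le H g
        have h7 : s ∈ dc g := mem_dc.2 hg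
        have h8 : dc g = {s} := by
          have : (dc g).card = 1 := by
            have : 0 < (dc g).card := card_pos.2 ⟨s, h7⟩
            omega
          obtain ⟨s', hs'⟩ := card_eq_one.1 this
          rw [hs', mem_singleton] at h7
          rw [hs', h7]
        refine ⟨g, (mFU g).2 ⟨by omega, ?_, ?_⟩, h7⟩
        · rintro ⟨h9, hh, hlt2⟩
          have lh := lev_uc H (mem_uc.2 hh)
          have hhW : h9 ∉ WT (z, z') := nW h9 (by omega) (by omega)
          have := hS {g, h9, a} (by
            intro v hv
            rw [mem_insert, mem_insert, mem_singleton] at hv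
            rcases hv with rfl | rfl | rfl <;> assumption)
          rw [sum_insert, Finset.sum_pair (hl _ _ (by omega))] at this
          · omega
          · simp only [mem_insert, mem_singleton, not_or]
            exact ⟨hl _ _ (by omega), hl _ _ (by omega)⟩
        · rintro ⟨y', hy', hle⟩
          have : y' ∈ dc g := mem_dc.2 hy'
          rw [h8, mem_singleton] at this
          subst this
          omega
    have c1 : (AL i e ∪ AU i e).card ≤ 3 + (FL.card + FU'.card) := by
      have h1 := card_le_card hsub
      have h2 := card_union_le (XT (z, z')) (FL.biUnion uc ∪ FU'.biUnion dc)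
      have h3 := card_union_le (FL.biUnion uc) (FU'.biUnion dc)
      have h4 : (FL.biUnion uc).card ≤ FL.card := by
        have := card_biUnion_le_card_mul FL uc 1 hcL
        omega
      have h5 : (FU'.biUnion dc).card ≤ FU'.card := by
        have := card_biUnion_le_card_mul FU' dc 1 hcU
        omega
      have h6 := (T'.nums H).2.2
      omega
    rw [card_union_of_disjoint O.adm.d] at c1
    have c2 : FL.card + 1 ≤ pL i e := by
      have h1 : b ∉ FL := by
        intro h
        have := ((mFL b).1 h).1
        omega
      rw [← card_insert_of_notMem h1]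
      unfold Win.pL
      apply card_le_card
      intro g hg
      rw [mem_filter]
      rcases mem_insert.1 hg with rfl | hg
      · exact ⟨mem_univ _, by omega, hb2, hb3⟩
      · obtain ⟨h2, h3, h4⟩ := (mFL g).1 hg
        exact ⟨mem_univ _, by omega, h3, h4⟩
    have c3 : FU'.card ≤ pU i e := by
      unfold Win.pU
      apply card_le_card
      intro g hg
      rw [mem_filter]
      obtain ⟨h2, h3, h4⟩ := (mFU g).1 hg
      exact ⟨mem_univ _, by omega, h3, h4⟩
    omega
  -- case B: at most five forced sites, two free elements
  obtain ⟨g, hgW, eg, hg⟩ := hB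
  obtain ⟨b0, hb1, hb2, hb3⟩ := hfree
  have hXc := (T'.nums H).2.2
  rcases hg with ⟨lg, cg⟩ | ⟨lg, cg⟩
  · -- lower
    obtain ⟨s1, s2, hs12, hcg⟩ := card_eq_two.1 cg
    have l1 := lev_uc H (show s1 ∈ uc g by rw [hcg]; simp)
    have l2 := lev_uc H (show s2 ∈ uc g by rw [hcg]; simp)
    have hgB : g ∉ BGL i psi e := by
      intro h
      have h1 := bgL E.G E.hM O.adm.d h
      have h2 := (mem_BGL.1 h).2.2
      obtain ⟨p1, p2, p3⟩ := psiL E.hM lg cg
      have e1 := h1 s1 (by rw [hcg]; simp)
      have e2 := h1 s2 (by rw [hcg]; simp)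
      have := hS {g, psi g, s1, s2} (by
        intro v hv
        rw [mem_insert, mem_insert, mem_insert, mem_singleton] at hv
        rcases hv with rfl | rfl | rfl | rfl
        · exact hgW
        · exact nW _ (by omega) (by omega)
        · exact nW _ (by omega) (by omega)
        · exact nW _ (by omega) (by omega))
      rw [sum_insert, sum_insert, Finset.sum_pair hs12] at this
      · omega
      · simp only [mem_insert, mem_singleton, not_or]
        exact ⟨hl _ _ (by omega), hl _ _ (by omega)⟩
      · simp only [mem_insert, mem_singleton, not_or]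
        exact ⟨hl _ _ (by omega), hl _ _ (by omega), hl _ _ (by omega)⟩
    obtain ⟨b, hb, eb⟩ := touchL E.hM O.adm.u O.core lg cg hgB eg
    have lb := lev_dc H hb
    have hbW : b ∉ WT (z, z') := by
      intro h
      rcases X.ucW H h (mem_uc.2 (mem_dc.1 hb)) with h1 | ⟨h1, -⟩
      · exact hgW h1
      · omega
    have ngb : g ≠ b := hl _ _ (by omega)
    have nga : g ≠ a := hl _ _ (by omega)
    have nba : b ≠ a := hl _ _ (by omega)
    have hfour : ∀ v, v ∉ WT (z, z') → v ≠ g → v ≠ b → v ≠ a → e v = 0 := by
      intro v hv h1 h2 h3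
      have := hS {v, g, b, a} (by
        intro v' hv'
        rw [mem_insert, mem_insert, mem_insert, mem_singleton] at hv'
        rcases hv' with rfl | rfl | rfl | rfl <;> assumption)
      rw [sum_insert, sum_insert, Finset.sum_pair nba] at this
      · omega
      · simp only [mem_insert, mem_singleton, not_or]
        exact ⟨ngb, nga⟩
      · simp only [mem_insert, mem_singleton, not_or]
        exact ⟨h1, h2, h3⟩
    have hthree := hS {g, b, a} (by
      intro v' hv'
      rw [mem_insert, mem_insert, mem_singleton] at hv'
      rcases hv' with rfl | rfl | rfl <;> assumption)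
    rw [sum_insert (by simp only [mem_insert, mem_singleton, not_or]; exact ⟨ngb, nga⟩),
      Finset.sum_pair nba] at hthree
    have eg1 : e g = 1 := by omega
    have eb1 : e b = 1 := by omega
    have ea2 : e a = 1 := by omega
    have hup : ∀ v, lev v < i → e v = 0 := by
      intro v hv
      exact hfour v (nW v (by omega) (by omega)) (hl _ _ (by omega)) (hl _ _ (by omega))
        (hl _ _ (by omega))
    have hst : ∀ s ∈ uc g, e s = 0 := by
      intro s hs
      have ls := lev_uc H hs
      exact hfour s (nW s (by omega) (by omega)) (hl _ _ (by omega)) (hl _ _ (by omega))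
        (hl _ _ (by omega))
    have hsub : (AL i e ∪ AU i e) ⊆ XT (z, z') ∪ uc g := by
      intro s hs
      by_contra hno
      rw [mem_union, not_or] at hno
      rcases mem_union.1 hs with h | h
      · rw [NormD_mem_AL] at h
        obtain ⟨ls, g', hg', hlt⟩ := h
        have lg' := lev_dc H (mem_dc.2 hg')
        have hgW' : g' ∉ WT (z, z') := by
          intro h1
          rcases X.ucW H h1 (mem_uc.2 hg') with h2 | ⟨-, h2⟩
          · exact nW s (by omega) (by omega) h2
          · exact hno.1 h2
        have hne : g' ≠ g := by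
          rintro rfl
          exact hno.2 (mem_uc.2 hg')
        have := hfour g' hgW' hne (hl _ _ (by omega)) (hl _ _ (by omega))
        omega
      · rw [NormD_mem_AU] at h
        obtain ⟨ls, g', hg', hlt⟩ := h
        have lg' := lev_uc H (mem_uc.2 hg')
        have := hup g' (by omega)
        omega
    have c1 : (AL i e ∪ AU i e).card ≤ 5 := by
      have h1 := card_le_card hsub
      have h2 := card_union_le (XT (z, z')) (uc g)
      omega
    rw [card_union_of_disjoint O.adm.d] at c1
    have c2 : 2 ≤ pL i e := by
      have h1 : b0 ≠ g := hl _ _ (by omega)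
      have h2 : ({b0, g} : Finset P).card = 2 := card_pair h1
      rw [← h2]
      unfold Win.pL
      apply card_le_card
      intro v hv
      rw [mem_filter]
      rw [mem_insert, mem_singleton] at hv
      rcases hv with rfl | rfl
      · exact ⟨mem_univ _, by omega, hb2, hb3⟩
      · refine ⟨mem_univ _, by omega, ?_, ?_⟩
        · rintro ⟨h3, h4, h5⟩
          have l3 := lev_dc H (mem_dc.2 h4)
          by_cases h6 : h3 = b
          · rw [h6] at h5
            omega
          · have h3W : h3 ∉ WT (z, z') := by
              intro h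
              rcases X.ucW H h (mem_uc.2 h4) with h7 | ⟨h7, -⟩
              · exact hgW h7
              · omega
            have := hfour h3 h3W (hl _ _ (by omega)) h6 (hl _ _ (by omega))
            omega
        · rintro ⟨y', hy', hle⟩
          have := hst y' (mem_uc.2 hy')
          omega
    omega
  · -- upper
    obtain ⟨s1, s2, hs12, hcg⟩ := card_eq_two.1 cg
    have l1 := lev_dc H (show s1 ∈ dc g by rw [hcg]; simp)
    have l2 := lev_dc H (show s2 ∈ dc g by rw [hcg]; simp)
    have hgB : g ∉ BGU i psi e := by
      intro h
      have h1 := bgU E.G E.hM O.adm.d h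
      have h2 := (mem_BGU.1 h).2.2
      obtain ⟨p1, p2, p3⟩ := psiU E.hM lg cg
      have e1 := h1 s1 (by rw [hcg]; simp)
      have e2 := h1 s2 (by rw [hcg]; simp)
      have := hS {a, g, s1, s2} (by
        intro v hv
        rw [mem_insert, mem_insert, mem_insert, mem_singleton] at hv
        rcases hv with rfl | rfl | rfl | rfl
        · exact haW
        · exact nW _ (by omega) (by omega)
        · exact nW _ (by omega) (by omega)
        · exact nW _ (by omega) (by omega))
      rw [sum_insert, sum_insert, Finset.sum_pair hs12] at this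
      · omega
      · simp only [mem_insert, mem_singleton, not_or]
        exact ⟨hl _ _ (by omega), hl _ _ (by omega)⟩
      · simp only [mem_insert, mem_singleton, not_or]
        exact ⟨hl _ _ (by omega), hl _ _ (by omega), hl _ _ (by omega)⟩
    obtain ⟨b, hb, eb⟩ := touchU E.hM O.adm.l O.core lg cg hgB eg
    have lb := lev_uc H hb
    have hbW : b ∉ WT (z, z') := nW b (by omega) (by omega)
    have ngb : g ≠ b := hl _ _ (by omega)
    have nga : g ≠ a := hl _ _ (by omega)
    have nba : b ≠ a := hl _ _ (by omega)
    have hfour : ∀ v, v ∉ WT (z, z') → v ≠ g → v ≠ b → v ≠ a → e v = 0 := by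
      intro v hv h1 h2 h3
      have := hS {v, g, b, a} (by
        intro v' hv'
        rw [mem_insert, mem_insert, mem_insert, mem_singleton] at hv'
        rcases hv' with rfl | rfl | rfl | rfl <;> assumption)
      rw [sum_insert, sum_insert, Finset.sum_pair nba] at this
      · omega
      · simp only [mem_insert, mem_singleton, not_or]
        exact ⟨ngb, nga⟩
      · simp only [mem_insert, mem_singleton, not_or]
        exact ⟨h1, h2, h3⟩
    have hthree := hS {g, b, a} (by
      intro v' hv'
      rw [mem_insert, mem_insert, mem_singleton] at hv'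
      rcases hv' with rfl | rfl | rfl <;> assumption)
    rw [sum_insert (by simp only [mem_insert, mem_singleton, not_or]; exact ⟨ngb, nga⟩),
      Finset.sum_pair nba] at hthree
    have eg1 : e g = 1 := by omega
    have eb1 : e b = 1 := by omega
    have hst : ∀ s ∈ dc g, e s = 0 := by
      intro s hs
      have ls := lev_dc H hs
      exact hfour s (nW s (by omega) (by omega)) (hl _ _ (by omega)) (hl _ _ (by omega))
        (hl _ _ (by omega))
    have hsub : (AL i e ∪ AU i e) ⊆ XT (z, z') ∪ dc g := by
      intro s hs
      by_contra hno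
      rw [mem_union, not_or] at hno
      rcases mem_union.1 hs with h | h
      · rw [NormD_mem_AL] at h
        obtain ⟨ls, g', hg', hlt⟩ := h
        have lg' := lev_dc H (mem_dc.2 hg')
        have hgW' : g' ∉ WT (z, z') := by
          intro h1
          rcases X.ucW H h1 (mem_uc.2 hg') with h2 | ⟨-, h2⟩
          · exact nW s (by omega) (by omega) h2
          · exact hno.1 h2
        have := hfour g' hgW' (hl _ _ (by omega)) (hl _ _ (by omega)) (hl _ _ (by omega))
        omega
      · rw [NormD_mem_AU] at h
        obtain ⟨ls, g', hg', hlt⟩ := h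
        have lg' := lev_uc H (mem_uc.2 hg')
        have hne : g' ≠ g := by
          rintro rfl
          exact hno.2 (mem_dc.2 hg')
        have := hfour g' (nW g' (by omega) (by omega)) hne (hl _ _ (by omega))
          (hl _ _ (by omega))
        omega
    have c1 : (AL i e ∪ AU i e).card ≤ 5 := by
      have h1 := card_le_card hsub
      have h2 := card_union_le (XT (z, z')) (dc g)
      omega
    rw [card_union_of_disjoint O.adm.d] at c1
    have c2 : 1 ≤ pL i e := by
      unfold Win.pL
      exact card_pos.2 ⟨b0, mem_filter.2 ⟨mem_univ _, by omega, hb2, hb3⟩⟩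
    have c3 : 1 ≤ pU i e := by
      unfold Win.pU
      refine card_pos.2 ⟨g, mem_filter.2 ⟨mem_univ _, by omega, ?_, ?_⟩⟩
      · rintro ⟨h3, h4, h5⟩
        have l3 := lev_uc H (mem_uc.2 h4)
        by_cases h6 : h3 = b
        · rw [h6] at h5
          omega
        · have := hfour h3 (nW h3 (by omega) (by omega)) (hl _ _ (by omega)) h6
            (hl _ _ (by omega))
          omega
      · rintro ⟨y', hy', hle⟩
        have := hst y' (mem_dc.2 hy')
        omega
    omega

end Pool.Agent.GaussPoset.Win.Rd
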