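import Pool.Agent.W_448rd_h10.RdQ

/-!
MP_448cb3_co, G2, window `j - 1`: the leftover sum (5,1); a twin block plus a compatible core.
helper10.
-/

namespace Pool.Agent.GaussPoset.Win.Rd

set_option linter.unusedSectionVars false

open Finset I2 K2
open Pool.Agent.GaussPoset.Win.H2 (SdT NoT low_T up_T sum_all)
open Pool.Agent.GaussPoset.Win.Xg (FlS Zr LoP UpP FP rm rm_le rm_of rm_y rm_p Okc kp Lft mem_Lft
  CanD Can Tee Exo SdO Act laL laU)

universe u

variable {P : Type u} [Fintype P] [PartialOrder P] [DecidableEq P] {r i : ℕ} {e B : P → ℕ}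
variable {psi : P → P} {C : Finset P} {Q : (P → ℕ) → Prop} {t : P × P}

/-- the zero labelling -/
def Z0 : P → ℕ := fun _ => 0

lemma z0_FD {v : P} : ¬ FD (Z0 : P → ℕ) v := by
  rintro ⟨z, hz, h⟩
  exact absurd h (Nat.lt_irrefl 0)

lemma z0_FU {v : P} : ¬ FU (Z0 : P → ℕ) v := by
  rintro ⟨z, hz, h⟩
  exact absurd h (Nat.lt_irrefl 0)

lemma z0_AL : AL i (Z0 : P → ℕ) = ∅ := by
  ext v
  rw [NormD_mem_AL]
  exact ⟨fun h => absurd h.2 z0_FD, fun h => absurd h (notMem_empty _)⟩

lemma z0_AU : AU i (Z0 : P → ℕ) = ∅ := by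
  ext v
  rw [NormD_mem_AU]
  exact ⟨fun h => absurd h.2 z0_FU, fun h => absurd h (notMem_empty _)⟩

lemma z0_okc : Okc i psi C (Z0 : P → ℕ) where
  spt := fun _ _ => rfl
  core := fun _ _ => rfl
  adm := ⟨fun _ _ h => z0_FD h.1, fun _ _ h => z0_FU h.1, by
    rw [z0_AL]
    exact disjoint_empty_left _⟩

lemma z0_nums (H : Gr P r) (hr : i + 1 ≤ r) : aL i (Z0 : P → ℕ) = 0 ∧ pL i (Z0 : P → ℕ) = 0 ∧
    aU i (Z0 : P → ℕ) = 0 ∧ pU i (Z0 : P → ℕ) = 0 := by
  classical
  refine ⟨?_, ?_, ?_, ?_⟩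
  · unfold aL
    rw [card_eq_zero, filter_eq_empty_iff]
    rintro v - ⟨-, h⟩
    exact z0_FD h
  · unfold pL
    rw [card_eq_zero, filter_eq_empty_iff]
    rintro v - ⟨h1, -, h⟩
    obtain ⟨y, hy⟩ := uc_nonempty H (x := v) (by omega)
    exact h ⟨y, mem_uc.1 hy, le_refl _⟩
  · unfold aU
    rw [card_eq_zero, filter_eq_empty_iff]
    rintro v - ⟨-, h⟩
    exact z0_FU h
  · unfold pU
    rw [card_eq_zero, filter_eq_empty_iff]
    rintro v - ⟨h1, -, h⟩
    obtain ⟨y, hy⟩ := dc_nonempty H (x := v) (by omega)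
    exact h ⟨y, mem_dc.1 hy, le_refl _⟩

lemma z0_kp (H : Gr P r) (hr : i + 1 ≤ r) : kp i (Z0 : P → ℕ) = 0 := by
  obtain ⟨h1, h2, h3, h4⟩ := z0_nums (P := P) (i := i) H hr
  unfold Xg.kp
  rw [z0_AL, z0_AU, h2, h4, card_empty]
  simp

lemma z0_sg (H : Gr P r) (hr : i + 1 ≤ r) : sg i (Z0 : P → ℕ) = 1 := by
  obtain ⟨h1, h2, h3, h4⟩ := z0_nums (P := P) (i := i) H hr
  unfold Rd.sg
  rw [z0_AL, h1, h3, h4, card_empty]
  simp

lemma z0_CC (H : Gr P r) : Xg.CC i (Z0 : P → ℕ) = ∅ := by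
  rw [eq_empty_iff_forall_notMem]
  intro s hs
  rw [Xg.mem_CC H] at hs
  rcases hs with ⟨w, w2, p, q, T, E, h⟩ | ⟨w, w2, p, q, T, E, h⟩
  · exact absurd E.pos (by unfold Z0; omega)
  · exact absurd E.pos (by unfold Z0; omega)

/-- compatible with a twin block -/
structure Cpt (t : P × P) (B : P → ℕ) : Prop where
  W : ∀ v ∈ WT t, B v = 0 ∧ ∀ z ∈ dc v, B z = 0
  X : ∀ x ∈ XT t, B x = 0 ∧ (∀ v ∈ dc x, B v = 0) ∧ ∀ u ∈ uc x, B u = 0

/-- add a twin block -/
noncomputable def addT (t : P × P) (B : P → ℕ) : P → ℕ := fun v => B v + bT t v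

lemma cpt_zero : Cpt t (Z0 : P → ℕ) :=
  ⟨fun _ _ => ⟨rfl, fun _ _ => rfl⟩, fun _ _ => ⟨rfl, fun _ _ => rfl, fun _ _ => rfl⟩⟩

section add

variable (H : Gr P r) (T : IsTw i C t)
include H T

lemma IsTw.bo {v : P} (hv : v ∉ WT t) : bT t v = 0 := by
  obtain ⟨w, w2, p, x, q, T'⟩ := T.tw
  exact (Tw.b H T').2.2.2.2 v hv

lemma IsTw.Xo {x : P} (hx : x ∈ XT t) : x ∉ WT t ∧ lev x = i := by
  obtain ⟨w, w2, p, x', q, T'⟩ := T.tw
  obtain ⟨l1, l2, l3, l4, l5, l6⟩ := Tw.lv H T'
  have lz := T'.lz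
  have hX : lev x = i := by
    rw [show XT t = XT (t.1, t.2) from rfl, T'.X, mem_insert, mem_insert, mem_singleton] at hx
    rcases hx with rfl | rfl | rfl <;> assumption
  refine ⟨fun h => ?_, hX⟩
  rw [show WT t = WT (t.1, t.2) from rfl, T'.W, mem_insert, mem_insert, mem_insert,
    mem_singleton] at h
  rcases h with rfl | rfl | rfl | rfl <;> omega

lemma IsTw.sub (hC : Part (i + 1) C) : WT t ⊆ C := by
  obtain ⟨w, w2, p, x, q, T'⟩ := T.tw
  intro v hv
  unfold WT at hv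
  rw [mem_insert, mem_insert] at hv
  rcases hv with rfl | rfl | hv
  · exact T.m1
  · exact T.m2
  · exact hC.up T.m1 (mem_uc.1 hv)

lemma add_in (h : Cpt t B) {v : P} (hv : v ∈ WT t) : addT t B v = bT t v := by
  unfold addT
  rw [(h.W v hv).1, zero_add]

lemma add_out {v : P} (hv : v ∉ WT t) : addT t B v = B v := by
  unfold addT
  rw [T.bo H hv, add_zero]

lemma add_ex (h : Cpt t B) : Ex i (addT t B) t := by
  refine ⟨T.tw, fun v hv => add_in H T h hv, ?_, ?_, ?_⟩
  · intro x hx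
    rw [add_out H T (T.Xo H hx).1]
    exact (h.X x hx).1
  · intro x hx v hv hvW
    rw [add_out H T hvW]
    exact (h.X x hx).2.1 v hv
  · intro x hx u hu
    have l1 := lev_uc H hu
    have l2 := (T.Xo H hx).2
    have huW : u ∉ WT t := by
      intro h1
      obtain ⟨w, w2, p, x', q, T'⟩ := T.tw
      obtain ⟨m1, m2, m3, m4, m5, m6⟩ := Tw.lv H T'
      have lz := T'.lz
      rw [show WT t = WT (t.1, t.2) from rfl, T'.W, mem_insert, mem_insert, mem_insert,
        mem_singleton] at h1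
      rcases h1 with rfl | rfl | rfl | rfl <;> omega
    rw [add_out H T huW]
    exact (h.X x hx).2.2 u hu

lemma add_rem (h : Cpt t B) : Rem (WT t) (XT t) (bT t) (addT t B) B where
  eW := fun v hv => add_in H T h hv
  BW := fun v hv => (h.W v hv).1
  eq := fun v hv => add_out H T hv
  BX := fun x hx => (h.X x hx).1
  dX := fun x hx v hv _ => (h.X x hx).2.1 v hv
  uX := fun x hx u hu => (h.X x hx).2.2 u hu
  ch := fun w hw z hz _ => (h.W w hw).2 z hz

lemma add_CC (h : Cpt t B) (hB : Xg.CC i B = ∅) : Xg.CC i (addT t B) = ∅ := by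
  obtain ⟨w, w2, p, x, q, T'⟩ := T.tw
  rw [eq_empty_iff_forall_notMem]
  intro s hs
  have h1 := (add_ex H T h).cc H T.rk hs
  have h2 := ((add_rem H T h).CC H (Tw.blk H T')).2 ⟨hs, h1⟩
  rw [hB] at h2
  exact notMem_empty _ h2

lemma add_okc (hM : Mat P i ∅ psi) (hC : Part (i + 1) C) (h : Cpt t B) :
    Okc i psi C (addT t B) ↔ Okc i psi C B := by
  obtain ⟨w, w2, p, x, q, T'⟩ := T.tw
  exact (add_rem H T h).okc H (Tw.blk H T') hM (T.sub H hC)

lemma add_kp (h : Cpt t B) : kp i (addT t B) = kp i B + 2 := by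
  obtain ⟨w, w2, p, x, q, T'⟩ := T.tw
  have h1 := (add_rem H T h).kp H (Tw.blk H T')
  obtain ⟨n1, n2, n3⟩ := Tw.nums H T'
  rw [show XT (t.1, t.2) = XT t from rfl] at n3
  rw [show WT (t.1, t.2) = WT t from rfl, show bT (t.1, t.2) = bT t from rfl] at n2
  rw [n2, n3] at h1
  rw [h1]
  push_cast
  ring

lemma add_sg (h : Cpt t B) : sg i (addT t B) = - sg i B := by
  obtain ⟨w, w2, p, x, q, T'⟩ := T.tw
  have h1 := (add_rem H T h).sg H (Tw.blk H T')
  obtain ⟨n1, n2, n3⟩ := Tw.nums H T'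
  rw [show XT (t.1, t.2) = XT t from rfl] at n3
  rw [show WT (t.1, t.2) = WT t from rfl, show bT (t.1, t.2) = bT t from rfl] at n1
  rw [n1, n3] at h1
  rw [h1]
  ring

lemma add_sum (h : Cpt t B) : ∑ v, addT t B v = ∑ v, B v + 5 := by
  have h1 := (add_ex H T h).sumW H
  unfold addT
  rw [sum_add_distrib]
  congr 1
  rw [← h1]
  have h2 : ∑ v, bT t v = ∑ v ∈ WT t, bT t v := by
    refine (sum_subset (subset_univ _) ?_).symm
    intro v _ hv
    exact T.bo H hv
  rw [h2]
  exact sum_congr rfl (fun v hv => (add_in H T h hv).symm)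

end add

section off

variable (H : Gr P r) (X : Ex i e t)
include H X

lemma off_add : addT t (offB t e) = e := by
  obtain ⟨w, w2, p, x, q, T'⟩ := X.tw
  funext v
  unfold addT offB
  by_cases hv : v ∈ WT t
  · rw [if_pos hv, zero_add]
    exact (X.lab v hv).symm
  · rw [if_neg hv]
    have h1 : bT t v = 0 := (Tw.b H T').2.2.2.2 v hv
    omega

lemma off_cpt (hch : ∀ w ∈ WT t, ∀ a ∈ dc w, a ∉ WT t → e a = 0) : Cpt t (offB t e) := by
  have h0 : ∀ v, (v ∉ WT t → e v = 0) → offB t e v = 0 := by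
    intro v hv
    unfold offB
    split_ifs with h
    · rfl
    · exact hv h
  refine ⟨fun v hv => ⟨h0 v (fun h => absurd hv h), fun z hz => h0 z (hch v hv z hz)⟩,
    fun x hx => ⟨h0 x (fun _ => X.X0 x hx), fun v hv => h0 v (X.dX x hx v hv),
      fun u hu => h0 u (fun _ => X.uX x hx u hu)⟩⟩

/-- a twin block of a core -/
lemma Ex.isTw (hC : Spt C e) (hrk : Xg.rk t.2 < Xg.rk t.1) : IsTw i C t where
  tw := X.tw
  m1 := X.sptW H hC (by unfold WT; simp)
  m2 := X.sptW H hC (by unfold WT; simp)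
  rk := hrk

/-- the block is found by `TWL` -/
lemma Ex.twl : t.1 ∈ TWL i e := by
  obtain ⟨w, w2, p, x, q, T', mW, mX⟩ := X.mW
  obtain ⟨l1, l2, l3, l4, l5, l6⟩ := Tw.lv H T'
  obtain ⟨b1, b2, b3, b4, b5⟩ := Tw.b H T'
  have lz := T'.lz
  have hb : bT (t.1, t.2) = bT t := rfl
  rw [hb] at b1 b2 b3 b4
  have e1 : e t.1 = 2 := by rw [X.lab _ ((mW _).2 (by simp))]; exact b1
  have e2 : e t.2 = 1 := by rw [X.lab _ ((mW _).2 (by simp))]; exact b2
  have e3 : e w = 1 := by rw [X.lab _ ((mW _).2 (by simp))]; exact b3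
  have e4 : e w2 = 1 := by rw [X.lab _ ((mW _).2 (by simp))]; exact b4
  refine mem_TW.2 ⟨mem_lS.2 (by omega), ⟨mem_lS.2 (by omega), ?_, ?_, ?_⟩, ?_, t.2, ?_,
    T'.zz.symm, by omega, ?_⟩
  · show lev t.1 - i = 2
    omega
  · rw [T'.uz, card_pair T'.ww]
  · intro a ha
    rw [T'.uz, mem_insert, mem_singleton] at ha
    rcases ha with rfl | rfl
    · rw [T'.uw, card_pair T'.px]
    · rw [T'.uw2, card_pair T'.xq]
  · exact ⟨w, by rw [T'.uz]; simp, by omega⟩
  · rw [T'.uz, T'.uz']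
  · rintro ⟨a, ha, hlt⟩
    rw [T'.uz', mem_insert, mem_singleton] at ha
    rcases ha with rfl | rfl <;> omega

end off

/-- two blocks with the same first element -/
lemma Ex.same {t' : P × P} {f : P → ℕ} (X : Ex i e t) (X' : Ex i f t') (h : t.1 = t'.1) :
    t = t' := by
  obtain ⟨w, w2, p, x, q, T, mW, mX⟩ := X.mW
  obtain ⟨w', w2', p', x', q', T', mW', mX'⟩ := X'.mW
  have h1 : w ∈ uc t'.1 := by rw [← h, T.uz]; simp
  have h2 : t.2 ∈ dc w := by rw [T.dw]; simp
  have h3 : t.2 = t'.1 ∨ t.2 = t'.2 := by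
    rw [T'.uz, mem_insert, mem_singleton] at h1
    rcases h1 with h1 | h1
    · rw [h1, T'.dw, mem_insert, mem_singleton] at h2
      exact h2
    · rw [h1, T'.dw2, mem_insert, mem_singleton] at h2
      exact h2
  have h4 : t.2 = t'.2 := by
    rcases h3 with h3 | h3
    · exact absurd (h3.trans h.symm).symm T.zz
    · exact h3
  exact Prod.ext h h4

section main

variable (E : Ev r i psi C) (K : Kls i psi C Q)
include E K

/-- the exact flip class does not see compatible twin blocks -/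
lemma Kls.Q_add (T : IsTw i C t) (h : Cpt t B) : Q (addT t B) ↔ Q B := by
  have H := E.H
  rcases K with ⟨-, rfl⟩ | ⟨y, p, w, u, v, v', F, h5, h6, h7, h8, rfl⟩
  · exact Iff.rfl
  obtain ⟨k1, k2, k3, k4⟩ := F.lv H
  have lw := F.lw
  have ly := F.ly
  have X := add_ex H T h
  have hpW : p ∉ WT t := by
    intro hp
    obtain ⟨w', w2', p', x', q', T', mW, -⟩ := X.mW
    obtain ⟨m1, m2, m3, m4, m5, m6⟩ := Tw.lv H T'
    rcases (mW p).1 hp with h1 | h1 | h1 | h1
    · have h2 := F.up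
      rw [h1, T'.uz] at h2
      have : ({w', w2'} : Finset P).card = 1 := by rw [h2, card_singleton]
      rw [card_pair T'.ww] at this
      omega
    · have h2 := F.up
      rw [h1, T'.uz'] at h2
      have : ({w', w2'} : Finset P).card = 1 := by rw [h2, card_singleton]
      rw [card_pair T'.ww] at this
      omega
    · rw [h1] at k3; omega
    · rw [h1] at k3; omega
  have nW : ∀ a, lev a ≤ i → a ∉ WT t := by
    intro a ha h1
    rcases (X.levW H h1).1 with h | h <;> omega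
  have hyX : y ∈ WT t → v ∈ XT t ∧ v' ∈ XT t := by
    intro hy
    have h1 := ((X.levW H hy).2.2.2 ly).1
    unfold XT
    exact ⟨mem_biUnion.2 ⟨y, h1, by rw [F.uy]; simp⟩, mem_biUnion.2 ⟨y, h1, by rw [F.uy]; simp⟩⟩
  have hle : ∀ a, B a ≤ addT t B a := fun a => by unfold addT; omega
  have rle : ∀ a b z, rm a b B z ≤ rm a b (addT t B) z := by
    intro a b z
    unfold Xg.rm
    split_ifs
    · omega
    · exact hle z
  have down : ∀ a b, Zr y p w u v v' (rm a b (addT t B)) → Zr y p w u v v' (rm a b B) := by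
    intro a b Z
    have z0 : ∀ z, rm a b (addT t B) z = 0 → rm a b B z = 0 := by
      intro z hz
      have := rle a b z
      omega
    exact ⟨z0 _ Z.v0, z0 _ Z.v0', fun z hz => z0 z (Z.dv z hz), fun z hz => z0 z (Z.dv' z hz),
      fun z hz => z0 z (Z.uv z hz), fun z hz => z0 z (Z.uv' z hz), fun z hz => z0 z (Z.dy z hz),
      fun z hz => z0 z (Z.dp z hz), fun z hz => z0 z (Z.uw z hz), fun z hz => z0 z (Z.uu z hz)⟩
  have up : ∀ a b, v ∉ XT t → v' ∉ XT t → Zr y p w u v v' (rm a b B) →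
      Zr y p w u v v' (rm a b (addT t B)) := by
    intro a b hv hv' Z
    have z0 : ∀ z, z ∉ WT t → rm a b B z = 0 → rm a b (addT t B) z = 0 := by
      intro z hz h1
      unfold Xg.rm at h1 ⊢
      split_ifs with h2
      · rfl
      · rw [if_neg h2] at h1
        rw [add_out H T hz]
        exact h1
    have hyW : y ∉ WT t := fun h1 => hv (hyX h1).1
    have d1 : ∀ z x, x ∉ XT t → lev x = i → z ∈ dc x → z ∉ WT t := by
      intro z x hx lx hz hzW
      rcases X.ucW H hzW (mem_uc.2 (mem_dc.1 hz)) with h1 | ⟨-, h1⟩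
      · exact nW x (by omega) h1
      · exact hx h1
    have d2 : ∀ z x, x ∉ WT t → i < lev x → z ∈ dc x → z ∉ WT t := by
      intro z x hx lx hz hzW
      rcases X.ucW H hzW (mem_uc.2 (mem_dc.1 hz)) with h1 | ⟨h1, -⟩
      · exact hx h1
      · have := lev_dc H hz
        omega
    exact ⟨z0 _ (nW v (by omega)) Z.v0, z0 _ (nW v' (by omega)) Z.v0',
      fun z hz => z0 z (d1 z v hv k1 hz) (Z.dv z hz),
      fun z hz => z0 z (d1 z v' hv' k2 hz) (Z.dv' z hz),
      fun z hz => z0 z (nW z (by have := lev_uc H hz; omega)) (Z.uv z hz),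
      fun z hz => z0 z (nW z (by have := lev_uc H hz; omega)) (Z.uv' z hz),
      fun z hz => z0 z (d2 z y hyW (by omega) hz) (Z.dy z hz),
      fun z hz => z0 z (d2 z p hpW (by omega) hz) (Z.dp z hz),
      fun z hz => z0 z (nW z (by have := lev_uc H hz; omega)) (Z.uw z hz),
      fun z hz => z0 z (nW z (by have := lev_uc H hz; omega)) (Z.uu z hz)⟩
  obtain ⟨f1, f2, f3, f4⟩ := F.mems H
  have f3' : y ∈ dc v' := by rw [mem_dc, ← mem_uc, F.uy]; simp
  have f1' : w ∈ uc v' := by rw [mem_uc, ← mem_dc, F.dw]; simp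
  constructor
  · rintro (⟨g1, g2, g3⟩ | ⟨g1, g2, g3⟩)
    · left
      have hyW : y ∉ WT t := by
        intro hy
        apply hpW
        by_contra hp
        have := (X.dcW H hy f4 hp).2
        omega
      rw [add_out H T hyW] at g1
      rw [add_out H T hpW] at g2
      exact ⟨g1, g2, down _ _ g3⟩
    · right
      rw [add_out H T (nW w (by omega))] at g1
      rw [add_out H T (nW u (by omega))] at g2
      exact ⟨g1, g2, down _ _ g3⟩
  · rintro (⟨g1, g2, g3⟩ | ⟨g1, g2, g3⟩)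
    · left
      have hyW : y ∉ WT t := by
        intro hy
        have := (h.W y hy).1
        omega
      refine ⟨by rw [add_out H T hyW]; exact g1, by rw [add_out H T hpW]; exact g2,
        up _ _ ?_ ?_ g3⟩
      · intro hv
        have := (h.X v hv).2.1 y f3
        omega
      · intro hv
        have := (h.X v' hv).2.1 y f3'
        omega
    · right
      refine ⟨by rw [add_out H T (nW w (by omega))]; exact g1,
        by rw [add_out H T (nW u (by omega))]; exact g2, up _ _ ?_ ?_ g3⟩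
      · intro hv
        have := (h.X v hv).2.2 w f1
        omega
      · intro hv
        have := (h.X v' hv).2.2 w f1'
        omega

/-- adding a compatible block to a leftover core -/
lemma add_mem (T : IsTw i C t) (h : Cpt t B) {n k : ℕ} (hB : B ∈ Lft i psi C Q n k) :
    addT t B ∈ Lft i psi C Q (n + 5) (k + 2) := by
  obtain ⟨h1, h2, h3, h4, h5⟩ := mem_Lft.1 hB
  refine mem_Lft.2 ⟨?_, (add_okc E.H T E.hM E.hC h).2 h2, ?_, add_CC E.H T h h4, ?_⟩
  · rw [add_sum E.H T h, h1]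
  · rw [add_kp E.H T h, h3]
    push_cast
    ring
  · rw [K.Q_add E T h]
    exact h5

/-- removing a block from a leftover core -/
lemma off_mem (T : IsTw i C t) (X : Ex i e t)
    (hch : ∀ w ∈ WT t, ∀ a ∈ dc w, a ∉ WT t → e a = 0) {n k : ℕ}
    (he : e ∈ Lft i psi C Q (n + 5) (k + 2)) : offB t e ∈ Lft i psi C Q n k := by
  obtain ⟨h1, h2, h3, h4, h5⟩ := mem_Lft.1 he
  have hc := off_cpt E.H X hch
  have ha := off_add E.H X
  rw [← ha] at h1 h2 h3 h5
  rw [K.Q_add E T hc] at h5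
  rw [add_sum E.H T hc] at h1
  rw [add_kp E.H T hc] at h3
  refine mem_Lft.2 ⟨by omega, (add_okc E.H T E.hM E.hC hc).1 h2, by push_cast at h3; linarith,
    ?_, h5⟩
  rw [eq_empty_iff_forall_notMem]
  intro s hs
  obtain ⟨w, w2, p, x, q, T'⟩ := T.tw
  have h6 := ((X.rem hch).CC E.H (Tw.blk E.H T')).1 hs
  rw [h4] at h6
  exact notMem_empty _ h6.1

lemma Kls.Q_zero : ¬ Q (Z0 : P → ℕ) := by
  rcases K with ⟨-, rfl⟩ | ⟨y, p, w, u, v, v', F, h5, h6, h7, h8, rfl⟩
  · exact id
  · rintro (⟨h, -⟩ | ⟨h, -⟩)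
    · exact absurd h (by unfold Z0; omega)
    · exact absurd h (by unfold Z0; omega)

/-- THE LEFTOVER SUM (5,1) -/
theorem sum51 : ∑ e ∈ Lft i psi C Q 5 1, sg i e = - ((TWC i C).card : ℤ) := by
  classical
  have h1 : ∑ e ∈ Lft i psi C Q 5 1, sg i e = ∑ _t ∈ TWC i C, (-1 : ℤ) := by
    symm
    refine sum_bij (fun t _ => addT t Z0) ?_ ?_ ?_ ?_
    · intro t ht
      have T := mem_TWC.1 ht
      refine mem_Lft.2 ⟨?_, (add_okc E.H T E.hM E.hC cpt_zero).2 z0_okc, ?_,
        add_CC E.H T cpt_zero (z0_CC E.H), ?_⟩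
      · rw [add_sum E.H T cpt_zero]
        unfold Z0
        simp
      · rw [add_kp E.H T cpt_zero, z0_kp E.H E.hr]
        norm_num
      · rw [K.Q_add E T cpt_zero]
        exact K.Q_zero E
    · intro t ht t' ht' heq
      have T := mem_TWC.1 ht
      have T' := mem_TWC.1 ht'
      have X := add_ex E.H T (cpt_zero (t := t))
      have X' := add_ex E.H T' (cpt_zero (t := t'))
      apply X.same X'
      have h2 : addT t' (Z0 : P → ℕ) t.1 = 2 := by
        have heq' : addT t (Z0 : P → ℕ) = addT t' Z0 := heq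
        rw [← heq']
        unfold addT Z0 bT
        simp
      unfold addT Z0 bT at h2
      by_contra hne
      rw [if_neg hne, zero_add] at h2
      split_ifs at h2 <;> omega
    · intro e he
      obtain ⟨z, hz, hzx⟩ := lft_small E K he (by norm_num) (by norm_num)
      obtain ⟨hsum, O, hkp, hCC, hnQ⟩ := mem_Lft.1 he
      obtain ⟨z', X⟩ := twx_ex E O hzx
      have h5 := X.sumW E.H
      have hz0 : ∀ v, v ∉ WT (z, z') → e v = 0 := by
        intro v hv
        have h6 : ∑ a ∈ insert v (WT (z, z')), e a ≤ ∑ a, e a :=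
          sum_le_sum_of_subset (subset_univ _)
        rw [sum_insert hv, h5, hsum] at h6
        omega
      have hch : ∀ w ∈ WT (z, z'), ∀ a ∈ dc w, a ∉ WT (z, z') → e a = 0 :=
        fun w hw a ha haW => hz0 a haW
      have hrk : Xg.rk z' < Xg.rk z := by
        refine X.rk E.H ?_ hCC
        intro a ha
        by_cases haW : a ∈ WT (z, z')
        · have h7 : lev a = lev z + 1 := lev_dc E.H ha
          have h8 := (X.levW E.H haW).1
          have h9 : lev z = i + 2 := by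
            obtain ⟨w, w2, p, x, q, T'⟩ := X.tw
            exact T'.lz
          omega
        · rw [hz0 a haW]
          omega
      have T := X.isTw E.H O.spt hrk
      refine ⟨(z, z'), mem_TWC.2 T, ?_⟩
      rw [← off_add E.H X]
      have h10 : offB (z, z') e = Z0 := by
        funext v
        unfold offB Z0
        split_ifs with h
        · rfl
        · exact hz0 v h
      rw [h10]
    · intro t ht
      have T := mem_TWC.1 ht
      rw [add_sg E.H T cpt_zero, z0_sg E.H E.hr]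
  rw [h1, sum_const, nsmul_eq_mul]
  ring

end main

end Pool.Agent.GaussPoset.Win.Rd
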