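import Pool.Agent.W_448rd_h10.RdR

/-!
MP_448cb3_co, G2, window `j - 1`: the leftover sum (8,2).  helper10.
-/

namespace Pool.Agent.GaussPoset.Win.Rd

set_option linter.unusedSectionVars false

open Finset I2 K2
open Pool.Agent.GaussPoset.Win.H2 (SdT NoT low_T up_T sum_all)
open Pool.Agent.GaussPoset.Win.Xg (FlS Zr LoP UpP FP rm rm_le rm_of rm_y rm_p Okc kp Lft mem_Lft
  CanD Can Tee Exo SdO Act laL laU)

universe u

variable {P : Type u} [Fintype P] [PartialOrder P] [DecidableEq P] {r i : ℕ} {e B : P → ℕ}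
variable {psi : P → P} {C : Finset P} {Q : (P → ℕ) → Prop} {t : P × P} {c p0 y0 : P}

/-- `c` and the elements above it -/
noncomputable def UE (c : P) : Finset P := insert c (uc c ∪ (uc c).biUnion uc)

/-- the labels of an inner join over a twin -/
noncomputable def eE (t : P × P) (c : P) : P → ℕ :=
  fun v => if v ∈ WT t then bT t v else if v ∈ UE c then 1 else 0

/-- an inner join over a twin and a pendant, away from the twins -/
structure EtS (i : ℕ) (C : Finset P) (t : P × P) (c p0 y0 : P) : Prop where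
  T : IsTw i C t
  mc : c ∈ C
  ly : lev y0 = i + 1
  cy : (uc y0).card = 2
  up : uc p0 = {y0}
  cp : c ∈ dc p0
  cz : c ∈ dc t.1 ∨ c ∈ dc t.2
  dj : Disjoint (uc y0) (XT t)

section ets

variable (H : Gr P r) (S : EtS i C t c p0 y0)
include H S

lemma EtS.lv : lev p0 = i + 2 ∧ lev c = i + 3 := by
  have h1 := lev_uc H (show y0 ∈ uc p0 by rw [S.up]; simp)
  have h2 := lev_dc H S.cp
  have := S.ly
  omega

lemma EtS.lW {v : P} (hv : v ∈ WT t) : lev v = i + 1 ∨ lev v = i + 2 := by
  have X := add_ex H S.T (cpt_zero (t := t))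
  exact (X.levW H hv).1

lemma EtS.nW : y0 ∉ WT t ∧ p0 ∉ WT t ∧ c ∉ WT t := by
  have X := add_ex H S.T (cpt_zero (t := t))
  obtain ⟨w, w2, p, x, q, T, mW, mX⟩ := X.mW
  obtain ⟨l1, l2, l3, l4, l5, l6⟩ := Tw.lv H T
  obtain ⟨h1, h2⟩ := S.lv H
  have ly := S.ly
  refine ⟨?_, ?_, ?_⟩
  · intro h
    have h3 := ((X.levW H h).2.2.2 ly).1
    obtain ⟨s, hs⟩ := uc_nonempty H (x := y0) (by omega)
    refine disjoint_left.1 S.dj hs ?_
    unfold XT
    exact mem_biUnion.2 ⟨y0, h3, hs⟩
  · intro h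
    have hup := S.up
    rcases (mW p0).1 h with h3 | h3 | h3 | h3
    · rw [h3, T.uz] at hup
      have : ({w, w2} : Finset P).card = 1 := by rw [hup, card_singleton]
      rw [card_pair T.ww] at this
      omega
    · rw [h3, T.uz'] at hup
      have : ({w, w2} : Finset P).card = 1 := by rw [hup, card_singleton]
      rw [card_pair T.ww] at this
      omega
    · rw [h3] at h1; omega
    · rw [h3] at h1; omega
  · intro h
    have := S.lW H h
    omega

lemma EtS.ucc : ∃ z0, (z0 = t.1 ∨ z0 = t.2) ∧ z0 ∈ WT t ∧ uc c = {p0, z0} := by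
  obtain ⟨n1, n2, n3⟩ := S.nW H
  have key : ∀ z0, z0 ∈ WT t → c ∈ dc z0 → uc c = {p0, z0} := by
    intro z0 hz hc
    refine pair_eq_of (uc_card_le H c) (mem_uc.2 (mem_dc.1 S.cp)) (mem_uc.2 (mem_dc.1 hc)) ?_
    rintro rfl
    exact n2 hz
  rcases S.cz with h | h
  · exact ⟨t.1, Or.inl rfl, by unfold WT; simp, key t.1 (by unfold WT; simp) h⟩
  · exact ⟨t.2, Or.inr rfl, by unfold WT; simp, key t.2 (by unfold WT; simp) h⟩

lemma EtS.memUE {v : P} (hv : v ∉ WT t) : v ∈ UE c ↔ v = c ∨ v = p0 ∨ v = y0 := by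
  obtain ⟨z0, hz, hzW, hcc⟩ := S.ucc H
  have X := add_ex H S.T (cpt_zero (t := t))
  unfold UE
  rw [hcc, mem_insert, mem_union, biUnion_insert, singleton_biUnion, mem_union, S.up,
    mem_insert, mem_singleton, mem_singleton]
  constructor
  · rintro (h | (h | h) | h | h)
    · exact Or.inl h
    · exact Or.inr (Or.inl h)
    · exact absurd (h ▸ hzW) hv
    · exact Or.inr (Or.inr h)
    · exfalso
      rcases X.ucW H hzW h with h1 | ⟨h1, -⟩
      · exact hv h1
      · obtain ⟨w, w2, p, x, q, T, -⟩ := X.mW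
        obtain ⟨l1, l2, l3, l4, l5, l6⟩ := Tw.lv H T
        have := T.lz
        rcases hz with rfl | rfl <;> omega
  · rintro (h | h | h)
    · exact Or.inl h
    · exact Or.inr (Or.inl (Or.inl h))
    · exact Or.inr (Or.inr (Or.inl h))

lemma EtS.out {v : P} (hv : v ∉ WT t) : eE t c v = if v = c ∨ v = p0 ∨ v = y0 then 1 else 0 := by
  unfold eE
  rw [if_neg hv]
  by_cases h : v ∈ UE c
  · rw [if_pos h, if_pos ((S.memUE H hv).1 h)]
  · rw [if_neg h, if_neg (fun h1 => h ((S.memUE H hv).2 h1))]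

lemma EtS.vals : eE t c c = 1 ∧ eE t c p0 = 1 ∧ eE t c y0 = 1 ∧
    (∀ v ∈ WT t, eE t c v = bT t v) ∧
    ∀ v, v ∉ WT t → v ≠ c → v ≠ p0 → v ≠ y0 → eE t c v = 0 := by
  obtain ⟨n1, n2, n3⟩ := S.nW H
  refine ⟨?_, ?_, ?_, ?_, ?_⟩
  · rw [S.out H n3, if_pos (Or.inl rfl)]
  · rw [S.out H n2, if_pos (Or.inr (Or.inl rfl))]
  · rw [S.out H n1, if_pos (Or.inr (Or.inr rfl))]
  · intro v hv
    unfold eE
    rw [if_pos hv]
  · intro v hv h1 h2 h3
    rw [S.out H hv, if_neg (by tauto)]

/-- the block -/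
lemma EtS.blk : Blk i (WT t ∪ {c, p0, y0}) (XT t ∪ uc y0) (eE t c) ∧
    aW (WT t ∪ {c, p0, y0}) (eE t c) = 2 ∧ pW (WT t ∪ {c, p0, y0}) (eE t c) = 2 ∧
    (XT t ∪ uc y0).card = 5 := by
  classical
  obtain ⟨n1, n2, n3⟩ := S.nW H
  obtain ⟨v1, v2, v3, v4, v5⟩ := S.vals H
  obtain ⟨k1, k2⟩ := S.lv H
  have ly := S.ly
  obtain ⟨z0, hz0, hz0W, hcc⟩ := S.ucc H
  have X := add_ex H S.T (cpt_zero (t := t))
  obtain ⟨w, w2, p, x, q, T, mW, mX⟩ := X.mW
  obtain ⟨l1, l2, l3, l4, l5, l6⟩ := Tw.lv H T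
  have lz := T.lz
  obtain ⟨b1, b2, b3, b4, b5⟩ := Tw.b H T
  have hb : bT (t.1, t.2) = bT t := rfl
  rw [hb] at b1 b2 b3 b4
  have m1 : t.1 ∈ WT t := (mW _).2 (by simp)
  have m2 : t.2 ∈ WT t := (mW _).2 (by simp)
  have m3 : w ∈ WT t := (mW _).2 (by simp)
  have m4 : w2 ∈ WT t := (mW _).2 (by simp)
  have e1 : eE t c t.1 = 2 := by rw [v4 _ m1]; exact b1
  have e2 : eE t c t.2 = 1 := by rw [v4 _ m2]; exact b2
  have e3 : eE t c w = 1 := by rw [v4 _ m3]; exact b3
  have e4 : eE t c w2 = 1 := by rw [v4 _ m4]; exact b4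
  have mV : ∀ v, v ∈ WT t ∪ {c, p0, y0} ↔
      v = t.1 ∨ v = t.2 ∨ v = w ∨ v = w2 ∨ v = c ∨ v = p0 ∨ v = y0 := by
    intro v
    rw [mem_union, mW, mem_insert, mem_insert, mem_singleton]
    tauto
  have mV1 : ∀ v, v ∈ WT t → v ∈ WT t ∪ {c, p0, y0} := fun v hv => mem_union_left _ hv
  have hp0c : p0 ∈ uc c := mem_uc.2 (mem_dc.1 S.cp)
  -- killed elements
  have f1 : bF (WT t ∪ {c, p0, y0}) (eE t c) w :=
    ⟨t.1, by rw [T.dw]; simp, mV1 _ m1, by omega⟩
  have f2 : bF (WT t ∪ {c, p0, y0}) (eE t c) w2 :=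
    ⟨t.1, by rw [T.dw2]; simp, mV1 _ m1, by omega⟩
  have lab : ∀ a, a ∈ WT t ∪ {c, p0, y0} → a ≠ t.1 → eE t c a = 1 := by
    intro a ha hne
    rcases (mV a).1 ha with rfl | rfl | rfl | rfl | rfl | rfl | rfl
    · exact absurd rfl hne
    all_goals assumption
  have f3 : ∀ v, v ∈ WT t ∪ {c, p0, y0} → (∀ a ∈ dc v, a ≠ t.1) →
      ¬ bF (WT t ∪ {c, p0, y0}) (eE t c) v := by
    rintro v hv hno ⟨a, ha, haW, hlt⟩
    have h1 := lab a haW (hno a ha)
    have h2 : 1 ≤ eE t c v := by
      by_cases hvt : v = t.1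
      · rw [hvt, e1]; omega
      · rw [lab v hv hvt]
    omega
  have noz : ∀ v, lev v ≠ i + 1 → ∀ a ∈ dc v, a ≠ t.1 := by
    rintro v hl a ha rfl
    have := lev_dc H ha
    omega
  have f4 : ¬ bF (WT t ∪ {c, p0, y0}) (eE t c) y0 := by
    refine f3 y0 ((mV _).2 (by simp)) ?_
    rintro a ha rfl
    have h1 : y0 ∈ uc t.1 := mem_uc.2 (mem_dc.1 ha)
    rcases X.ucW H m1 h1 with h2 | ⟨h2, -⟩
    · exact n1 h2
    · omega
  have g1 : ¬ bG (WT t ∪ {c, p0, y0}) (eE t c) t.1 := by
    rintro ⟨a, ha, haW, hle⟩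
    have : a ≠ t.1 := by
      rintro rfl
      have := lev_uc H ha
      omega
    rw [lab a haW this] at hle
    omega
  have g2 : bG (WT t ∪ {c, p0, y0}) (eE t c) t.2 :=
    ⟨w, by rw [T.uz']; simp, mV1 _ m3, by omega⟩
  have g3 : ¬ bG (WT t ∪ {c, p0, y0}) (eE t c) y0 := by
    rintro ⟨a, ha, haW, hle⟩
    have := lev_uc H ha
    rcases (mV a).1 haW with rfl | rfl | rfl | rfl | rfl | rfl | rfl <;> omega
  have g4 : bG (WT t ∪ {c, p0, y0}) (eE t c) p0 :=
    ⟨y0, by rw [S.up]; simp, (mV _).2 (by simp), by omega⟩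
  have g5 : bG (WT t ∪ {c, p0, y0}) (eE t c) c :=
    ⟨p0, hp0c, (mV _).2 (by simp), by omega⟩
  refine ⟨⟨?_, ?_, ?_, ?_, ?_, ?_, ?_⟩, ?_, ?_, ?_⟩
  · intro v hv
    rcases (mV v).1 hv with rfl | rfl | rfl | rfl | rfl | rfl | rfl <;> omega
  · intro v hv
    by_cases hvt : v = t.1
    · rw [hvt, e1]; omega
    · rw [lab v hv hvt]
  · intro v hv hl s hs
    by_cases hvy : v = y0
    · exact mem_union_right _ (hvy ▸ hs)
    · refine mem_union_left _ ?_
      have hvW : v ∈ WT t := by
        rcases (mV v).1 hv with rfl | rfl | rfl | rfl | rfl | rfl | rfl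
        · exact m1
        · exact m2
        · exact m3
        · exact m4
        · omega
        · omega
        · exact absurd rfl hvy
      rcases X.ucW H hvW hs with h1 | ⟨-, h1⟩
      · have := S.lW H h1
        have := lev_uc H hs
        omega
      · exact h1
  · intro v hv hl s hs
    rcases (mV v).1 hv with rfl | rfl | rfl | rfl | rfl | rfl | rfl
    · rcases X.ucW H m1 hs with h1 | ⟨h1, -⟩
      · exact mV1 _ h1
      · omega
    · rcases X.ucW H m2 hs with h1 | ⟨h1, -⟩
      · exact mV1 _ h1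
      · omega
    · omega
    · omega
    · rw [hcc, mem_insert, mem_singleton] at hs
      rcases hs with rfl | rfl
      · exact (mV _).2 (by simp)
      · exact mV1 _ hz0W
    · rw [S.up, mem_singleton] at hs
      subst hs
      exact (mV _).2 (by simp)
    · omega
  · rintro v hv hl ⟨h1, -⟩
    exact f3 v hv (noz v (by omega)) h1
  · intro v hv hl
    rcases (mV v).1 hv with rfl | rfl | rfl | rfl | rfl | rfl | rfl
    · omega
    · omega
    · exact ⟨t.1, by rw [T.dw]; simp, mV1 _ m1⟩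
    · exact ⟨t.1, by rw [T.dw2]; simp, mV1 _ m1⟩
    · omega
    · omega
    · exact ⟨p0, mem_dc.2 (mem_uc.1 (by rw [S.up]; simp)), (mV _).2 (by simp)⟩
  · intro s hs
    rcases mem_union.1 hs with h1 | h1
    · refine ⟨(S.T.Xo H h1).2, ?_⟩
      unfold XT at h1
      obtain ⟨a, ha, hsa⟩ := mem_biUnion.1 h1
      refine ⟨a, mV1 _ ?_, mem_dc.2 (mem_uc.1 hsa)⟩
      unfold WT
      exact mem_insert_of_mem (mem_insert_of_mem ha)
    · have := lev_uc H h1
      exact ⟨by omega, y0, (mV _).2 (by simp), mem_dc.2 (mem_uc.1 h1)⟩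
  · unfold aW
    rw [card_eq_two]
    refine ⟨w, w2, T.ww, ?_⟩
    ext v
    rw [mem_filter, mem_insert, mem_singleton]
    constructor
    · rintro ⟨hv, h2⟩
      by_cases hl : lev v = i + 1
      · rcases (mV v).1 hv with rfl | rfl | rfl | rfl | rfl | rfl | rfl
        · omega
        · omega
        · exact Or.inl rfl
        · exact Or.inr rfl
        · omega
        · omega
        · exact absurd h2 f4
      · exact absurd h2 (f3 v hv (noz v hl))
    · rintro (rfl | rfl)
      · exact ⟨mV1 _ m3, f1⟩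
      · exact ⟨mV1 _ m4, f2⟩
  · unfold pW
    rw [card_eq_two]
    refine ⟨t.1, y0, ?_, ?_⟩
    · intro h
      rw [h] at lz
      omega
    ext v
    rw [mem_filter, mem_insert, mem_singleton]
    constructor
    · rintro ⟨hv, h2, h3⟩
      rcases (mV v).1 hv with rfl | rfl | rfl | rfl | rfl | rfl | rfl
      · exact Or.inl rfl
      · exact absurd g2 h3
      · exact absurd f1 h2
      · exact absurd f2 h2
      · exact absurd g5 h3
      · exact absurd g4 h3
      · exact Or.inr rfl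
    · rintro (rfl | rfl)
      · exact ⟨mV1 _ m1, f3 _ (mV1 _ m1) (noz _ (by omega)), g1⟩
      · exact ⟨(mV _).2 (by simp), f4, g3⟩
  · rw [card_union_of_disjoint S.dj.symm, S.cy]
    have := (Tw.nums H T).2.2
    rw [show XT (t.1, t.2) = XT t from rfl] at this
    rw [this]

lemma EtS.rem : Rem (WT t ∪ {c, p0, y0}) (XT t ∪ uc y0) (eE t c) (eE t c) Z0 where
  eW := fun _ _ => rfl
  BW := fun _ _ => rfl
  eq := by
    intro v hv
    rw [mem_union, not_or, mem_insert, mem_insert, mem_singleton, not_or, not_or] at hv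
    obtain ⟨h1, h2, h3, h4⟩ := hv
    exact (S.vals H).2.2.2.2 v h1 h2 h3 h4
  BX := fun _ _ => rfl
  dX := fun _ _ _ _ _ => rfl
  uX := fun _ _ _ _ => rfl
  ch := fun _ _ _ _ _ => rfl

lemma EtS.ex : Ex i (eE t c) t := by
  obtain ⟨v1, v2, v3, v4, v5⟩ := S.vals H
  obtain ⟨k1, k2⟩ := S.lv H
  have ly := S.ly
  refine ⟨S.T.tw, v4, ?_, ?_, ?_⟩
  · intro x hx
    obtain ⟨h1, h2⟩ := S.T.Xo H hx
    refine v5 x h1 ?_ ?_ ?_ <;> (rintro rfl; omega)
  · intro x hx v hv hvW
    obtain ⟨h1, h2⟩ := S.T.Xo H hx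
    have lv := lev_dc H hv
    refine v5 v hvW ?_ ?_ ?_
    · rintro rfl; omega
    · rintro rfl; omega
    · rintro rfl
      exact disjoint_left.1 S.dj (mem_uc.2 (mem_dc.1 hv)) hx
  · intro x hx u hu
    obtain ⟨h1, h2⟩ := S.T.Xo H hx
    have lv := lev_uc H hu
    refine v5 u ?_ ?_ ?_ ?_
    · intro h
      have := S.lW H h
      omega
    · rintro rfl; omega
    · rintro rfl; omega
    · rintro rfl; omega

lemma EtS.sum : ∑ v, eE t c v = 8 := by
  obtain ⟨n1, n2, n3⟩ := S.nW H
  obtain ⟨v1, v2, v3, v4, v5⟩ := S.vals H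
  obtain ⟨k1, k2⟩ := S.lv H
  have ly := S.ly
  have h5 := (S.ex H).sumW H
  have d1 : Disjoint (WT t) ({c, p0, y0} : Finset P) := by
    rw [disjoint_right]
    intro v hv
    rw [mem_insert, mem_insert, mem_singleton] at hv
    rcases hv with rfl | rfl | rfl <;> assumption
  have h6 : ∑ v, eE t c v = ∑ v ∈ WT t ∪ {c, p0, y0}, eE t c v := by
    refine (sum_subset (subset_univ _) ?_).symm
    intro v _ hv
    rw [mem_union, not_or, mem_insert, mem_insert, mem_singleton, not_or, not_or] at hv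
    exact v5 v hv.1 hv.2.1 hv.2.2.1 hv.2.2.2
  have g1 : p0 ∉ ({y0} : Finset P) := by
    rw [mem_singleton]
    rintro rfl
    omega
  have g2 : c ∉ ({p0, y0} : Finset P) := by
    rw [mem_insert, mem_singleton, not_or]
    constructor
    · rintro rfl; omega
    · rintro rfl; omega
  rw [h6, sum_union d1, h5, sum_insert g2, sum_insert g1, sum_singleton, v1, v2, v3]
  rfl

end ets

/-- the core of an inner join is the explicit one -/
lemma EtD.eq (H : Gr P r) (X : Ex i e t) (D : EtD i e t c p0 y0) (T : IsTw i C t)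
    (hs : Spt C e) : EtS i C t c p0 y0 ∧ e = eE t c := by
  have hdj : Disjoint (uc y0) (XT t) := by
    rw [disjoint_left]
    intro s hs hX
    have := X.dX s hX y0 (mem_dc.2 (mem_uc.1 hs)) D.yW
    have := D.ey
    omega
  have S : EtS i C t c p0 y0 := ⟨T, spt_mem hs (by rw [D.ec]), D.ly, D.cy, D.up, D.cp, D.cz, hdj⟩
  refine ⟨S, ?_⟩
  obtain ⟨n1, n2, n3⟩ := S.nW H
  obtain ⟨v1, v2, v3, v4, v5⟩ := S.vals H
  funext v
  by_cases hv : v ∈ WT t
  · rw [v4 v hv, X.lab v hv]
  by_cases h1 : v = c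
  · rw [h1, v1, D.ec]
  by_cases h2 : v = p0
  · rw [h2, v2, D.ep]
  by_cases h3 : v = y0
  · rw [h3, v3, D.ey]
  rw [v5 v hv h1 h2 h3, D.out v hv h3 h2 h1]

section main

variable (E : Ev r i psi C) (K : Kls i psi C Q)
include E K

/-- the explicit core is a leftover core -/
lemma EtS.mem (S : EtS i C t c p0 y0) : eE t c ∈ Lft i psi C Q 8 2 ∧ sg i (eE t c) = -1 := by
  classical
  have H := E.H
  obtain ⟨BK, na, np, nX⟩ := S.blk H
  have R := S.rem H
  obtain ⟨n1, n2, n3⟩ := S.nW H
  obtain ⟨v1, v2, v3, v4, v5⟩ := S.vals H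
  obtain ⟨k1, k2⟩ := S.lv H
  have ly := S.ly
  have mp0 : p0 ∈ C := E.hC.up S.mc (mem_dc.1 S.cp)
  have my0 : y0 ∈ C := E.hC.up mp0 (mem_uc.1 (by rw [S.up]; simp))
  have hW : WT t ∪ {c, p0, y0} ⊆ C := by
    intro v hv
    rcases mem_union.1 hv with h | h
    · exact S.T.sub H E.hC h
    · rw [mem_insert, mem_insert, mem_singleton] at h
      rcases h with rfl | rfl | rfl
      · exact S.mc
      · exact mp0
      · exact my0
  have hkp := R.kp H BK
  rw [nX, np, z0_kp H E.hr] at hkp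
  have hsg := R.sg H BK
  rw [nX, na, z0_sg H E.hr] at hsg
  have hlow : ∀ v, lev v ≤ i → eE t c v = 0 := by
    intro v hv
    refine v5 v ?_ ?_ ?_ ?_
    · intro h
      have := S.lW H h
      omega
    · rintro rfl; omega
    · rintro rfl; omega
    · rintro rfl; omega
  refine ⟨mem_Lft.2 ⟨S.sum H, (R.okc H BK E.hM hW).2 z0_okc, by rw [hkp]; norm_num, ?_, ?_⟩,
    by rw [hsg]; norm_num⟩
  · rw [eq_empty_iff_forall_notMem]
    intro s hs
    have h1 := (S.ex H).cc H S.T.rk hs
    rw [Xg.mem_CC H] at hs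
    rcases hs with ⟨w, w2, p, q, T, EE, h⟩ | ⟨w, w2, p, q, T, EE, h⟩
    · have ld : lev s.1 = i + 2 := by
        have := T.ld
        unfold laL at this
        omega
      have hpos := EE.pos
      by_cases h2 : s.1 = p0
      · have h3 := T.ud
        rw [h2, S.up] at h3
        have : ({w, w2} : Finset P).card = 1 := by rw [← h3, card_singleton]
        rw [card_pair T.ne] at this
        omega
      · have := v5 s.1 h1 (by intro h4; rw [h4] at ld; omega) h2
          (by intro h4; rw [h4] at ld; omega)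
        omega
    · have ld : lev s.1 + 2 = i := by
        have := T.ld
        unfold laU at this
        omega
      have hpos := EE.pos
      have := hlow s.1 (by omega)
      omega
  · rcases K with ⟨-, rfl⟩ | ⟨y, p, w, u, v, v', F, h5, h6, h7, h8, rfl⟩
    · exact id
    · obtain ⟨j1, j2, j3, j4⟩ := F.lv H
      have lw := F.lw
      have lyy := F.ly
      rintro (⟨g1, g2, g3⟩ | ⟨g1, g2, g3⟩)
      · have hp : p = p0 := by
          have hy0 : y0 ∈ uc p0 := by rw [S.up]; simp
          have := h7 p0 mp0 (mem_PD'.2 ⟨k1, by rw [S.up, card_singleton], y0,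
            mem_uc.1 hy0, S.cy⟩)
          exact this.symm
        have h9 := g3.dp c (by rw [hp]; exact S.cp)
        rw [rm_of (by rintro rfl; omega) (by rintro rfl; omega), v1] at h9
        omega
      · have := hlow w (by omega)
        omega

open Classical in
/-- the inner joins over a twin -/
noncomputable def ETs (i : ℕ) (C : Finset P) : Finset ((P × P) × P) :=
  univ.filter (fun s => ∃ p0 y0, EtS i C s.1 s.2 p0 y0)

omit E K in
lemma mem_ETs {s : (P × P) × P} : s ∈ ETs i C ↔ ∃ p0 y0, EtS i C s.1 s.2 p0 y0 := by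
  classical
  unfold ETs
  rw [mem_filter]
  exact ⟨fun h => h.2, fun h => ⟨mem_univ _, h⟩⟩

/-- the block of a leftover core of energy eight is unique -/
lemma lft8_uniq {t' : P × P} (he : e ∈ Lft i psi C Q 8 2) (X : Ex i e t) (X' : Ex i e t') :
    t = t' := by
  obtain ⟨z, hz, -⟩ := lft_small E K he (by norm_num) (by norm_num)
  have h1 := X.twl E.H
  have h2 := X'.twl E.H
  rw [hz, mem_singleton] at h1 h2
  exact X.same X' (h1.trans h2.symm)

open Classical in
/-- THE LEFTOVER SUM (8,2) -/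
theorem sum82 : ∑ e ∈ Lft i psi C Q 8 2, sg i e =
    - (∑ t ∈ TWC i C, ∑ B ∈ (Lft i psi C Q 3 0).filter (fun B => Cpt t B), sg i B) -
      ((ETs i C).card : ℤ) := by
  have H := E.H
  -- the two kinds of cores
  have hsplit : ∑ e ∈ Lft i psi C Q 8 2, sg i e =
      ∑ e ∈ (Lft i psi C Q 8 2).filter (fun e => ∃ s ∈ ETs i C, e = eE s.1 s.2), sg i e +
      ∑ e ∈ (Lft i psi C Q 8 2).filter (fun e => ¬ ∃ s ∈ ETs i C, e = eE s.1 s.2), sg i e :=
    (sum_filter_add_sum_filter_not _ _ _).symm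
  have h1 : ∑ e ∈ (Lft i psi C Q 8 2).filter (fun e => ∃ s ∈ ETs i C, e = eE s.1 s.2), sg i e =
      ∑ _s ∈ ETs i C, (-1 : ℤ) := by
    symm
    refine sum_bij (fun s _ => eE s.1 s.2) ?_ ?_ ?_ ?_
    · intro s hs
      obtain ⟨p0, y0, S⟩ := mem_ETs.1 hs
      exact mem_filter.2 ⟨(S.mem E K).1, s, hs, rfl⟩
    · intro s hs s' hs' heq
      obtain ⟨p0, y0, S⟩ := mem_ETs.1 hs
      obtain ⟨p0', y0', S'⟩ := mem_ETs.1 hs'
      have heq' : eE s.1 s.2 = eE s'.1 s'.2 := heq
      have X := S.ex H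
      have X' := S'.ex H
      have ht : s.1 = s'.1 := by
        refine lft8_uniq E K (S.mem E K).1 X ?_
        rw [heq']
        exact X'
      refine Prod.ext ht ?_
      have h2 := (S.vals H).1
      rw [heq'] at h2
      by_contra hne
      have l1 := (S.lv H).2
      have l2 := (S'.lv H)
      have ly := S'.ly
      have := (S'.vals H).2.2.2.2 s.2 (by
          intro h3
          have := S'.lW H h3
          omega) hne (by rintro h3; rw [h3] at l1; omega) (by rintro h3; rw [h3] at l1; omega)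
      omega
    · intro e he
      rw [mem_filter] at he
      obtain ⟨-, s, hs, rfl⟩ := he
      exact ⟨s, hs, rfl⟩
    · intro s hs
      obtain ⟨p0, y0, S⟩ := mem_ETs.1 hs
      exact (S.mem E K).2.symm
  have h2 : ∑ e ∈ (Lft i psi C Q 8 2).filter (fun e => ¬ ∃ s ∈ ETs i C, e = eE s.1 s.2), sg i e =
      ∑ s ∈ (TWC i C).sigma (fun t => (Lft i psi C Q 3 0).filter (fun B => Cpt t B)),
        - sg i s.2 := by
    symm
    refine sum_bij (fun s _ => addT s.1 s.2) ?_ ?_ ?_ ?_
    · rintro ⟨t, B⟩ hs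
      rw [mem_sigma, mem_filter] at hs
      obtain ⟨ht, hB, hc⟩ := hs
      have T := mem_TWC.1 ht
      have hm := add_mem E K T hc hB
      refine mem_filter.2 ⟨hm, ?_⟩
      rintro ⟨s, hs, heq⟩
      obtain ⟨p0, y0, S⟩ := mem_ETs.1 hs
      have X := add_ex H T hc
      have heq' : addT t B = eE s.1 s.2 := heq
      have X' : Ex i (addT t B) s.1 := by
        rw [heq']
        exact S.ex H
      have h3 := lft8_uniq E K hm X X'
      -- the child `c` has label one
      have h4 := (S.vals H).1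
      rw [← heq', add_out H T (by rw [h3]; exact (S.nW H).2.2)] at h4
      have h5 : B s.2 = 0 := by
        rcases S.cz with h6 | h6
        · refine (hc.W s.1.1 ?_).2 s.2 h6
          rw [h3]
          unfold WT
          simp
        · refine (hc.W s.1.2 ?_).2 s.2 h6
          rw [h3]
          unfold WT
          simp
      omega
    · rintro ⟨t, B⟩ hs ⟨t', B'⟩ hs' heq
      rw [mem_sigma, mem_filter] at hs hs'
      obtain ⟨ht, hB, hc⟩ := hs
      obtain ⟨ht', hB', hc'⟩ := hs'
      have T := mem_TWC.1 ht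
      have T' := mem_TWC.1 ht'
      have X := add_ex H T hc
      have heq' : addT t B = addT t' B' := heq
      have X' : Ex i (addT t B) t' := by
        rw [heq']
        exact add_ex H T' hc'
      have h3 := lft8_uniq E K (add_mem E K T hc hB) X X'
      have h3' : t = t' := h3
      subst h3'
      have h4 : B = B' := by
        funext v
        have := congrFun heq' v
        unfold addT at this
        omega
      subst h4
      rfl
    · intro e he
      rw [mem_filter] at he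
      obtain ⟨he, hno⟩ := he
      obtain ⟨hsum, O, hkp, hCC, hnQ⟩ := mem_Lft.1 he
      obtain ⟨t, X, hz, hcases⟩ := lft8_cases E K he
      have hrk : (∀ a ∈ dc t.1, e a ≤ 1) → IsTw i C t := fun h => X.isTw H O.spt (X.rk H h hCC)
      have h1W : t.1 ∈ WT t := by unfold WT; simp
      rcases hcases with hch | ⟨c, p0, y0, D⟩
      · have T : IsTw i C t := by
          apply hrk
          intro a ha
          by_cases haW : a ∈ WT t
          · obtain ⟨w, w2, p, x, q, T⟩ := X.tw
            have h7 := lev_dc H ha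
            have h8 := (X.levW H haW).1
            have h9 := T.lz
            omega
          · rw [hch t.1 h1W a ha haW]
            omega
        refine ⟨⟨t, offB t e⟩, ?_, off_add H X⟩
        rw [mem_sigma, mem_filter]
        exact ⟨mem_TWC.2 T, off_mem E K T X hch he, off_cpt H X hch⟩
      · exfalso
        have T : IsTw i C t := by
          apply hrk
          intro a ha
          obtain ⟨w, w2, p, x, q, T⟩ := X.tw
          have h7 := lev_dc H ha
          have h9 := T.lz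
          by_cases haW : a ∈ WT t
          · have h8 := (X.levW H haW).1
            omega
          by_cases hac : a = c
          · rw [hac, D.ec]
          · have hly := D.ly
            have hlp : lev p0 = i + 2 := by
              have := lev_uc H (show y0 ∈ uc p0 by rw [D.up]; simp)
              omega
            rw [D.out a haW (by rintro rfl; omega) (by rintro rfl; omega) hac]
            omega
        obtain ⟨S, heq⟩ := D.eq H X T O.spt
        exact hno ⟨(t, c), mem_ETs.2 ⟨p0, y0, S⟩, heq⟩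
    · rintro ⟨t, B⟩ hs
      rw [mem_sigma, mem_filter] at hs
      exact (add_sg H (mem_TWC.1 hs.1) hs.2.2).symm
  rw [hsplit, h1, h2, sum_const, nsmul_eq_mul, sum_sigma]
  simp only [sum_neg_distrib]
  ring

end main

end Pool.Agent.GaussPoset.Win.Rd
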