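import Pool.Agent.W_448rd_h10.RdS

/-!
MP_448cb3_co, G2, window `j - 1`: the leftover sum (10,3).  helper10.
-/

namespace Pool.Agent.GaussPoset.Win.Rd

set_option linter.unusedSectionVars false

open Finset I2 K2
open Pool.Agent.GaussPoset.Win.H2 (SdT NoT low_T up_T sum_all)
open Pool.Agent.GaussPoset.Win.Xg (FlS Zr LoP UpP FP rm rm_le rm_of rm_y rm_p Okc kp Lft mem_Lft
  CanD Can Tee Exo SdO Act laL laU)

universe u

variable {P : Type u} [Fintype P] [PartialOrder P] [DecidableEq P] {r i : ℕ} {e B : P → ℕ}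
variable {psi : P → P} {C : Finset P} {Q : (P → ℕ) → Prop} {t : P × P}

/-! ### the inner join with label three -/

/-- the labels three, two, one above `a` -/
noncomputable def eN (a : P) : P → ℕ := fun v => if v = a then 3 else if v ∈ uc a then 2
  else if v ∈ (uc a).biUnion uc then 1 else 0

/-- an inner join over a double element and a pendant without a common site -/
structure NfS (i : ℕ) (C : Finset P) (a z z2 w w2 y : P) : Prop where
  mc : a ∈ C
  la : lev a = i + 3
  ua : uc a = {z, z2}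
  uz : uc z = {w, w2}
  uz2 : uc z2 = {y}
  ne : z2 ≠ z
  ww : w ≠ w2
  yw : y ≠ w
  yw2 : y ≠ w2
  cw : (uc w).card = 2
  cw2 : (uc w2).card = 2
  cy : (uc y).card = 2
  c5 : (uc w ∪ uc w2 ∪ uc y).card = 5

section nf

variable {a z z2 w w2 y : P} (H : Gr P r) (S : NfS i C a z z2 w w2 y)
include H S

lemma NfS.lv : lev z = i + 2 ∧ lev z2 = i + 2 ∧ lev w = i + 1 ∧ lev w2 = i + 1 ∧
    lev y = i + 1 := by
  have h1 := lev_uc H (show z ∈ uc a by rw [S.ua]; simp)
  have h2 := lev_uc H (show z2 ∈ uc a by rw [S.ua]; simp)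
  have h3 := lev_uc H (show w ∈ uc z by rw [S.uz]; simp)
  have h4 := lev_uc H (show w2 ∈ uc z by rw [S.uz]; simp)
  have h5 := lev_uc H (show y ∈ uc z2 by rw [S.uz2]; simp)
  have := S.la
  omega

lemma NfS.vals : eN a a = 3 ∧ eN a z = 2 ∧ eN a z2 = 2 ∧ eN a w = 1 ∧ eN a w2 = 1 ∧
    eN a y = 1 ∧ ∀ v, v ≠ a → v ≠ z → v ≠ z2 → v ≠ w → v ≠ w2 → v ≠ y → eN a v = 0 := by
  obtain ⟨l1, l2, l3, l4, l5⟩ := S.lv H
  have la := S.la
  have hl : ∀ x y : P, lev x ≠ lev y → x ≠ y := fun a b h h' => h (by rw [h'])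
  have hB : ∀ v, v ∈ (uc a).biUnion uc ↔ v = w ∨ v = w2 ∨ v = y := by
    intro v
    rw [S.ua, biUnion_insert, singleton_biUnion, S.uz, S.uz2, mem_union, mem_insert,
      mem_singleton, mem_singleton]
    tauto
  have hU : ∀ v, v ∈ uc a ↔ v = z ∨ v = z2 := by
    intro v
    rw [S.ua, mem_insert, mem_singleton]
  have two : ∀ v, v ≠ a → v ∈ uc a → eN a v = 2 := by
    intro v h1 h2
    unfold eN
    rw [if_neg h1, if_pos h2]
  have one : ∀ v, lev v = i + 1 → v ∈ (uc a).biUnion uc → eN a v = 1 := by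
    intro v h1 h2
    unfold eN
    rw [if_neg (hl _ _ (by omega)), if_neg, if_pos h2]
    intro h3
    have := lev_uc H h3
    omega
  refine ⟨?_, two z (hl _ _ (by omega)) ((hU z).2 (by simp)),
    two z2 (hl _ _ (by omega)) ((hU z2).2 (by simp)), one w l3 ((hB w).2 (by simp)),
    one w2 l4 ((hB w2).2 (by simp)), one y l5 ((hB y).2 (by simp)), ?_⟩
  · unfold eN
    rw [if_pos rfl]
  · intro v h1 h2 h3 h4 h5 h6
    unfold eN
    rw [if_neg h1, if_neg (fun h => by rcases (hU v).1 h with h | h <;> contradiction),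
      if_neg (fun h => by rcases (hB v).1 h with h | h | h <;> contradiction)]

/-- the block -/
lemma NfS.blk : Blk i {a, z, z2, w, w2, y} (uc w ∪ uc w2 ∪ uc y) (eN a) ∧
    aW {a, z, z2, w, w2, y} (eN a) = 5 ∧ pW {a, z, z2, w, w2, y} (eN a) = 1 := by
  classical
  obtain ⟨l1, l2, l3, l4, l5⟩ := S.lv H
  obtain ⟨v1, v2, v3, v4, v5, v6, v7⟩ := S.vals H
  have la := S.la
  have hl : ∀ x y : P, lev x ≠ lev y → x ≠ y := fun a b h h' => h (by rw [h'])
  have mV : ∀ v, v ∈ ({a, z, z2, w, w2, y} : Finset P) ↔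
      v = a ∨ v = z ∨ v = z2 ∨ v = w ∨ v = w2 ∨ v = y := by
    intro v
    simp only [mem_insert, mem_singleton]
  have ma : a ∈ ({a, z, z2, w, w2, y} : Finset P) := (mV _).2 (by simp)
  have mz : z ∈ ({a, z, z2, w, w2, y} : Finset P) := (mV _).2 (by simp)
  have mz2 : z2 ∈ ({a, z, z2, w, w2, y} : Finset P) := (mV _).2 (by simp)
  have mw : w ∈ ({a, z, z2, w, w2, y} : Finset P) := (mV _).2 (by simp)
  have mw2 : w2 ∈ ({a, z, z2, w, w2, y} : Finset P) := (mV _).2 (by simp)
  have my : y ∈ ({a, z, z2, w, w2, y} : Finset P) := (mV _).2 (by simp)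
  have d1 : a ∈ dc z := mem_dc.2 (mem_uc.1 (by rw [S.ua]; simp))
  have d2 : a ∈ dc z2 := mem_dc.2 (mem_uc.1 (by rw [S.ua]; simp))
  have d3 : z ∈ dc w := mem_dc.2 (mem_uc.1 (by rw [S.uz]; simp))
  have d4 : z ∈ dc w2 := mem_dc.2 (mem_uc.1 (by rw [S.uz]; simp))
  have d5 : z2 ∈ dc y := mem_dc.2 (mem_uc.1 (by rw [S.uz2]; simp))
  have fz : bF {a, z, z2, w, w2, y} (eN a) z := ⟨a, d1, ma, by omega⟩
  have fz2 : bF {a, z, z2, w, w2, y} (eN a) z2 := ⟨a, d2, ma, by omega⟩
  have fw : bF {a, z, z2, w, w2, y} (eN a) w := ⟨z, d3, mz, by omega⟩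
  have fw2 : bF {a, z, z2, w, w2, y} (eN a) w2 := ⟨z, d4, mz, by omega⟩
  have fy : bF {a, z, z2, w, w2, y} (eN a) y := ⟨z2, d5, mz2, by omega⟩
  have nfa : ¬ bF {a, z, z2, w, w2, y} (eN a) a := by
    rintro ⟨b, hb, hbW, hlt⟩
    have := lev_dc H hb
    rcases (mV b).1 hbW with rfl | rfl | rfl | rfl | rfl | rfl <;> omega
  have gz : ¬ bG {a, z, z2, w, w2, y} (eN a) z := by
    rintro ⟨b, hb, hbW, hle⟩
    rw [S.uz, mem_insert, mem_singleton] at hb
    rcases hb with rfl | rfl <;> omega
  have gz2 : ¬ bG {a, z, z2, w, w2, y} (eN a) z2 := by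
    rintro ⟨b, hb, hbW, hle⟩
    rw [S.uz2, mem_singleton] at hb
    subst hb
    omega
  have ga : ¬ bG {a, z, z2, w, w2, y} (eN a) a := by
    rintro ⟨b, hb, hbW, hle⟩
    rw [S.ua, mem_insert, mem_singleton] at hb
    rcases hb with rfl | rfl <;> omega
  refine ⟨⟨?_, ?_, ?_, ?_, ?_, ?_, ?_⟩, ?_, ?_⟩
  · intro v hv
    rcases (mV v).1 hv with rfl | rfl | rfl | rfl | rfl | rfl <;> omega
  · intro v hv
    rcases (mV v).1 hv with rfl | rfl | rfl | rfl | rfl | rfl <;> omega
  · intro v hv hlv s hs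
    rw [mem_union, mem_union]
    rcases (mV v).1 hv with rfl | rfl | rfl | rfl | rfl | rfl
    · omega
    · omega
    · omega
    · exact Or.inl (Or.inl hs)
    · exact Or.inl (Or.inr hs)
    · exact Or.inr hs
  · intro v hv hlv s hs
    rcases (mV v).1 hv with rfl | rfl | rfl | rfl | rfl | rfl
    · rw [S.ua, mem_insert, mem_singleton] at hs
      rcases hs with rfl | rfl <;> assumption
    · rw [S.uz, mem_insert, mem_singleton] at hs
      rcases hs with rfl | rfl <;> assumption
    · rw [S.uz2, mem_singleton] at hs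
      subst hs
      exact my
    · omega
    · omega
    · omega
  · rintro v hv hlv ⟨h1, h2⟩
    rcases (mV v).1 hv with rfl | rfl | rfl | rfl | rfl | rfl
    · exact nfa h1
    · exact gz h2
    · exact gz2 h2
    · omega
    · omega
    · omega
  · intro v hv hlv
    rcases (mV v).1 hv with rfl | rfl | rfl | rfl | rfl | rfl
    · omega
    · omega
    · omega
    · exact ⟨z, d3, mz⟩
    · exact ⟨z, d4, mz⟩
    · exact ⟨z2, d5, mz2⟩
  · intro s hs
    rw [mem_union, mem_union] at hs
    rcases hs with (hs | hs) | hs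
    · have := lev_uc H hs
      exact ⟨by omega, w, mw, mem_dc.2 (mem_uc.1 hs)⟩
    · have := lev_uc H hs
      exact ⟨by omega, w2, mw2, mem_dc.2 (mem_uc.1 hs)⟩
    · have := lev_uc H hs
      exact ⟨by omega, y, my, mem_dc.2 (mem_uc.1 hs)⟩
  · unfold aW
    have h1 : ({a, z, z2, w, w2, y} : Finset P).filter
        (fun x => bF {a, z, z2, w, w2, y} (eN a) x) = {z, z2, w, w2, y} := by
      ext v
      rw [mem_filter, mV]
      simp only [mem_insert, mem_singleton]
      constructor
      · rintro ⟨rfl | h, h2⟩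
        · exact absurd h2 nfa
        · exact h
      · rintro (rfl | rfl | rfl | rfl | rfl)
        · exact ⟨by simp, fz⟩
        · exact ⟨by simp, fz2⟩
        · exact ⟨by simp, fw⟩
        · exact ⟨by simp, fw2⟩
        · exact ⟨by simp, fy⟩
    rw [h1, card_insert_of_notMem, card_insert_of_notMem, card_insert_of_notMem,
      card_pair S.yw2.symm]
    · simp only [mem_insert, mem_singleton, not_or]
      exact ⟨S.ww, S.yw.symm⟩
    · simp only [mem_insert, mem_singleton, not_or]
      exact ⟨hl _ _ (by omega), hl _ _ (by omega), hl _ _ (by omega)⟩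
    · simp only [mem_insert, mem_singleton, not_or]
      exact ⟨S.ne.symm, hl _ _ (by omega), hl _ _ (by omega), hl _ _ (by omega)⟩
  · unfold pW
    rw [card_eq_one]
    refine ⟨a, ?_⟩
    ext v
    rw [mem_filter, mem_singleton]
    constructor
    · rintro ⟨hv, h2, h3⟩
      rcases (mV v).1 hv with rfl | rfl | rfl | rfl | rfl | rfl
      · rfl
      · exact absurd fz h2
      · exact absurd fz2 h2
      · exact absurd fw h2
      · exact absurd fw2 h2
      · exact absurd fy h2
    · rintro rfl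
      exact ⟨ma, nfa, ga⟩

lemma NfS.rem : Rem {a, z, z2, w, w2, y} (uc w ∪ uc w2 ∪ uc y) (eN a) (eN a) Z0 where
  eW := fun _ _ => rfl
  BW := fun _ _ => rfl
  eq := by
    intro v hv
    simp only [mem_insert, mem_singleton, not_or] at hv
    exact (S.vals H).2.2.2.2.2.2 v hv.1 hv.2.1 hv.2.2.1 hv.2.2.2.1 hv.2.2.2.2.1 hv.2.2.2.2.2
  BX := fun _ _ => rfl
  dX := fun _ _ _ _ _ => rfl
  uX := fun _ _ _ _ => rfl
  ch := fun _ _ _ _ _ => rfl

lemma NfS.sum : ∑ v, eN a v = 10 := by
  obtain ⟨l1, l2, l3, l4, l5⟩ := S.lv H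
  obtain ⟨v1, v2, v3, v4, v5, v6, v7⟩ := S.vals H
  have la := S.la
  have hl : ∀ x y : P, lev x ≠ lev y → x ≠ y := fun a b h h' => h (by rw [h'])
  have h6 : ∑ v, eN a v = ∑ v ∈ ({a, z, z2, w, w2, y} : Finset P), eN a v := by
    refine (sum_subset (subset_univ _) ?_).symm
    intro v _ hv
    simp only [mem_insert, mem_singleton, not_or] at hv
    exact v7 v hv.1 hv.2.1 hv.2.2.1 hv.2.2.2.1 hv.2.2.2.2.1 hv.2.2.2.2.2
  have g1 : w ∉ ({w2, y} : Finset P) := by
    simp only [mem_insert, mem_singleton, not_or]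
    exact ⟨S.ww, S.yw.symm⟩
  have g2 : z2 ∉ ({w, w2, y} : Finset P) := by
    simp only [mem_insert, mem_singleton, not_or]
    exact ⟨hl _ _ (by omega), hl _ _ (by omega), hl _ _ (by omega)⟩
  have g3 : z ∉ ({z2, w, w2, y} : Finset P) := by
    simp only [mem_insert, mem_singleton, not_or]
    exact ⟨S.ne.symm, hl _ _ (by omega), hl _ _ (by omega), hl _ _ (by omega)⟩
  have g4 : a ∉ ({z, z2, w, w2, y} : Finset P) := by
    simp only [mem_insert, mem_singleton, not_or]
    exact ⟨hl _ _ (by omega), hl _ _ (by omega), hl _ _ (by omega), hl _ _ (by omega),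
      hl _ _ (by omega)⟩
  rw [h6, sum_insert g4, sum_insert g3, sum_insert g2, sum_insert g1,
    Finset.sum_pair S.yw2.symm, v1, v2, v3, v4, v5, v6]
  rfl

end nf

section main

variable (E : Ev r i psi C) (K : Kls i psi C Q)
include E K

/-- the explicit core is a leftover core -/
lemma NfS.mem {a z z2 w w2 y : P} (S : NfS i C a z z2 w w2 y) :
    eN a ∈ Lft i psi C Q 10 3 ∧ sg i (eN a) = 1 := by
  classical
  have H := E.H
  obtain ⟨BK, na, np⟩ := S.blk H
  have R := S.rem H
  obtain ⟨l1, l2, l3, l4, l5⟩ := S.lv H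
  obtain ⟨v1, v2, v3, v4, v5, v6, v7⟩ := S.vals H
  have la := S.la
  have hl : ∀ x y : P, lev x ≠ lev y → x ≠ y := fun a b h h' => h (by rw [h'])
  have mz : z ∈ C := E.hC.up S.mc (mem_uc.1 (by rw [S.ua]; simp))
  have mz2 : z2 ∈ C := E.hC.up S.mc (mem_uc.1 (by rw [S.ua]; simp))
  have mw : w ∈ C := E.hC.up mz (mem_uc.1 (by rw [S.uz]; simp))
  have mw2 : w2 ∈ C := E.hC.up mz (mem_uc.1 (by rw [S.uz]; simp))
  have my : y ∈ C := E.hC.up mz2 (mem_uc.1 (by rw [S.uz2]; simp))
  have hW : ({a, z, z2, w, w2, y} : Finset P) ⊆ C := by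
    intro v hv
    simp only [mem_insert, mem_singleton] at hv
    rcases hv with rfl | rfl | rfl | rfl | rfl | rfl
    · exact S.mc
    all_goals assumption
  have hkp := R.kp H BK
  rw [S.c5, np, z0_kp H E.hr] at hkp
  have hsg := R.sg H BK
  rw [S.c5, na, z0_sg H E.hr] at hsg
  have hlow : ∀ v, lev v ≤ i → eN a v = 0 := by
    intro v hv
    exact v7 v (hl _ _ (by omega)) (hl _ _ (by omega)) (hl _ _ (by omega)) (hl _ _ (by omega))
      (hl _ _ (by omega)) (hl _ _ (by omega))
  refine ⟨mem_Lft.2 ⟨S.sum H, (R.okc H BK E.hM hW).2 z0_okc, by rw [hkp]; norm_num, ?_, ?_⟩,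
    by rw [hsg]; norm_num⟩
  · rw [eq_empty_iff_forall_notMem]
    intro s hs
    rw [Xg.mem_CC H] at hs
    rcases hs with ⟨w', w2', p, q, T, EE, h⟩ | ⟨w', w2', p, q, T, EE, h⟩
    · have ld : lev s.1 = i + 2 := by
        have := T.ld
        unfold laL at this
        omega
      have hpos := EE.pos
      by_cases h1 : s.1 = z
      · have h2 := (EE.t1 a (by rw [h1]; exact mem_dc.2 (mem_uc.1 (by rw [S.ua]; simp)))).1
        rw [h1] at h2
        omega
      by_cases h2 : s.1 = z2
      · have h3 := T.ud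
        rw [h2, S.uz2] at h3
        have : ({w', w2'} : Finset P).card = 1 := by rw [← h3, card_singleton]
        rw [card_pair T.ne] at this
        omega
      · have := v7 s.1 (hl _ _ (by omega)) h1 h2 (hl _ _ (by omega)) (hl _ _ (by omega))
          (hl _ _ (by omega))
        omega
    · have ld : lev s.1 + 2 = i := by
        have := T.ld
        unfold laU at this
        omega
      have hpos := EE.pos
      have := hlow s.1 (by omega)
      omega
  · rcases K with ⟨-, rfl⟩ | ⟨y', p, w', u, v, v', F, h5, h6, h7, h8, rfl⟩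
    · exact id
    · obtain ⟨j1, j2, j3, j4⟩ := F.lv H
      have lw := F.lw
      rintro (⟨g1, g2, g3⟩ | ⟨g1, g2, g3⟩)
      · have hp : z2 = p := by
          have hy0 : y ∈ uc z2 := by rw [S.uz2]; simp
          exact h7 z2 mz2 (mem_PD'.2 ⟨l2, by rw [S.uz2, card_singleton], y,
            mem_uc.1 hy0, S.cy⟩)
        rw [← hp] at g2
        omega
      · have := hlow w' (by omega)
        omega

/-- the exceptional core is the explicit one -/
lemma nf_eN (he : e ∈ Lft i psi C Q 10 3) (hN : (NFL i e).Nonempty) :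
    ∃ a z z2 w w2 y, NfS i C a z z2 w w2 y ∧ e = eN a := by
  classical
  have H := E.H
  obtain ⟨hsum, O, hkp, hCC, hnQ⟩ := mem_Lft.1 he
  obtain ⟨z', hz'⟩ := hN
  obtain ⟨a, z2, w, w2, y, la, hua, huz, huz2, hne, hww, hyw, hyw2, ea, ez, ez2, ew, ew2, ey,
    hout⟩ := nf_exact E.G E.hT O.adm.l hz' hsum
  have l1 := lev_uc H (show z' ∈ uc a by rw [hua]; simp)
  have l2 := lev_uc H (show z2 ∈ uc a by rw [hua]; simp)
  have l3 := lev_uc H (show w ∈ uc z' by rw [huz]; simp)
  have l4 := lev_uc H (show w2 ∈ uc z' by rw [huz]; simp)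
  have l5 := lev_uc H (show y ∈ uc z2 by rw [huz2]; simp)
  have hl : ∀ x y : P, lev x ≠ lev y → x ≠ y := fun a b h h' => h (by rw [h'])
  have hlow : ∀ v, lev v ≤ i → e v = 0 := by
    intro v hv
    refine hout v ?_
    simp only [mem_insert, mem_singleton, not_or]
    exact ⟨hl _ _ (by omega), hl _ _ (by omega), hl _ _ (by omega), hl _ _ (by omega),
      hl _ _ (by omega), hl _ _ (by omega)⟩
  -- the forced sites
  have hAU : AU i e = ∅ := by
    rw [eq_empty_iff_forall_notMem]
    intro s hs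
    rw [NormD_mem_AU] at hs
    obtain ⟨ls, g, hg, hlt⟩ := hs
    have := lev_uc H (mem_uc.2 hg)
    have := hlow g (by omega)
    omega
  have hAL : AL i e ⊆ uc w ∪ uc w2 ∪ uc y := by
    intro s hs
    rw [NormD_mem_AL] at hs
    obtain ⟨ls, g, hg, hlt⟩ := hs
    have lg := lev_dc H (mem_dc.2 hg)
    have hg1 : g ∈ ({a, z', z2, w, w2, y} : Finset P) := by
      by_contra h
      have := hout g h
      omega
    have hsg : s ∈ uc g := mem_uc.2 hg
    simp only [mem_insert, mem_singleton] at hg1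
    rw [mem_union, mem_union]
    rcases hg1 with rfl | rfl | rfl | rfl | rfl | rfl
    · omega
    · omega
    · omega
    · exact Or.inl (Or.inl hsg)
    · exact Or.inl (Or.inr hsg)
    · exact Or.inr hsg
  have hp : 1 ≤ pL i e := by
    unfold Win.pL
    refine card_pos.2 ⟨a, mem_filter.2 ⟨mem_univ _, by omega, ?_, ?_⟩⟩
    · rintro ⟨g, hg, hlt⟩
      have lg := lev_dc H (mem_dc.2 hg)
      have := hout g (by
        simp only [mem_insert, mem_singleton, not_or]
        exact ⟨hl _ _ (by omega), hl _ _ (by omega), hl _ _ (by omega), hl _ _ (by omega),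
          hl _ _ (by omega), hl _ _ (by omega)⟩)
      omega
    · rintro ⟨g, hg, hle⟩
      have : g ∈ uc a := mem_uc.2 hg
      rw [hua, mem_insert, mem_singleton] at this
      rcases this with rfl | rfl <;> omega
  have h5 : 5 ≤ (uc w ∪ uc w2 ∪ uc y).card := by
    have h1 := card_le_card hAL
    unfold Xg.kp at hkp
    rw [hAU, card_empty] at hkp
    omega
  have c1 := uc_card_le H w
  have c2 := uc_card_le H w2
  have c3 := uc_card_le H y
  have u1 := card_union_le (uc w ∪ uc w2) (uc y)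
  have hnt : ∀ x x' : P, x ∈ uc z' → x' ∈ uc z' → x ≠ x' → (uc x).card = 2 →
      (uc x ∪ uc x').card + 1 ≤ (uc x).card + (uc x').card := by
    intro x x' hx hx' hxx hc
    obtain ⟨s, hs1, hs2⟩ := E.hT z' (by omega) x hx x' hx' hxx hc
    have h1 := card_union_add_card_inter (uc x) (uc x')
    have h2 : 1 ≤ (uc x ∩ uc x').card := card_pos.2 ⟨s, mem_inter.2 ⟨hs1, hs2⟩⟩
    omega
  have mw : w ∈ uc z' := by rw [huz]; simp
  have mw2 : w2 ∈ uc z' := by rw [huz]; simp
  have u2 := card_union_le (uc w) (uc w2)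
  have cw : (uc w).card = 2 := by
    by_contra hc
    by_cases hc2 : (uc w2).card = 2
    · have := hnt w2 w mw2 mw hww.symm hc2
      rw [union_comm] at this
      omega
    · omega
  have h6 := hnt w w2 mw mw2 hww cw
  refine ⟨a, z', z2, w, w2, y, ?_, ?_⟩
  · refine ⟨spt_mem O.spt (by omega), la, hua, huz, huz2, hne, hww, hyw, hyw2, cw, by omega,
      by omega, by omega⟩
  · have S : NfS i C a z' z2 w w2 y := ⟨spt_mem O.spt (by omega), la, hua, huz, huz2, hne, hww,
      hyw, hyw2, cw, by omega, by omega, by omega⟩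
    obtain ⟨v1, v2, v3, v4, v5, v6, v7⟩ := S.vals H
    funext v
    by_cases h1 : v = a
    · rw [h1, v1, ea]
    by_cases h2 : v = z'
    · rw [h2, v2, ez]
    by_cases h3 : v = z2
    · rw [h3, v3, ez2]
    by_cases h4 : v = w
    · rw [h4, v4, ew]
    by_cases h5 : v = w2
    · rw [h5, v5, ew2]
    by_cases h6 : v = y
    · rw [h6, v6, ey]
    rw [v7 v h1 h2 h3 h4 h5 h6]
    exact hout v (by simp only [mem_insert, mem_singleton, not_or]; exact ⟨h1, h2, h3, h4, h5, h6⟩)

/-! ### two blocks -/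

omit E K in
/-- two exact blocks of one core are disjoint -/
lemma Ex.disj (H : Gr P r) {t' : P × P} (X : Ex i e t) (X' : Ex i e t') (hne : t ≠ t') :
    Disjoint (WT t) (WT t') := by
  obtain ⟨w, w2, p, x, q, T, mW, mX⟩ := X.mW
  obtain ⟨w', w2', p', x', q', T', mW', mX'⟩ := X'.mW
  have e1 : e t.1 = 2 := by
    rw [X.lab t.1 (by unfold WT; simp)]
    exact (Tw.b H T).1
  have e2 : e t.2 = 1 := by
    rw [X.lab t.2 (by unfold WT; simp)]
    exact (Tw.b H T).2.1
  have e1' : e t'.1 = 2 := by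
    rw [X'.lab t'.1 (by unfold WT; simp)]
    exact (Tw.b H T').1
  have e2' : e t'.2 = 1 := by
    rw [X'.lab t'.2 (by unfold WT; simp)]
    exact (Tw.b H T').2.1
  have key : t.1 ≠ t'.1 := fun h => hne (X.same X' h)
  have near : ∀ a, a ∈ uc t.1 → a ∉ uc t'.1 := by
    intro a h1 h2
    have h3 : dc a = {t.1, t.2} := by
      rw [T.uz, mem_insert, mem_singleton] at h1
      rcases h1 with rfl | rfl
      · exact T.dw
      · exact T.dw2
    have h4 : dc a = {t'.1, t'.2} := by
      rw [T'.uz, mem_insert, mem_singleton] at h2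
      rcases h2 with rfl | rfl
      · exact T'.dw
      · exact T'.dw2
    have h5 : t.1 ∈ ({t'.1, t'.2} : Finset P) := by
      rw [← h4, h3]
      simp
    rw [mem_insert, mem_singleton] at h5
    rcases h5 with h5 | h5
    · exact key h5
    · rw [h5] at e1
      omega
  have uu : uc t.2 = uc t.1 := by rw [T.uz, T.uz']
  have uu' : uc t'.2 = uc t'.1 := by rw [T'.uz, T'.uz']
  have hw : w ∈ uc t.1 := by rw [T.uz]; simp
  rw [disjoint_left]
  intro v h1 h2
  have l1 := T.lz
  have l2 := (Tw.lv H T).1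
  have l1' := T'.lz
  have l2' := (Tw.lv H T').1
  unfold WT at h1 h2
  rw [mem_insert, mem_insert] at h1 h2
  have tri : ∀ v, (v = t.1 ∨ v = t.2) → uc v = uc t.1 := by
    rintro v (rfl | rfl)
    · rfl
    · exact uu
  have tri' : ∀ v, (v = t'.1 ∨ v = t'.2) → uc v = uc t'.1 := by
    rintro v (rfl | rfl)
    · rfl
    · exact uu'
  rcases h1 with h1 | h1 | h1 <;> rcases h2 with h2 | h2 | h2
  · exact near w hw (by rw [← tri' v (Or.inl h2), tri v (Or.inl h1)]; exact hw)
  · exact near w hw (by rw [← tri' v (Or.inr h2), tri v (Or.inl h1)]; exact hw)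
  · have := lev_uc H h2
    rw [h1] at this
    omega
  · exact near w hw (by rw [← tri' v (Or.inl h2), tri v (Or.inr h1)]; exact hw)
  · exact near w hw (by rw [← tri' v (Or.inr h2), tri v (Or.inr h1)]; exact hw)
  · have := lev_uc H h2
    rw [h1] at this
    omega
  · have := lev_uc H h1
    rw [h2] at this
    omega
  · have := lev_uc H h1
    rw [h2] at this
    omega
  · exact near v h1 h2

/-- the single blocks -/
lemma one_mem (T : IsTw i C t) : addT t (Z0 : P → ℕ) ∈ Lft i psi C Q 5 1 := by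
  refine mem_Lft.2 ⟨?_, (add_okc E.H T E.hM E.hC cpt_zero).2 z0_okc, ?_,
    add_CC E.H T cpt_zero (z0_CC E.H), ?_⟩
  · rw [add_sum E.H T cpt_zero]
    unfold Z0
    simp
  · rw [add_kp E.H T cpt_zero, z0_kp E.H E.hr]
    norm_num
  · rw [K.Q_add E T cpt_zero]
    exact K.Q_zero E

omit K in
/-- disjoint sites are compatible -/
lemma cpt_iff {t' : P × P} (T : IsTw i C t) (T' : IsTw i C t') :
    Cpt t (addT t' (Z0 : P → ℕ)) ↔ Disjoint (XT t) (XT t') := by
  have H := E.H
  have X := add_ex H T (cpt_zero (t := t))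
  have X' := add_ex H T' (cpt_zero (t := t'))
  have val : ∀ v, addT t' (Z0 : P → ℕ) v = 0 ↔ v ∉ WT t' := by
    intro v
    constructor
    · intro h hv
      have := (X'.levW H hv).2.1
      omega
    · intro h
      rw [add_out H T' h]
      rfl
  constructor
  · intro h
    rw [disjoint_left]
    intro x hx hx'
    unfold XT at hx'
    obtain ⟨a, ha, hxa⟩ := mem_biUnion.1 hx'
    have h1 := (h.X x hx).2.1 a (mem_dc.2 (mem_uc.1 hxa))
    rw [val] at h1
    apply h1
    unfold WT
    exact mem_insert_of_mem (mem_insert_of_mem ha)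
  · intro hd
    -- an element of both blocks gives a common site
    have hsite : ∀ s : P × P, IsTw i C s → ∀ v ∈ WT s, ∃ a ∈ uc s.1, a = v ∨ a ∈ uc v := by
      intro s Ts v hv
      obtain ⟨w, w2, p, x, q, TT⟩ := Ts.tw
      unfold WT at hv
      rw [mem_insert, mem_insert] at hv
      have hw : w ∈ uc s.1 := by rw [TT.uz]; simp
      rcases hv with rfl | rfl | hv
      · exact ⟨w, hw, Or.inr hw⟩
      · exact ⟨w, hw, Or.inr (by rw [TT.uz']; simp)⟩
      · exact ⟨v, hv, Or.inl rfl⟩
    have hnear : ∀ a, a ∈ WT t → a ∈ WT t' → lev a = i + 1 → False := by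
      intro a h1 h2 hl
      have h3 := ((X.levW H h1).2.2.2 hl).1
      have h4 := ((X'.levW H h2).2.2.2 hl).1
      obtain ⟨s, hs⟩ := uc_nonempty H (x := a) (by omega)
      have h5 : s ∈ XT t := by
        unfold XT
        exact mem_biUnion.2 ⟨a, h3, hs⟩
      have h6 : s ∈ XT t' := by
        unfold XT
        exact mem_biUnion.2 ⟨a, h4, hs⟩
      exact disjoint_left.1 hd h5 h6
    have hboth : ∀ v, v ∈ WT t → v ∈ WT t' → False := by
      intro v h1 h2
      by_cases hl : lev v = i + 1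
      · exact hnear v h1 h2 hl
      · have hl2 : lev v = i + 2 := by
          rcases (X.levW H h1).1 with h | h
          · exact absurd h hl
          · exact h
        obtain ⟨a, ha⟩ := uc_nonempty H (x := v) (by omega)
        have la := lev_uc H ha
        have h3 : a ∈ WT t := by
          rcases X.ucW H h1 ha with h | ⟨h, -⟩
          · exact h
          · omega
        have h4 : a ∈ WT t' := by
          rcases X'.ucW H h2 ha with h | ⟨h, -⟩
          · exact h
          · omega
        exact hnear a h3 h4 (by omega)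
    refine ⟨fun v hv => ⟨(val v).2 (fun h => hboth v hv h), fun z hz => (val z).2 (fun h => ?_)⟩,
      fun x hx => ⟨(val x).2 (fun h => ?_), fun v hv => (val v).2 (fun h => ?_),
        fun u hu => (val u).2 (fun h => ?_)⟩⟩
    · rcases X'.ucW H h (mem_uc.2 (mem_dc.1 hz)) with h1 | ⟨h1, h2⟩
      · exact hboth v hv h1
      · have l1 := (T'.Xo H h2).2
        have l2 := (X.levW H hv).1
        omega
    · have l1 := (T.Xo H hx).2
      have l2 := (X'.levW H h).1
      omega
    · have l1 := (T.Xo H hx).2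
      have lv := lev_dc H hv
      rcases X'.ucW H h (mem_uc.2 (mem_dc.1 hv)) with h1 | ⟨-, h1⟩
      · have l2 := (X'.levW H h1).1
        omega
      · exact disjoint_left.1 hd hx h1
    · have l1 := (T.Xo H hx).2
      have lu := lev_uc H hu
      have l2 := (X'.levW H h).1
      omega

open Classical in
/-- pairs of twin blocks with disjoint sites -/
noncomputable def PrT (i : ℕ) (C : Finset P) : Finset (Finset (P × P)) :=
  ((TWC i C).powersetCard 2).filter (fun s => ∀ t ∈ s, ∀ t' ∈ s, t ≠ t' →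
    Disjoint (XT t) (XT t'))

open Classical in
/-- the inner joins over a double element and a pendant with five sites -/
noncomputable def NfC (i : ℕ) (C : Finset P) : Finset P :=
  univ.filter (fun a => ∃ z z2 w w2 y, NfS i C a z z2 w w2 y)

omit E K in
lemma mem_NfC {a : P} : a ∈ NfC i C ↔ ∃ z z2 w w2 y, NfS i C a z z2 w w2 y := by
  classical
  unfold NfC
  rw [mem_filter]
  exact ⟨fun h => h.2, fun h => ⟨mem_univ _, h⟩⟩

omit E K in
lemma mem_PrT {s : Finset (P × P)} : s ∈ PrT i C ↔ (∃ t t', t ≠ t' ∧ s = {t, t'} ∧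
    IsTw i C t ∧ IsTw i C t' ∧ Disjoint (XT t) (XT t')) := by
  classical
  unfold PrT
  rw [mem_filter, mem_powersetCard]
  constructor
  · rintro ⟨⟨h1, h2⟩, h3⟩
    obtain ⟨t, t', hne, rfl⟩ := card_eq_two.1 h2
    have m1 : t ∈ ({t, t'} : Finset (P × P)) := by simp
    have m2 : t' ∈ ({t, t'} : Finset (P × P)) := by simp
    exact ⟨t, t', hne, rfl, mem_TWC.1 (h1 m1), mem_TWC.1 (h1 m2), h3 t m1 t' m2 hne⟩
  · rintro ⟨t, t', hne, rfl, T, T', hd⟩
    refine ⟨⟨?_, card_pair hne⟩, ?_⟩
    · intro x hx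
      rw [mem_insert, mem_singleton] at hx
      rcases hx with rfl | rfl
      · exact mem_TWC.2 T
      · exact mem_TWC.2 T'
    · intro a ha b hb hab
      rw [mem_insert, mem_singleton] at ha hb
      rcases ha with rfl | rfl <;> rcases hb with rfl | rfl
      · exact absurd rfl hab
      · exact hd
      · exact hd.symm
      · exact absurd rfl hab

/-- THE LEFTOVER SUM (10,3) -/
theorem sum103 : ∑ e ∈ Lft i psi C Q 10 3, sg i e =
    ((PrT i C).card : ℤ) + ((NfC i C).card : ℤ) := by
  classical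
  have H := E.H
  have hsplit : ∑ e ∈ Lft i psi C Q 10 3, sg i e =
      ∑ e ∈ (Lft i psi C Q 10 3).filter (fun e => ∃ a ∈ NfC i C, e = eN a), sg i e +
      ∑ e ∈ (Lft i psi C Q 10 3).filter (fun e => ¬ ∃ a ∈ NfC i C, e = eN a), sg i e :=
    (sum_filter_add_sum_filter_not _ _ _).symm
  have h1 : ∑ e ∈ (Lft i psi C Q 10 3).filter (fun e => ∃ a ∈ NfC i C, e = eN a), sg i e =
      ∑ _a ∈ NfC i C, (1 : ℤ) := by
    symm
    refine sum_bij (fun a _ => eN a) ?_ ?_ ?_ ?_
    · intro a ha
      obtain ⟨z, z2, w, w2, y, S⟩ := mem_NfC.1 ha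
      exact mem_filter.2 ⟨(S.mem E K).1, a, ha, rfl⟩
    · intro a ha b hb heq
      obtain ⟨z, z2, w, w2, y, S⟩ := mem_NfC.1 ha
      have heq' : eN a = eN b := heq
      have h2 := (S.vals H).1
      rw [heq'] at h2
      by_contra hne
      unfold eN at h2
      rw [if_neg hne] at h2
      split_ifs at h2 <;> omega
    · intro e he
      rw [mem_filter] at he
      obtain ⟨-, a, ha, rfl⟩ := he
      exact ⟨a, ha, rfl⟩
    · intro a ha
      obtain ⟨z, z2, w, w2, y, S⟩ := mem_NfC.1 ha
      exact (S.mem E K).2.symm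
  have h2 : ∑ e ∈ (Lft i psi C Q 10 3).filter (fun e => ¬ ∃ a ∈ NfC i C, e = eN a), sg i e =
      ∑ _s ∈ PrT i C, (1 : ℤ) := by
    symm
    have pair : ∀ t t' : P × P, t ≠ t' →
        (fun v => ∑ x ∈ ({t, t'} : Finset (P × P)), bT x v) = addT t (addT t' (Z0 : P → ℕ)) := by
      intro t t' hne
      funext v
      rw [Finset.sum_pair hne]
      unfold addT Z0
      omega
    have facts : ∀ t t' : P × P, t ≠ t' → IsTw i C t → IsTw i C t' → Disjoint (XT t) (XT t') →
        Cpt t (addT t' (Z0 : P → ℕ)) ∧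
        addT t (addT t' (Z0 : P → ℕ)) ∈ Lft i psi C Q 10 3 ∧
        sg i (addT t (addT t' (Z0 : P → ℕ))) = 1 ∧
        Ex i (addT t (addT t' (Z0 : P → ℕ))) t ∧
        Ex i (addT t (addT t' (Z0 : P → ℕ))) t' := by
      intro t t' hne T T' hd
      have hc := (cpt_iff E T T').2 hd
      have hc' := (cpt_iff E T' T).2 hd.symm
      have hswap : addT t (addT t' (Z0 : P → ℕ)) = addT t' (addT t Z0) := by
        funext v
        unfold addT Z0
        omega
      refine ⟨hc, add_mem E K T hc (one_mem E K T'), ?_, add_ex H T hc, ?_⟩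
      · rw [add_sg H T hc, add_sg H T' cpt_zero, z0_sg H E.hr]
        norm_num
      · rw [hswap]
        exact add_ex H T' hc'
    refine sum_bij (fun s _ => fun v => ∑ x ∈ s, bT x v) ?_ ?_ ?_ ?_
    · intro s hs
      obtain ⟨t, t', hne, rfl, T, T', hd⟩ := mem_PrT.1 hs
      obtain ⟨hc, hm, -, X, X'⟩ := facts t t' hne T T' hd
      show (fun v => ∑ x ∈ ({t, t'} : Finset (P × P)), bT x v) ∈ _
      rw [pair t t' hne]
      refine mem_filter.2 ⟨hm, ?_⟩
      rintro ⟨a, ha, heq⟩
      obtain ⟨z, z2, w, w2, y, S⟩ := mem_NfC.1 ha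
      have h3 := (S.vals H).1
      have la := S.la
      have n1 : a ∉ WT t := fun h => by have := (X.levW H h).1; omega
      have n2 : a ∉ WT t' := fun h => by have := (X'.levW H h).1; omega
      rw [← heq, add_out H T n1, add_out H T' n2] at h3
      exact absurd h3 (by unfold Z0; omega)
    · intro s hs s' hs' heq
      obtain ⟨t, t', hne, rfl, T, T', hd⟩ := mem_PrT.1 hs
      obtain ⟨a, a', hne', rfl, A, A', hd'⟩ := mem_PrT.1 hs'
      have heq' : (fun v => ∑ x ∈ ({t, t'} : Finset (P × P)), bT x v) =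
          (fun v => ∑ x ∈ ({a, a'} : Finset (P × P)), bT x v) := heq
      rw [pair t t' hne, pair a a' hne'] at heq'
      obtain ⟨hc, hm, -, X, X'⟩ := facts t t' hne T T' hd
      obtain ⟨hc2, hm2, -, Y, Y'⟩ := facts a a' hne' A A' hd'
      rw [← heq'] at Y Y'
      have hcard := (lft_ineq E K hm).2
      have key : ∀ b, Ex i (addT t (addT t' (Z0 : P → ℕ))) b → b = t ∨ b = t' := by
        intro b hb
        by_contra hno
        rw [not_or] at hno
        have k1 := X.twl H
        have k2 := X'.twl H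
        have k3 := hb.twl H
        have n1 : t.1 ≠ t'.1 := fun h => hne (X.same X' h)
        have n2 : b.1 ≠ t.1 := fun h => hno.1 (hb.same X h)
        have n3 : b.1 ≠ t'.1 := fun h => hno.2 (hb.same X' h)
        have h4 : ({b.1, t.1, t'.1} : Finset P) ⊆ TWL i (addT t (addT t' (Z0 : P → ℕ))) := by
          intro v hv
          simp only [mem_insert, mem_singleton] at hv
          rcases hv with rfl | rfl | rfl <;> assumption
        have h5 := card_le_card h4
        have h6 : b.1 ∉ ({t.1, t'.1} : Finset P) := by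
          simp only [mem_insert, mem_singleton, not_or]
          exact ⟨n2, n3⟩
        rw [card_insert_of_notMem h6, card_pair n1] at h5
        omega
      have k1 := key a Y
      have k2 := key a' Y'
      rcases k1 with rfl | rfl <;> rcases k2 with rfl | rfl
      · exact absurd rfl hne'
      · rfl
      · rw [pair_comm]
      · exact absurd rfl hne'
    · intro e he
      rw [mem_filter] at he
      obtain ⟨he, hno⟩ := he
      obtain ⟨hsum, O, hkp, hCC, hnQ⟩ := mem_Lft.1 he
      have hN : NFL i e = ∅ := by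
        by_contra hN
        obtain ⟨a, z, z2, w, w2, y, S, heq⟩ := nf_eN E K he (nonempty_iff_ne_empty.2 hN)
        exact hno ⟨a, mem_NfC.2 ⟨z, z2, w, w2, y, S⟩, heq⟩
      obtain ⟨g1, g2⟩ := lft_ineq E K he
      rw [hN, card_empty] at g1
      have g3 := (TWx_card (i := i) (e := e)).1
      have g4 : (TWLx i e).card = 2 := by omega
      obtain ⟨z1, z2, hz12, hz⟩ := card_eq_two.1 g4
      obtain ⟨z1', X1⟩ := twx_ex E O (show z1 ∈ TWLx i e by rw [hz]; simp)
      obtain ⟨z2', X2⟩ := twx_ex E O (show z2 ∈ TWLx i e by rw [hz]; simp)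
      have hne : (z1, z1') ≠ (z2, z2') := fun h => hz12 (congrArg Prod.fst h)
      have hdW := X1.disj H X2 hne
      have hout : ∀ v, v ∉ WT (z1, z1') → v ∉ WT (z2, z2') → e v = 0 := by
        intro v hv1 hv2
        have h3 : v ∉ WT (z1, z1') ∪ WT (z2, z2') := by
          rw [mem_union, not_or]
          exact ⟨hv1, hv2⟩
        have h4 : ∑ a ∈ insert v (WT (z1, z1') ∪ WT (z2, z2')), e a ≤ ∑ a, e a :=
          sum_le_sum_of_subset (subset_univ _)
        rw [sum_insert h3, sum_union hdW, X1.sumW H, X2.sumW H, hsum] at h4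
        omega
      have hrk : ∀ s : P × P, Ex i e s → IsTw i C s := by
        intro s Xs
        refine Xs.isTw H O.spt (Xs.rk H ?_ hCC)
        intro a ha
        obtain ⟨w, w2, p, x, q, T⟩ := Xs.tw
        have l1 := lev_dc H ha
        have l2 := T.lz
        rw [hout a (fun h => by have := (X1.levW H h).1; omega)
          (fun h => by have := (X2.levW H h).1; omega)]
        omega
      have T1 := hrk _ X1
      have T2 := hrk _ X2
      have hd : Disjoint (XT (z1, z1')) (XT (z2, z2')) := by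
        rw [disjoint_left]
        intro x hx1 hx2
        unfold XT at hx2
        obtain ⟨a, ha, hxa⟩ := mem_biUnion.1 hx2
        have haW : a ∈ WT (z2, z2') := by
          unfold WT
          exact mem_insert_of_mem (mem_insert_of_mem ha)
        have h3 := X1.dX x hx1 a (mem_dc.2 (mem_uc.1 hxa)) (disjoint_right.1 hdW haW)
        have h4 := (X2.levW H haW).2.1
        omega
      have heq : e = addT (z1, z1') (addT (z2, z2') (Z0 : P → ℕ)) := by
        funext v
        by_cases hv1 : v ∈ WT (z1, z1')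
        · unfold addT
          rw [T2.bo H (disjoint_left.1 hdW hv1), X1.lab v hv1]
          unfold Z0
          omega
        · by_cases hv2 : v ∈ WT (z2, z2')
          · unfold addT
            rw [T1.bo H hv1, X2.lab v hv2]
            unfold Z0
            omega
          · unfold addT
            rw [T1.bo H hv1, T2.bo H hv2, hout v hv1 hv2]
            rfl
      refine ⟨{(z1, z1'), (z2, z2')}, mem_PrT.2 ⟨_, _, hne, rfl, T1, T2, hd⟩, ?_⟩
      show (fun v => ∑ x ∈ ({(z1, z1'), (z2, z2')} : Finset (P × P)), bT x v) = e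
      rw [pair _ _ hne]
      exact heq.symm
    · intro s hs
      obtain ⟨t, t', hne, rfl, T, T', hd⟩ := mem_PrT.1 hs
      show 1 = sg i (fun v => ∑ x ∈ ({t, t'} : Finset (P × P)), bT x v)
      rw [pair t t' hne]
      exact (facts t t' hne T T' hd).2.2.1.symm
  rw [hsplit, h1, h2, sum_const, sum_const, nsmul_eq_mul, nsmul_eq_mul]
  ring

end main

end Pool.Agent.GaussPoset.Win.Rd
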