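import Pool.Agent.W_448rd_h10.RdT
import Pool.Agent.W_448pn_h63.PnO

/-!
MP_448cb3_co, G2, window `j - 1`: the leftover cores of the energy three, part 1: the charged
elements.  helper10.
-/

namespace Pool.Agent.GaussPoset.Win.Rd

set_option linter.unusedSectionVars false

open Finset I2 K2
open Pool.Agent.GaussPoset.Win.H2 (SdT NoT low_T up_T sum_all)
open Pool.Agent.GaussPoset.Win.Xg (FlS Zr LoP UpP FP rm rm_le rm_of rm_y rm_p Okc Adm kp Lft mem_Lft)
open Pool.Agent.GaussPoset.Win.SO (con on Num num_Chs num_ZL num_ZU num_FL num_FU Chs_cases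
  self_con mem_con con_sub con_cls con_step sit_con sit_sub sit_ne FL_data FU_data con_FL con_FU
  con_two_low con_two_upp BL BU nL nU mem_BL mem_BU)
open Pool.Agent.GaussPoset.Win.Pn (on_one on_zero on_pos core_on adm_on kp_on cc_on)

universe u

variable {P : Type u} [Fintype P] [PartialOrder P] [DecidableEq P] {r i : ℕ} {e B : P → ℕ}
variable {psi : P → P} {C : Finset P} {Q : (P → ℕ) → Prop} {t : P × P}

lemma Ev.env (E : Ev r i psi C) : Pn.Env r i psi C := ⟨E.H, E.hi, E.hr, E.hM, E.hC⟩

lemma Ev.fr (E : Ev r i psi C) : Pn.Fr r i psi C := ⟨E.env, E.G, E.hT, E.hQ⟩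

lemma sg_on (E : Ev r i psi C) {s : Finset P} (hs : SO.Cls i s) :
    sg i (on s) = (-1) ^ ((BL i s).card + (nU i s).card) := by
  have := Pn.sgn_on E.env hs
  unfold Pn.sgn at this
  unfold sg
  exact this

/-- elements of the cone of a charged element -/
lemma con_side (H : Gr P r) {z v : P} (hz : z ∈ Chs i C) (hv : v ∈ con i z) :
    (i < lev z ∧ i < lev v) ∨ (lev z < i ∧ lev v < i) := by
  have N := num_Chs H hz
  rcases Nat.lt_or_gt_of_ne N.ns with h | h
  · exact Or.inr ⟨h, (SO.con_upp H h hv).1⟩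
  · exact Or.inl ⟨h, (SO.con_low H h hv).1⟩

/-- a pendant over a double element in the cone of a charged element -/
lemma con_pen (H : Gr P r) {z p y : P} (hz : z ∈ Chs i C) (hp : p ∈ con i z)
    (lp : lev p = i + 2) (up : uc p = {y}) (cy : (uc y).card = 2) (ly : lev y = i + 1) :
    uc z = {p} ∧ z ∈ dc p ∧ z ≠ p ∧ z ≠ y ∧ lev z = i + 3 := by
  rcases Chs_cases H hz with ⟨h, l⟩ | ⟨h, l⟩ | ⟨h, l⟩ | ⟨h, l⟩
  · exfalso
    have h2 := (mem_ZL.1 h).2.2
    have h3 := card_uc_of_up H l h2
    rw [con_two_low H l, mem_insert] at hp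
    rcases hp with hp | hp
    · rw [← hp, up, card_singleton] at h3
      omega
    · have := lev_uc H hp
      omega
  · exfalso
    have := (con_side H hz hp)
    omega
  · obtain ⟨p1, y1, a1, a2, a3, a4, a5, a6⟩ := FL_data H h
    rw [con_FL H l a1 a2, mem_insert, mem_insert, mem_singleton] at hp
    have h1 : p = p1 := by
      rcases hp with hp | hp | hp
      · rw [hp] at lp
        omega
      · exact hp
      · rw [hp] at lp
        omega
    rw [h1]
    refine ⟨a1, ?_, ?_, ?_, l⟩
    · rw [mem_dc, ← mem_uc, a1]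
      simp
    · intro h2
      rw [h2] at l
      omega
    · intro h2
      rw [h2] at l
      omega
  · exfalso
    have := (con_side H hz hp)
    omega

lemma con_penU (H : Gr P r) {z p y : P} (hz : z ∈ Chs i C) (hp : p ∈ con i z)
    (lp : lev p + 2 = i) (up : dc p = {y}) (cy : (dc y).card = 2) (ly : lev y + 1 = i) :
    dc z = {p} ∧ z ∈ uc p ∧ z ≠ p ∧ z ≠ y ∧ lev z + 3 = i := by
  rcases Chs_cases H hz with ⟨h, l⟩ | ⟨h, l⟩ | ⟨h, l⟩ | ⟨h, l⟩
  · exfalso
    have := (con_side H hz hp)
    omega
  · exfalso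
    have h2 := (mem_ZU.1 h).2.2
    have h3 := card_dc_of_dn H l h2
    rw [con_two_upp H l, mem_insert] at hp
    rcases hp with hp | hp
    · rw [← hp, up, card_singleton] at h3
      omega
    · have := lev_dc H hp
      omega
  · exfalso
    have := (con_side H hz hp)
    omega
  · obtain ⟨p1, y1, a1, a2, a3, a4, a5, a6⟩ := FU_data H h
    rw [con_FU H l a1 a2, mem_insert, mem_insert, mem_singleton] at hp
    have h1 : p = p1 := by
      rcases hp with hp | hp | hp
      · rw [hp] at lp
        omega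
      · exact hp
      · rw [hp] at lp
        omega
    rw [h1]
    refine ⟨a1, ?_, ?_, ?_, l⟩
    · rw [mem_uc, ← mem_dc, a1]
      simp
    · intro h2
      rw [h2] at l
      omega
    · intro h2
      rw [h2] at l
      omega

/-- the cone determines the charged element -/
lemma con_inj (H : Gr P r) {z z' : P} (hz : z ∈ Chs i C) (hz' : z' ∈ Chs i C)
    (h : (on (con i z) : P → ℕ) = on (con i z')) : z = z' := by
  have N := num_Chs H hz
  have N' := num_Chs H hz'
  have h1 : z ∈ con i z' := by
    rw [← on_pos, ← h, on_pos]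
    exact self_con N.ns
  have h2 : z' ∈ con i z := by
    rw [← on_pos, h, on_pos]
    exact self_con N'.ns
  rcases mem_con.1 h1 with h3 | h3
  · rcases mem_con.1 h2 with h4 | h4
    · exact le_antisymm h4.2 h3.2
    · have := con_side H hz' h1
      omega
  · rcases mem_con.1 h2 with h4 | h4
    · have := con_side H hz' h1
      omega
    · exact le_antisymm h3.2 h4.2

lemma on_sum3 {s : Finset P} : ∑ x, (on s : P → ℕ) x = s.card := by
  classical
  unfold SO.on
  rw [sum_ite_mem, univ_inter, sum_const, smul_eq_mul, mul_one]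

section mem

variable (E : Ev r i psi C) (K : Kls i psi C Q)
include E K

/-- a charged element gives a leftover core -/
lemma chs_mem {z : P} (hz : z ∈ Chs i C) : on (con i z) ∈ Lft i psi C Q 3 0 ∧
    sg i (on (con i z)) = chg i C z := by
  classical
  have H := E.H
  have N := num_Chs H hz
  have hcls := con_cls H N.ns
  have hdj : Disjoint (BL i (con i z)) (BU i (con i z)) := by
    rcases Nat.lt_or_gt_of_ne N.ns with h | h
    · rw [SO.BL_con_upp H h]
      exact disjoint_empty_left _
    · rw [SO.BU_con_low H h]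
      exact disjoint_empty_right _
  have hlv : lev z = i + 2 ∨ lev z + 2 = i ∨ lev z = i + 3 ∨ lev z + 3 = i := by
    rcases Chs_cases H hz with ⟨-, l⟩ | ⟨-, l⟩ | ⟨-, l⟩ | ⟨-, l⟩ <;> omega
  refine ⟨mem_Lft.2 ⟨?_, ⟨?_, ?_, adm_on E.env hcls hdj⟩, ?_, cc_on E.env hcls, ?_⟩, ?_⟩
  · rw [on_sum3, N.three]
  · exact SO.on_spt (con_sub H E.hC N.mC N.ns)
  · apply core_on
    intro y hy
    have hne : lev y = i + 1 ∨ lev y + 1 = i → y ≠ z := by
      rintro h rfl
      omega
    refine ⟨fun h => ?_, fun h => ?_⟩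
    · obtain ⟨x, hx, h1 | h1⟩ := con_step H N.ns hy (hne (Or.inl h))
      · exact ⟨x, hx, h1.2⟩
      · omega
    · obtain ⟨x, hx, h1 | h1⟩ := con_step H N.ns hy (hne (Or.inr h))
      · omega
      · exact ⟨x, hx, h1.2⟩
  · rw [kp_on E.env hcls]
    have := N.num
    push_cast
    omega
  · intro hQ
    rcases K with ⟨-, h⟩ | ⟨y, p, w, u, v, v', F, h5, h6, h7, h8, h9⟩
    · rw [h] at hQ
      exact hQ
    · rw [h9] at hQ
      have hlv := F.lv H
      have c1 : (uc y).card = 2 := by rw [F.uy, card_pair F.ne]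
      have c2 : (dc w).card = 2 := by rw [F.dw, card_pair F.ne]
      rcases hQ with ⟨q1, q2, q3⟩ | ⟨q1, q2, q3⟩
      · have hp : p ∈ con i z := on_pos.1 (by omega)
        obtain ⟨a1, a2, a3, a4, -⟩ := con_pen H hz hp (by omega) F.up c1 F.ly
        have := q3.dp z a2
        rw [rm_of a4 a3, on_one (self_con N.ns)] at this
        omega
      · have hp : u ∈ con i z := on_pos.1 (by omega)
        obtain ⟨a1, a2, a3, a4, -⟩ := con_penU H hz hp (by omega) F.du c2 F.lw
        have := q3.uu z a2
        rw [rm_of a4 a3, on_one (self_con N.ns)] at this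
        omega
  · rw [sg_on E hcls, N.sgn]

end mem

section cpt

/-- compatibility of a cone -/
lemma cpt_con (H : Gr P r) (hr : i + 1 ≤ r) (T : IsTw i C t) {z : P} (hz : lev z ≠ i) :
    Cpt t (on (con i z)) ↔ Disjoint (sit i z) (XT t) := by
  classical
  have hcls := con_cls H hz
  obtain ⟨w, w2, p, x, q, T'⟩ := T.tw
  have hlv := T'.lv H
  have hW : WT t = {t.1, t.2, w, w2} := T'.W
  have hX : XT t = {p, x, q} := T'.X
  have lX : ∀ s ∈ XT t, lev s = i := by
    intro s hs
    rw [hX, mem_insert, mem_insert, mem_singleton] at hs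
    rcases hs with rfl | rfl | rfl <;> omega
  have lW : ∀ s ∈ WT t, lev s = i + 1 ∨ lev s = i + 2 := by
    intro s hs
    rw [hW, mem_insert, mem_insert, mem_insert, mem_singleton] at hs
    have := T'.lz
    rcases hs with rfl | rfl | rfl | rfl <;> omega
  have sW : ∀ s ∈ WT t, sit i s ⊆ XT t := by
    intro s hs a ha
    have l1 := lW s hs
    rw [sit_low H (by omega)] at ha
    rw [hX]
    have hsub : ∀ s', s' = w ∨ s' = w2 → ∀ a, s' ≤ a → lev a = i → a ∈ ({p, x, q} : Finset P) := by
      intro s' hs' a ha la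
      have l2 : lev s' = i + 1 := by rcases hs' with rfl | rfl <;> omega
      have hlt : s' < a := by
        apply lt_of_le_of_ne ha
        rintro rfl
        omega
      obtain ⟨b, hb1, hb2⟩ := exists_covBy_le_of_lt hlt
      have lb := lev_uc H (mem_uc.2 hb1)
      have hab : a = b := by
        by_contra hne
        have := lev_strict H (lt_of_le_of_ne hb2 (Ne.symm hne))
        omega
      rw [hab]
      rcases hs' with rfl | rfl
      · have := mem_uc.2 hb1
        rw [T'.uw, mem_insert, mem_singleton] at this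
        rcases this with rfl | rfl <;> simp
      · have := mem_uc.2 hb1
        rw [T'.uw2, mem_insert, mem_singleton] at this
        rcases this with rfl | rfl <;> simp
    have ha2 : s ≤ a ∧ lev a = i := ⟨(mem_sts.1 ha).2.le, (mem_sts.1 ha).1⟩
    rw [hW, mem_insert, mem_insert, mem_insert, mem_singleton] at hs
    have key : ∀ s', s' = t.1 ∨ s' = t.2 → s' ≤ a → a ∈ ({p, x, q} : Finset P) := by
      intro s' hs' hle
      have l2 : lev s' = i + 2 := by
        have := T'.lz
        rcases hs' with rfl | rfl <;> omega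
      have hlt : s' < a := by
        apply lt_of_le_of_ne hle
        rintro rfl
        omega
      obtain ⟨b, hb1, hb2⟩ := exists_covBy_le_of_lt hlt
      have h1 := mem_uc.2 hb1
      have h2 : b = w ∨ b = w2 := by
        rcases hs' with rfl | rfl
        · rw [T'.uz, mem_insert, mem_singleton] at h1
          exact h1
        · rw [T'.uz', mem_insert, mem_singleton] at h1
          exact h1
      exact hsub b h2 a hb2 ha2.2
    rcases hs with h | h | h | h
    · exact key s (Or.inl h) ha2.1
    · exact key s (Or.inr h) ha2.1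
    · exact hsub s (Or.inl h) a ha2.1 ha2.2
    · exact hsub s (Or.inr h) a ha2.1 ha2.2
  have hsc := sit_con H hz
  constructor
  · intro h
    rw [disjoint_left]
    intro s hs hs'
    rw [← hsc, mem_union, mem_BL, mem_BU] at hs
    obtain ⟨h1, h2, h3⟩ := h.X s hs'
    rcases hs with ⟨-, a, ha, hb⟩ | ⟨-, a, ha, hb⟩
    · have := h2 a (mem_dc.2 hb)
      rw [on_one ha] at this
      omega
    · have := h3 a (mem_uc.2 hb)
      rw [on_one ha] at this
      omega
  · intro h
    have key : ∀ s ∈ WT t, s ∉ con i z := by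
      intro s hs hs'
      obtain ⟨a, ha⟩ := sit_ne H (by omega : i ≤ r) (y := s) (by have := lW s hs; omega)
      exact disjoint_left.1 h (sit_sub H hz hs' ha) (sW s hs ha)
    refine ⟨fun v hv => ⟨on_zero (key v hv), fun c hc => on_zero ?_⟩,
      fun s hs => ⟨on_zero ?_, fun a ha => on_zero ?_, fun a ha => on_zero ?_⟩⟩
    · intro hc'
      have l1 := lW v hv
      have l2 := lev_dc H hc
      exact key v hv (hcls.lo c hc' (by omega) v (mem_dc.1 hc))
    · intro hs'
      exact hcls.ns s hs' (lX s hs)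
    · intro ha'
      refine (disjoint_left.1 h : ∀ ⦃a⦄, a ∈ sit i z → a ∉ XT t) (a := s) ?_ hs
      rw [← hsc, mem_union, mem_BL]
      exact Or.inl ⟨lX s hs, a, ha', mem_dc.1 ha⟩
    · intro ha'
      refine (disjoint_left.1 h : ∀ ⦃a⦄, a ∈ sit i z → a ∉ XT t) (a := s) ?_ hs
      rw [← hsc, mem_union, mem_BU]
      exact Or.inr ⟨lX s hs, a, ha', mem_uc.1 ha⟩

end cpt

end Pool.Agent.GaussPoset.Win.Rd
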