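import Pool.Agent.W_448rd_h10.RdU

/-!
MP_448cb3_co, G2, window `j - 1`: the leftover cores of the energy three, part 2: the cores over
the pendant.  helper10.
-/

namespace Pool.Agent.GaussPoset.Win.Rd

set_option linter.unusedSectionVars false

open Finset I2 K2
open Pool.Agent.GaussPoset.Win.H2 (SdT NoT low_T up_T sum_all)
open Pool.Agent.GaussPoset.Win.Xg (FlS Zr LoP UpP FP rm rm_le rm_of rm_y rm_p Okc Adm kp Lft mem_Lft)
open Pool.Agent.GaussPoset.Win.SO (con on Num num_Chs num_ZL num_ZU num_FL num_FU Chs_cases
  self_con mem_con con_sub con_cls con_step sit_con sit_sub sit_ne FL_data FU_data con_FL con_FU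
  con_two_low con_two_upp BL BU nL nU mem_BL mem_BU)
open Pool.Agent.GaussPoset.Win.Pn (on_one on_zero on_pos core_on adm_on kp_on cc_on cc_none)

universe u

variable {P : Type u} [Fintype P] [PartialOrder P] [DecidableEq P] {r i : ℕ} {e B : P → ℕ}
variable {psi : P → P} {C : Finset P} {Q : (P → ℕ) → Prop} {t : P × P} {y p w u v v' a : P}

/-- label one on `y`, `p`, and one more at `a` -/
def pa (y p a : P) : P → ℕ := fun z => (if z = y ∨ z = p then 1 else 0) + if z = a then 1 else 0

lemma pa_off {z : P} (h1 : z ≠ y) (h2 : z ≠ p) (h3 : z ≠ a) : pa y p a z = 0 := by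
  unfold pa
  rw [if_neg (by tauto), if_neg h3]

lemma pa_y (h : a ≠ y) : pa y p a y = 1 := by
  unfold pa
  rw [if_pos (Or.inl rfl), if_neg (Ne.symm h)]

lemma pa_p (h : a ≠ p) : pa y p a p = 1 := by
  unfold pa
  rw [if_pos (Or.inr rfl), if_neg (Ne.symm h)]

lemma pa_yy : pa y p y y = 2 := by
  unfold pa
  rw [if_pos (Or.inl rfl), if_pos rfl]

lemma pa_pp : pa y p p p = 2 := by
  unfold pa
  rw [if_pos (Or.inr rfl), if_pos rfl]

lemma pa_a (h1 : a ≠ y) (h2 : a ≠ p) : pa y p a a = 1 := by
  unfold pa
  rw [if_neg (by tauto), if_pos rfl]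

lemma pa_sum (h : y ≠ p) : ∑ z, pa y p a z = 3 := by
  classical
  unfold pa
  rw [sum_add_distrib, sum_ite_eq' univ a, if_pos (mem_univ a)]
  have : ∀ z : P, (if z = y ∨ z = p then 1 else 0) =
      (if z = y then 1 else 0) + if z = p then 1 else 0 := by
    intro z
    by_cases h1 : z = y
    · rw [if_pos (Or.inl h1), if_pos h1, if_neg (by rintro rfl; exact h h1.symm)]
    · by_cases h2 : z = p
      · rw [if_pos (Or.inr h2), if_neg h1, if_pos h2]
      · rw [if_neg (by tauto), if_neg h1, if_neg h2]
  rw [sum_congr rfl fun z _ => this z, sum_add_distrib, sum_ite_eq' univ y, sum_ite_eq' univ p,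
    if_pos (mem_univ y), if_pos (mem_univ p)]

lemma pa_inj {b : P} (h : pa y p a = pa y p b) : a = b := by
  have := congrFun h a
  unfold pa at this
  rw [if_pos rfl] at this
  by_contra hne
  rw [if_neg hne] at this
  omega

lemma pa_pos {z : P} (h : 1 ≤ pa y p a z) : z = y ∨ z = p ∨ z = a := by
  by_contra hc
  push Not at hc
  rw [pa_off hc.1 hc.2.1 hc.2.2] at h
  omega

lemma pa_on (h1 : a ≠ y) (h2 : a ≠ p) : pa y p a = on {y, p, a} := by
  funext z
  unfold SO.on pa
  by_cases hz1 : z = y
  · rw [if_pos (Or.inl hz1), if_neg (by rw [hz1]; exact Ne.symm h1), if_pos (by simp [hz1])]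
  · by_cases hz2 : z = p
    · rw [if_pos (Or.inr hz2), if_neg (by rw [hz2]; exact Ne.symm h2), if_pos (by simp [hz2])]
    · by_cases hz3 : z = a
      · rw [if_neg (by tauto), if_pos hz3, if_pos (by simp [hz3])]
      · rw [if_neg (by tauto), if_neg hz3, if_neg (by simp [hz1, hz2, hz3])]

/-- a core with energy three over a chain -/
lemma eq_pa (h : y ≠ p) (h1 : 1 ≤ e y) (h2 : 1 ≤ e p) (hs : ∑ z, e z = 3) :
    ∃ a, e = pa y p a := by
  classical
  by_cases hex : ∃ a, a ≠ y ∧ a ≠ p ∧ 1 ≤ e a
  · obtain ⟨a, ha1, ha2, ha3⟩ := hex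
    refine ⟨a, ?_⟩
    rw [Pn.eq_on_three h (Ne.symm ha1) (Ne.symm ha2) h1 h2 ha3 hs, pa_on ha1 ha2]
  · push Not at hex
    have h0 : ∀ z, z ≠ y → z ≠ p → e z = 0 := by
      intro z hz1 hz2
      have := hex z hz1 hz2
      omega
    have h3 : e y + e p = 3 := by
      rw [← hs]
      have : ∑ z, e z = ∑ z ∈ ({y, p} : Finset P), e z := by
        symm
        apply sum_subset (subset_univ _)
        intro z _ hz
        rw [mem_insert, mem_singleton] at hz
        push Not at hz
        exact h0 z hz.1 hz.2
      rw [this, Finset.sum_pair h]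
    by_cases h4 : e y = 2
    · refine ⟨y, funext fun z => ?_⟩
      by_cases hz1 : z = y
      · subst hz1
        rw [pa_yy, h4]
      · by_cases hz2 : z = p
        · subst hz2
          rw [pa_p h]
          omega
        · rw [pa_off hz1 hz2 hz1, h0 z hz1 hz2]
    · refine ⟨p, funext fun z => ?_⟩
      by_cases hz1 : z = y
      · subst hz1
        rw [pa_y (Ne.symm h)]
        omega
      · by_cases hz2 : z = p
        · subst hz2
          rw [pa_pp]
          omega
        · rw [pa_off hz1 hz2 hz2, h0 z hz1 hz2]

lemma up_zero (H : Gr P r) (hr : i ≤ r) (h0 : ∀ z, lev z < i → e z = 0) :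
    AdmU i e ∧ aU i e = 0 ∧ pU i e = 0 ∧ AU i e = ∅ := by
  classical
  have hF : ∀ z, lev z ≤ i → ¬ FU e z := by
    rintro z hz ⟨c, hc, h1⟩
    have := lev_uc H (mem_uc.2 hc)
    have := h0 c (by omega)
    omega
  refine ⟨fun z hz hc => hF z hz.le hc.1, ?_, ?_, ?_⟩
  · unfold aU
    rw [card_eq_zero, filter_eq_empty_iff]
    rintro z - ⟨h1, h2⟩
    exact hF z h1.le h2
  · unfold pU
    rw [card_eq_zero, filter_eq_empty_iff]
    rintro z - ⟨h1, h2, h3⟩
    obtain ⟨c, hc⟩ := dc_nonempty H (x := z) (by omega)
    exact h3 ⟨c, mem_dc.1 hc, by rw [h0 z h1]; omega⟩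
  · unfold AU
    rw [filter_eq_empty_iff]
    intro z hz
    exact hF z (mem_lv.1 hz).le

lemma lo_zero (H : Gr P r) (h0 : ∀ z, i < lev z → e z = 0) :
    AdmL i e ∧ aL i e = 0 ∧ pL i e = 0 ∧ AL i e = ∅ := by
  classical
  have hF : ∀ z, i ≤ lev z → ¬ FD e z := by
    rintro z hz ⟨c, hc, h1⟩
    have := lev_dc H (mem_dc.2 hc)
    have := h0 c (by omega)
    omega
  refine ⟨fun z hz hc => hF z hz.le hc.1, ?_, ?_, ?_⟩
  · unfold aL
    rw [card_eq_zero, filter_eq_empty_iff]
    rintro z - ⟨h1, h2⟩
    exact hF z h1.le h2
  · unfold pL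
    rw [card_eq_zero, filter_eq_empty_iff]
    rintro z - ⟨h1, h2, h3⟩
    obtain ⟨c, hc⟩ := uc_nonempty H (x := z) (by omega)
    exact h3 ⟨c, mem_uc.1 hc, by rw [h0 z h1]; omega⟩
  · unfold AL
    rw [filter_eq_empty_iff]
    intro z hz
    exact hF z (mem_lv.1 hz).ge

section lower

variable (E : Ev r i psi C) (F : FlS i y p w u v v')
include E F

/-- the lower data of a variant -/
lemma pa_low (ha : a = y ∨ a = p ∨ a = v ∨ a = v') :
    Xg.Adm i (pa y p a) ∧ kp i (pa y p a) = 1 ∧ sg i (pa y p a) = if a = y then 1 else -1 := by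
  classical
  have H := E.H
  have hlv := F.lv H
  obtain ⟨n1, n2, n3, n4, n5, n6⟩ := F.nes H
  have ly := F.ly
  have lw := F.lw
  have la : lev a = i ∨ lev a = i + 1 ∨ lev a = i + 2 := by
    rcases ha with rfl | rfl | rfl | rfl <;> omega
  obtain ⟨u0, u1, u2, u3⟩ := up_zero (e := pa y p a) H (by have := E.hr; omega : i ≤ r) (by
    intro z hz
    apply pa_off
    · rintro rfl
      omega
    · rintro rfl
      omega
    · rintro rfl
      omega)
  have hvy : v ≠ y := by rintro rfl; omega
  have hvp : v ≠ p := by rintro rfl; omega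
  have hvy' : v' ≠ y := by rintro rfl; omega
  have hvp' : v' ≠ p := by rintro rfl; omega
  have hsup : ∀ x, i < lev x → pa y p a x ≠ 0 → x = y ∨ x = p := by
    intro x hx h
    rcases pa_pos (y := y) (p := p) (a := a) (z := x) (by omega) with h1 | h1 | h1
    · exact Or.inl h1
    · exact Or.inr h1
    · rcases ha with h2 | h2 | h2 | h2
      · exact Or.inl (h1.trans h2)
      · exact Or.inr (h1.trans h2)
      · rw [h1, h2] at hx
        omega
      · rw [h1, h2] at hx
        omega
  have fin : ∀ {b q : ℕ} {S : Finset P}, LDat i (pa y p a) b q S → (S.card : ℤ) = q + 1 →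
      Xg.Adm i (pa y p a) ∧ kp i (pa y p a) = 1 ∧ sg i (pa y p a) = (-1) ^ (b + S.card) := by
    intro b q S D hS
    refine ⟨⟨D.adm, u0, by rw [u3]; exact disjoint_empty_right _⟩, ?_, ?_⟩
    · unfold Xg.kp
      rw [D.al_eq, D.p_eq, u3, u2, card_empty]
      push_cast
      omega
    · unfold sg
      rw [D.al_eq, D.a_eq, u1, u2]
      congr 1
  have c2 : (uc y).card = 2 := by rw [F.uy, card_pair F.ne]
  have single : ∀ s s' : P, uc y = {s, s'} → s ≠ s' → s ≠ y → s ≠ p → s' ≠ y → s' ≠ p → a = s →
      Xg.Adm i (pa y p a) ∧ kp i (pa y p a) = 1 ∧ sg i (pa y p a) = -1 := by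
    intro s s' h1 h2 h3 h4 h5 h6 h7
    subst h7
    have D := chain_dat H (e := pa y p a) F.ly F.up
      (fun x hx h => by rcases hsup x hx h with h | h <;> tauto) (by rw [pa_y h3, pa_p h4])
    rw [h1, pa_y h3] at D
    have e1 : pa y p a a = 1 := pa_a h3 h4
    have e2 : pa y p a s' = 0 := pa_off h5 h6 (Ne.symm h2)
    have e3 : ({a, s'} : Finset P).filter (fun v => pa y p a v < 1) = {s'} := by
      ext z
      rw [mem_filter, mem_insert, mem_singleton]
      constructor
      · rintro ⟨rfl | rfl, h8⟩
        · omega
        · rfl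
      · rintro rfl
        exact ⟨Or.inr rfl, by omega⟩
    rw [e3, if_neg (by
      intro h
      have := h a (by simp)
      omega)] at D
    have := fin D (by simp)
    rw [card_singleton] at this
    simpa using this
  rcases ha with h | h | h | h
  · subst h
    have D := chain_dat H (e := pa a p a) F.ly F.up
      (fun x hx h => by rcases hsup x hx h with h | h <;> tauto) (by rw [pa_yy, pa_p n2]; omega)
    rw [pa_yy] at D
    have e3 : (uc a).filter (fun v => pa a p a v < 2) = uc a := by
      rw [filter_eq_self]
      intro z hz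
      rw [F.uy, mem_insert, mem_singleton] at hz
      rcases hz with rfl | rfl
      · rw [pa_off hvy hvp hvy]
        omega
      · rw [pa_off hvy' hvp' hvy']
        omega
    rw [e3, if_pos (filter_eq_self.1 e3)] at D
    have := fin D (by rw [c2]; norm_num)
    rw [c2] at this
    rw [if_pos rfl]
    simpa using this
  · subst h
    have e3 : ∀ v ∈ uc y, pa y a a v < pa y a a y := by
      intro z hz
      rw [pa_y n2.symm]
      rw [F.uy, mem_insert, mem_singleton] at hz
      rcases hz with rfl | rfl
      · rw [pa_off hvy hvp hvp]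
        omega
      · rw [pa_off hvy' hvp' hvp']
        omega
    have D := kill_dat H (e := pa y a a) F.ly F.up (fun x hx h => hsup x hx h)
      (by rw [pa_y n2.symm, pa_pp]; omega) e3
    have := fin D (by rw [c2]; norm_num)
    rw [c2] at this
    rw [if_neg n2.symm]
    simpa using this
  · rw [if_neg (by rw [h]; exact hvy)]
    exact single v v' F.uy F.ne hvy hvp hvy' hvp' h
  · rw [if_neg (by rw [h]; exact hvy')]
    exact single v' v (by rw [F.uy, pair_comm]) F.ne.symm hvy' hvp' hvy hvp h

/-- the variants are leftover cores -/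
lemma pa_mem (my : y ∈ C) (mp : p ∈ C) (ha : a = y ∨ a = p ∨ a = v ∨ a = v') :
    pa y p a ∈ Lft i psi C (FP y p w u v v') 3 0 := by
  classical
  have H := E.H
  have hlv := F.lv H
  obtain ⟨n1, n2, n3, n4, n5, n6⟩ := F.nes H
  have ly := F.ly
  have lw := F.lw
  obtain ⟨A1, A2, -⟩ := pa_low E F ha
  have la : lev a = i ∨ lev a = i + 1 ∨ lev a = i + 2 := by
    rcases ha with rfl | rfl | rfl | rfl <;> omega
  have mC : ∀ z, z = y ∨ z = p ∨ z = a → z ∈ C := by
    have h1 : ∀ s ∈ uc y, s ∈ C := fun s hs => E.hC.up my (mem_uc.1 hs)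
    rintro z (rfl | rfl | rfl)
    · exact my
    · exact mp
    · rcases ha with rfl | rfl | rfl | rfl
      · exact my
      · exact mp
      · exact h1 _ (by rw [F.uy]; simp)
      · exact h1 _ (by rw [F.uy]; simp)
  have hvy : v ≠ y := by rintro rfl; omega
  have hvp : v ≠ p := by rintro rfl; omega
  have hvy' : v' ≠ y := by rintro rfl; omega
  have hvp' : v' ≠ p := by rintro rfl; omega
  refine mem_Lft.2 ⟨pa_sum n2, ⟨?_, ?_, A1⟩, by rw [A2]; norm_num, ?_, ?_⟩
  · intro z hz
    by_contra h0
    exact hz (mC z (pa_pos (by omega)))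
  · intro z hz
    by_contra h0
    obtain ⟨h1, h2, h3, -⟩ := mem_Rst.1 hz
    apply h3
    rw [mem_Tch]
    have h4 := pa_pos (y := y) (p := p) (a := a) (z := z) (by omega)
    have h5 : z = y := by
      rcases mem_near.1 h1 with h6 | h6
      · rcases h4 with h | h | h
        · exact h
        · rw [h] at h6
          omega
        · rcases ha with h7 | h7 | h7 | h7
          · exact h.trans h7
          · rw [h, h7] at h6
            omega
          · rw [h, h7] at h6
            omega
          · rw [h, h7] at h6
            omega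
      · rcases h4 with h | h | h <;> (rw [h] at h6; omega)
    rw [h5]
    refine Or.inl ⟨F.ly, p, mem_uc.1 (by rw [F.up]; simp), ?_⟩
    unfold pa
    rw [if_pos (Or.inr rfl)]
    omega
  · apply cc_none E.env
    intro d hd
    have h4 := pa_pos hd
    refine ⟨fun h => ?_, fun h => ?_⟩
    · have : d = p := by
        rcases h4 with h1 | h1 | h1
        · rw [h1] at h
          omega
        · exact h1
        · rcases ha with h7 | h7 | h7 | h7
          · rw [h1, h7] at h
            omega
          · exact h1.trans h7
          · rw [h1, h7] at h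
            omega
          · rw [h1, h7] at h
            omega
      rw [this, F.up, card_singleton]
    · exfalso
      rcases h4 with h1 | h1 | h1 <;> (rw [h1] at h; omega)
  · rintro (⟨q1, q2, q3⟩ | ⟨q1, q2, q3⟩)
    · rcases ha with rfl | rfl | rfl | rfl
      · rw [pa_yy] at q1
        omega
      · rw [pa_pp] at q2
        omega
      · have := q3.v0
        rw [rm_of hvy hvp, pa_a hvy hvp] at this
        omega
      · have := q3.v0'
        rw [rm_of hvy' hvp', pa_a hvy' hvp'] at this
        omega
    · have := pa_pos (y := y) (p := p) (a := a) (z := w) (by omega)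
      rcases this with h | h | h
      · exact n1 h.symm
      · exact n4 h
      · rw [← h] at la
        omega

/-- the lower pendant class -/
lemma lo_class (hpsi : psi y = w) (hu1 : ∀ z ∈ C, z ∈ PD P i → z = p)
    (he : e ∈ Lft i psi C (FP y p w u v v') 3 0) (hp : 1 ≤ e p) :
    (∃ a, (a = y ∨ a = p ∨ a = v ∨ a = v') ∧ e = pa y p a) ∨ ∃ z ∈ FL i C, e = on (con i z) := by
  classical
  have H := E.H
  have hlv := F.lv H
  obtain ⟨n1, n2, n3, n4, n5, n6⟩ := F.nes H
  have ly := F.ly
  have lw := F.lw
  obtain ⟨b1, ho, b3, b4, b5⟩ := mem_Lft.1 he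
  have ey : 1 ≤ e y := adm_pos H ho.adm.l (y := y) (z := p) (by omega)
    (by rw [mem_dc, ← mem_uc, F.up]; simp) hp
  obtain ⟨a, ha⟩ := eq_pa n2 ey hp b1
  by_cases h1 : a = y ∨ a = p ∨ a = v ∨ a = v'
  · exact Or.inl ⟨a, h1, ha⟩
  push Not at h1
  obtain ⟨a1, a2, a3, a4⟩ := h1
  have ea : e a = 1 := by rw [ha, pa_a a1 a2]
  have ey1 : e y = 1 := by rw [ha, pa_y a1]
  have ep1 : e p = 1 := by rw [ha, pa_p a2]
  have hpos : ∀ z, 1 ≤ e z → z = y ∨ z = p ∨ z = a := by
    intro z hz
    rw [ha] at hz
    exact pa_pos hz
  have mpz : p ∈ dc y := by rw [mem_dc, ← mem_uc, F.up]; simp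
  rcases lt_trichotomy (lev a) i with hl | hl | hl
  · -- an upper element
    exfalso
    by_cases hl1 : lev a + 1 = i
    · rcases Pn.touched ho.core (Or.inr hl1) (by omega) with h | ⟨h, h'⟩
      · rw [mem_Tch] at h
        rcases h with ⟨h, -⟩ | ⟨-, c, hc, hpc⟩
        · omega
        · have lc := lev_uc H (mem_uc.2 hc)
          rcases hpos c (by omega) with rfl | rfl | rfl <;> omega
      · rw [mem_Tch] at h'
        rcases h' with ⟨h1, c, hc, hpc⟩ | ⟨h1, c, hc, hpc⟩
        · have lc := lev_dc H (mem_dc.2 hc)
          have hcp : c = p := by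
            rcases hpos c (by omega) with h2 | h2 | h2
            · rw [h2] at lc
              omega
            · exact h2
            · rw [h2] at lc
              omega
          rw [hcp] at hc
          have h2 : psi a = y := by
            have := mem_uc.2 hc
            rw [F.up, mem_singleton] at this
            exact this
          have h3 : a ∈ dbU P i := by
            rcases mem_union.1 h with h4 | h4
            · unfold dbL at h4
              rw [mem_filter] at h4
              omega
            · exact h4
          have h5 := (E.hM.upp a h3 (notMem_empty a)).2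
          rw [h2, F.uy] at h5
          have h6 : v ∈ dc a := by rw [← h5]; simp
          have h7 : v ∈ AL i e := by
            unfold AL
            rw [mem_filter, mem_lv]
            refine ⟨hlv.1, y, mem_uc.1 (by rw [F.uy]; simp), ?_⟩
            have : e v = 0 := by
              by_contra h0
              rcases hpos v (by omega) with h | h | h
              · rw [h] at hlv
                omega
              · rw [h] at hlv
                omega
              · exact a3 h.symm
            omega
          have h8 : v ∈ AU i e := by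
            unfold AU
            rw [mem_filter, mem_lv]
            refine ⟨hlv.1, a, mem_dc.1 h6, ?_⟩
            have : e v = 0 := by
              by_contra h0
              rcases hpos v (by omega) with h | h | h
              · rw [h] at hlv
                omega
              · rw [h] at hlv
                omega
              · exact a3 h.symm
            omega
          exact disjoint_left.1 ho.adm.d h7 h8
        · have lc := lev_uc H (mem_uc.2 hc)
          rcases hpos c (by omega) with rfl | rfl | rfl <;> omega
    · obtain ⟨c, hc⟩ := dc_nonempty H (x := a) (by have := E.hr; omega)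
      have lc := lev_dc H hc
      have h2 : 1 ≤ e c := adm_posU H (by have := E.hr; omega) ho.adm.u (y := c) (z := a) (by omega)
        (by rw [mem_uc]; exact mem_dc.1 hc) (by omega)
      rcases hpos c h2 with rfl | rfl | rfl <;> omega
  · -- a site
    exfalso
    apply b5
    refine Or.inl ⟨ey1, ep1, ?_⟩
    have h0 : ∀ z, z ≠ a → rm y p e z = 0 := by
      intro z hz
      unfold rm
      split_ifs with h2
      · rfl
      · push Not at h2
        by_contra h3
        rcases hpos z (by omega) with h | h | h
        · exact h2.1 h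
        · exact h2.2 h
        · exact hz h
    have hl' : ∀ z, lev z ≠ i → z ≠ a := by
      rintro z hz rfl
      exact hz hl
    refine ⟨h0 v (Ne.symm a3), h0 v' (Ne.symm a4), fun z hz => h0 z (hl' z ?_),
      fun z hz => h0 z (hl' z ?_), fun z hz => h0 z (hl' z ?_), fun z hz => h0 z (hl' z ?_),
      fun z hz => h0 z (hl' z ?_), fun z hz => h0 z (hl' z ?_), fun z hz => h0 z (hl' z ?_),
      fun z hz => h0 z (hl' z ?_)⟩
    · have := lev_dc H hz
      omega
    · have := lev_dc H hz
      omega
    · have := lev_uc H hz
      omega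
    · have := lev_uc H hz
      omega
    · have := lev_dc H hz
      omega
    · have := lev_dc H hz
      omega
    · have := lev_uc H hz
      omega
    · have := lev_uc H hz
      omega
  · -- a lower element
    by_cases hl1 : lev a = i + 1
    · exfalso
      rcases Pn.touched ho.core (Or.inl hl1) (by omega) with h | ⟨h, h'⟩
      · rw [mem_Tch] at h
        rcases h with ⟨-, c, hc, hpc⟩ | ⟨h, -⟩
        · have lc := lev_dc H (mem_dc.2 hc)
          have hcp : c = p := by
            rcases hpos c (by omega) with h2 | h2 | h2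
            · rw [h2] at lc
              omega
            · exact h2
            · rw [h2] at lc
              omega
          rw [hcp] at hc
          have := mem_uc.2 hc
          rw [F.up, mem_singleton] at this
          exact a1 this
        · omega
      · have h3 : a ∈ dbL P i := by
          rcases mem_union.1 h with h4 | h4
          · exact h4
          · unfold dbU at h4
            rw [mem_filter] at h4
            omega
        have h4 := (E.hM.low a h3 (notMem_empty a)).1
        have h5 : lev (psi a) + 1 = i := by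
          unfold dbU at h4
          rw [mem_filter] at h4
          exact h4.2.1
        rw [mem_Tch] at h'
        rcases h' with ⟨h1, -⟩ | ⟨h1, c, hc, hpc⟩
        · omega
        · have lc := lev_uc H (mem_uc.2 hc)
          rcases hpos c (by omega) with rfl | rfl | rfl <;> omega
    · have hup : ∀ c ∈ uc a, c = y ∨ c = p := by
        intro c hc
        have lc := lev_uc H hc
        have h2 : 1 ≤ e c := adm_pos H ho.adm.l (y := c) (z := a) (by omega)
          (by rw [mem_dc, ← mem_uc]; exact hc) (by omega)
        rcases hpos c h2 with h | h | h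
        · exact Or.inl h
        · exact Or.inr h
        · rw [h] at lc
          omega
      obtain ⟨c, hc⟩ := uc_nonempty H (x := a) (by omega)
      have lc := lev_uc H hc
      have mcC : a ∈ C := spt_mem ho.spt (by omega)
      rcases hup c hc with h2 | h2
      · exfalso
        have h3 : uc a = {y} := by
          apply eq_singleton_iff_unique_mem.2 ⟨by rw [← h2]; exact hc, ?_⟩
          intro c' hc'
          have lc' := lev_uc H hc'
          rcases hup c' hc' with h | h
          · exact h
          · rw [h] at lc'
            rw [h2] at lc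
            omega
        apply a2
        apply hu1 a mcC
        rw [mem_PD']
        refine ⟨by rw [h2] at lc; omega, by rw [h3, card_singleton], y, mem_uc.1 (by rw [h3]; simp),
          by rw [F.uy, card_pair F.ne]⟩
      · right
        have h3 : uc a = {p} := by
          apply eq_singleton_iff_unique_mem.2 ⟨by rw [← h2]; exact hc, ?_⟩
          intro c' hc'
          have lc' := lev_uc H hc'
          rcases hup c' hc' with h | h
          · rw [h] at lc'
            rw [h2] at lc
            omega
          · exact h
        have hpd : p ∈ PD P i := by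
          rw [mem_PD']
          exact ⟨by omega, by rw [F.up, card_singleton], y, mem_uc.1 (by rw [F.up]; simp),
            by rw [F.uy, card_pair F.ne]⟩
        refine ⟨a, ?_, ?_⟩
        · rw [mem_FL]
          exact ⟨mcC, p, hpd, h3⟩
        · rw [con_FL H (by rw [h2] at lc; omega) h3 F.up, ha, pa_on a1 a2]
          congr 1
          ext z
          simp only [mem_insert, mem_singleton]
          tauto

end lower

end Pool.Agent.GaussPoset.Win.Rd
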