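import Pool.Agent.W_448rd_h10.RdV

/-!
MP_448cb3_co, G2, window `j - 1`: the leftover cores of the energy three, part 3: the cores over
the pendant, upper side, and the sum.  helper10.
-/

namespace Pool.Agent.GaussPoset.Win.Rd

set_option linter.unusedSectionVars false

open Finset I2 K2
open Pool.Agent.GaussPoset.Win.H2 (SdT NoT low_T up_T sum_all)
open Pool.Agent.GaussPoset.Win.Xg (FlS Zr LoP UpP FP rm rm_le rm_of rm_y rm_p Okc Adm kp Lft mem_Lft)
open Pool.Agent.GaussPoset.Win.SO (con on Num num_Chs num_ZL num_ZU num_FL num_FU Chs_cases
  self_con mem_con con_sub con_cls con_step sit_con sit_sub sit_ne FL_data FU_data con_FL con_FU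
  con_two_low con_two_upp BL BU nL nU mem_BL mem_BU)
open Pool.Agent.GaussPoset.Win.Pn (on_one on_zero on_pos core_on adm_on kp_on cc_on cc_none)

universe u

variable {P : Type u} [Fintype P] [PartialOrder P] [DecidableEq P] {r i : ℕ} {e B : P → ℕ}
variable {psi : P → P} {C : Finset P} {Q : (P → ℕ) → Prop} {t : P × P} {y p w u v v' a : P}

section upper

variable (E : Ev r i psi C) (F : FlS i y p w u v v')
include E F

/-- the upper data of a variant -/
lemma pa_upp (ha : a = w ∨ a = u ∨ a = v ∨ a = v') :
    Xg.Adm i (pa w u a) ∧ kp i (pa w u a) = 1 ∧ sg i (pa w u a) = if a = w then -1 else 1 := by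
  classical
  have H := E.H
  have hlv := F.lv H
  obtain ⟨n1, n2, n3, n4, n5, n6⟩ := F.nes H
  have ly := F.ly
  have lw := F.lw
  have la : lev a = i ∨ lev a + 1 = i ∨ lev a + 2 = i := by
    rcases ha with rfl | rfl | rfl | rfl <;> omega
  obtain ⟨u0, u1, u2, u3⟩ := lo_zero (i := i) (e := pa w u a) H (by
    intro z hz
    apply pa_off
    · rintro rfl
      omega
    · rintro rfl
      omega
    · rintro rfl
      omega)
  have hvy : v ≠ w := by rintro rfl; omega
  have hvp : v ≠ u := by rintro rfl; omega
  have hvy' : v' ≠ w := by rintro rfl; omega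
  have hvp' : v' ≠ u := by rintro rfl; omega
  have hsup : ∀ x, lev x < i → pa w u a x ≠ 0 → x = w ∨ x = u := by
    intro x hx h
    rcases pa_pos (y := w) (p := u) (a := a) (z := x) (by omega) with h1 | h1 | h1
    · exact Or.inl h1
    · exact Or.inr h1
    · rcases ha with h2 | h2 | h2 | h2
      · exact Or.inl (h1.trans h2)
      · exact Or.inr (h1.trans h2)
      · rw [h1, h2] at hx
        omega
      · rw [h1, h2] at hx
        omega
  have fin : ∀ {b q : ℕ} {S : Finset P}, UDat i (pa w u a) b q S → (S.card : ℤ) = q + 1 →
      Xg.Adm i (pa w u a) ∧ kp i (pa w u a) = 1 ∧ sg i (pa w u a) = (-1) ^ (b + q) := by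
    intro b q S D hS
    refine ⟨⟨u0, D.adm, by rw [u3]; exact disjoint_empty_left _⟩, ?_, ?_⟩
    · unfold Xg.kp
      rw [D.au_eq, D.p_eq, u3, u2, card_empty]
      push_cast
      omega
    · unfold sg
      rw [D.a_eq, D.p_eq, u1, u3, card_empty]
      congr 1
      omega
  have c2 : (dc w).card = 2 := by rw [F.dw, card_pair F.ne]
  have hir : i ≤ r := by
    have := E.hr
    omega
  have single : ∀ s s' : P, dc w = {s, s'} → s ≠ s' → s ≠ w → s ≠ u → s' ≠ w → s' ≠ u → a = s →
      Xg.Adm i (pa w u a) ∧ kp i (pa w u a) = 1 ∧ sg i (pa w u a) = 1 := by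
    intro s s' h1 h2 h3 h4 h5 h6 h7
    subst h7
    have D := chain_datU H hir (e := pa w u a) F.lw F.du
      (fun x hx h => by rcases hsup x hx h with h | h <;> tauto) (by rw [pa_y h3, pa_p h4])
    rw [h1, pa_y h3] at D
    have e1 : pa w u a a = 1 := pa_a h3 h4
    have e2 : pa w u a s' = 0 := pa_off h5 h6 (Ne.symm h2)
    have e3 : ({a, s'} : Finset P).filter (fun v => pa w u a v < 1) = {s'} := by
      ext z
      rw [mem_filter, mem_insert, mem_singleton]
      constructor
      · rintro ⟨rfl | rfl, h8⟩
        · omega
        · rfl
      · rintro rfl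
        exact ⟨Or.inr rfl, by omega⟩
    rw [e3, if_neg (by
      intro h
      have := h a (by simp)
      omega)] at D
    have := fin D (by simp)
    simpa using this
  rcases ha with h | h | h | h
  · subst h
    have D := chain_datU H hir (e := pa a u a) F.lw F.du
      (fun x hx h => by rcases hsup x hx h with h | h <;> tauto) (by rw [pa_yy, pa_p n5]; omega)
    rw [pa_yy] at D
    have e3 : (dc a).filter (fun v => pa a u a v < 2) = dc a := by
      rw [filter_eq_self]
      intro z hz
      rw [F.dw, mem_insert, mem_singleton] at hz
      rcases hz with rfl | rfl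
      · rw [pa_off hvy hvp hvy]
        omega
      · rw [pa_off hvy' hvp' hvy']
        omega
    rw [e3, if_pos (filter_eq_self.1 e3)] at D
    have := fin D (by rw [c2]; norm_num)
    rw [if_pos rfl]
    simpa using this
  · subst h
    have e3 : ∀ v ∈ dc w, pa w a a v < pa w a a w := by
      intro z hz
      rw [pa_y n5.symm]
      rw [F.dw, mem_insert, mem_singleton] at hz
      rcases hz with rfl | rfl
      · rw [pa_off hvy hvp hvp]
        omega
      · rw [pa_off hvy' hvp' hvp']
        omega
    have D := kill_datU H hir (e := pa w a a) F.lw F.du (fun x hx h => hsup x hx h)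
      (by rw [pa_y n5.symm, pa_pp]; omega) e3
    have := fin D (by rw [c2]; norm_num)
    rw [if_neg n5.symm]
    simpa using this
  · rw [if_neg (by rw [h]; exact hvy)]
    exact single v v' F.dw F.ne hvy hvp hvy' hvp' h
  · rw [if_neg (by rw [h]; exact hvy')]
    exact single v' v (by rw [F.dw, pair_comm]) F.ne.symm hvy' hvp' hvy hvp h

/-- the variants are leftover cores -/
lemma pa_memU (my : w ∈ C) (mp : u ∈ C) (ha : a = w ∨ a = u ∨ a = v ∨ a = v') :
    pa w u a ∈ Lft i psi C (FP y p w u v v') 3 0 := by
  classical
  have H := E.H
  have hlv := F.lv H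
  obtain ⟨n1, n2, n3, n4, n5, n6⟩ := F.nes H
  have ly := F.ly
  have lw := F.lw
  obtain ⟨A1, A2, -⟩ := pa_upp E F ha
  have la : lev a = i ∨ lev a + 1 = i ∨ lev a + 2 = i := by
    rcases ha with rfl | rfl | rfl | rfl <;> omega
  have mC : ∀ z, z = w ∨ z = u ∨ z = a → z ∈ C := by
    have h1 : ∀ s ∈ dc w, s ∈ C := by
      intro s hs
      have := lev_dc H hs
      exact E.hC.dn my (by omega) (mem_dc.1 hs)
    rintro z (rfl | rfl | rfl)
    · exact my
    · exact mp
    · rcases ha with rfl | rfl | rfl | rfl
      · exact my
      · exact mp
      · exact h1 _ (by rw [F.dw]; simp)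
      · exact h1 _ (by rw [F.dw]; simp)
  have hvy : v ≠ w := by rintro rfl; omega
  have hvp : v ≠ u := by rintro rfl; omega
  have hvy' : v' ≠ w := by rintro rfl; omega
  have hvp' : v' ≠ u := by rintro rfl; omega
  refine mem_Lft.2 ⟨pa_sum n5, ⟨?_, ?_, A1⟩, by rw [A2]; norm_num, ?_, ?_⟩
  · intro z hz
    by_contra h0
    exact hz (mC z (pa_pos (by omega)))
  · intro z hz
    by_contra h0
    obtain ⟨h1, h2, h3, -⟩ := mem_Rst.1 hz
    apply h3
    rw [mem_Tch]
    have h4 := pa_pos (y := w) (p := u) (a := a) (z := z) (by omega)
    have h5 : z = w := by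
      rcases mem_near.1 h1 with h6 | h6
      · rcases h4 with h | h | h <;> (rw [h] at h6; omega)
      · rcases h4 with h | h | h
        · exact h
        · rw [h] at h6
          omega
        · rcases ha with h7 | h7 | h7 | h7
          · exact h.trans h7
          · rw [h, h7] at h6
            omega
          · rw [h, h7] at h6
            omega
          · rw [h, h7] at h6
            omega
    rw [h5]
    refine Or.inr ⟨F.lw, u, mem_dc.1 (by rw [F.du]; simp), ?_⟩
    unfold pa
    rw [if_pos (Or.inr rfl)]
    omega
  · apply cc_none E.env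
    intro d hd
    have h4 := pa_pos hd
    refine ⟨fun h => ?_, fun h => ?_⟩
    · exfalso
      rcases h4 with h1 | h1 | h1 <;> (rw [h1] at h; omega)
    · have : d = u := by
        rcases h4 with h1 | h1 | h1
        · rw [h1] at h
          omega
        · exact h1
        · rcases ha with h7 | h7 | h7 | h7
          · rw [h1, h7] at h
            omega
          · exact h1.trans h7
          · rw [h1, h7] at h
            omega
          · rw [h1, h7] at h
            omega
      rw [this, F.du, card_singleton]
  · rintro (⟨q1, q2, q3⟩ | ⟨q1, q2, q3⟩)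
    · have := pa_pos (y := w) (p := u) (a := a) (z := y) (by omega)
      rcases this with h | h | h
      · exact n1 h
      · exact n3 h
      · rw [← h] at la
        omega
    · rcases ha with rfl | rfl | rfl | rfl
      · rw [pa_yy] at q1
        omega
      · rw [pa_pp] at q2
        omega
      · have := q3.v0
        rw [rm_of hvy hvp, pa_a hvy hvp] at this
        omega
      · have := q3.v0'
        rw [rm_of hvy' hvp', pa_a hvy' hvp'] at this
        omega

/-- the upper pendant class -/
lemma up_class (hpsi : psi y = w) (hu1 : ∀ z ∈ C, z ∈ PU P i → z = u)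
    (he : e ∈ Lft i psi C (FP y p w u v v') 3 0) (hp : 1 ≤ e u) :
    (∃ a, (a = w ∨ a = u ∨ a = v ∨ a = v') ∧ e = pa w u a) ∨ ∃ z ∈ FU' i C, e = on (con i z) := by
  classical
  have H := E.H
  have hir : i ≤ r := by
    have := E.hr
    omega
  have hlv := F.lv H
  obtain ⟨n1, n2, n3, n4, n5, n6⟩ := F.nes H
  have ly := F.ly
  have lw := F.lw
  obtain ⟨b1, ho, b3, b4, b5⟩ := mem_Lft.1 he
  have ey : 1 ≤ e w := adm_posU H hir ho.adm.u (y := w) (z := u) (by omega)
    (by rw [mem_uc, ← mem_dc, F.du]; simp) hp
  obtain ⟨a, ha⟩ := eq_pa n5 ey hp b1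
  by_cases h1 : a = w ∨ a = u ∨ a = v ∨ a = v'
  · exact Or.inl ⟨a, h1, ha⟩
  push Not at h1
  obtain ⟨a1, a2, a3, a4⟩ := h1
  have ea : e a = 1 := by rw [ha, pa_a a1 a2]
  have ey1 : e w = 1 := by rw [ha, pa_y a1]
  have ep1 : e u = 1 := by rw [ha, pa_p a2]
  have hpos : ∀ z, 1 ≤ e z → z = w ∨ z = u ∨ z = a := by
    intro z hz
    rw [ha] at hz
    exact pa_pos hz
  rcases lt_trichotomy (lev a) i with hl | hl | hl
  · -- an upper element
    by_cases hl1 : lev a + 1 = i
    · exfalso
      rcases Pn.touched ho.core (Or.inr hl1) (by omega) with h | ⟨h, h'⟩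
      · rw [mem_Tch] at h
        rcases h with ⟨h, -⟩ | ⟨-, c, hc, hpc⟩
        · omega
        · have lc := lev_uc H (mem_uc.2 hc)
          have hcp : c = u := by
            rcases hpos c (by omega) with h2 | h2 | h2
            · rw [h2] at lc
              omega
            · exact h2
            · rw [h2] at lc
              omega
          rw [hcp] at hc
          have := mem_dc.2 hc
          rw [F.du, mem_singleton] at this
          exact a1 this
      · have h3 : a ∈ dbU P i := by
          rcases mem_union.1 h with h4 | h4
          · unfold dbL at h4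
            rw [mem_filter] at h4
            omega
          · exact h4
        have h4 := (E.hM.upp a h3 (notMem_empty a)).1
        have h5 : lev (psi a) = i + 1 := by
          unfold dbL at h4
          rw [mem_filter] at h4
          exact h4.2.1
        rw [mem_Tch] at h'
        rcases h' with ⟨h1, c, hc, hpc⟩ | ⟨h1, -⟩
        · have lc := lev_dc H (mem_dc.2 hc)
          rcases hpos c (by omega) with rfl | rfl | rfl <;> omega
        · omega
    · have hup : ∀ c ∈ dc a, c = w ∨ c = u := by
        intro c hc
        have lc := lev_dc H hc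
        have h2 : 1 ≤ e c := adm_posU H hir ho.adm.u (y := c) (z := a) (by omega)
          (by rw [mem_uc, ← mem_dc]; exact hc) (by omega)
        rcases hpos c h2 with h | h | h
        · exact Or.inl h
        · exact Or.inr h
        · rw [h] at lc
          omega
      obtain ⟨c, hc⟩ := dc_nonempty H (x := a) (by omega)
      have lc := lev_dc H hc
      have mcC : a ∈ C := spt_mem ho.spt (by omega)
      rcases hup c hc with h2 | h2
      · exfalso
        have h3 : dc a = {w} := by
          apply eq_singleton_iff_unique_mem.2 ⟨by rw [← h2]; exact hc, ?_⟩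
          intro c' hc'
          have lc' := lev_dc H hc'
          rcases hup c' hc' with h | h
          · exact h
          · rw [h] at lc'
            rw [h2] at lc
            omega
        apply a2
        apply hu1 a mcC
        rw [mem_PU']
        refine ⟨by rw [h2] at lc; omega, by rw [h3, card_singleton], w, mem_dc.1 (by rw [h3]; simp),
          by rw [F.dw, card_pair F.ne]⟩
      · right
        have h3 : dc a = {u} := by
          apply eq_singleton_iff_unique_mem.2 ⟨by rw [← h2]; exact hc, ?_⟩
          intro c' hc'
          have lc' := lev_dc H hc'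
          rcases hup c' hc' with h | h
          · rw [h] at lc'
            rw [h2] at lc
            omega
          · exact h
        have hpd : u ∈ PU P i := by
          rw [mem_PU']
          exact ⟨by omega, by rw [F.du, card_singleton], w, mem_dc.1 (by rw [F.du]; simp),
            by rw [F.dw, card_pair F.ne]⟩
        refine ⟨a, ?_, ?_⟩
        · rw [mem_FU']
          exact ⟨mcC, u, hpd, h3⟩
        · rw [con_FU H (by rw [h2] at lc; omega) h3 F.du, ha, pa_on a1 a2]
          congr 1
          ext z
          simp only [mem_insert, mem_singleton]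
          tauto
  · -- a site
    exfalso
    apply b5
    refine Or.inr ⟨ey1, ep1, ?_⟩
    have h0 : ∀ z, z ≠ a → rm w u e z = 0 := by
      intro z hz
      unfold rm
      split_ifs with h2
      · rfl
      · push Not at h2
        by_contra h3
        rcases hpos z (by omega) with h | h | h
        · exact h2.1 h
        · exact h2.2 h
        · exact hz h
    have hl' : ∀ z, lev z ≠ i → z ≠ a := by
      rintro z hz rfl
      exact hz hl
    refine ⟨h0 v (Ne.symm a3), h0 v' (Ne.symm a4), fun z hz => h0 z (hl' z ?_),
      fun z hz => h0 z (hl' z ?_), fun z hz => h0 z (hl' z ?_), fun z hz => h0 z (hl' z ?_),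
      fun z hz => h0 z (hl' z ?_), fun z hz => h0 z (hl' z ?_), fun z hz => h0 z (hl' z ?_),
      fun z hz => h0 z (hl' z ?_)⟩
    · have := lev_dc H hz
      omega
    · have := lev_dc H hz
      omega
    · have := lev_uc H hz
      omega
    · have := lev_uc H hz
      omega
    · have := lev_dc H hz
      omega
    · have := lev_dc H hz
      omega
    · have := lev_uc H hz
      omega
    · have := lev_uc H hz
      omega
  · -- a lower element
    exfalso
    by_cases hl1 : lev a = i + 1
    · rcases Pn.touched ho.core (Or.inl hl1) (by omega) with h | ⟨h, h'⟩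
      · rw [mem_Tch] at h
        rcases h with ⟨-, c, hc, hpc⟩ | ⟨h, -⟩
        · have lc := lev_dc H (mem_dc.2 hc)
          rcases hpos c (by omega) with rfl | rfl | rfl <;> omega
        · omega
      · rw [mem_Tch] at h'
        rcases h' with ⟨h1, c, hc, hpc⟩ | ⟨h1, c, hc, hpc⟩
        · have lc := lev_dc H (mem_dc.2 hc)
          rcases hpos c (by omega) with rfl | rfl | rfl <;> omega
        · have lc := lev_uc H (mem_uc.2 hc)
          have hcp : c = u := by
            rcases hpos c (by omega) with h2 | h2 | h2
            · rw [h2] at lc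
              omega
            · exact h2
            · rw [h2] at lc
              omega
          rw [hcp] at hc
          have h2 : psi a = w := by
            have := mem_dc.2 hc
            rw [F.du, mem_singleton] at this
            exact this
          have h3 : a ∈ dbL P i := by
            rcases mem_union.1 h with h4 | h4
            · exact h4
            · unfold dbU at h4
              rw [mem_filter] at h4
              omega
          have h5 := (E.hM.low a h3 (notMem_empty a)).2
          rw [h2, F.dw] at h5
          have h6 : v ∈ uc a := by rw [← h5]; simp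
          have h0 : e v = 0 := by
            by_contra h0
            rcases hpos v (by omega) with h | h | h
            · rw [h] at hlv
              omega
            · rw [h] at hlv
              omega
            · exact a3 h.symm
          have h7 : v ∈ AL i e := by
            unfold AL
            rw [mem_filter, mem_lv]
            exact ⟨hlv.1, a, mem_uc.1 h6, by omega⟩
          have h8 : v ∈ AU i e := by
            unfold AU
            rw [mem_filter, mem_lv]
            exact ⟨hlv.1, w, mem_dc.1 (by rw [F.dw]; simp), by omega⟩
          exact disjoint_left.1 ho.adm.d h7 h8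
    · obtain ⟨c, hc⟩ := uc_nonempty H (x := a) (by omega)
      have lc := lev_uc H hc
      have h2 : 1 ≤ e c := adm_pos H ho.adm.l (y := c) (z := a) (by omega)
        (by rw [mem_dc]; exact mem_uc.1 hc) (by omega)
      rcases hpos c h2 with rfl | rfl | rfl <;> omega

end upper

end Pool.Agent.GaussPoset.Win.Rd
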