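import Pool.Agent.W_448rd_h10.RdW

/-!
MP_448cb3_co, G2, window `j - 1`: the leftover sum of the energy three; the leftover sums are the
sums of the charges.  helper10.
-/

namespace Pool.Agent.GaussPoset.Win.Rd

set_option linter.unusedSectionVars false

open Finset I2 K2
open Pool.Agent.GaussPoset.Win.H2 (SdT NoT low_T up_T sum_all)
open Pool.Agent.GaussPoset.Win.Xg (FlS Zr LoP UpP FP rm rm_le rm_of rm_y rm_p Okc Adm kp Lft mem_Lft)
open Pool.Agent.GaussPoset.Win.SO (con on Num num_Chs num_ZL num_ZU num_FL num_FU Chs_cases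
  self_con mem_con con_sub con_cls con_step sit_con sit_sub sit_ne FL_data FU_data con_FL con_FU
  con_two_low con_two_upp BL BU nL nU mem_BL mem_BU PN mem_PN)
open Pool.Agent.GaussPoset.Win.Pn (on_one on_zero on_pos core_on adm_on kp_on cc_on cc_none)

universe u

variable {P : Type u} [Fintype P] [PartialOrder P] [DecidableEq P] {r i : ℕ} {e B : P → ℕ}
variable {psi : P → P} {C : Finset P} {Q : (P → ℕ) → Prop} {t : P × P} {y p w u v v' a : P}

section four

variable (H : Gr P r) (F : FlS i y p w u v v')
include H F

lemma four_sum (f g : P → ℤ) (hf : ∀ a, a = y ∨ a = p ∨ a = v ∨ a = v' → f a = if a = y then 1 else -1)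
    (hg : ∀ a, a = w ∨ a = u ∨ a = v ∨ a = v' → g a = if a = w then -1 else 1) :
    ∑ a ∈ ({y, p, v, v'} : Finset P), f a + ∑ a ∈ ({w, u, v, v'} : Finset P), g a = 0 := by
  have hlv := F.lv H
  obtain ⟨n1, n2, n3, n4, n5, n6⟩ := F.nes H
  have ly := F.ly
  have lw := F.lw
  have hvy : v ≠ y := by rintro rfl; omega
  have hvp : v ≠ p := by rintro rfl; omega
  have hvy' : v' ≠ y := by rintro rfl; omega
  have hvp' : v' ≠ p := by rintro rfl; omega
  have hvw : v ≠ w := by rintro rfl; omega
  have hvu : v ≠ u := by rintro rfl; omega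
  have hvw' : v' ≠ w := by rintro rfl; omega
  have hvu' : v' ≠ u := by rintro rfl; omega
  rw [sum_insert (by simp [n2, hvy.symm, hvy'.symm]), sum_insert (by simp [hvp.symm, hvp'.symm]),
    sum_insert (by simp [F.ne]), sum_singleton,
    sum_insert (by simp [n5, hvw.symm, hvw'.symm]), sum_insert (by simp [hvu.symm, hvu'.symm]),
    sum_insert (by simp [F.ne]), sum_singleton]
  rw [hf y (by tauto), hf p (by tauto), hf v (by tauto), hf v' (by tauto), hg w (by tauto),
    hg u (by tauto), hg v (by tauto), hg v' (by tauto), if_pos rfl, if_neg n2.symm, if_neg hvy,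
    if_neg hvy', if_pos rfl, if_neg n5.symm, if_neg hvw, if_neg hvw']
  norm_num

end four

section main

variable (E : Ev r i psi C) (K : Kls i psi C Q)
include E K

/-- the leftover sum of the energy three, with a test -/
theorem sum30R (R : (P → ℕ) → Prop) [DecidablePred R] (M : P → Prop) [DecidablePred M]
    (hM : ∀ z ∈ Chs i C, (R (on (con i z)) ↔ M z))
    (hR : ∀ y p w u v v' : P, FlS i y p w u v v' → y ∈ C → p ∈ C → w ∈ C → u ∈ C → ∃ b : Prop,
      (∀ a, a = y ∨ a = p ∨ a = v ∨ a = v' → (R (pa y p a) ↔ b)) ∧
      (∀ a, a = w ∨ a = u ∨ a = v ∨ a = v' → (R (pa w u a) ↔ b))) :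
    ∑ e ∈ (Lft i psi C Q 3 0).filter R, sg i e = ∑ z ∈ (Chs i C).filter M, chg i C z := by
  classical
  have H := E.H
  set g : P → P → ℕ := fun z => on (con i z) with hg
  have hI : ((Lft i psi C Q 3 0).filter R).filter (fun e => e ∈ (Chs i C).image g) =
      ((Chs i C).filter M).image g := by
    ext e
    rw [mem_filter, mem_filter, mem_image, mem_image]
    constructor
    · rintro ⟨⟨h1, h2⟩, z, hz, rfl⟩
      exact ⟨z, mem_filter.2 ⟨hz, (hM z hz).1 h2⟩, rfl⟩
    · rintro ⟨z, hz, rfl⟩
      obtain ⟨h1, h2⟩ := mem_filter.1 hz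
      exact ⟨⟨(chs_mem E K h1).1, (hM z h1).2 h2⟩, z, h1, rfl⟩
  have hsplit := sum_filter_add_sum_filter_not ((Lft i psi C Q 3 0).filter R)
    (fun e => e ∈ (Chs i C).image g) (fun e => sg i e)
  rw [hI, sum_image (fun z hz z' hz' h =>
    con_inj H (mem_filter.1 hz).1 (mem_filter.1 hz').1 h)] at hsplit
  have h1 : ∑ z ∈ (Chs i C).filter M, sg i (g z) = ∑ z ∈ (Chs i C).filter M, chg i C z :=
    sum_congr rfl fun z hz => (chs_mem E K (mem_filter.1 hz).1).2
  rw [h1] at hsplit
  rw [← hsplit]
  suffices h2 : ∑ e ∈ ((Lft i psi C Q 3 0).filter R).filter (fun e => e ∉ (Chs i C).image g),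
      sg i e = 0 by rw [h2, add_zero]
  -- the rest
  have e3 : ∀ e ∈ Lft i psi C Q 3 0, (∀ q ∈ PN i C, e q = 0) → e ∈ (Chs i C).image g := by
    intro e he h0
    obtain ⟨b1, ho, b3, b4, b5⟩ := mem_Lft.1 he
    obtain ⟨z, h3, h4⟩ := Pn.e3_class E.fr ho b1 (by rw [b3]; norm_num) h0
    rw [mem_image]
    refine ⟨z, ?_, h4.symm⟩
    unfold Chs
    rcases h3 with h3 | h3
    · simp [h3]
    · simp [h3]
  rcases K with ⟨h, hQ⟩ | ⟨y, p, w, u, v, v', F, h5, ⟨my, mp, mw, mu⟩, h7, h8, h9⟩
  · apply sum_eq_zero
    intro e he
    exfalso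
    obtain ⟨h3, h4⟩ := mem_filter.1 he
    apply h4
    apply e3 e (mem_filter.1 h3).1
    intro q hq
    obtain ⟨q1, q2⟩ := mem_PN.1 hq
    rcases q2 with q2 | q2
    · exact absurd q2 (h q q1).1
    · exact absurd q2 (h q q1).2
  · obtain ⟨b, hb1, hb2⟩ := hR y p w u v v' F my mp mw mu
    have hlv := F.lv H
    obtain ⟨n1, n2, n3, n4, n5, n6⟩ := F.nes H
    have ly := F.ly
    have lw := F.lw
    have c1 : (uc y).card = 2 := by rw [F.uy, card_pair F.ne]
    have c2 : (dc w).card = 2 := by rw [F.dw, card_pair F.ne]
    set Lo := ({y, p, v, v'} : Finset P).image (pa y p) with hLo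
    set Up := ({w, u, v, v'} : Finset P).image (pa w u) with hUp
    have mLo : ∀ {e}, e ∈ Lo ↔ ∃ a, (a = y ∨ a = p ∨ a = v ∨ a = v') ∧ e = pa y p a := by
      intro e
      rw [hLo, mem_image]
      simp only [mem_insert, mem_singleton]
      constructor
      · rintro ⟨a, h1, h2⟩
        exact ⟨a, h1, h2.symm⟩
      · rintro ⟨a, h1, h2⟩
        exact ⟨a, h1, h2.symm⟩
    have mUp : ∀ {e}, e ∈ Up ↔ ∃ a, (a = w ∨ a = u ∨ a = v ∨ a = v') ∧ e = pa w u a := by
      intro e
      rw [hUp, mem_image]
      simp only [mem_insert, mem_singleton]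
      constructor
      · rintro ⟨a, h1, h2⟩
        exact ⟨a, h1, h2.symm⟩
      · rintro ⟨a, h1, h2⟩
        exact ⟨a, h1, h2.symm⟩
    -- every element of the rest is a variant
    have hcl : ∀ e ∈ Lft i psi C Q 3 0, e ∉ (Chs i C).image g → e ∈ Lo ∨ e ∈ Up := by
      intro e he hI
      rw [h9] at he
      by_cases hp : 1 ≤ e p
      · rcases lo_class E F h5 h7 he hp with h | ⟨z, hz, hez⟩
        · exact Or.inl (mLo.2 h)
        · exfalso
          apply hI
          rw [mem_image]
          exact ⟨z, by unfold Chs; simp [hz], hez.symm⟩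
      · by_cases hu : 1 ≤ e u
        · rcases up_class E F h5 h8 he hu with h | ⟨z, hz, hez⟩
          · exact Or.inr (mUp.2 h)
          · exfalso
            apply hI
            rw [mem_image]
            exact ⟨z, by unfold Chs; simp [hz], hez.symm⟩
        · exfalso
          apply hI
          rw [← h9] at he
          apply e3 e he
          intro q hq
          obtain ⟨q1, q2⟩ := mem_PN.1 hq
          rcases q2 with q2 | q2
          · rw [h7 q q1 q2]
            omega
          · rw [h8 q q1 q2]
            omega
    by_cases hb : b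
    · have hS : ((Lft i psi C Q 3 0).filter R).filter (fun e => e ∉ (Chs i C).image g) =
          Lo ∪ Up := by
        ext e
        rw [mem_filter, mem_filter, mem_union]
        constructor
        · rintro ⟨⟨h1, h2⟩, h3⟩
          exact hcl e h1 h3
        · rintro (h | h)
          · obtain ⟨a, ha, rfl⟩ := mLo.1 h
            refine ⟨⟨?_, (hb1 a ha).2 hb⟩, ?_⟩
            · rw [h9]
              exact pa_mem E F my mp ha
            · rw [mem_image]
              rintro ⟨z, hz, hez⟩
              have hez' : (on (con i z) : P → ℕ) = pa y p a := hez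
              have N := num_Chs H hz
              have hp : p ∈ con i z := by
                rw [← on_pos, hez']
                unfold pa
                rw [if_pos (Or.inr rfl)]
                omega
              obtain ⟨-, -, a3, a4, a5⟩ := con_pen H hz hp (by omega) F.up c1 F.ly
              have hz1 : 1 ≤ pa y p a z := by
                rw [← hez', on_one (self_con N.ns)]
              rcases pa_pos hz1 with h | h | h
              · exact a4 h
              · exact a3 h
              · rw [h] at a5
                rcases ha with h' | h' | h' | h' <;> (rw [h'] at a5; omega)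
          · obtain ⟨a, ha, rfl⟩ := mUp.1 h
            refine ⟨⟨?_, (hb2 a ha).2 hb⟩, ?_⟩
            · rw [h9]
              exact pa_memU E F mw mu ha
            · rw [mem_image]
              rintro ⟨z, hz, hez⟩
              have hez' : (on (con i z) : P → ℕ) = pa w u a := hez
              have N := num_Chs H hz
              have hp : u ∈ con i z := by
                rw [← on_pos, hez']
                unfold pa
                rw [if_pos (Or.inr rfl)]
                omega
              obtain ⟨-, -, a3, a4, a5⟩ := con_penU H hz hp (by omega) F.du c2 F.lw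
              have hz1 : 1 ≤ pa w u a z := by
                rw [← hez', on_one (self_con N.ns)]
              rcases pa_pos hz1 with h | h | h
              · exact a4 h
              · exact a3 h
              · rw [h] at a5
                rcases ha with h' | h' | h' | h' <;> (rw [h'] at a5; omega)
      have hd : Disjoint Lo Up := by
        rw [disjoint_left]
        intro e he he'
        obtain ⟨a, ha, h1⟩ := mLo.1 he
        obtain ⟨a', ha', h2⟩ := mUp.1 he'
        have h3 : 1 ≤ e p := by
          rw [h1]
          unfold pa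
          rw [if_pos (Or.inr rfl)]
          omega
        rw [h2] at h3
        rcases pa_pos h3 with h | h | h
        · exact n4 h.symm
        · exact n6 h
        · rcases ha' with h' | h' | h' | h' <;> (rw [h, h'] at hlv; omega)
      rw [hS, sum_union hd, hLo, hUp, sum_image (fun _ _ _ _ h => pa_inj h),
        sum_image (fun _ _ _ _ h => pa_inj h)]
      exact four_sum H F _ _ (fun a ha => (pa_low E F ha).2.2) (fun a ha => (pa_upp E F ha).2.2)
    · apply sum_eq_zero
      intro e he
      exfalso
      obtain ⟨h3, h4⟩ := mem_filter.1 he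
      obtain ⟨h3, h6⟩ := mem_filter.1 h3
      rcases hcl e h3 h4 with h | h
      · obtain ⟨a, ha, rfl⟩ := mLo.1 h
        exact hb ((hb1 a ha).1 h6)
      · obtain ⟨a, ha, rfl⟩ := mUp.1 h
        exact hb ((hb2 a ha).1 h6)

/-- the leftover sum of the energy three -/
theorem sum30 : ∑ e ∈ Lft i psi C Q 3 0, sg i e = ∑ z ∈ Chs i C, chg i C z := by
  classical
  have := sum30R E K (fun _ => True) (fun _ => True) (fun _ _ => Iff.rfl)
    (fun _ _ _ _ _ _ _ _ _ _ _ => ⟨True, fun _ _ => Iff.rfl, fun _ _ => Iff.rfl⟩)
  simpa using this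

omit K in
/-- compatibility of the variants -/
lemma cpt_pa (F : FlS i y p w u v v') (T : IsTw i C t) (ha : a = y ∨ a = p ∨ a = v ∨ a = v') :
    Cpt t (pa y p a) ↔ Disjoint ({v, v'} : Finset P) (XT t) := by
  classical
  have H := E.H
  have hlv := F.lv H
  obtain ⟨n1, n2, n3, n4, n5, n6⟩ := F.nes H
  have ly := F.ly
  have lw := F.lw
  obtain ⟨w1, w2, p1, x1, q1, T'⟩ := T.tw
  have hl := T'.lv H
  have hW : WT t = {t.1, t.2, w1, w2} := T'.W
  have hX : XT t = {p1, x1, q1} := T'.X
  have lX : ∀ s ∈ XT t, lev s = i := by
    intro s hs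
    rw [hX, mem_insert, mem_insert, mem_singleton] at hs
    rcases hs with rfl | rfl | rfl <;> omega
  have sW : ∀ s ∈ WT t, (lev s = i + 1 ∧ uc s ⊆ XT t) ∨ (lev s = i + 2 ∧ (uc s).card = 2) := by
    intro s hs
    rw [hW, mem_insert, mem_insert, mem_insert, mem_singleton] at hs
    have lz := T'.lz
    rcases hs with rfl | rfl | rfl | rfl
    · right
      exact ⟨lz, by rw [T'.uz, card_pair T'.ww]⟩
    · right
      exact ⟨by omega, by rw [T'.uz', card_pair T'.ww]⟩
    · left
      refine ⟨by omega, ?_⟩
      rw [T'.uw, hX]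
      intro b hb
      rw [mem_insert, mem_singleton] at hb
      rcases hb with rfl | rfl <;> simp
    · left
      refine ⟨by omega, ?_⟩
      rw [T'.uw2, hX]
      intro b hb
      rw [mem_insert, mem_singleton] at hb
      rcases hb with rfl | rfl <;> simp
  have vv : ∀ s ∈ uc y, s = v ∨ s = v' := by
    intro s hs
    rw [F.uy, mem_insert, mem_singleton] at hs
    exact hs
  constructor
  · intro h
    rw [disjoint_left]
    intro s hs hs'
    have h1 : y ∈ dc s := by
      rw [mem_dc, ← mem_uc, F.uy]
      exact hs
    have h2 := (h.X s hs').2.1 y h1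
    unfold pa at h2
    rw [if_pos (Or.inl rfl)] at h2
    omega
  · intro h
    have yW : y ∉ WT t := by
      intro hy
      rcases sW y hy with ⟨-, h1⟩ | ⟨h1, -⟩
      · exact disjoint_left.1 h (show v ∈ ({v, v'} : Finset P) by simp) (h1 (by rw [F.uy]; simp))
      · omega
    have pW : p ∉ WT t := by
      intro hp
      rcases sW p hp with ⟨h1, -⟩ | ⟨-, h1⟩
      · omega
      · rw [F.up, card_singleton] at h1
        omega
    have aX : ∀ s, s = y ∨ s = p ∨ s = a → s ∉ XT t := by
      intro s hs hs'
      have := lX s hs'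
      rcases hs with h1 | h1 | h1
      · rw [h1] at this
        omega
      · rw [h1] at this
        omega
      · rcases ha with h2 | h2 | h2 | h2
        · rw [h1, h2] at this
          omega
        · rw [h1, h2] at this
          omega
        · exact disjoint_left.1 h (show v ∈ ({v, v'} : Finset P) by simp) (by rw [← h2, ← h1]; exact hs')
        · exact disjoint_left.1 h (show v' ∈ ({v, v'} : Finset P) by simp) (by rw [← h2, ← h1]; exact hs')
    have la : a = y ∨ a = p ∨ lev a = i := by
      rcases ha with h2 | h2 | h2 | h2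
      · exact Or.inl h2
      · exact Or.inr (Or.inl h2)
      · right; right
        rw [h2]
        exact hlv.1
      · right; right
        rw [h2]
        exact hlv.2.1
    -- only y, p, or sites
    have hp3 : ∀ s, 1 ≤ pa y p a s → s = y ∨ s = p ∨ (s = a ∧ lev s = i) := by
      intro s hs
      rcases pa_pos hs with h1 | h1 | h1
      · exact Or.inl h1
      · exact Or.inr (Or.inl h1)
      · rcases la with h2 | h2 | h2
        · exact Or.inl (h1.trans h2)
        · exact Or.inr (Or.inl (h1.trans h2))
        · exact Or.inr (Or.inr ⟨h1, by rw [h1]; exact h2⟩)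
    have z0 : ∀ s, ¬ 1 ≤ pa y p a s → pa y p a s = 0 := fun s h => by omega
    refine ⟨fun s hs => ⟨z0 s fun h1 => ?_, fun c hc => z0 c fun h1 => ?_⟩,
      fun s hs => ⟨z0 s fun h1 => aX s (pa_pos h1) hs, fun c hc => z0 c fun h1 => ?_,
        fun c hc => z0 c fun h1 => ?_⟩⟩
    · rcases hp3 s h1 with h2 | h2 | ⟨-, h2⟩
      · exact yW (by rw [← h2]; exact hs)
      · exact pW (by rw [← h2]; exact hs)
      · rcases sW s hs with h3 | h3 <;> omega
    · have lc := lev_dc H hc
      rcases hp3 c h1 with h2 | h2 | ⟨-, h2⟩
      · rcases sW s hs with h3 | h3 <;> (rw [h2] at lc; omega)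
      · have h3 : s = y := by
          have h4 : s ∈ uc p := by
            rw [mem_uc, ← mem_dc, ← h2]
            exact hc
          rw [F.up, mem_singleton] at h4
          exact h4
        exact yW (by rw [← h3]; exact hs)
      · rcases sW s hs with h3 | h3 <;> omega
    · have lc := lev_dc H hc
      have ls := lX s hs
      rcases hp3 c h1 with h2 | h2 | ⟨-, h2⟩
      · have h3 : s ∈ uc y := by
          rw [mem_uc, ← mem_dc, ← h2]
          exact hc
        rcases vv s h3 with h4 | h4
        · exact disjoint_left.1 h (show v ∈ ({v, v'} : Finset P) by simp) (by rw [← h4]; exact hs)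
        · exact disjoint_left.1 h (show v' ∈ ({v, v'} : Finset P) by simp) (by rw [← h4]; exact hs)
      · rw [h2] at lc
        omega
      · omega
    · have lc := lev_uc H hc
      have ls := lX s hs
      rcases hp3 c h1 with h2 | h2 | ⟨-, h2⟩
      · rw [h2] at lc
        omega
      · rw [h2] at lc
        omega
      · omega

omit K in
/-- compatibility of the upper variants -/
lemma cpt_paU (F : FlS i y p w u v v') (T : IsTw i C t) (ha : a = w ∨ a = u ∨ a = v ∨ a = v') :
    Cpt t (pa w u a) ↔ Disjoint ({v, v'} : Finset P) (XT t) := by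
  classical
  have H := E.H
  have hlv := F.lv H
  obtain ⟨n1, n2, n3, n4, n5, n6⟩ := F.nes H
  have ly := F.ly
  have lw := F.lw
  obtain ⟨w1, w2, p1, x1, q1, T'⟩ := T.tw
  have hl := T'.lv H
  have hW : WT t = {t.1, t.2, w1, w2} := T'.W
  have hX : XT t = {p1, x1, q1} := T'.X
  have lX : ∀ s ∈ XT t, lev s = i := by
    intro s hs
    rw [hX, mem_insert, mem_insert, mem_singleton] at hs
    rcases hs with rfl | rfl | rfl <;> omega
  have lW : ∀ s ∈ WT t, lev s = i + 1 ∨ lev s = i + 2 := by
    intro s hs
    rw [hW, mem_insert, mem_insert, mem_insert, mem_singleton] at hs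
    have lz := T'.lz
    rcases hs with rfl | rfl | rfl | rfl <;> omega
  constructor
  · intro h
    rw [disjoint_left]
    intro s hs hs'
    have h1 : w ∈ uc s := by
      rw [mem_uc, ← mem_dc, F.dw]
      exact hs
    have h2 := (h.X s hs').2.2 w h1
    unfold pa at h2
    rw [if_pos (Or.inl rfl)] at h2
    omega
  · intro h
    have aX : ∀ s, s = w ∨ s = u ∨ s = a → s ∉ XT t := by
      intro s hs hs'
      have := lX s hs'
      rcases hs with h1 | h1 | h1
      · rw [h1] at this
        omega
      · rw [h1] at this
        omega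
      · rcases ha with h2 | h2 | h2 | h2
        · rw [h1, h2] at this
          omega
        · rw [h1, h2] at this
          omega
        · exact disjoint_left.1 h (show v ∈ ({v, v'} : Finset P) by simp) (by rw [← h2, ← h1]; exact hs')
        · exact disjoint_left.1 h (show v' ∈ ({v, v'} : Finset P) by simp) (by rw [← h2, ← h1]; exact hs')
    have hp3 : ∀ s, 1 ≤ pa w u a s → s = w ∨ s = u ∨ (lev s = i) := by
      intro s hs
      rcases pa_pos hs with h1 | h1 | h1
      · exact Or.inl h1
      · exact Or.inr (Or.inl h1)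
      · rcases ha with h2 | h2 | h2 | h2
        · exact Or.inl (h1.trans h2)
        · exact Or.inr (Or.inl (h1.trans h2))
        · right; right
          rw [h1, h2]
          exact hlv.1
        · right; right
          rw [h1, h2]
          exact hlv.2.1
    have z0 : ∀ s, ¬ 1 ≤ pa w u a s → pa w u a s = 0 := fun s h => by omega
    refine ⟨fun s hs => ⟨z0 s fun h1 => ?_, fun c hc => z0 c fun h1 => ?_⟩,
      fun s hs => ⟨z0 s fun h1 => aX s (pa_pos h1) hs, fun c hc => z0 c fun h1 => ?_,
        fun c hc => z0 c fun h1 => ?_⟩⟩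
    · have := lW s hs
      rcases hp3 s h1 with h2 | h2 | h2
      · rw [h2] at this
        omega
      · rw [h2] at this
        omega
      · omega
    · have := lW s hs
      have lc := lev_dc H hc
      rcases hp3 c h1 with h2 | h2 | h2
      · rw [h2] at lc
        omega
      · rw [h2] at lc
        omega
      · omega
    · have lc := lev_dc H hc
      have ls := lX s hs
      rcases hp3 c h1 with h2 | h2 | h2
      · rw [h2] at lc
        omega
      · rw [h2] at lc
        omega
      · omega
    · have lc := lev_uc H hc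
      have ls := lX s hs
      rcases hp3 c h1 with h2 | h2 | h2
      · have h3 : s ∈ dc w := by
          rw [mem_dc, ← mem_uc, ← h2]
          exact hc
        rw [F.dw] at h3
        exact disjoint_left.1 h h3 hs
      · rw [h2] at lc
        omega
      · omega

open Classical in
/-- the leftover cores of the energy three which are compatible with the twins -/
theorem sum30c (T : IsTw i C t) :
    ∑ B ∈ (Lft i psi C Q 3 0).filter (fun B => Cpt t B), sg i B =
      ∑ z ∈ (Chs i C).filter (fun z => Disjoint (sit i z) (XT t)), chg i C z := by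
  classical
  have H := E.H
  refine sum30R E K _ _ (fun z hz => cpt_con H E.hr T (num_Chs H hz).ns) ?_
  intro y p w u v v' F my mp mw mu
  exact ⟨_, fun a ha => cpt_pa E F T ha, fun a ha => cpt_paU E F T ha⟩

end main

end Pool.Agent.GaussPoset.Win.Rd
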