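import Pool.Agent.W_448rd_h10.RdX
import Pool.Agent.W_448xc_h84.XhB
import Pool.Agent.W_448t8_h97.TA

/-!
MP_448cb3_co, G2, window `j - 1`: the leading coefficients (3,1), (5,2), (8,3), (10,4) of a part
with at least four sites.  helper10.
-/

namespace Pool.Agent.GaussPoset.Win.Rd

set_option linter.unusedSectionVars false

open Finset I2 K2
open Pool.Agent.GaussPoset.Win.H2 (SdT NoT low_T up_T sum_all)
open Pool.Agent.GaussPoset.Win.Xg (FlS FP Okc Adm kp Lft mem_Lft)

universe u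

variable {P : Type u} [Fintype P] [PartialOrder P] [DecidableEq P] {r i : ℕ} {e B : P → ℕ}
variable {psi : P → P} {C : Finset P} {Q : (P → ℕ) → Prop} {φ : (P → ℕ) → (P → ℕ)}
variable {y p w u v v' : P}

lemma Cls.ev (K : Cls r i psi C Q φ) : Ev r i psi C := ⟨K.G, K.hT, K.hQ, K.hM, K.hi, K.hC⟩

lemma NoP.kls (h : NoP i C) : Kls i psi C (fun _ => False) := Or.inl ⟨fun z hz => h z hz, rfl⟩

lemma OneP.kls (O : OneP i psi C y p w u v v') : Kls i psi C (FP y p w u v v') :=
  Or.inr ⟨y, p, w, u, v, v', O.F, O.hy, ⟨O.my, O.mp, O.mw, O.mu⟩, O.low, O.upp, rfl⟩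

/-- leading coefficient from a divisibility -/
lemma coeff_lead {b k : ℕ} (hk : k + 1 ≤ b) {F G : A} {c : ℤ} (h1 : dd ^ (b - k) ∣ F - G)
    (h2 : dd ^ (b - k) ∣ G - (c : A) * dd ^ (b - (k + 1))) :
    PowerSeries.coeff b (dd ^ (k + 1) * F : A) = c := by
  have h3 : dd ^ (b - k) ∣ F - (c : A) * dd ^ (b - (k + 1)) := by
    have := dvd_add h1 h2
    have h4 : F - G + (G - (c : A) * dd ^ (b - (k + 1))) = F - (c : A) * dd ^ (b - (k + 1)) := by
      ring
    rwa [h4] at this
  obtain ⟨X, hX⟩ := h3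
  have h5 : dd ^ (k + 1) * F = dd ^ b * ((c : A) + dd * X) := by
    have h6 : F = (c : A) * dd ^ (b - (k + 1)) + dd ^ (b - k) * X := by
      rw [← hX]
      ring
    have e1 : dd ^ b = dd ^ (k + 1) * dd ^ (b - (k + 1)) := by
      rw [← pow_add]
      congr 1
      omega
    have e2 : dd ^ (b - k) = dd ^ (b - (k + 1)) * dd := by
      rw [← pow_succ]
      congr 1
      omega
    rw [h6, e2, e1]
    ring
  rw [h5]
  unfold dd
  have h7 := PowerSeries.coeff_X_pow_mul ((c : A) + PowerSeries.X * X) b 0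
  rw [zero_add] at h7
  rw [h7, PowerSeries.coeff_zero_eq_constantCoeff, map_add, map_mul, PowerSeries.constantCoeff_X,
    zero_mul, add_zero]
  simp

section main

variable (K : Cls r i psi C Q φ) (L : Kls i psi C Q)
include K L

/-- the leading coefficient is the leftover sum -/
lemma cg_lft (h4 : 4 ≤ (st i C).card) {n k : ℕ} (hk : T8.kk n = k + 1) (hk3 : k ≤ 3)
    (h : dd ^ ((st i C).card - k) ∣ ZC i C n - ∑ e ∈ Lft i psi C Q n k, tC i C e) :
    T8.cg n (st i C).card (ZS i C) = ∑ e ∈ Lft i psi C Q n k, sg i e := by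
  have E := K.ev
  unfold T8.cg
  rw [coeff_ZS, hk]
  exact coeff_lead (by omega) h (sum_lead E.H E.part n k)

/-- the energy three -/
theorem Cls.three : dd ^ ((st i C).card - 0) ∣ ZC i C 3 - ∑ e ∈ Lft i psi C Q 3 0, tC i C e := by
  refine K.sum_lft ?_
  intro e ho hs
  have h1 := Pn.Fr.half K.ev.fr ho
  have h2 : ∑ x, (e x : ℤ) ≤ 3 := by exact_mod_cast hs
  rcases Nat.eq_zero_or_pos (Xg.CC i e).card with h3 | h3
  · have h3' : Xg.CC i e = ∅ := card_eq_zero.1 h3
    obtain ⟨p, t, tx, nf, b1, b2, b3, b4, b5, b6, b7⟩ := K.num ho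
    rw [h3'] at b7
    rw [card_empty] at b7
    have ht : t = 0 := by omega
    have htx : tx = 0 := by omega
    have hnf : nf = 0 := by
      rcases b6 with h | h
      · exact h
      · omega
    rw [ht, htx, hnf] at b7
    push_cast at b7
    by_cases h4 : kp i e ≤ 0
    · left
      rw [h3']
      simpa using h4
    · have h5 : kp i e = 1 := by omega
      rcases b2 with hp | hp
      · right; right
        rw [hp] at b7
        push_cast at b7
        refine ⟨?_, by rw [h5]; norm_num, h3'⟩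
        have h6 : ∑ x, (e x : ℤ) = ((∑ x, e x : ℕ) : ℤ) := by push_cast; rfl
        omega
      · right; left
        exact ⟨by rw [h5]; norm_num, hp⟩
  · left
    push_cast
    omega

open Classical in
/-- THE COEFFICIENT (3,1): the sum of the charges -/
theorem Cls.cg3 (h4 : 4 ≤ (st i C).card) :
    T8.cg 3 (st i C).card (ZS i C) = ∑ z ∈ Chs i C, chg i C z := by
  rw [cg_lft K L h4 (k := 0) (by simp [T8.kk]) (by omega) (K.three L)]
  exact sum30 K.ev L

/-- THE COEFFICIENT (5,2): the number of the pairs of twins -/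
theorem Cls.cg5 (h4 : 4 ≤ (st i C).card) :
    T8.cg 5 (st i C).card (ZS i C) = - ((TWC i C).card : ℤ) := by
  rw [cg_lft K L h4 (k := 1) (by simp [T8.kk]) (by omega) K.five]
  exact sum51 K.ev L

open Classical in
/-- THE COEFFICIENT (8,3) -/
theorem Cls.cg8 (h4 : 4 ≤ (st i C).card) :
    T8.cg 8 (st i C).card (ZS i C) = - (∑ t ∈ TWC i C,
      ∑ z ∈ (Chs i C).filter (fun z => Disjoint (sit i z) (XT t)), chg i C z) -
      ((ETs i C).card : ℤ) := by
  rw [cg_lft K L h4 (k := 2) (by simp [T8.kk]) (by omega) K.eight, sum82 K.ev L]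
  congr 2
  refine sum_congr rfl fun t ht => ?_
  exact sum30c K.ev L (mem_TWC.1 ht)

/-- THE COEFFICIENT (10,4) -/
theorem Cls.cg10 (h4 : 4 ≤ (st i C).card) :
    T8.cg 10 (st i C).card (ZS i C) = ((PrT i C).card : ℤ) + ((NfC i C).card : ℤ) := by
  rw [cg_lft K L h4 (k := 3) (by simp [T8.kk]) (by omega) K.ten]
  exact sum103 K.ev L

open Classical in
/-- THE LOGARITHMIC COEFFICIENT (8,3): the charges which meet the twins -/
theorem Cls.Q8 (h4 : 4 ≤ (st i C).card) :
    T8.Q8 (st i C).card (ZS i C) = ((ETs i C).card : ℤ) - ∑ t ∈ TWC i C,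
      ∑ z ∈ (Chs i C).filter (fun z => ¬ Disjoint (sit i z) (XT t)), chg i C z := by
  unfold T8.Q8
  rw [K.cg3 L h4, K.cg5 L h4, K.cg8 L h4]
  have h1 : ∀ t ∈ TWC i C, ∑ z ∈ (Chs i C).filter (fun z => Disjoint (sit i z) (XT t)),
      chg i C z = ∑ z ∈ Chs i C, chg i C z -
        ∑ z ∈ (Chs i C).filter (fun z => ¬ Disjoint (sit i z) (XT t)), chg i C z := by
    intro t _
    have := sum_filter_add_sum_filter_not (Chs i C) (fun z => Disjoint (sit i z) (XT t))
      (fun z => chg i C z)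
    linarith
  rw [sum_congr rfl h1, sum_sub_distrib, sum_const, nsmul_eq_mul]
  ring

/-- THE LOGARITHMIC COEFFICIENT (10,4) -/
theorem Cls.Q10 (h4 : 4 ≤ (st i C).card) :
    T8.Q10 (st i C).card (ZS i C) = ((TWC i C).card : ℤ) ^ 2 - 2 * ((PrT i C).card : ℤ) -
      2 * ((NfC i C).card : ℤ) := by
  unfold T8.Q10
  rw [K.cg5 L h4, K.cg10 L h4]
  ring

/-- the profile -/
theorem Cls.P10 : T8.P10 (st i C).card (ZS i C) := by
  intro n hn
  rw [coeff_ZS]
  have h1 := K.prof10 hn
  have h2 : K10 n = T8.kk n := rfl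
  rw [h2] at h1
  have h3 : (dd : A) ^ (st i C).card ∣ dd ^ (T8.kk n) * dd ^ ((st i C).card - T8.kk n) := by
    rw [← pow_add]
    exact pow_dvd_pow _ (by omega)
  exact h3.trans (mul_dvd_mul_left _ h1)

end main

end Pool.Agent.GaussPoset.Win.Rd
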